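import Pool.Agent.RNC.BDef
import Pool.Agent.CPI.BOmB

/-! # Names of spaces: compact (package R35)

(problem MP_9bfcae_gt, project RNC; compare `CPI/BCpt.lean`, which does the same for other typed
spaces)

`br_cp`. PROOF. `F.top fun p => F.all.2 fun O => F.imp.2 fun q1 _ hO => F.imp.2 fun q2 h2 hcov => F.loc
fun q0 h0 => ?_`: `q2` forces that `O` is a set of codes and covers. Let
`O' c := bv c ⊓ tv (fun G => EG G (NG.mk G (kn c)) (NG.mk G O))`. Apply `h` (`TCpt`) to `O'` and `q0`: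
`O' c ≤ bv c` is clear; if `q ≤ q0`, `q ∈ pv a` then `q` forces `kn a ∈ Y`, so (`hcov`) some `b ∈ O` with
`Val h (kn a) b`; `F.esub` gives `r ≤ q` and `c` with `r` forcing `kn c ∈ O` and `Val`, so `ht a c` and
`r ∈ bv c` (`hO`, `F.sn`). We get `q ≤ q0` and a list `β`. The name `O'' := sn fun c => chi (c ∈ β)` is
(forced by `q`) a subset of `O` (`F.bsn`, `RO.mem_chi`), finite (`fin_list`) and covers (`F.bsn`, `F.esn`,
the last property of `β`).

How to work with these statements: see the docstrings of `CPI/BRLa.lean`, `CPI/BNam.lean`. `F p S` (file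
`CPI/BTv.lean`): `S G` is true in all quotients `NG G` with `RO.up p ∈ G.s`. A statement for an
arbitrary `G` is proved by `F.top fun p => ?_` (all statements about names have a truth value: class
`TV`, found by instance search; state the statement as a function of `G`; for long statements use
`set_option synthInstance.maxSize 100000`). Quantifiers: `F.all`, `F.ex`, `F.bsn` (it is enough to
treat `x = kn a` below conditions `q ∈ φ a`), `F.esn`, `F.bsub`, `F.esub` (names of subsets of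
`sn φ`), `F.dest_sn`, connectives: `F.imp`, `F.and`, `F.no`, `F.loc` (densely), `F.mono`, `F.const`,
`F.not_false`. Atomic statements about `kn a`: `kn_eq`, `kn_sn`, `kn_sn_chi`, `kn_RN`, `val_rn`,
`val_m`, `val_l`, `ap_eN`, `ap_eN_iff`, `chi_mem`; forced forms: `F.sn`, `F.valr`, `F.kn_eq`. To
reorder premises (so that all quantifiers become bounded) prove the reordered statement and
apply it. From `q ∈ φ a` and `RO.up q ∈ G.s` one gets `φ a ∈ G.s` by `G.up hG (RO.up_le.2 h)`. -/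

set_option autoImplicit false

namespace RNC

open STP STP.BSet CPI

variable {P : Type} [PartialOrder P] {A C : Type} {pv : A → RO P} {bv : C → RO P}
  {ht : A → C → Prop}

/-- the forced covering hypothesis -/
private theorem cov_aux {O : BSet (RO P)} {q : P}
    (hs : F q fun G => Sub (EG G) (NG.mk G O) (NG.mk G (sn bv)))
    (hc : F q fun G => CCov (EG G) (NG.mk G (sn pv)) (NG.mk G (mN ht)) (NG.mk G O)) :
    ∀ q1 ≤ q, ∀ a, q1 ∈ pv a →
      ∃ r ≤ q1, ∃ b, r ∈ mem (kn b) O ⊓ bv b ∧ ht a b := by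
  intro q1 hq1 a ha
  have h1 : F q1 fun G => ∃ x, EG G x (NG.mk G O) ∧
      Val (EG G) (NG.mk G (mN ht)) (NG.mk G (kn a)) x := by
    intro G hG
    exact hc G (up_mem hq1 hG) _ (F.sn.2 ha G hG)
  have hs1 : F q1 fun G => Sub (EG G) (NG.mk G O) (NG.mk G (sn bv)) := hs.mono hq1
  obtain ⟨r, hr, b, h2, h3⟩ := F.esub hs1 h1 q1 le_rfl
  refine ⟨r, hr, b, ⟨F.mem.1 h2, ?_⟩, ?_⟩
  · exact F.sn.1 fun G hG => hs G (up_mem (hr.trans hq1) hG) _ (h2 G hG)
  · exact F.const.1 fun G hG => (val_m G).1 (h3 G hG)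

theorem br_cp (h : TCpt pv bv ht) (G : Ult (RO P)) :
    CCpt (EG G) (NG.mk G (sn pv)) (NG.mk G (sn bv)) (NG.mk G (mN ht)) := by
  refine F.top (S := fun G => CCpt (EG G) (NG.mk G (sn pv)) (NG.mk G (sn bv))
    (NG.mk G (mN ht))) (fun p => ?_) G
  refine F.all.2 fun O => F.imp.2 fun q _ hs => F.imp.2 fun q' hq' hc => F.loc fun q0 hq0 => ?_
  have hs' := hs.mono (hq0.trans hq')
  have hc' := hc.mono hq0
  obtain ⟨q1, hq1, β, hβ, hcov⟩ := h (fun b => mem (kn b) O ⊓ bv b) q0
    (fun b => inf_le_right) (cov_aux hs' hc')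
  refine ⟨q1, hq1, F.ex.2 ⟨sn fun b => chi (b ∈ β), F.and.2 ⟨?_, F.and.2 ⟨?_, ?_⟩⟩⟩⟩
  · refine F.bsn.2 fun b r hr hb => ?_
    have hb' : b ∈ β := RO.mem_chi.1 hb
    exact (F.mem.2 (hβ b hb').1).mono hr
  · exact fun G _ => fin_list β G
  · refine F.bsn.2 fun a r hr ha => ?_
    obtain ⟨b, hb, h1⟩ := hcov r hr a ha
    exact fun G hG => ⟨NG.mk G (kn b), (kn_sn_chi G).2 hb, (val_m G).2 h1⟩

end RNC
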