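import Pool.Agent.STP.RO

/-! # Typed spaces (definitions)

(problem MP_9bfcae_gt, project RNC; no sorry in this file)

`P` is a poset. A typed space: a type `A` of points with truth values `pv : A → RO P` (of: `a` is a
point), a type `C` of codes with truth values `bv : C → RO P` (of: `c` is a code of a basic set), and a
ground model relation `ht : A → C → Prop` (the point `a` is in the basic set `c`).

* `TSp`, `THd`, `TCpt`: the basic sets are a base of a topology, Hausdorff, compact.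
* `TMp m`: the ground model function `m` is a continuous surjection.
* `TGM D`: the ground model function `D` is a lower semicontinuous metric which fragments the space.
* `TMt p V`: `V` is a name (below `p`) of a lower semicontinuous metric `d` which fragments all ground
  model sets; `V a b t` is the truth value of `d(a, b) = t`.
* `TIm p hv ev`: a name (below `p`) of a Hausdorff image of weight at most `𝔠`: `hv a s` is the truth value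
  of: the image of `a` is in the basic set with the index `s : ℝ`; `ev a b`: the images of `a` and `b`
  are equal.
* `TQm q hv ev D`: the ground model function `D` defines (below `q`) a lower semicontinuous metric on
  the image which fragments it. -/

namespace RNC

open STP

section

variable {P : Type} [PartialOrder P] {A C A' C' : Type}

/-- the basic sets are a base of a topology -/
structure TSp (pv : A → RO P) (bv : C → RO P) (ht : A → C → Prop) : Prop where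
  cov : ∀ (q : P) (a : A), q ∈ pv a → ∃ r ≤ q, ∃ c, r ∈ bv c ∧ ht a c
  dir : ∀ (q : P) (a : A) (c d : C), q ∈ pv a → q ∈ bv c → q ∈ bv d → ht a c → ht a d →
    ∃ r ≤ q, ∃ e, r ∈ bv e ∧ ht a e ∧ ∀ r' ≤ r, ∀ b, r' ∈ pv b → ht b e → ht b c ∧ ht b d

/-- Hausdorff -/
def THd (pv : A → RO P) (bv : C → RO P) (ht : A → C → Prop) : Prop :=
  ∀ (q : P) (a b : A), q ∈ pv a → q ∈ pv b → a ≠ b →
    ∃ r ≤ q, ∃ c d, r ∈ bv c ∧ r ∈ bv d ∧ ht a c ∧ ht b d ∧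
      ∀ r' ≤ r, ∀ x, r' ∈ pv x → ¬ (ht x c ∧ ht x d)

/-- compact: `O` is a name of a set of codes, forced by `p` to cover -/
def TCpt (pv : A → RO P) (bv : C → RO P) (ht : A → C → Prop) : Prop :=
  ∀ (O : C → RO P) (p : P), (∀ c, O c ≤ bv c) →
    (∀ q ≤ p, ∀ a, q ∈ pv a → ∃ r ≤ q, ∃ c, r ∈ O c ∧ ht a c) →
    ∃ q ≤ p, ∃ β : List C, (∀ c ∈ β, q ∈ O c) ∧ ∀ r ≤ q, ∀ a, r ∈ pv a → ∃ c ∈ β, ht a c

/-- `m` is a continuous surjection -/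
structure TMp (pv : A → RO P) (bv : C → RO P) (ht : A → C → Prop) (pv' : A' → RO P)
    (bv' : C' → RO P) (ht' : A' → C' → Prop) (m : A → A') : Prop where
  pt : ∀ a, pv a ≤ pv' (m a)
  sj : ∀ (q : P) (b : A'), q ∈ pv' b → ∃ r ≤ q, ∃ a, r ∈ pv a ∧ m a = b
  ct : ∀ (q : P) (a : A) (c : C'), q ∈ pv a → q ∈ bv' c → ht' (m a) c →
    ∃ r ≤ q, ∃ d, r ∈ bv d ∧ ht a d ∧ ∀ r' ≤ r, ∀ b, r' ∈ pv b → ht b d → ht' (m b) c

/-- `D` is a lower semicontinuous metric which fragments the space -/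
structure TGM (pv : A → RO P) (bv : C → RO P) (ht : A → C → Prop) (D : A → A → ℝ) : Prop where
  nn : ∀ a b, 0 ≤ D a b
  eq : ∀ a b, D a b = 0 ↔ a = b
  sy : ∀ a b, D a b = D b a
  tr : ∀ a b c, D a c ≤ D a b + D b c
  ls : ∀ (q : P) (a b : A) (x : ℝ), q ∈ pv a → q ∈ pv b → x < D a b →
    ∃ r ≤ q, ∃ c d, r ∈ bv c ∧ r ∈ bv d ∧ ht a c ∧ ht b d ∧
      ∀ r' ≤ r, ∀ a' b', r' ∈ pv a' → r' ∈ pv b' → ht a' c → ht b' d → x < D a' b'
  fr : ∀ (O : A → RO P) (q : P) (ε : ℝ), 0 < ε → (∀ a, O a ≤ pv a) → (∃ a, q ∈ O a) →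
    ∃ r ≤ q, ∃ c, r ∈ bv c ∧ (∃ a, r ∈ O a ∧ ht a c) ∧
      ∀ r' ≤ r, ∀ a b, r' ∈ O a → r' ∈ O b → ht a c → ht b c → D a b < ε

/-- `V a b t` is the truth value of `d(a, b) = t` for a name (below `p`) of a lower semicontinuous
metric `d` which fragments the space -/
structure TMt (pv : A → RO P) (bv : C → RO P) (ht : A → C → Prop) (p : P)
    (V : A → A → ℝ → RO P) : Prop where
  ex : ∀ q ≤ p, ∀ a b, q ∈ pv a → q ∈ pv b → ∃ r ≤ q, ∃ t, r ∈ V a b t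
  un : ∀ q ≤ p, ∀ a b t t', q ∈ pv a → q ∈ pv b → q ∈ V a b t → q ∈ V a b t' → t = t'
  ps : ∀ q ≤ p, ∀ a b t, q ∈ pv a → q ∈ pv b → a ≠ b → q ∈ V a b t → 0 < t
  sy : ∀ q ≤ p, ∀ a b t, q ∈ pv a → q ∈ pv b → q ∈ V a b t → q ∈ V b a t
  tr : ∀ q ≤ p, ∀ a b c s t u, q ∈ pv a → q ∈ pv b → q ∈ pv c →
    q ∈ V a b s → q ∈ V b c t → q ∈ V a c u → u ≤ s + t
  ls : ∀ q ≤ p, ∀ a b t x, q ∈ pv a → q ∈ pv b → q ∈ V a b t → x < t →
    ∃ r ≤ q, ∃ c d, r ∈ bv c ∧ r ∈ bv d ∧ ht a c ∧ ht b d ∧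
      ∀ r' ≤ r, ∀ a' b' s, r' ∈ pv a' → r' ∈ pv b' → ht a' c → ht b' d → r' ∈ V a' b' s → x < s
  fr : ∀ S : Set A, (∀ a ∈ S, ∀ q : P, q ∈ pv a) → S.Nonempty → ∀ ε : ℝ, 0 < ε → ∀ q ≤ p,
    ∃ r ≤ q, ∃ c, r ∈ bv c ∧ (∃ a ∈ S, ht a c) ∧
      ∀ r' ≤ r, ∀ a ∈ S, ∀ b ∈ S, ∀ t, ht a c → ht b c → r' ∈ V a b t → t < ε

/-- a name (below `p`) of a Hausdorff image: `hv a s` is the truth value of: the image of `a` is in the
basic set with the index `s`; `ev a b`: the images of `a` and `b` are equal -/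
structure TIm (pv : A → RO P) (bv : C → RO P) (ht : A → C → Prop) (p : P)
    (hv : A → ℝ → RO P) (ev : A → A → RO P) : Prop where
  ct : ∀ q ≤ p, ∀ a s, q ∈ pv a → q ∈ hv a s →
    ∃ r ≤ q, ∃ c, r ∈ bv c ∧ ht a c ∧ ∀ r' ≤ r, ∀ b, r' ∈ pv b → ht b c → r' ∈ hv b s
  hd : ∀ q ≤ p, ∀ a b, q ∈ pv a → q ∈ pv b → (∀ r ≤ q, r ∉ ev a b) →
    ∃ r ≤ q, ∃ s t, r ∈ hv a s ∧ r ∈ hv b t ∧
      ∀ r' ≤ r, ∀ x, r' ∈ pv x → ¬ (r' ∈ hv x s ∧ r' ∈ hv x t)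
  dr : ∀ q ≤ p, ∀ a s t, q ∈ pv a → q ∈ hv a s → q ∈ hv a t →
    ∃ r ≤ q, ∃ u, r ∈ hv a u ∧
      ∀ r' ≤ r, ∀ x, r' ∈ pv x → r' ∈ hv x u → r' ∈ hv x s ∧ r' ∈ hv x t
  cv : ∀ q ≤ p, ∀ a, q ∈ pv a → ∃ r ≤ q, ∃ s, r ∈ hv a s
  rf : ∀ q ≤ p, ∀ a, q ∈ pv a → q ∈ ev a a
  sy : ∀ q ≤ p, ∀ a b, q ∈ pv a → q ∈ pv b → q ∈ ev a b → q ∈ ev b a
  tr : ∀ q ≤ p, ∀ a b c, q ∈ pv a → q ∈ pv b → q ∈ pv c → q ∈ ev a b → q ∈ ev b c → q ∈ ev a c
  cg : ∀ q ≤ p, ∀ a b s, q ∈ pv a → q ∈ pv b → q ∈ ev a b → q ∈ hv a s → q ∈ hv b s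

/-- the ground model function `D` defines (below `q`) a lower semicontinuous metric on the image,
which fragments it -/
structure TQm (pv : A → RO P) (q : P) (hv : A → ℝ → RO P) (ev : A → A → RO P)
    (D : A → A → ℝ) : Prop where
  nn : ∀ a b, 0 ≤ D a b
  sy : ∀ a b, D a b = D b a
  tr : ∀ a b c, D a c ≤ D a b + D b c
  eq : ∀ r ≤ q, ∀ a b, r ∈ pv a → r ∈ pv b → (D a b = 0 ↔ r ∈ ev a b)
  ls : ∀ r ≤ q, ∀ a b x, r ∈ pv a → r ∈ pv b → x < D a b →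
    ∃ r1 ≤ r, ∃ s t, r1 ∈ hv a s ∧ r1 ∈ hv b t ∧
      ∀ r' ≤ r1, ∀ a' b', r' ∈ pv a' → r' ∈ pv b' → r' ∈ hv a' s → r' ∈ hv b' t → x < D a' b'
  fr : ∀ (O : A → RO P), ∀ r ≤ q, ∀ ε : ℝ, 0 < ε → (∀ a, O a ≤ pv a) → (∃ a, r ∈ O a) →
    ∃ r1 ≤ r, ∃ s, (∃ a, r1 ∈ O a ∧ r1 ∈ hv a s) ∧
      ∀ r' ≤ r1, ∀ a b, r' ∈ O a → r' ∈ O b → r' ∈ hv a s → r' ∈ hv b s → D a b < ε

end

end RNC
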