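import Pool.Agent.RNC.Lang
import Pool.Agent.RNC.Typ
import Pool.Agent.CPI.BNam
import Pool.Agent.CPI.BOmC
import Pool.Agent.CPI.BRLb

/-! # Names of typed spaces, truth values (definitions and instances)

(problem MP_9bfcae_gt, project RNC; no sorry in this file)

* `mN ht`: the name of the relation `ht` between points and codes. The coded space of a typed space
  `pv`, `bv`, `ht` is `(sn pv, sn bv, mN ht)`. `aN`: the addition of real numbers, `zN`: zero.
* instances: the notions of `RNC/Lang.lean` about names have truth values.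
* `ImD`: `(Y, D, m)` is a Hausdorff image of `(X, B, h)` under `g`, and `f` shows `|D| ≤ |R|`.
* `hvN`, `evN`: the truth values of: `y a` is in the basic set `b s`; `y a = y a'`. -/

namespace RNC

open STP STP.BSet CPI

section

variable {N : Type*} (E : N → N → Prop)

/-- `g` is a continuous map from the space `(X, B, h)` onto the space `(Y, D, m)` -/
def IsSCM (X B h Y D m g : N) : Prop :=
  IsCM E X B h Y D m g ∧ ∀ y, E y Y → ∃ x, Val E g x y

/-- the function `f` shows that `|D| ≤ |R|` -/
def IsSmF (R D f : N) : Prop := IsFun E f R ∧ ∀ b, E b D → ∃ r, Val E f r b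

/-- `(Y, D, m)` is a Hausdorff image of `(X, B, h)` under `g`, and `f` shows `|D| ≤ |R|` -/
def ImD (R X B h Y D m g f : N) : Prop :=
  CSp E Y D m ∧ CHd E Y D m ∧ IsSCM E X B h Y D m g ∧ IsSmF E R D f

end

section

variable {P : Type} [PartialOrder P] {A C : Type}

/-- the name of the relation `ht` -/
noncomputable def mN (ht : A → C → Prop) : BSet (RO P) := rn fun a c => chi (ht a c)

/-- the name of the addition of real numbers -/
noncomputable def aN : BSet (RO P) := eN fun x y : ℝ => x + y

/-- the name of zero -/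
noncomputable def zN : BSet (RO P) := kn (0 : ℝ)

theorem val_m (G : Ult (RO P)) {ht : A → C → Prop} {a : A} {c : C} :
    Val (EG G) (NG.mk G (mN ht)) (NG.mk G (kn a)) (NG.mk G (kn c)) ↔ ht a c :=
  (val_rn G).trans chi_mem

section

set_option synthInstance.maxSize 100000

variable (R l a o Y B h d X D m g f : BSet (RO P))

instance : TV fun G => IsMet (EG G) (NG.mk G R) (NG.mk G l) (NG.mk G a) (NG.mk G o) (NG.mk G Y)
    (NG.mk G d) := by
  unfold IsMet
  infer_instance

instance : TV fun G => IsLsc (EG G) (NG.mk G R) (NG.mk G l) (NG.mk G Y) (NG.mk G B) (NG.mk G h)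
    (NG.mk G d) := by
  unfold IsLsc
  infer_instance

instance : TV fun G => IsFrg (EG G) (NG.mk G R) (NG.mk G l) (NG.mk G o) (NG.mk G Y) (NG.mk G B)
    (NG.mk G h) (NG.mk G d) := by
  unfold IsFrg
  infer_instance

instance : TV fun G => IsRN (EG G) (NG.mk G R) (NG.mk G l) (NG.mk G a) (NG.mk G o) (NG.mk G Y)
    (NG.mk G B) (NG.mk G h) := by
  unfold IsRN
  infer_instance

instance : TV fun G => IsCM (EG G) (NG.mk G X) (NG.mk G B) (NG.mk G h) (NG.mk G Y) (NG.mk G D)
    (NG.mk G m) (NG.mk G g) := by
  unfold IsCM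
  infer_instance

instance : TV fun G => IsSCM (EG G) (NG.mk G X) (NG.mk G B) (NG.mk G h) (NG.mk G Y) (NG.mk G D)
    (NG.mk G m) (NG.mk G g) := by
  unfold IsSCM
  infer_instance

instance : TV fun G => IsSmF (EG G) (NG.mk G R) (NG.mk G D) (NG.mk G f) := by
  unfold IsSmF
  infer_instance

instance : TV fun G => ImD (EG G) (NG.mk G R) (NG.mk G X) (NG.mk G B) (NG.mk G h) (NG.mk G Y)
    (NG.mk G D) (NG.mk G m) (NG.mk G g) (NG.mk G f) := by
  unfold ImD
  infer_instance

end

/-- the truth value of: `b s` is in `D`, the value of `f` at `s`, and contains `y a` -/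
noncomputable def hvN (D f m : BSet (RO P)) (y : A → BSet (RO P)) (b : ℝ → BSet (RO P)) (a : A)
    (s : ℝ) : RO P :=
  tv fun G => EG G (NG.mk G (b s)) (NG.mk G D) ∧
    Val (EG G) (NG.mk G f) (NG.mk G (kn s)) (NG.mk G (b s)) ∧
    Val (EG G) (NG.mk G m) (NG.mk G (y a)) (NG.mk G (b s))

/-- the truth value of: `y a = y b` -/
noncomputable def evN (y : A → BSet (RO P)) (a b : A) : RO P := BSet.eq (y a) (y b)

end

end RNC
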