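import Pool.Agent.RNC.BDef

/-! # A ground model metric gives a metric in the model (package R37)

(problem MP_9bfcae_gt, project RNC)

`br_met`: `IsMet` for `eN D`. Reduce all clauses by `F.top`, `F.bsn` and `ap_eN_iff` (the value `t` with
`Ap (eN D) (kn x) (kn y) t` is `kn (D x y)`), `val_l`, `kn_eq`, `kn_RN` to `h.nn`, `h.eq`, `h.sy`, `h.tr`
(`Ap aN (kn s) (kn t) w` gives `w = kn (s + t)`).
`br_lsc`: `F.bsn` for `x`, `y` and `r ∈ RN` (the real `c`), `q ∈ pv a`, `q ∈ pv b`, `c < D a b`;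
`F.esn` twice (or `F.loc` and a direct witness) with `h.ls`.
`br_frg`: for a name `C'` of a nonempty subset and `ε > 0` (`F.all`, `F.imp`, `F.bsn` for `e`) use `F.loc`:
`O a := pv a ⊓ tv (fun G => EG G (NG.mk G (kn a)) (NG.mk G C'))`; by `F.esub` (with `S := fun _ _ => True`) some
`q' ≤ q` is in some `O a`; `h.fr` gives `r ≤ q'`, `c`; `r` forces the conclusion with `kn c`: the
existential part with `kn a`; the universal part by `F.bsub` twice.
`br_rn`: combine (witness `eN D`).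

How to work with these statements: see the docstrings of `CPI/BRLa.lean`, `CPI/BNam.lean`. `F p S` (file
`CPI/BTv.lean`): `S G` is true in all quotients `NG G` with `RO.up p ∈ G.s`. A statement for an
arbitrary `G` is proved by `F.top fun p => ?_` (all statements about names have a truth value: class
`TV`, found by instance search; state the statement as a function of `G`; for long statements use
`set_option synthInstance.maxSize 100000`). Quantifiers: `F.all`, `F.ex`, `F.bsn` (it is enough to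
treat `x = kn a` below conditions `q ∈ φ a`), `F.esn`, `F.bsub`, `F.esub` (names of subsets of
`sn φ`), `F.dest_sn`, connectives: `F.imp`, `F.and`, `F.no`, `F.loc` (densely), `F.mono`, `F.const`,
`F.not_false`. Atomic statements about `kn a`: `kn_eq`, `kn_sn`, `kn_sn_chi`, `kn_RN`, `val_rn`,
`val_m`, `val_l`, `ap_eN`, `ap_eN_iff`, `chi_mem`; forced forms: `F.sn`, `F.valr`, `F.kn_eq`. To
reorder premises (so that all quantifiers become bounded) prove the reordered statement and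
apply it. From `q ∈ φ a` and `RO.up q ∈ G.s` one gets `φ a ∈ G.s` by `G.up hG (RO.up_le.2 h)`. -/

set_option autoImplicit false

namespace RNC

open STP STP.BSet CPI

variable {P : Type} [PartialOrder P] {A C : Type} {pv : A → RO P} {bv : C → RO P}
  {ht : A → C → Prop} {D : A → A → ℝ}

set_option synthInstance.maxSize 100000

private theorem ball2 (φ : A → RO P) (S : (G : Ult (RO P)) → NG G → NG G → Prop)
    [∀ X Y, TV fun G => S G (NG.mk G X) (NG.mk G Y)]
    (h : ∀ (a b : A) G, S G (NG.mk G (kn a)) (NG.mk G (kn b))) :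
    ∀ (G : Ult (RO P)) (x : NG G), EG G x (NG.mk G (sn φ)) →
      ∀ y, EG G y (NG.mk G (sn φ)) → S G x y := by
  refine F.top fun p => F.bsn.2 fun a q hq ha => F.bsn.2 fun b q' hq' hb => ?_
  exact fun G _ => h a b G

private theorem ball3 (φ : A → RO P) (S : (G : Ult (RO P)) → NG G → NG G → NG G → Prop)
    [∀ X Y Z, TV fun G => S G (NG.mk G X) (NG.mk G Y) (NG.mk G Z)]
    (h : ∀ (a b c : A) G, S G (NG.mk G (kn a)) (NG.mk G (kn b)) (NG.mk G (kn c))) :
    ∀ (G : Ult (RO P)) (x : NG G), EG G x (NG.mk G (sn φ)) →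
      ∀ y, EG G y (NG.mk G (sn φ)) → ∀ z, EG G z (NG.mk G (sn φ)) → S G x y z := by
  refine F.top fun p => F.bsn.2 fun a q hq ha => F.bsn.2 fun b q' hq' hb =>
    F.bsn.2 fun c q2 hq2 hc => ?_
  exact fun G _ => h a b c G

theorem br_met (h : TGM pv bv ht D) (G : Ult (RO P)) :
    IsMet (EG G) (NG.mk G RN) (NG.mk G lN) (NG.mk G aN) (NG.mk G zN) (NG.mk G (sn pv))
      (NG.mk G (eN D)) := by
  have h1 := ball2 pv (fun G x y => ∃ t, EG G t (NG.mk G RN) ∧ Ap (EG G) (NG.mk G (eN D)) x y t)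
    (fun a b G => ⟨NG.mk G (kn (D a b)), kn_RN G _, (ap_eN G).2 rfl⟩) G
  have h2 := ball2 pv (fun G x y => ∀ t t', Ap (EG G) (NG.mk G (eN D)) x y t →
    Ap (EG G) (NG.mk G (eN D)) x y t' → t = t')
    (fun a b G t t' h1 h2 => ((ap_eN_iff G).1 h1).trans ((ap_eN_iff G).1 h2).symm) G
  have h3 := ball2 pv (fun G x y => ∀ t, Ap (EG G) (NG.mk G (eN D)) x y t →
    ¬ Val (EG G) (NG.mk G lN) t (NG.mk G zN) ∧ (t = NG.mk G zN ↔ x = y) ∧
      Ap (EG G) (NG.mk G (eN D)) y x t) (by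
      intro a b G t ht'
      obtain rfl := (ap_eN_iff G).1 ht'
      refine ⟨fun h4 => ?_, ?_, ?_⟩
      · exact absurd ((val_l G).1 h4) (not_lt.2 (h.nn a b))
      · exact ((kn_eq G).trans (h.eq a b)).trans (kn_eq G).symm
      · exact (ap_eN G).2 (h.sy b a)) G
  have h4 := ball3 pv (fun G x y z => ∀ s t u w, Ap (EG G) (NG.mk G (eN D)) x y s →
    Ap (EG G) (NG.mk G (eN D)) y z t → Ap (EG G) (NG.mk G (eN D)) x z u →
      Ap (EG G) (NG.mk G aN) s t w → ¬ Val (EG G) (NG.mk G lN) w u) (by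
      intro a b c G s t u w h1 h2 h3 h4 h5
      obtain rfl := (ap_eN_iff G).1 h1
      obtain rfl := (ap_eN_iff G).1 h2
      obtain rfl := (ap_eN_iff G).1 h3
      obtain rfl := (ap_eN_iff G).1 h4
      exact absurd ((val_l G).1 h5) (not_lt.2 (h.tr a b c))) G
  exact ⟨⟨fun z y hz hy => h1 z hz y hy, fun z y t t' hz hy => h2 z hz y hy t t'⟩,
    fun x y t hx hy => h3 x hx y hy t, fun x y z s t u w hx hy hz => h4 x hx y hy z hz s t u w⟩

theorem br_lsc (h : TGM pv bv ht D) (G : Ult (RO P)) :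
    IsLsc (EG G) (NG.mk G RN) (NG.mk G lN) (NG.mk G (sn pv)) (NG.mk G (sn bv))
      (NG.mk G (mN ht)) (NG.mk G (eN D)) := by
  have key : ∀ (G : Ult (RO P)) (x : NG G), EG G x (NG.mk G (sn pv)) →
      ∀ y, EG G y (NG.mk G (sn pv)) → ∀ r, EG G r (NG.mk G RN) → ∀ t,
      Ap (EG G) (NG.mk G (eN D)) x y t → Val (EG G) (NG.mk G lN) r t →
      ∃ b c, EG G b (NG.mk G (sn bv)) ∧ EG G c (NG.mk G (sn bv)) ∧
        Val (EG G) (NG.mk G (mN ht)) x b ∧ Val (EG G) (NG.mk G (mN ht)) y c ∧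
        ∀ x' y' s, EG G x' (NG.mk G (sn pv)) → EG G y' (NG.mk G (sn pv)) →
          Val (EG G) (NG.mk G (mN ht)) x' b → Val (EG G) (NG.mk G (mN ht)) y' c →
          Ap (EG G) (NG.mk G (eN D)) x' y' s → Val (EG G) (NG.mk G lN) r s := by
    refine F.top fun p => F.bsn.2 fun a q hq ha => F.bsn.2 fun b q1 hq1 hb =>
      F.bsn.2 fun x q2 hq2 _ => F.all.2 fun T => F.imp.2 fun q3 hq3 h1 =>
      F.imp.2 fun q4 hq4 h2 => F.loc fun q5 hq5 => ?_
    have hx : x < D a b := by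
      refine (F.const (p := q5)).1 fun G hG => ?_
      have h3 : Ap (EG G) (NG.mk G (eN D)) (NG.mk G (kn a)) (NG.mk G (kn b)) (NG.mk G T) :=
        h1 G (up_mem (hq5.trans hq4) hG)
      have h4 : Val (EG G) (NG.mk G lN) (NG.mk G (kn x)) (NG.mk G T) := h2 G (up_mem hq5 hG)
      rw [(ap_eN_iff G).1 h3] at h4
      exact (val_l G).1 h4
    have ha' : q5 ∈ pv a :=
      (pv a).down (hq5.trans (hq4.trans (hq3.trans (hq2.trans hq1)))) ha
    have hb' : q5 ∈ pv b := (pv b).down (hq5.trans (hq4.trans (hq3.trans hq2))) hb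
    obtain ⟨r, hr, c, d, hc, hd, hac, hbd, hmain⟩ := h.ls q5 a b x ha' hb' hx
    refine ⟨r, hr, fun G hG => ?_⟩
    have h5 : F r fun G => ∀ x', EG G x' (NG.mk G (sn pv)) → ∀ y', EG G y' (NG.mk G (sn pv)) →
        ∀ s, Val (EG G) (NG.mk G (mN ht)) x' (NG.mk G (kn c)) →
          Val (EG G) (NG.mk G (mN ht)) y' (NG.mk G (kn d)) →
          Ap (EG G) (NG.mk G (eN D)) x' y' s →
          Val (EG G) (NG.mk G lN) (NG.mk G (kn x)) s := by
      refine F.bsn.2 fun a' q6 hq6 ha6 => F.bsn.2 fun b' q7 hq7 hb7 => ?_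
      intro G hG s g1 g2 g3
      obtain rfl := (ap_eN_iff G).1 g3
      exact (val_l G).2 (hmain q7 (hq7.trans hq6) a' b' ((pv a').down hq7 ha6) hb7
        ((val_m G).1 g1) ((val_m G).1 g2))
    exact ⟨_, _, F.sn.2 hc G hG, F.sn.2 hd G hG, (val_m G).2 hac, (val_m G).2 hbd,
      fun x' y' s g1 g2 => h5 G hG x' g1 y' g2 s⟩
  exact fun x y t r hx hy hr => key G x hx y hy r hr t

theorem br_frg (h : TGM pv bv ht D) (G : Ult (RO P)) :
    IsFrg (EG G) (NG.mk G RN) (NG.mk G lN) (NG.mk G zN) (NG.mk G (sn pv)) (NG.mk G (sn bv))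
      (NG.mk G (mN ht)) (NG.mk G (eN D)) := by
  have key : ∀ (G : Ult (RO P)) (e : NG G), EG G e (NG.mk G RN) → ∀ C,
      Sub (EG G) C (NG.mk G (sn pv)) → (∃ x, EG G x C) →
      Val (EG G) (NG.mk G lN) (NG.mk G zN) e →
      ∃ b, EG G b (NG.mk G (sn bv)) ∧ (∃ x, EG G x C ∧ Val (EG G) (NG.mk G (mN ht)) x b) ∧
        ∀ x y s, EG G x C → EG G y C → Val (EG G) (NG.mk G (mN ht)) x b →
          Val (EG G) (NG.mk G (mN ht)) y b → Ap (EG G) (NG.mk G (eN D)) x y s →
          Val (EG G) (NG.mk G lN) s e := by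
    refine F.top fun p => F.bsn.2 fun ε q hq _ => F.all.2 fun C' => F.imp.2 fun q1 hq1 hC =>
      F.imp.2 fun q2 hq2 hne => F.imp.2 fun q3 hq3 he => F.loc fun q4 hq4 => ?_
    have hε : 0 < ε := (F.const (p := q3)).1 fun G hG => (val_l G).1 (he G hG)
    have hne' : F q2 fun G => ∃ x, EG G x (NG.mk G C') ∧ True := fun G hG => by
      obtain ⟨x, hx⟩ := hne G hG
      exact ⟨x, hx, trivial⟩
    obtain ⟨q5, hq5, a, ha, -⟩ := F.esub (S := fun _ _ => True) (hC.mono hq2) hne' q4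
      (hq4.trans hq3)
    have hsub : ∀ q' ≤ q1, ∀ a, (F q' fun G => EG G (NG.mk G (kn a)) (NG.mk G C')) →
        q' ∈ pv a ⊓ tv fun G => EG G (NG.mk G (kn a)) (NG.mk G C') := by
      intro q' hq' a ha
      refine ⟨F.sn.1 fun G hG => ?_, F.iff_mem.1 ha⟩
      exact hC G (up_mem hq' hG) _ (ha G hG)
    have hq51 : q5 ≤ q1 := hq5.trans (hq4.trans (hq3.trans hq2))
    obtain ⟨r, hr, c, hc, ⟨a', ha', hac⟩, hmain⟩ := h.fr
      (fun a => pv a ⊓ tv fun G => EG G (NG.mk G (kn a)) (NG.mk G C')) q5 ε hε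
      (fun a => inf_le_left) ⟨a, hsub q5 hq51 a ha⟩
    refine ⟨r, hr.trans hq5, fun G hG => ?_⟩
    have hr1 : r ≤ q1 := hr.trans hq51
    have h5 : F r fun G => ∀ x, EG G x (NG.mk G C') → ∀ y, EG G y (NG.mk G C') →
        ∀ s, Val (EG G) (NG.mk G (mN ht)) x (NG.mk G (kn c)) →
          Val (EG G) (NG.mk G (mN ht)) y (NG.mk G (kn c)) →
          Ap (EG G) (NG.mk G (eN D)) x y s →
          Val (EG G) (NG.mk G lN) s (NG.mk G (kn ε)) := by
      refine F.bsub (hC.mono hr1) fun a1 q6 hq6 h6 => ?_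
      refine F.bsub (hC.mono (hq6.trans hr1)) fun b1 q7 hq7 h7 => ?_
      intro G hG s g1 g2 g3
      obtain rfl := (ap_eN_iff G).1 g3
      exact (val_l G).2 (hmain q7 (hq7.trans hq6) a1 b1
        (hsub q7 (hq7.trans (hq6.trans hr1)) a1 (h6.mono hq7))
        (hsub q7 (hq7.trans (hq6.trans hr1)) b1 h7) ((val_m G).1 g1) ((val_m G).1 g2))
    exact ⟨_, F.sn.2 hc G hG, ⟨_, F.iff_mem.2 ha'.2 G hG, (val_m G).2 hac⟩,
      fun x y s g1 g2 => h5 G hG x g1 y g2 s⟩
  exact fun C e hC hne he hv => key G e he C hC hne hv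

theorem br_rn (h : TGM pv bv ht D) (G : Ult (RO P)) :
    IsRN (EG G) (NG.mk G RN) (NG.mk G lN) (NG.mk G aN) (NG.mk G zN) (NG.mk G (sn pv))
      (NG.mk G (sn bv)) (NG.mk G (mN ht)) :=
  ⟨NG.mk G (eN D), br_met h G, br_lsc h G, br_frg h G⟩

end RNC
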