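import Pool.Agent.RNC.BDef
import Pool.Agent.CPI.Bridge

/-! # The ordered group of real numbers (package R36)

(problem MP_9bfcae_gt, project RNC)

`br_ra`: `(RN, lN, aN, zN)` is the ordered group of real numbers. PROOF. `IsRL` is `br_rl hP G`
(`CPI/Bridge.lean`). The other clauses: `aN` is `en fun x y t => chi (x + y = t)`. First show
(`ap_dom`): `Ap aN x y z` implies that `x`, `y`, `z ∈ RN` (`F.top`, `F.all`, `F.imp`, `F.elim_en`), so all
quantifiers can be bounded; then `F.bsn` and `ap_eN`/`ap_eN_iff`, `val_l`, `kn_RN` reduce each clause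
to a property of real numbers (commutativity, associativity, zero `kn 0`, negative `kn (-x)`,
monotonicity).

How to work with these statements: see the docstrings of `CPI/BRLa.lean`, `CPI/BNam.lean`. `F p S` (file
`CPI/BTv.lean`): `S G` is true in all quotients `NG G` with `RO.up p ∈ G.s`. A statement for an
arbitrary `G` is proved by `F.top fun p => ?_` (all statements about names have a truth value: class
`TV`, found by instance search; state the statement as a function of `G`; for long statements use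
`set_option synthInstance.maxSize 100000`). Quantifiers: `F.all`, `F.ex`, `F.bsn` (it is enough to
treat `x = kn a` below conditions `q ∈ φ a`), `F.esn`, `F.bsub`, `F.esub` (names of subsets of
`sn φ`), `F.dest_sn`, connectives: `F.imp`, `F.and`, `F.no`, `F.loc` (densely), `F.mono`, `F.const`,
`F.not_false`. Atomic statements about `kn a`: `kn_eq`, `kn_sn`, `kn_sn_chi`, `kn_RN`, `val_rn`,
`val_m`, `val_l`, `ap_eN`, `ap_eN_iff`, `chi_mem`; forced forms: `F.sn`, `F.valr`, `F.kn_eq`. To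
reorder premises (so that all quantifiers become bounded) prove the reordered statement and
apply it. From `q ∈ φ a` and `RO.up q ∈ G.s` one gets `φ a ∈ G.s` by `G.up hG (RO.up_le.2 h)`. -/

set_option autoImplicit false

namespace RNC

open STP STP.BSet CPI

variable {P : Type} [PartialOrder P]

theorem ap_dom (G : Ult (RO P)) : ∀ x y z, Ap (EG G) (NG.mk G aN) x y z →
    EG G x (NG.mk G RN) ∧ EG G y (NG.mk G RN) ∧ EG G z (NG.mk G RN) := by
  have h : ∀ G : Ult (RO P), ∀ x y z, Ap (EG G) (NG.mk G aN) x y z →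
      EG G x (NG.mk G RN) ∧ EG G y (NG.mk G RN) ∧ EG G z (NG.mk G RN) := by
    refine F.top fun p => F.all.2 fun X => F.all.2 fun Y => F.all.2 fun Z =>
      F.imp.2 fun q _ h => ?_
    refine F.elim_en (ρ := fun x y t : ℝ => chi (x + y = t)) h
      fun r _ a c d _ h2 h3 h4 G hG => ?_
    have e2 : NG.mk G X = NG.mk G (kn a) := h2 G hG
    have e3 : NG.mk G Y = NG.mk G (kn c) := h3 G hG
    have e4 : NG.mk G Z = NG.mk G (kn d) := h4 G hG
    rw [e2, e3, e4]
    exact ⟨kn_RN G a, kn_RN G c, kn_RN G d⟩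
  exact h G

private theorem ap_a (G : Ult (RO P)) {x y t : ℝ} :
    Ap (EG G) (NG.mk G aN) (NG.mk G (kn x)) (NG.mk G (kn y)) (NG.mk G (kn t)) ↔ x + y = t :=
  ap_eN G

private theorem ap_a' (G : Ult (RO P)) {x y : ℝ} {t : NG G} :
    Ap (EG G) (NG.mk G aN) (NG.mk G (kn x)) (NG.mk G (kn y)) t ↔
      t = NG.mk G (kn (x + y)) :=
  ap_eN_iff G

private theorem ra_comm (G : Ult (RO P)) : ∀ x, EG G x (NG.mk G RN) →
    ∀ y, EG G y (NG.mk G RN) → ∀ z, Ap (EG G) (NG.mk G aN) x y z →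
      Ap (EG G) (NG.mk G aN) y x z := by
  have h : ∀ G : Ult (RO P), ∀ x, EG G x (NG.mk G RN) →
      ∀ y, EG G y (NG.mk G RN) → ∀ z, Ap (EG G) (NG.mk G aN) x y z →
        Ap (EG G) (NG.mk G aN) y x z := by
    refine F.top fun p => F.bsn.2 fun a q _ _ => F.bsn.2 fun b r _ _ G _ z h1 => ?_
    have h2 := (ap_a' G).1 h1
    subst h2
    exact (ap_a G).2 (add_comm b a)
  exact h G

private theorem ra_assoc (G : Ult (RO P)) : ∀ x, EG G x (NG.mk G RN) →
    ∀ y, EG G y (NG.mk G RN) → ∀ z, EG G z (NG.mk G RN) → ∀ s t,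
      Ap (EG G) (NG.mk G aN) x y s → Ap (EG G) (NG.mk G aN) s z t →
      ∃ u, EG G u (NG.mk G RN) ∧ Ap (EG G) (NG.mk G aN) y z u ∧
        Ap (EG G) (NG.mk G aN) x u t := by
  have h : ∀ G : Ult (RO P), ∀ x, EG G x (NG.mk G RN) →
      ∀ y, EG G y (NG.mk G RN) → ∀ z, EG G z (NG.mk G RN) → ∀ s t,
        Ap (EG G) (NG.mk G aN) x y s → Ap (EG G) (NG.mk G aN) s z t →
        ∃ u, EG G u (NG.mk G RN) ∧ Ap (EG G) (NG.mk G aN) y z u ∧
          Ap (EG G) (NG.mk G aN) x u t := by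
    refine F.top fun p => F.bsn.2 fun a q _ _ => F.bsn.2 fun b r _ _ =>
      F.bsn.2 fun c r' _ _ G _ s t h1 h2 => ?_
    have h3 := (ap_a' G).1 h1
    subst h3
    have h4 := (ap_a' G).1 h2
    subst h4
    exact ⟨NG.mk G (kn (b + c)), kn_RN G _, (ap_a G).2 rfl, (ap_a G).2 (add_assoc a b c).symm⟩
  exact h G

private theorem ra_zero (G : Ult (RO P)) : ∀ x, EG G x (NG.mk G RN) →
    Ap (EG G) (NG.mk G aN) x (NG.mk G zN) x := by
  have h : ∀ G : Ult (RO P), ∀ x, EG G x (NG.mk G RN) →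
      Ap (EG G) (NG.mk G aN) x (NG.mk G zN) x := by
    refine F.top fun p => F.bsn.2 fun a q _ _ G _ => ?_
    exact (ap_a G).2 (add_zero a)
  exact h G

private theorem ra_neg (G : Ult (RO P)) : ∀ x, EG G x (NG.mk G RN) →
    ∃ y, EG G y (NG.mk G RN) ∧ Ap (EG G) (NG.mk G aN) x y (NG.mk G zN) := by
  have h : ∀ G : Ult (RO P), ∀ x, EG G x (NG.mk G RN) →
      ∃ y, EG G y (NG.mk G RN) ∧ Ap (EG G) (NG.mk G aN) x y (NG.mk G zN) := by
    refine F.top fun p => F.bsn.2 fun a q _ _ G _ => ?_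
    exact ⟨NG.mk G (kn (-a)), kn_RN G _, (ap_a G).2 (add_neg_cancel a)⟩
  exact h G

private theorem ra_mono (G : Ult (RO P)) : ∀ x, EG G x (NG.mk G RN) →
    ∀ y, EG G y (NG.mk G RN) → ∀ z, EG G z (NG.mk G RN) → ∀ s t,
      Val (EG G) (NG.mk G lN) x y → Ap (EG G) (NG.mk G aN) x z s →
      Ap (EG G) (NG.mk G aN) y z t → Val (EG G) (NG.mk G lN) s t := by
  have h : ∀ G : Ult (RO P), ∀ x, EG G x (NG.mk G RN) →
      ∀ y, EG G y (NG.mk G RN) → ∀ z, EG G z (NG.mk G RN) → ∀ s t,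
        Val (EG G) (NG.mk G lN) x y → Ap (EG G) (NG.mk G aN) x z s →
        Ap (EG G) (NG.mk G aN) y z t → Val (EG G) (NG.mk G lN) s t := by
    refine F.top fun p => F.bsn.2 fun a q _ _ => F.bsn.2 fun b r _ _ =>
      F.bsn.2 fun c r' _ _ G _ s t h0 h1 h2 => ?_
    have h3 := (ap_a' G).1 h1
    subst h3
    have h4 := (ap_a' G).1 h2
    subst h4
    exact (val_l G).2 (add_lt_add_left ((val_l G).1 h0) c)
  exact h G

theorem br_ra (hP : Sig P) (G : Ult (RO P)) :
    IsRA (EG G) (NG.mk G RN) (NG.mk G lN) (NG.mk G aN) (NG.mk G zN) := by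
  refine ⟨br_rl hP G, kn_RN G 0, br_ev (fun _ => ⊤) (fun _ => ⊤) (fun x y : ℝ => x + y) G,
    fun x y z hx hy h => ra_comm G x hx y hy z h,
    fun x y z s t hx hy hz h1 h2 => ra_assoc G x hx y hy z hz s t h1 h2,
    ra_zero G, ra_neg G, fun x y z s t hz h0 h1 h2 => ?_⟩
  have hx := (rl_dom G x y h0).1
  have hy := (rl_dom G x y h0).2
  exact ra_mono G x hx y hy z hz s t h0 h1 h2

end RNC
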