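import Pool.Agent.RNC.BDef

/-! # An image in the model gives a name of an image (package R40)

(problem MP_9bfcae_gt, project RNC)

`exists_yn`: names `y a` with: whenever `∃ z, Val g (kn a) z` then `Val g (kn a) (y a)`. PROOF. For every
`a` apply `TV.full` to `S G z := Val (EG G) g (kn a) z`, choose.
`exists_bn`: names `b s` (`s : ℝ`) with: whenever `∃ c, c ∈ D ∧ Val f (kn s) c` then `b s ∈ D` and
`Val f (kn s) (b s)`. The same.

`ext_tim`: let `p` force `ImD`. Then `TIm pv bv ht p (hvN D f m y b) (evN y)`. PROOF. `q ∈ hvN .. a s` iff `q`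
forces the conjunction (`F.iff_mem`), `q ∈ evN y a b` iff `q` forces `y a = y b` (`F.eq`). (1) If `q ≤ p`,
`q ∈ pv a` then `q` forces `Val g (kn a) (y a)` and `y a ∈ Y` (`IsFun g X` is total). (2) If `q ≤ p` forces
`c ∈ D` and `Val m (y a) c` (`c` a name) then densely below `q` there are `s : ℝ` with `Val f (kn s) c`
(`IsSmF`: `∃ r, Val f r c`, and `r ∈ RN` by `IsFun f RN`, so `F.esn`), and then `c = b s` (`f` is single valued) and `r ∈ hvN .. a s`.
* `ct`: continuity of `g` for `kn a`, `y a`, `b s`: a code `c` by `F.esn`; for `r' ∈ pv b'`, `ht b' c`: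
  `Val m (y b') (b s)` by (1).
* `hd`: `∀ r ≤ q, r ∉ evN y a b` says that `q` forces `y a ≠ y b` (`F.no`). `CHd` gives names `c`, `d`
  (`F.ex`) of elements of `D`; by (2) they are `b s`, `b t` densely.
* `dr`: the second clause of `CSp` and (2). `cv`: the first clause and (2).
* `rf`, `sy`, `tr`, `cg`: equality (`F.eq`, `F.subst`).

How to work with these statements: see the docstrings of `CPI/BRLa.lean`, `CPI/BNam.lean`. `F p S` (file
`CPI/BTv.lean`): `S G` is true in all quotients `NG G` with `RO.up p ∈ G.s`. A statement for an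
arbitrary `G` is proved by `F.top fun p => ?_` (all statements about names have a truth value: class
`TV`, found by instance search; state the statement as a function of `G`; for long statements use
`set_option synthInstance.maxSize 100000`). Quantifiers: `F.all`, `F.ex`, `F.bsn` (it is enough to
treat `x = kn a` below conditions `q ∈ φ a`), `F.esn`, `F.bsub`, `F.esub` (names of subsets of
`sn φ`), `F.dest_sn`, connectives: `F.imp`, `F.and`, `F.no`, `F.loc` (densely), `F.mono`, `F.const`,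
`F.not_false`. Atomic statements about `kn a`: `kn_eq`, `kn_sn`, `kn_sn_chi`, `kn_RN`, `val_rn`,
`val_m`, `val_l`, `ap_eN`, `ap_eN_iff`, `chi_mem`; forced forms: `F.sn`, `F.valr`, `F.kn_eq`. To
reorder premises (so that all quantifiers become bounded) prove the reordered statement and
apply it. From `q ∈ φ a` and `RO.up q ∈ G.s` one gets `φ a ∈ G.s` by `G.up hG (RO.up_le.2 h)`. -/

set_option autoImplicit false

namespace RNC

open STP STP.BSet CPI

variable {P : Type} [PartialOrder P] {A C : Type} {pv : A → RO P} {bv : C → RO P}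
  {ht : A → C → Prop}

theorem exists_yn (A : Type) (g : BSet (RO P)) : ∃ y : A → BSet (RO P), ∀ a (G : Ult (RO P)),
    (∃ z, Val (EG G) (NG.mk G g) (NG.mk G (kn a)) z) →
      Val (EG G) (NG.mk G g) (NG.mk G (kn a)) (NG.mk G (y a)) := by
  have h := fun a : A => TV.full (P := P) fun G z => Val (EG G) (NG.mk G g) (NG.mk G (kn a)) z
  choose y hy using h
  exact ⟨y, fun a G => (hy a G).1⟩

theorem exists_bn (D f : BSet (RO P)) : ∃ b : ℝ → BSet (RO P), ∀ s (G : Ult (RO P)),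
    (∃ c, EG G c (NG.mk G D) ∧ Val (EG G) (NG.mk G f) (NG.mk G (kn s)) c) →
      EG G (NG.mk G (b s)) (NG.mk G D) ∧
        Val (EG G) (NG.mk G f) (NG.mk G (kn s)) (NG.mk G (b s)) := by
  have h := fun s : ℝ => TV.full (P := P) fun G c => EG G c (NG.mk G D) ∧
    Val (EG G) (NG.mk G f) (NG.mk G (kn s)) c
  choose b hb using h
  exact ⟨b, fun s G => (hb s G).1⟩

private theorem dom' {G : Ult (RO P)} {f a x y : NG G} (hf : IsFun (EG G) f a)
    (h : Val (EG G) f x y) : EG G x a := by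
  obtain ⟨p, hp, hp'⟩ := h
  obtain ⟨x', y', hx', h'⟩ := hf.1 p hp
  obtain ⟨rfl, -⟩ := IsOP.inj (NG_zfc G) hp' h'
  exact hx'

theorem ext_tim {p : P} {Y D m g f : BSet (RO P)}
    (h : F p fun G => ImD (EG G) (NG.mk G RN) (NG.mk G (sn pv)) (NG.mk G (sn bv))
      (NG.mk G (mN ht)) (NG.mk G Y) (NG.mk G D) (NG.mk G m) (NG.mk G g) (NG.mk G f))
    {y : A → BSet (RO P)} (hy : ∀ a (G : Ult (RO P)),
      (∃ z, Val (EG G) (NG.mk G g) (NG.mk G (kn a)) z) →
        Val (EG G) (NG.mk G g) (NG.mk G (kn a)) (NG.mk G (y a)))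
    {b : ℝ → BSet (RO P)} (hb : ∀ s (G : Ult (RO P)),
      (∃ c, EG G c (NG.mk G D) ∧ Val (EG G) (NG.mk G f) (NG.mk G (kn s)) c) →
        EG G (NG.mk G (b s)) (NG.mk G D) ∧
          Val (EG G) (NG.mk G f) (NG.mk G (kn s)) (NG.mk G (b s))) :
    TIm pv bv ht p (hvN D f m y b) (evN y) := by
  have key1 : ∀ q ≤ p, ∀ a, q ∈ pv a → ∀ G : Ult (RO P), RO.up q ∈ G.s →
      EG G (NG.mk G (kn a)) (NG.mk G (sn pv)) ∧
      Val (EG G) (NG.mk G g) (NG.mk G (kn a)) (NG.mk G (y a)) ∧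
      EG G (NG.mk G (y a)) (NG.mk G Y) := by
    intro q hq a ha G hG
    obtain ⟨-, -, ⟨⟨hf, hr, -⟩, -⟩, -⟩ := h G (up_mem hq hG)
    have h1 : EG G (NG.mk G (kn a)) (NG.mk G (sn pv)) := F.sn.2 ha G hG
    have h2 := hy a G (hf.2.1 _ h1)
    exact ⟨h1, h2, hr _ _ h2⟩
  have key2 : ∀ q ≤ p, ∀ c : BSet (RO P), (F q fun G => EG G (NG.mk G c) (NG.mk G D)) →
      ∃ r ≤ q, ∃ s : ℝ, F r fun G => NG.mk G c = NG.mk G (b s) ∧
        EG G (NG.mk G (b s)) (NG.mk G D) ∧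
        Val (EG G) (NG.mk G f) (NG.mk G (kn s)) (NG.mk G (b s)) := by
    intro q hq c hc
    have h1 : F q fun G => ∃ r, EG G r (NG.mk G RN) ∧
        Val (EG G) (NG.mk G f) r (NG.mk G c) := by
      intro G hG
      obtain ⟨-, -, -, hf, hr⟩ := h G (up_mem hq hG)
      obtain ⟨r, hr'⟩ := hr _ (hc G hG)
      exact ⟨r, dom' hf hr', hr'⟩
    obtain ⟨r, hr, s, -, hs⟩ := F.esn.1 h1 q le_rfl
    refine ⟨r, hr, s, fun G hG => ?_⟩
    have hG' := up_mem hr hG
    obtain ⟨-, -, -, hf, -⟩ := h G (up_mem hq hG')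
    have h2 := hb s G ⟨_, hc G hG', hs G hG⟩
    exact ⟨hf.2.2 _ _ _ (hs G hG) h2.2, h2⟩
  have hv : ∀ (q : P) (a : A) (s : ℝ), q ∈ hvN D f m y b a s ↔
      F q fun G => EG G (NG.mk G (b s)) (NG.mk G D) ∧
        Val (EG G) (NG.mk G f) (NG.mk G (kn s)) (NG.mk G (b s)) ∧
        Val (EG G) (NG.mk G m) (NG.mk G (y a)) (NG.mk G (b s)) :=
    fun q a s => (F.iff_mem).symm
  have he : ∀ (q : P) (a a' : A), q ∈ evN y a a' ↔
      F q fun G => NG.mk G (y a) = NG.mk G (y a') := fun q a a' => F.eq.symm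
  refine
    { ct := fun q hq a s ha hs => ?_
      hd := fun q hq a a' ha ha' hne => ?_
      dr := fun q hq a s t ha hs ht' => ?_
      cv := fun q hq a ha => ?_
      rf := fun q hq a ha => (he q a a).2 fun G _ => rfl
      sy := fun q hq a a' ha ha' h1 => (he q a' a).2 fun G hG => ((he q a a').1 h1 G hG).symm
      tr := fun q hq a a' c ha ha' hc h1 h2 => (he q a c).2 fun G hG =>
        ((he q a a').1 h1 G hG).trans ((he q a' c).1 h2 G hG)
      cg := fun q hq a a' s ha ha' h1 h2 => ?_ }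
  · rw [hv] at hs
    have h1 : F q fun G => ∃ c, EG G c (NG.mk G (sn bv)) ∧
        (Val (EG G) (NG.mk G (mN ht)) (NG.mk G (kn a)) c ∧
          ∀ x' y', EG G x' (NG.mk G (sn pv)) → Val (EG G) (NG.mk G (mN ht)) x' c →
            Val (EG G) (NG.mk G g) x' y' → Val (EG G) (NG.mk G m) y' (NG.mk G (b s))) := by
      intro G hG
      obtain ⟨-, -, ⟨⟨-, -, hc⟩, -⟩, -⟩ := h G (up_mem hq hG)
      obtain ⟨-, h2, -⟩ := key1 q hq a ha G hG
      obtain ⟨h3, -, h4⟩ := hs G hG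
      exact hc _ _ _ h2 h3 h4
    obtain ⟨r, hr, c, hc, hc'⟩ := F.esn.1 h1 q le_rfl
    refine ⟨r, hr, c, hc, ?_, fun r' hr' a' ha' hac => ?_⟩
    · exact F.const.1 fun G hG => (val_m G).1 (hc' G hG).1
    · rw [hv]
      intro G hG
      have hG' := up_mem hr' hG
      obtain ⟨h2, h3, -⟩ := hs G (up_mem hr hG')
      obtain ⟨h5, h6, -⟩ := key1 r' (hr'.trans (hr.trans hq)) a' ha' G hG
      exact ⟨h2, h3, (hc' G hG').2 _ _ h5 ((val_m G).2 hac) h6⟩
  · have h0 : F q fun G => ¬ NG.mk G (y a) = NG.mk G (y a') :=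
      F.no.2 fun r hr h1 => hne r hr ((he r a a').2 h1)
    have h1 : F q fun G => ∃ c d, EG G c (NG.mk G D) ∧ EG G d (NG.mk G D) ∧
        Val (EG G) (NG.mk G m) (NG.mk G (y a)) c ∧
        Val (EG G) (NG.mk G m) (NG.mk G (y a')) d ∧ ∀ z, EG G z (NG.mk G Y) →
          ¬ (Val (EG G) (NG.mk G m) z c ∧ Val (EG G) (NG.mk G m) z d) := by
      intro G hG
      obtain ⟨-, hh, -, -⟩ := h G (up_mem hq hG)
      exact hh _ _ (key1 q hq a ha G hG).2.2 (key1 q hq a' ha' G hG).2.2 (h0 G hG)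
    obtain ⟨c, h1⟩ := F.ex.1 h1
    obtain ⟨d, h1⟩ := F.ex.1 h1
    obtain ⟨r1, hr1, s, hs⟩ := key2 q hq c fun G hG => (h1 G hG).1
    obtain ⟨r2, hr2, t, ht'⟩ := key2 r1 (hr1.trans hq) d fun G hG => (h1 G (up_mem hr1 hG)).2.1
    refine ⟨r2, hr2.trans hr1, s, t, (hv _ _ _).2 fun G hG => ?_, (hv _ _ _).2 fun G hG => ?_,
      fun r' hr' x hx hx' => ?_⟩
    · obtain ⟨e1, e2, e3⟩ := hs G (up_mem hr2 hG)
      obtain ⟨-, -, e4, -, -⟩ := h1 G (up_mem (hr2.trans hr1) hG)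
      rw [e1] at e4
      exact ⟨e2, e3, e4⟩
    · obtain ⟨e1, e2, e3⟩ := ht' G hG
      obtain ⟨-, -, -, e4, -⟩ := h1 G (up_mem (hr2.trans hr1) hG)
      rw [e1] at e4
      exact ⟨e2, e3, e4⟩
    · refine F.not_false (p := r') fun G hG => ?_
      have hG' := up_mem hr' hG
      obtain ⟨e1, -, -⟩ := hs G (up_mem hr2 hG')
      obtain ⟨e2, -, -⟩ := ht' G hG'
      obtain ⟨-, -, -, -, e4⟩ := h1 G (up_mem (hr2.trans hr1) hG')
      have hq' : r' ≤ p := hr'.trans (hr2.trans (hr1.trans hq))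
      refine e4 _ (key1 r' hq' x hx G hG).2.2 ?_
      rw [e1, e2]
      exact ⟨((hv _ _ _).1 hx'.1 G hG).2.2, ((hv _ _ _).1 hx'.2 G hG).2.2⟩
  · rw [hv] at hs ht'
    have h1 : F q fun G => ∃ c, EG G c (NG.mk G D) ∧
        Val (EG G) (NG.mk G m) (NG.mk G (y a)) c ∧ ∀ z, EG G z (NG.mk G Y) →
          Val (EG G) (NG.mk G m) z c → Val (EG G) (NG.mk G m) z (NG.mk G (b s)) ∧
            Val (EG G) (NG.mk G m) z (NG.mk G (b t)) := by
      intro G hG
      obtain ⟨hh, -, -, -⟩ := h G (up_mem hq hG)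
      obtain ⟨e1, -, e2⟩ := hs G hG
      obtain ⟨e3, -, e4⟩ := ht' G hG
      exact hh.2 _ _ _ (key1 q hq a ha G hG).2.2 e1 e3 e2 e4
    obtain ⟨c, h1⟩ := F.ex.1 h1
    obtain ⟨r, hr, u, hu⟩ := key2 q hq c fun G hG => (h1 G hG).1
    refine ⟨r, hr, u, (hv _ _ _).2 fun G hG => ?_, fun r' hr' x hx hx' => ?_⟩
    · obtain ⟨e1, e2, e3⟩ := hu G hG
      obtain ⟨-, e4, -⟩ := h1 G (up_mem hr hG)
      rw [e1] at e4
      exact ⟨e2, e3, e4⟩
    · rw [hv] at hx' ⊢
      rw [hv]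
      have hk : ∀ G : Ult (RO P), RO.up r' ∈ G.s →
          Val (EG G) (NG.mk G m) (NG.mk G (y x)) (NG.mk G (b s)) ∧
            Val (EG G) (NG.mk G m) (NG.mk G (y x)) (NG.mk G (b t)) := by
        intro G hG
        have hG' := up_mem hr' hG
        obtain ⟨e1, -, -⟩ := hu G hG'
        obtain ⟨-, -, e4⟩ := h1 G (up_mem hr hG')
        refine e4 _ (key1 r' (hr'.trans (hr.trans hq)) x hx G hG).2.2 ?_
        rw [e1]
        exact (hx' G hG).2.2
      refine ⟨fun G hG => ?_, fun G hG => ?_⟩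
      · obtain ⟨e1, e2, -⟩ := hs G (up_mem (hr'.trans hr) hG)
        exact ⟨e1, e2, (hk G hG).1⟩
      · obtain ⟨e1, e2, -⟩ := ht' G (up_mem (hr'.trans hr) hG)
        exact ⟨e1, e2, (hk G hG).2⟩
  · have h1 : F q fun G => ∃ c, EG G c (NG.mk G D) ∧
        Val (EG G) (NG.mk G m) (NG.mk G (y a)) c := by
      intro G hG
      obtain ⟨hh, -, -, -⟩ := h G (up_mem hq hG)
      exact hh.1 _ (key1 q hq a ha G hG).2.2
    obtain ⟨c, h1⟩ := F.ex.1 h1
    obtain ⟨r, hr, u, hu⟩ := key2 q hq c fun G hG => (h1 G hG).1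
    refine ⟨r, hr, u, (hv _ _ _).2 fun G hG => ?_⟩
    obtain ⟨e1, e2, e3⟩ := hu G hG
    obtain ⟨-, e4⟩ := h1 G (up_mem hr hG)
    rw [e1] at e4
    exact ⟨e2, e3, e4⟩
  · rw [he] at h1
    rw [hv] at h2 ⊢
    intro G hG
    obtain ⟨e1, e2, e3⟩ := h2 G hG
    have e4 := h1 G hG
    beta_reduce at e4
    rw [e4] at e3
    exact ⟨e1, e2, e3⟩

end RNC
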