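import Pool.Agent.RNC.BDef

/-! # A ground model continuous surjection gives a continuous surjection (package R39)

(problem MP_9bfcae_gt, project RNC)

`br_cm`: witness `g := rn fun a b => pv a ⊓ chi (m a = b)`. PROOF. `Val g (kn a) (kn b)` iff
`pv a ∈ G.s` and
`m a = b` (`val_rn`, `inf_mem`, `chi_mem`). `IsFun g X`: every element of `rn ρ` is a pair
`(kn a, kn b)`
(unfold `rn`, `BSet.mk`, as in `F.elim_rn`; or `F.top`, `F.all`, `F.imp` and `mem_rn`), `pv a` gives
`kn a ∈ sn pv`; total: `F.bsn`; single valued: `F.brn`/`F.elim_rn`, `kn_eq`. Values in `sn pv'`: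
`F.brn`,
`h.pt`. Continuity: reorder (`Val g x y` first), `F.brn` (so `x = kn a`, `y = kn (m a)`,
`q ∈ pv a`), `F.bsn`
for `c` (`kn c`, `q ∈ bv' c`), `Val` is `ht' (m a) c` (`val_m`); `F.esn` with `h.ct`; the last
part: `F.bsn`
for `x'` (`kn b`, `r' ∈ pv b`), the value of `g` at `kn b` is `kn (m b)`. Onto: `F.bsn`, `h.sj`.

How to work with these statements: see the docstrings of `CPI/BRLa.lean`, `CPI/BNam.lean`. `F p S`
(file
`CPI/BTv.lean`): `S G` is true in all quotients `NG G` with `RO.up p ∈ G.s`. A statement for an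
arbitrary `G` is proved by `F.top fun p => ?_` (all statements about names have a truth value: class
`TV`, found by instance search; state the statement as a function of `G`; for long statements use
`set_option synthInstance.maxSize 100000`). Quantifiers: `F.all`, `F.ex`, `F.bsn` (it is enough to
treat `x = kn a` below conditions `q ∈ φ a`), `F.esn`, `F.bsub`, `F.esub` (names of subsets of
`sn φ`), `F.dest_sn`, connectives: `F.imp`, `F.and`, `F.no`, `F.loc` (densely), `F.mono`, `F.const`,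
`F.not_false`. Atomic statements about `kn a`: `kn_eq`, `kn_sn`, `kn_sn_chi`, `kn_RN`, `val_rn`,
`val_m`, `val_l`, `ap_eN`, `ap_eN_iff`, `chi_mem`; forced forms: `F.sn`, `F.valr`, `F.kn_eq`. To
reorder premises (so that all quantifiers become bounded) prove the reordered statement and
apply it. From `q ∈ φ a` and `RO.up q ∈ G.s` one gets `φ a ∈ G.s` by `G.up hG (RO.up_le.2 h)`. -/

set_option autoImplicit false

namespace RNC

open STP STP.BSet CPI

variable {P : Type} [PartialOrder P] {A C A' C' : Type} {pv : A → RO P} {bv : C → RO P}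
  {ht : A → C → Prop} {pv' : A' → RO P} {bv' : C' → RO P} {ht' : A' → C' → Prop} {m : A → A'}

/-- the truth values of the graph of `m` -/
private noncomputable def gRho (pv : A → RO P) (m : A → A') (a : A) (b : A') : RO P :=
  pv a ⊓ chi (m a = b)

private theorem mem_gRho {a : A} {b : A'} {q : P} : q ∈ gRho pv m a b ↔ q ∈ pv a ∧ m a = b := by
  unfold gRho
  rw [RO.mem_inf, RO.mem_chi]

private theorem val_g {G : Ult (RO P)} {a : A} {b : A'} :
    Val (EG G) (NG.mk G (rn (gRho pv m))) (NG.mk G (kn a)) (NG.mk G (kn b)) ↔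
      pv a ∈ G.s ∧ m a = b := by
  rw [val_rn]
  unfold gRho
  rw [inf_mem, chi_mem]

private theorem g_uniq (G : Ult (RO P)) : ∀ x y, Val (EG G) (NG.mk G (rn (gRho pv m))) x y →
    ∀ z, Val (EG G) (NG.mk G (rn (gRho pv m))) x z → y = z := by
  revert G
  refine F.top fun p => F.brn.2 fun a c q _ hq => F.all.2 fun Z => F.imp.2 fun q2 hq2 h1 => ?_
  refine F.elim_rn h1 fun r hr a' c' h2 h3 h4 => ?_
  have h5 : a = a' := F.kn_eq.1 h3
  have h6 := (mem_gRho.1 hq).2
  have h7 := (mem_gRho.1 h2).2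
  have h8 : c = c' := by rw [← h6, ← h7, h5]
  intro G hG
  have h9 : NG.mk G Z = NG.mk G (kn c') := h4 G hG
  rw [h9, h8]

private theorem g_dom (G : Ult (RO P)) : ∀ z, EG G z (NG.mk G (rn (gRho pv m))) →
    ∃ x y, EG G x (NG.mk G (sn pv)) ∧ IsOP (EG G) z x y := by
  revert G
  refine F.top fun p => F.all.2 fun Z => F.imp.2 fun q _ h1 => ?_
  rw [F.mem, mem_rn, RO.mem_iSup] at h1
  refine F.loc fun q' hq' => ?_
  obtain ⟨r, hr, z, h2, h3⟩ := h1 q' hq'
  refine ⟨r, hr, fun G hG => ⟨NG.mk G (kn z.1), NG.mk G (kn z.2), ?_, ?_⟩⟩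
  · exact F.sn.2 (mem_gRho.1 h2).1 G hG
  · exact isOP_iff.2 (F.eq.2 h3 G hG)

private theorem g_tot (G : Ult (RO P)) : ∀ x, EG G x (NG.mk G (sn pv)) →
    ∃ y, Val (EG G) (NG.mk G (rn (gRho pv m))) x y := by
  revert G
  refine F.top fun p => F.bsn.2 fun a q _ ha G hG => ⟨NG.mk G (kn (m a)), ?_⟩
  exact val_g.2 ⟨G.up hG (RO.up_le.2 ha), rfl⟩

private theorem g_val (h : TMp pv bv ht pv' bv' ht' m) (G : Ult (RO P)) :
    ∀ x y, Val (EG G) (NG.mk G (rn (gRho pv m))) x y → EG G y (NG.mk G (sn pv')) := by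
  revert G
  refine F.top fun p => F.brn.2 fun a c q _ hq => F.sn.2 ?_
  obtain ⟨h1, rfl⟩ := mem_gRho.1 hq
  exact RO.le_def.1 (h.pt a) q h1

private theorem g_sj (h : TMp pv bv ht pv' bv' ht' m) (G : Ult (RO P)) :
    ∀ y, EG G y (NG.mk G (sn pv')) → ∃ x, Val (EG G) (NG.mk G (rn (gRho pv m))) x y := by
  revert G
  refine F.top fun p => F.bsn.2 fun b q _ hb => F.loc fun q' hq' => ?_
  obtain ⟨r, hr, a, ha, hab⟩ := h.sj q' b ((pv' b).down hq' hb)
  refine ⟨r, hr, fun G hG => ⟨NG.mk G (kn a), ?_⟩⟩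
  exact val_g.2 ⟨G.up hG (RO.up_le.2 ha), hab⟩

private theorem g_cts (h : TMp pv bv ht pv' bv' ht' m) (G : Ult (RO P)) :
    ∀ x y, Val (EG G) (NG.mk G (rn (gRho pv m))) x y → ∀ c, EG G c (NG.mk G (sn bv')) →
      (Val (EG G) (NG.mk G (mN ht')) y c → ∃ b, EG G b (NG.mk G (sn bv)) ∧
        (Val (EG G) (NG.mk G (mN ht)) x b ∧ ∀ x', EG G x' (NG.mk G (sn pv)) →
          (Val (EG G) (NG.mk G (mN ht)) x' b → ∀ y',
            Val (EG G) (NG.mk G (rn (gRho pv m))) x' y' →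
              Val (EG G) (NG.mk G (mN ht')) y' c))) := by
  revert G
  refine F.top fun p => F.brn.2 fun a b0 q _ hq => F.bsn.2 fun c q2 hq2 hc => ?_
  obtain ⟨ha, rfl⟩ := mem_gRho.1 hq
  by_cases hac : ht' (m a) c
  · have key : F q2 fun G => ∃ b, EG G b (NG.mk G (sn bv)) ∧
        (Val (EG G) (NG.mk G (mN ht)) (NG.mk G (kn a)) b ∧ ∀ x', EG G x' (NG.mk G (sn pv)) →
          (Val (EG G) (NG.mk G (mN ht)) x' b → ∀ y',
            Val (EG G) (NG.mk G (rn (gRho pv m))) x' y' →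
              Val (EG G) (NG.mk G (mN ht')) y' (NG.mk G (kn c)))) := by
      refine F.esn.2 fun q3 hq3 => ?_
      obtain ⟨r, hr, d, hd, had, hl⟩ := h.ct q3 a c ((pv a).down (hq3.trans hq2) ha)
        ((bv' c).down hq3 hc) hac
      refine ⟨r, hr, d, hd, F.and.2 ⟨fun G _ => val_m G |>.2 had, ?_⟩⟩
      refine F.bsn.2 fun b r' hr' hb G hG => ?_
      beta_reduce
      intro h1 y' h2
      rw [val_m] at h1
      have h3 : Val (EG G) (NG.mk G (rn (gRho pv m))) (NG.mk G (kn b)) (NG.mk G (kn (m b))) :=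
        val_g.2 ⟨G.up hG (RO.up_le.2 hb), rfl⟩
      rw [g_uniq G _ _ h2 _ h3, val_m]
      exact hl r' hr' b hb h1
    exact fun G hG _ => key G hG
  · intro G _
    intro h1
    exact absurd (val_m G |>.1 h1) hac

theorem br_cm (h : TMp pv bv ht pv' bv' ht' m) (G : Ult (RO P)) :
    ∃ g, IsSCM (EG G) (NG.mk G (sn pv)) (NG.mk G (sn bv)) (NG.mk G (mN ht))
      (NG.mk G (sn pv')) (NG.mk G (sn bv')) (NG.mk G (mN ht')) g := by
  refine ⟨NG.mk G (rn (gRho pv m)), ⟨⟨g_dom G, g_tot G, ?_⟩, g_val h G, ?_⟩, g_sj h G⟩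
  · exact fun x y z h1 h2 => g_uniq G x y h1 z h2
  · intro x y c h1 h2 h3
    obtain ⟨b, h4, h5, h6⟩ := g_cts h G x y h1 c h2 h3
    exact ⟨b, h4, h5, fun x' y' h7 h8 h9 => h6 x' h7 h8 y' h9⟩

end RNC
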