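import Pool.Agent.RNC.BDef

/-! # A metric in the model gives a name of a metric (package R38)

(problem MP_9bfcae_gt, project RNC)

`ext_tmt`: let `p` force that `d` is a lower semicontinuous metric which fragments the space
`(sn pv, sn bv, mN ht)`. Then `V a b t := tv (fun G => Ap (EG G) d (kn a) (kn b) (kn t))` satisfies
`TMt pv bv ht p V`. PROOF. (`q ∈ tv S ↔ F q S`: `F.iff_mem`; `q ∈ pv a` iff `q` forces `kn a ∈ Y`: `F.sn`.)
* `ex`: `CEv`: a value `t ∈ RN` exists, `F.esn`.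
* `un`: `CEv`, `F.kn_eq`.
* `ps`: `¬ Val l t o` and `t = o ↔ x = y` with `x ≠ y`: `¬ t < 0` and `t ≠ 0` (`val_l`, `kn_eq`, `F.const`).
* `sy`: the third part of the second clause of `IsMet`.
* `tr`: the third clause with `w = kn (s + t)` (`ap_eN`): `¬ s + t < u`.
* `ls`: `IsLsc` with `r = kn x`; the two codes by `F.esn` (twice); the last part is instantiated.
* `fr`: `IsFrg` with `C = sn fun a => chi (a ∈ S)` (a subset of `sn pv` by `sn_sub`, nonempty) and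
  `e = kn ε`: `F.esn` for the code `c`, and the point of `C` in it by `F.esn` again.
`br_nrn`. PROOF. Suppose `IsRN` holds in `NG G`. By `F.of_not` some `p` forces `IsRN`; by `F.ex` there is a
name `d`; `F.and` and `ext_tmt` contradict `h`.

How to work with these statements: see the docstrings of `CPI/BRLa.lean`, `CPI/BNam.lean`. `F p S` (file
`CPI/BTv.lean`): `S G` is true in all quotients `NG G` with `RO.up p ∈ G.s`. A statement for an
arbitrary `G` is proved by `F.top fun p => ?_` (all statements about names have a truth value: class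
`TV`, found by instance search; state the statement as a function of `G`; for long statements use
`set_option synthInstance.maxSize 100000`). Quantifiers: `F.all`, `F.ex`, `F.bsn` (it is enough to
treat `x = kn a` below conditions `q ∈ φ a`), `F.esn`, `F.bsub`, `F.esub` (names of subsets of
`sn φ`), `F.dest_sn`, connectives: `F.imp`, `F.and`, `F.no`, `F.loc` (densely), `F.mono`, `F.const`,
`F.not_false`. Atomic statements about `kn a`: `kn_eq`, `kn_sn`, `kn_sn_chi`, `kn_RN`, `val_rn`,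
`val_m`, `val_l`, `ap_eN`, `ap_eN_iff`, `chi_mem`; forced forms: `F.sn`, `F.valr`, `F.kn_eq`. To
reorder premises (so that all quantifiers become bounded) prove the reordered statement and
apply it. From `q ∈ φ a` and `RO.up q ∈ G.s` one gets `φ a ∈ G.s` by `G.up hG (RO.up_le.2 h)`. -/

set_option autoImplicit false

namespace RNC

open STP STP.BSet CPI

variable {P : Type} [PartialOrder P] {A C : Type} {pv : A → RO P} {bv : C → RO P}
  {ht : A → C → Prop}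

set_option synthInstance.maxSize 100000

private theorem ls_aux {p : P} {d : BSet (RO P)}
    (h2 : F p fun G => IsLsc (EG G) (NG.mk G RN) (NG.mk G lN) (NG.mk G (sn pv))
      (NG.mk G (sn bv)) (NG.mk G (mN ht)) (NG.mk G d)) {q : P} (hq : q ≤ p) {a b : A} {t x : ℝ}
    (ha : q ∈ pv a) (hb : q ∈ pv b)
    (hv : F q fun G => Ap (EG G) (NG.mk G d) (NG.mk G (kn a)) (NG.mk G (kn b))
      (NG.mk G (kn t))) (hx : x < t) :
    ∃ r ≤ q, ∃ c1 c2, r ∈ bv c1 ∧ r ∈ bv c2 ∧ ht a c1 ∧ ht b c2 ∧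
      ∀ r' ≤ r, ∀ a' b' s, r' ∈ pv a' → r' ∈ pv b' → ht a' c1 → ht b' c2 →
        (F r' fun G => Ap (EG G) (NG.mk G d) (NG.mk G (kn a')) (NG.mk G (kn b'))
          (NG.mk G (kn s))) → x < s := by
  have k1 : F q fun G => ∃ c1, EG G c1 (NG.mk G (sn bv)) ∧ ∃ c2, EG G c2 (NG.mk G (sn bv)) ∧
      (Val (EG G) (NG.mk G (mN ht)) (NG.mk G (kn a)) c1 ∧
        Val (EG G) (NG.mk G (mN ht)) (NG.mk G (kn b)) c2 ∧
        ∀ x' y' s, EG G x' (NG.mk G (sn pv)) → EG G y' (NG.mk G (sn pv)) →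
          Val (EG G) (NG.mk G (mN ht)) x' c1 → Val (EG G) (NG.mk G (mN ht)) y' c2 →
            Ap (EG G) (NG.mk G d) x' y' s →
              Val (EG G) (NG.mk G lN) (NG.mk G (kn x)) s) := by
    intro G hG
    obtain ⟨c1, c2, g1, g2, g3, g4, g5⟩ := h2 G (up_mem hq hG) _ _ _ (NG.mk G (kn x))
      (F.sn.2 ha G hG) (F.sn.2 hb G hG) (kn_RN G x) (hv G hG) ((val_l G).2 hx)
    exact ⟨c1, g1, c2, g2, g3, g4, g5⟩
  obtain ⟨r1, hr1, c1, hc1, k2⟩ := F.esn.1 k1 q le_rfl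
  obtain ⟨r, hr, c2, hc2, k3⟩ := F.esn.1 k2 r1 le_rfl
  refine ⟨r, hr.trans hr1, c1, c2, (bv c1).down hr hc1, hc2, ?_, ?_, ?_⟩
  · exact (F.const (p := r)).1 fun G hG => (val_m G).1 (k3 G hG).1
  · exact (F.const (p := r)).1 fun G hG => (val_m G).1 (k3 G hG).2.1
  · intro r' hr' a' b' s ha' hb' h5 h6 h7
    exact (F.const (p := r')).1 fun G hG => (val_l G).1 ((k3 G (up_mem hr' hG)).2.2 _ _ _
      (F.sn.2 ha' G hG) (F.sn.2 hb' G hG) ((val_m G).2 h5) ((val_m G).2 h6) (h7 G hG))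

private theorem fr_aux {p : P} {d : BSet (RO P)}
    (h3 : F p fun G => IsFrg (EG G) (NG.mk G RN) (NG.mk G lN) (NG.mk G zN) (NG.mk G (sn pv))
      (NG.mk G (sn bv)) (NG.mk G (mN ht)) (NG.mk G d)) {S : Set A}
    (hS : ∀ a ∈ S, ∀ q : P, q ∈ pv a) (hne : S.Nonempty) {ε : ℝ} (hε : 0 < ε) {q : P}
    (hq : q ≤ p) :
    ∃ r ≤ q, ∃ c, r ∈ bv c ∧ (∃ a ∈ S, ht a c) ∧
      ∀ r' ≤ r, ∀ a ∈ S, ∀ b ∈ S, ∀ t, ht a c → ht b c →
        (F r' fun G => Ap (EG G) (NG.mk G d) (NG.mk G (kn a)) (NG.mk G (kn b))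
          (NG.mk G (kn t))) → t < ε := by
  have k1 : F q fun G => ∃ c, EG G c (NG.mk G (sn bv)) ∧
      ((∃ x, EG G x (NG.mk G (sn fun a => chi (a ∈ S))) ∧
        Val (EG G) (NG.mk G (mN ht)) x c) ∧
        ∀ x y s, EG G x (NG.mk G (sn fun a => chi (a ∈ S))) →
          EG G y (NG.mk G (sn fun a => chi (a ∈ S))) →
          Val (EG G) (NG.mk G (mN ht)) x c → Val (EG G) (NG.mk G (mN ht)) y c →
            Ap (EG G) (NG.mk G d) x y s →
              Val (EG G) (NG.mk G lN) s (NG.mk G (kn ε))) := by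
    intro G hG
    obtain ⟨a0, ha0⟩ := hne
    have g0 : Sub (EG G) (NG.mk G (sn fun a => chi (a ∈ S))) (NG.mk G (sn pv)) :=
      sn_sub (fun a => RO.le_def.2 fun q hq => hS a (RO.mem_chi.1 hq) q) G
    exact h3 G (up_mem hq hG) _ (NG.mk G (kn ε)) g0
      ⟨NG.mk G (kn a0), (kn_sn_chi G).2 ha0⟩ (kn_RN G ε) ((val_l G).2 hε)
  obtain ⟨r1, hr1, c, hc, k2⟩ := F.esn.1 k1 q le_rfl
  obtain ⟨k3, k4⟩ := F.and.1 k2
  obtain ⟨r, hr, a, ha, k5⟩ := F.esn.1 k3 r1 le_rfl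
  refine ⟨r, hr.trans hr1, c, (bv c).down hr hc, ⟨a, RO.mem_chi.1 ha, ?_⟩, ?_⟩
  · exact (F.const (p := r)).1 fun G hG => (val_m G).1 (k5 G hG)
  · intro r' hr' a' ha' b' hb' t h5 h6 h7
    exact (F.const (p := r')).1 fun G hG => (val_l G).1 (k4 G (up_mem (hr'.trans hr) hG) _ _ _
      ((kn_sn_chi G).2 ha') ((kn_sn_chi G).2 hb') ((val_m G).2 h5) ((val_m G).2 h6) (h7 G hG))

theorem ext_tmt {p : P} {d : BSet (RO P)}
    (h1 : F p fun G => IsMet (EG G) (NG.mk G RN) (NG.mk G lN) (NG.mk G aN) (NG.mk G zN)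
      (NG.mk G (sn pv)) (NG.mk G d))
    (h2 : F p fun G => IsLsc (EG G) (NG.mk G RN) (NG.mk G lN) (NG.mk G (sn pv))
      (NG.mk G (sn bv)) (NG.mk G (mN ht)) (NG.mk G d))
    (h3 : F p fun G => IsFrg (EG G) (NG.mk G RN) (NG.mk G lN) (NG.mk G zN) (NG.mk G (sn pv))
      (NG.mk G (sn bv)) (NG.mk G (mN ht)) (NG.mk G d)) :
    TMt pv bv ht p fun a b t => tv fun G =>
      Ap (EG G) (NG.mk G d) (NG.mk G (kn a)) (NG.mk G (kn b)) (NG.mk G (kn t)) := by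
  have hV : ∀ (q : P) (a b : A) (t : ℝ), (q ∈ tv fun G =>
      Ap (EG G) (NG.mk G d) (NG.mk G (kn a)) (NG.mk G (kn b)) (NG.mk G (kn t))) ↔
      F q fun G => Ap (EG G) (NG.mk G d) (NG.mk G (kn a)) (NG.mk G (kn b)) (NG.mk G (kn t)) :=
    fun q a b t => F.iff_mem.symm
  refine ⟨?_, ?_, ?_, ?_, ?_, ?_, ?_⟩
  · intro q hq a b ha hb
    have k1 : F q fun G => ∃ t, EG G t (NG.mk G (sn fun _ : ℝ => ⊤)) ∧
        Ap (EG G) (NG.mk G d) (NG.mk G (kn a)) (NG.mk G (kn b)) t := fun G hG =>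
      (h1 G (up_mem hq hG)).1.1 _ _ (F.sn.2 ha G hG) (F.sn.2 hb G hG)
    obtain ⟨r, hr, t, -, k2⟩ := F.esn.1 k1 q le_rfl
    exact ⟨r, hr, t, (hV r a b t).2 k2⟩
  · intro q hq a b t t' ha hb k1 k2
    rw [hV] at k1 k2
    exact (F.kn_eq (p := q)).1 fun G hG => (h1 G (up_mem hq hG)).1.2 _ _ _ _ (F.sn.2 ha G hG)
      (F.sn.2 hb G hG) (k1 G hG) (k2 G hG)
  · intro q hq a b t ha hb hab k1
    rw [hV] at k1
    refine (F.const (p := q)).1 fun G hG => ?_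
    obtain ⟨g1, g2, -⟩ := (h1 G (up_mem hq hG)).2.1 _ _ _ (F.sn.2 ha G hG) (F.sn.2 hb G hG)
      (k1 G hG)
    have g3 : ¬ t < 0 := fun h => g1 ((val_l G).2 h)
    have g4 : t ≠ 0 := fun h => hab ((kn_eq G).1 (g2.1 ((kn_eq G).2 h)))
    exact lt_of_le_of_ne (not_lt.1 g3) (Ne.symm g4)
  · intro q hq a b t ha hb k1
    rw [hV] at k1 ⊢
    exact fun G hG => ((h1 G (up_mem hq hG)).2.1 _ _ _ (F.sn.2 ha G hG) (F.sn.2 hb G hG)
      (k1 G hG)).2.2
  · intro q hq a b c s t u ha hb hc k1 k2 k3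
    rw [hV] at k1 k2 k3
    refine (F.const (p := q)).1 fun G hG => ?_
    have g1 := (h1 G (up_mem hq hG)).2.2 _ _ _ _ _ _ (NG.mk G (kn (s + t))) (F.sn.2 ha G hG)
      (F.sn.2 hb G hG) (F.sn.2 hc G hG) (k1 G hG) (k2 G hG) (k3 G hG) ((ap_eN G).2 rfl)
    exact not_lt.1 fun h => g1 ((val_l G).2 h)
  · intro q hq a b t x ha hb k1 hx
    rw [hV] at k1
    obtain ⟨r, hr, c1, c2, g1, g2, g3, g4, g5⟩ := ls_aux h2 hq ha hb k1 hx
    exact ⟨r, hr, c1, c2, g1, g2, g3, g4, fun r' hr' a' b' s h4 h5 h6 h7 h8 =>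
      g5 r' hr' a' b' s h4 h5 h6 h7 ((hV r' a' b' s).1 h8)⟩
  · intro S hS hne ε hε q hq
    obtain ⟨r, hr, c, g1, g2, g3⟩ := fr_aux h3 hS hne hε hq
    exact ⟨r, hr, c, g1, g2, fun r' hr' a ha b hb t h4 h5 h6 =>
      g3 r' hr' a ha b hb t h4 h5 ((hV r' a b t).1 h6)⟩

theorem br_nrn (h : ∀ p V, ¬ TMt pv bv ht p V) (G : Ult (RO P)) :
    ¬ IsRN (EG G) (NG.mk G RN) (NG.mk G lN) (NG.mk G aN) (NG.mk G zN) (NG.mk G (sn pv))
      (NG.mk G (sn bv)) (NG.mk G (mN ht)) := by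
  intro hRN
  obtain ⟨p, hp⟩ := F.of_not (S := fun G => IsRN (EG G) (NG.mk G RN) (NG.mk G lN) (NG.mk G aN)
    (NG.mk G zN) (NG.mk G (sn pv)) (NG.mk G (sn bv)) (NG.mk G (mN ht))) hRN
  obtain ⟨d, hd⟩ := F.ex.1 hp
  exact h p _ (ext_tmt (fun G hG => (hd G hG).1) (fun G hG => (hd G hG).2.1)
    fun G hG => (hd G hG).2.2)

end RNC
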