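import Pool.Agent.RNC.BDef

/-! # The metric on the image in the model (package R41)

(problem MP_9bfcae_gt, project RNC)

`dN pv y δ` is the name of the set of the `((y a, y b), kn (δ a b))` (truth value `pv a ⊓ pv b`).

`ap_dn`: elimination: if `q` forces `Ap dN X Z T` then densely below `q` there are `a`, `b` with
`r ∈ pv a`, `r ∈ pv b`, and `r` forces `X = y a`, `Z = y b`, `T = kn (δ a b)` (as `F.elim_en`, with `mem_mk`/`rfl`
for `BSet.mk`).
`ap_dn'`: `r ∈ pv a`, `r ∈ pv b` imply that `r` forces `Ap dN (y a) (y b) (kn (δ a b))`.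

`br_ret`. PROOF. Witness `dN pv y δ` (`F.ex`). Everything below `q`.
(0) `r ∈ pv a` (`r ≤ q`) implies that `r` forces `Val g (kn a) (y a)` (`hy`, `IsFun g X` total) and
`y a ∈ Y`; every name of an element of `Y` is densely `y a` for some `a` with `r ∈ pv a` (`g` is onto: `x` with
`Val g x Z`, `x ∈ X` by `IsFun`, `F.dest_sn` gives `x = kn a`, and `g` is single valued).
(1) If `r` forces `y a = y a'`, `y b = y b'` (`r` in `pv` of all four) then `δ a b = δ a' b'`: `hQ.eq` gives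
`δ a a' = 0 = δ b b'` (`evN`, `F.eq`), and `hQ.tr`, `hQ.sy`. So if `r` forces `Ap dN (y a) (y b) T` then `r` forces
`T = kn (δ a b)`.
`IsMet`: `CEv`: values exist by (0), `ap_dn'`, `kn_RN`, unique by (1). `¬ Val l t o`: `hQ.nn`; `t = o ↔ x = y`:
`hQ.eq`; symmetry: `hQ.sy`; triangle inequality: `hQ.tr` (`Ap aN (kn s) (kn t) w` gives `w = kn (s + t)`).
`IsLsc`: for `x = y a`, `z = y b`, `r = kn c`, `c < δ a b`: `hQ.ls` gives `r1`, `s`, `t` with
`r1 ∈ hvN .. a s`, which says that `b s ∈ D` and `y a` is in `b s`; the codes are `b s`, `b t`. For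
`x' = y a'` in `b s`: `r' ∈ hvN .. a' s` (the first two parts of `hvN` are forced by `r1`).
`IsFrg`: `C'` a name of a nonempty subset of `Y`, `e = kn ε`: `O a := pv a ⊓ tv (y a ∈ C')`; some `r ∈ O a`
densely by (0); `hQ.fr` gives `r1`, `s`; the code is `b s` (if some `a` has `r1 ∈ hvN .. a s` then `b s ∈ D` is
forced); elements of `C'` in `b s` are `y a` with `r' ∈ O a`, `r' ∈ hvN .. a s`.

How to work with these statements: see the docstrings of `CPI/BRLa.lean`, `CPI/BNam.lean`. `F p S` (file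
`CPI/BTv.lean`): `S G` is true in all quotients `NG G` with `RO.up p ∈ G.s`. A statement for an
arbitrary `G` is proved by `F.top fun p => ?_` (all statements about names have a truth value: class
`TV`, found by instance search; state the statement as a function of `G`; for long statements use
`set_option synthInstance.maxSize 100000`). Quantifiers: `F.all`, `F.ex`, `F.bsn` (it is enough to
treat `x = kn a` below conditions `q ∈ φ a`), `F.esn`, `F.bsub`, `F.esub` (names of subsets of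
`sn φ`), `F.dest_sn`, connectives: `F.imp`, `F.and`, `F.no`, `F.loc` (densely), `F.mono`, `F.const`,
`F.not_false`. Atomic statements about `kn a`: `kn_eq`, `kn_sn`, `kn_sn_chi`, `kn_RN`, `val_rn`,
`val_m`, `val_l`, `ap_eN`, `ap_eN_iff`, `chi_mem`; forced forms: `F.sn`, `F.valr`, `F.kn_eq`. To
reorder premises (so that all quantifiers become bounded) prove the reordered statement and
apply it. From `q ∈ φ a` and `RO.up q ∈ G.s` one gets `φ a ∈ G.s` by `G.up hG (RO.up_le.2 h)`. -/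

set_option autoImplicit false

namespace RNC

open STP STP.BSet CPI

variable {P : Type} [PartialOrder P] {A C : Type} {pv : A → RO P} {bv : C → RO P}
  {ht : A → C → Prop}

/-- the name of the set of the pairs `((y a, y b), δ a b)` -/
noncomputable def dN (pv : A → RO P) (y : A → BSet (RO P)) (δ : A → A → ℝ) : BSet (RO P) :=
  BSet.mk (A × A) (fun z => opN (opN (y z.1) (y z.2)) (kn (δ z.1 z.2))) fun z => pv z.1 ⊓ pv z.2

private theorem mem_dN (x : BSet (RO P)) (pv : A → RO P) (y : A → BSet (RO P))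
    (δ : A → A → ℝ) : mem x (dN pv y δ) = ⨆ z : A × A, (pv z.1 ⊓ pv z.2) ⊓
      eq x (opN (opN (y z.1) (y z.2)) (kn (δ z.1 z.2))) := rfl

theorem ap_dn {y : A → BSet (RO P)} {δ : A → A → ℝ} {q : P} {X Z T : BSet (RO P)}
    (h : F q fun G => Ap (EG G) (NG.mk G (dN pv y δ)) (NG.mk G X) (NG.mk G Z) (NG.mk G T)) :
    ∀ q' ≤ q, ∃ r ≤ q', ∃ a b, r ∈ pv a ∧ r ∈ pv b ∧ (F r fun G => NG.mk G X = NG.mk G (y a)) ∧
      (F r fun G => NG.mk G Z = NG.mk G (y b)) ∧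
      F r fun G => NG.mk G T = NG.mk G (kn (δ a b)) := by
  intro q' hq'
  simp only [ap_iff] at h
  rw [F.mem, mem_dN, RO.mem_iSup] at h
  obtain ⟨r, hr, z, h1, h2⟩ := h q' hq'
  have h3 := F.eq.2 h2
  exact ⟨r, hr, z.1, z.2, h1.1, h1.2, fun G hG => (eq_opN (eq_opN (h3 G hG)).1).1,
    fun G hG => (eq_opN (eq_opN (h3 G hG)).1).2, fun G hG => (eq_opN (h3 G hG)).2⟩

theorem ap_dn' {y : A → BSet (RO P)} {δ : A → A → ℝ} {r : P} {a b : A} (ha : r ∈ pv a)
    (hb : r ∈ pv b) : F r fun G => Ap (EG G) (NG.mk G (dN pv y δ)) (NG.mk G (y a))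
      (NG.mk G (y b)) (NG.mk G (kn (δ a b))) := by
  simp only [ap_iff]
  rw [F.mem, mem_dN, RO.mem_iSup]
  intro q hq
  refine ⟨q, le_rfl, (a, b), ⟨(pv a).down hq ha, (pv b).down hq hb⟩, ?_⟩
  rw [eq_refl]
  exact RO.mem_top

/-- the `y a` are names of all elements of `Y` -/
private structure Rp (pv : A → RO P) (Y : BSet (RO P)) (y : A → BSet (RO P)) (q : P) : Prop where
  mem : ∀ r ≤ q, ∀ a, r ∈ pv a → F r fun G => EG G (NG.mk G (y a)) (NG.mk G Y)
  rep : ∀ Z, ∀ r ≤ q, (F r fun G => EG G (NG.mk G Z) (NG.mk G Y)) →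
    ∃ r' ≤ r, ∃ a, r' ∈ pv a ∧ F r' fun G => NG.mk G Z = NG.mk G (y a)

private theorem rp_of {p : P} {Y D m g f : BSet (RO P)}
    (h : F p fun G => ImD (EG G) (NG.mk G RN) (NG.mk G (sn pv)) (NG.mk G (sn bv))
      (NG.mk G (mN ht)) (NG.mk G Y) (NG.mk G D) (NG.mk G m) (NG.mk G g) (NG.mk G f))
    {y : A → BSet (RO P)} (hy : ∀ a (G : Ult (RO P)),
      (∃ z, Val (EG G) (NG.mk G g) (NG.mk G (kn a)) z) →
        Val (EG G) (NG.mk G g) (NG.mk G (kn a)) (NG.mk G (y a)))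
    {q : P} (hq : q ≤ p) : Rp pv Y y q := by
  have hv : ∀ r ≤ q, ∀ a, r ∈ pv a →
      F r fun G => Val (EG G) (NG.mk G g) (NG.mk G (kn a)) (NG.mk G (y a)) := by
    intro r hr a ha G hG
    have h1 := h G (up_mem (hr.trans hq) hG)
    exact hy a G (h1.2.2.1.1.1.2.1 _ (F.sn.2 ha G hG))
  constructor
  · intro r hr a ha G hG
    have h1 := h G (up_mem (hr.trans hq) hG)
    exact h1.2.2.1.1.2.1 _ _ (hv r hr a ha G hG)
  · intro Z r hr hZ
    have h2 : F r fun G => ∃ x, Val (EG G) (NG.mk G g) x (NG.mk G Z) := fun G hG =>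
      (h G (up_mem (hr.trans hq) hG)).2.2.1.2 _ (hZ G hG)
    obtain ⟨X, hX⟩ := F.ex.1 h2
    have h3 : F r fun G => EG G (NG.mk G X) (NG.mk G (sn pv)) := by
      intro G hG
      obtain ⟨w, hw, hw'⟩ := hX G hG
      obtain ⟨x', z', hx', hw''⟩ := (h G (up_mem (hr.trans hq) hG)).2.2.1.1.1.1 w hw
      rw [(IsOP.inj (NG_zfc G) hw' hw'').1]
      exact hx'
    obtain ⟨r', hr', a, ha, h4⟩ := F.dest_sn h3 r le_rfl
    refine ⟨r', hr', a, ha, fun G hG => ?_⟩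
    have h5 : NG.mk G X = NG.mk G (kn a) := h4 G hG
    have h6 : Val (EG G) (NG.mk G g) (NG.mk G X) (NG.mk G Z) := hX G (up_mem hr' hG)
    rw [h5] at h6
    exact (h G (up_mem (hr'.trans (hr.trans hq)) hG)).2.2.1.1.1.2.2 _ _ _ h6
      (hv r' (hr'.trans hr) a ha G hG)

private theorem Rp.all {Y : BSet (RO P)} {y : A → BSet (RO P)} {q : P} (hR : Rp pv Y y q)
    {C : BSet (RO P)} {r : P} (hr : r ≤ q)
    (hC : F r fun G => Sub (EG G) (NG.mk G C) (NG.mk G Y))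
    {S : (G : Ult (RO P)) → NG G → Prop} [∀ X, TV fun G => S G (NG.mk G X)]
    (h : ∀ a, ∀ r' ≤ r, r' ∈ pv a → (F r' fun G => EG G (NG.mk G (y a)) (NG.mk G C)) →
      F r' fun G => S G (NG.mk G (y a))) :
    F r fun G => ∀ x, EG G x (NG.mk G C) → S G x := by
  refine F.all.2 fun X => F.imp.2 fun q1 hq1 h1 => F.loc fun q2 hq2 => ?_
  have h2 : F q2 fun G => EG G (NG.mk G X) (NG.mk G Y) := fun G hG =>
    hC G (up_mem (hq2.trans hq1) hG) _ (h1 G (up_mem hq2 hG))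
  obtain ⟨r', hr', a, ha, h3⟩ := hR.rep X q2 ((hq2.trans hq1).trans hr) h2
  refine ⟨r', hr', F.subst h3 (h a r' (hr'.trans (hq2.trans hq1)) ha fun G hG => ?_)⟩
  have h4 : NG.mk G X = NG.mk G (y a) := h3 G hG
  have h5 : EG G (NG.mk G X) (NG.mk G C) := h1 G (up_mem (hr'.trans hq2) hG)
  rwa [h4] at h5

section

variable {Y D m f : BSet (RO P)} {y : A → BSet (RO P)} {b : ℝ → BSet (RO P)} {q : P}
  {δ : A → A → ℝ}

private theorem eq_val (hQ : TQm pv q (hvN D f m y b) (evN y) δ) {r : P} (hr : r ≤ q) {a c : A}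
    (ha : r ∈ pv a) (hc : r ∈ pv c) :
    F r fun G => (NG.mk G (y a) = NG.mk G (y c) ↔ δ a c = 0) := by
  by_cases h0 : δ a c = 0
  · have h1 : F r fun G => NG.mk G (y a) = NG.mk G (y c) :=
      F.eq.2 ((hQ.eq r hr a c ha hc).1 h0)
    exact fun G hG => iff_of_true (h1 G hG) h0
  · have h1 : F r fun G => ¬ NG.mk G (y a) = NG.mk G (y c) := F.no.2 fun r' hr' h2 =>
      h0 ((hQ.eq r' (hr'.trans hr) a c ((pv a).down hr' ha) ((pv c).down hr' hc)).2 (F.eq.1 h2))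
    exact fun G hG => iff_of_false (h1 G hG) h0

private theorem d_congr (hQ : TQm pv q (hvN D f m y b) (evN y) δ) {r : P} (hr : r ≤ q)
    {a a' c c' : A} (ha : r ∈ pv a) (ha' : r ∈ pv a') (hc : r ∈ pv c) (hc' : r ∈ pv c')
    (h1 : F r fun G => NG.mk G (y a) = NG.mk G (y a'))
    (h2 : F r fun G => NG.mk G (y c) = NG.mk G (y c')) : δ a c = δ a' c' := by
  have e1 : δ a a' = 0 := (hQ.eq r hr a a' ha ha').2 (F.eq.1 h1)
  have e2 : δ c c' = 0 := (hQ.eq r hr c c' hc hc').2 (F.eq.1 h2)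
  have t1 := hQ.tr a a' c
  have t2 := hQ.tr a' c' c
  have t3 := hQ.tr a' a c'
  have t4 := hQ.tr a c c'
  rw [hQ.sy c' c] at t2
  rw [hQ.sy a' a] at t3
  linarith

private theorem ap_val (hQ : TQm pv q (hvN D f m y b) (evN y) δ) {r : P} (hr : r ≤ q) {a c : A}
    (ha : r ∈ pv a) (hc : r ∈ pv c) :
    F r fun G => ∀ t, Ap (EG G) (NG.mk G (dN pv y δ)) (NG.mk G (y a)) (NG.mk G (y c)) t ↔
      t = NG.mk G (kn (δ a c)) := by
  have h1 : F r fun G => ∀ t, Ap (EG G) (NG.mk G (dN pv y δ)) (NG.mk G (y a))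
      (NG.mk G (y c)) t → t = NG.mk G (kn (δ a c)) := by
    refine F.all.2 fun T => F.imp.2 fun r1 hr1 h1 => F.loc fun r2 hr2 => ?_
    obtain ⟨r3, hr3, a', c', ha', hc', e1, e2, e3⟩ := ap_dn h1 r2 hr2
    have hr3r := hr3.trans (hr2.trans hr1)
    have e4 := d_congr hQ (hr3r.trans hr) ((pv a).down hr3r ha) ha' ((pv c).down hr3r hc) hc'
      e1 e2
    rw [← e4] at e3
    exact ⟨r3, hr3, e3⟩
  intro G hG t
  refine ⟨h1 G hG t, ?_⟩
  rintro rfl
  exact ap_dn' ha hc G hG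

set_option synthInstance.maxSize 100000 in
private theorem ret2 (hR : Rp pv Y y q) (hQ : TQm pv q (hvN D f m y b) (evN y) δ) :
    F q fun G => ∀ x, EG G x (NG.mk G Y) → ∀ z, EG G z (NG.mk G Y) →
      ∃ t, EG G t (NG.mk G RN) ∧
        (∀ t', Ap (EG G) (NG.mk G (dN pv y δ)) x z t' ↔ t' = t) ∧
        ¬ Val (EG G) (NG.mk G lN) t (NG.mk G zN) ∧ (t = NG.mk G zN ↔ x = z) ∧
        ∀ t', Ap (EG G) (NG.mk G (dN pv y δ)) z x t' ↔ t' = t := by
  refine hR.all le_rfl (fun G hG z hz => hz) fun a r hr ha _ => ?_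
  refine hR.all hr (fun G hG z hz => hz) fun c r' hr' hc _ => ?_
  have ha' := (pv a).down hr' ha
  have hr'q := hr'.trans hr
  have e1 := ap_val hQ hr'q ha' hc
  have e2 := ap_val hQ hr'q hc ha'
  have e3 := eq_val hQ hr'q ha' hc
  intro G hG
  refine ⟨NG.mk G (kn (δ a c)), kn_RN G _, e1 G hG, ?_, ?_, ?_⟩
  · rw [zN, val_l]
    exact not_lt.2 (hQ.nn a c)
  · rw [zN, kn_eq]
    exact (e3 G hG).symm
  · rw [hQ.sy a c]
    exact e2 G hG

set_option synthInstance.maxSize 100000 in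
private theorem ret3 (hR : Rp pv Y y q) (hQ : TQm pv q (hvN D f m y b) (evN y) δ) :
    F q fun G => ∀ x, EG G x (NG.mk G Y) → ∀ z, EG G z (NG.mk G Y) →
      ∀ w, EG G w (NG.mk G Y) → ∀ s t u v, Ap (EG G) (NG.mk G (dN pv y δ)) x z s →
        Ap (EG G) (NG.mk G (dN pv y δ)) z w t → Ap (EG G) (NG.mk G (dN pv y δ)) x w u →
        Ap (EG G) (NG.mk G aN) s t v → ¬ Val (EG G) (NG.mk G lN) v u := by
  refine hR.all le_rfl (fun G hG z hz => hz) fun a r hr ha _ => ?_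
  refine hR.all hr (fun G hG z hz => hz) fun c r' hr' hc _ => ?_
  refine hR.all (hr'.trans hr) (fun G hG z hz => hz) fun e r2 hr2 he _ => ?_
  have hr2q := hr2.trans (hr'.trans hr)
  have ha' := (pv a).down (hr2.trans hr') ha
  have hc' := (pv c).down hr2 hc
  have e1 := ap_val hQ hr2q ha' hc'
  have e2 := ap_val hQ hr2q hc' he
  have e3 := ap_val hQ hr2q ha' he
  intro G hG s t u v h1 h2 h3 h4
  have h1 : s = NG.mk G (kn (δ a c)) := (e1 G hG s).1 h1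
  have h2 : t = NG.mk G (kn (δ c e)) := (e2 G hG t).1 h2
  have h3 : u = NG.mk G (kn (δ a e)) := (e3 G hG u).1 h3
  rw [h1, h2, aN, ap_eN_iff] at h4
  rw [h4, h3, val_l]
  exact not_lt.2 (hQ.tr a c e)

private theorem mem_hvN {r : P} {a : A} {s : ℝ} : r ∈ hvN D f m y b a s ↔
    F r fun G => EG G (NG.mk G (b s)) (NG.mk G D) ∧
      Val (EG G) (NG.mk G f) (NG.mk G (kn s)) (NG.mk G (b s)) ∧
      Val (EG G) (NG.mk G m) (NG.mk G (y a)) (NG.mk G (b s)) := F.iff_mem.symm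

private theorem hv_other {r r' : P} (hr : r' ≤ r) {a a' : A} {s : ℝ}
    (h : r ∈ hvN D f m y b a s)
    (h' : F r' fun G => Val (EG G) (NG.mk G m) (NG.mk G (y a')) (NG.mk G (b s))) :
    r' ∈ hvN D f m y b a' s := by
  rw [mem_hvN] at h ⊢
  exact fun G hG => ⟨(h G (up_mem hr hG)).1, (h G (up_mem hr hG)).2.1, h' G hG⟩

set_option synthInstance.maxSize 100000 in
private theorem retL1 (hR : Rp pv Y y q) (hQ : TQm pv q (hvN D f m y b) (evN y) δ) {r : P}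
    (hr : r ≤ q) {a a' : A} (ha : r ∈ pv a) (ha' : r ∈ pv a') {c : ℝ} (hlt : c < δ a a') :
    F r fun G => ∃ b1 b2, EG G b1 (NG.mk G D) ∧ EG G b2 (NG.mk G D) ∧
      Val (EG G) (NG.mk G m) (NG.mk G (y a)) b1 ∧ Val (EG G) (NG.mk G m) (NG.mk G (y a')) b2 ∧
      ∀ x' z' s, EG G x' (NG.mk G Y) → EG G z' (NG.mk G Y) →
        Val (EG G) (NG.mk G m) x' b1 → Val (EG G) (NG.mk G m) z' b2 →
        Ap (EG G) (NG.mk G (dN pv y δ)) x' z' s →
        Val (EG G) (NG.mk G lN) (NG.mk G (kn c)) s := by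
  refine F.loc fun r3 hr3 => ?_
  obtain ⟨r4, hr4, s, t, hs, ht, hst⟩ := hQ.ls r3 (hr3.trans hr) a a' c
    ((pv a).down hr3 ha) ((pv a').down hr3 ha') hlt
  have hr4q := hr4.trans (hr3.trans hr)
  have hL : F r4 fun G => ∀ x', EG G x' (NG.mk G Y) → ∀ z', EG G z' (NG.mk G Y) →
      Val (EG G) (NG.mk G m) x' (NG.mk G (b s)) → Val (EG G) (NG.mk G m) z' (NG.mk G (b t)) →
      ∀ s', Ap (EG G) (NG.mk G (dN pv y δ)) x' z' s' →
        Val (EG G) (NG.mk G lN) (NG.mk G (kn c)) s' := by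
    refine hR.all hr4q (fun G hG z hz => hz) fun a1 r5 hr5 ha1 _ => ?_
    refine hR.all (hr5.trans hr4q) (fun G hG z hz => hz) fun a2 r6 hr6 ha2 _ => ?_
    refine F.imp.2 fun r7 hr7 h7 => F.imp.2 fun r8 hr8 h8 => ?_
    have k6 := hr8.trans hr7
    have k5 := k6.trans hr6
    have k4 := k5.trans hr5
    have g1 : r8 ∈ pv a1 := (pv a1).down k5 ha1
    have g2 : r8 ∈ pv a2 := (pv a2).down k6 ha2
    have g3 := hst r8 k4 a1 a2 g1 g2 (hv_other k4 hs (h7.mono hr8)) (hv_other k4 ht h8)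
    intro G hG s' h12
    have h13 : s' = NG.mk G (kn (δ a1 a2)) := (ap_val hQ (k4.trans hr4q) g1 g2 G hG s').1 h12
    rw [h13, val_l]
    exact g3
  rw [mem_hvN] at hs ht
  exact ⟨r4, hr4, fun G hG => ⟨NG.mk G (b s), NG.mk G (b t), (hs G hG).1, (ht G hG).1,
    (hs G hG).2.2, (ht G hG).2.2, fun x' z' s' h1 h2 h3 h4 h5 =>
      hL G hG x' h1 z' h2 h3 h4 s' h5⟩⟩

set_option synthInstance.maxSize 100000 in
private theorem retL (hR : Rp pv Y y q) (hQ : TQm pv q (hvN D f m y b) (evN y) δ) :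
    F q fun G => ∀ x, EG G x (NG.mk G Y) → ∀ z, EG G z (NG.mk G Y) →
      ∀ c, EG G c (NG.mk G RN) → ∀ t, Ap (EG G) (NG.mk G (dN pv y δ)) x z t →
        Val (EG G) (NG.mk G lN) c t →
        ∃ b1 b2, EG G b1 (NG.mk G D) ∧ EG G b2 (NG.mk G D) ∧
          Val (EG G) (NG.mk G m) x b1 ∧ Val (EG G) (NG.mk G m) z b2 ∧
          ∀ x' z' s, EG G x' (NG.mk G Y) → EG G z' (NG.mk G Y) →
            Val (EG G) (NG.mk G m) x' b1 → Val (EG G) (NG.mk G m) z' b2 →
            Ap (EG G) (NG.mk G (dN pv y δ)) x' z' s → Val (EG G) (NG.mk G lN) c s := by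
  refine hR.all le_rfl (fun G hG z hz => hz) fun a r hr ha _ => ?_
  refine hR.all hr (fun G hG z hz => hz) fun a' r' hr' ha' _ => ?_
  refine F.bsn.2 fun c r2 hr2 _ => ?_
  have g1 := (pv a).down (hr2.trans hr') ha
  have g2 := (pv a').down hr2 ha'
  have hq2 := hr2.trans (hr'.trans hr)
  intro G hG t h1 h2
  have h3 : t = NG.mk G (kn (δ a a')) := (ap_val hQ hq2 g1 g2 G hG t).1 h1
  rw [h3, val_l] at h2
  exact retL1 hR hQ hq2 g1 g2 h2 G hG

set_option synthInstance.maxSize 100000 in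
private theorem retF (hR : Rp pv Y y q) (hQ : TQm pv q (hvN D f m y b) (evN y) δ) :
    F q fun G => IsFrg (EG G) (NG.mk G RN) (NG.mk G lN) (NG.mk G zN) (NG.mk G Y) (NG.mk G D)
      (NG.mk G m) (NG.mk G (dN pv y δ)) := by
  unfold IsFrg
  refine F.all.2 fun C' => F.all.2 fun e => F.imp.2 fun q1 hq1 h1 => F.imp.2 fun q2 hq2 h2 =>
    F.imp.2 fun q3 hq3 h3 => F.imp.2 fun q4 hq4 h4 => F.loc fun q5 hq5 => ?_
  obtain ⟨r, hr, ε, -, hε⟩ := F.dest_sn (φ := fun _ : ℝ => (⊤ : RO P)) h3 q5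
    (hq5.trans hq4)
  have hr4 : r ≤ q4 := hr.trans hq5
  have hr2 : r ≤ q2 := hr4.trans (hq4.trans hq3)
  have hr1 : r ≤ q1 := hr2.trans hq2
  have hε0 : 0 < ε := by
    refine (F.const (p := r)).1 fun G hG => ?_
    have g1 : NG.mk G e = NG.mk G (kn ε) := hε G hG
    have g2 : Val (EG G) (NG.mk G lN) (NG.mk G zN) (NG.mk G e) := h4 G (up_mem hr4 hG)
    rw [g1, zN, val_l] at g2
    exact g2
  obtain ⟨X, hX⟩ := F.ex.1 (h2.mono hr2)
  have hXY : F r fun G => EG G (NG.mk G X) (NG.mk G Y) := fun G hG =>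
    h1 G (up_mem hr1 hG) _ (hX G hG)
  obtain ⟨r1, hr1', a, ha, haX⟩ := hR.rep X r (hr1.trans hq1) hXY
  have hk1 : r1 ≤ q1 := hr1'.trans hr1
  have haC : F r1 fun G => EG G (NG.mk G (y a)) (NG.mk G C') := fun G hG => by
    have g1 : NG.mk G X = NG.mk G (y a) := haX G hG
    have g2 : EG G (NG.mk G X) (NG.mk G C') := hX G (up_mem hr1' hG)
    rwa [g1] at g2
  obtain ⟨r2, hr2', s, ⟨a2, ha2, hs2⟩, hst⟩ := hQ.fr (fun a => pv a ⊓ BSet.mem (y a) C') r1
    (hk1.trans hq1) ε hε0 (fun a => inf_le_left) ⟨a, ha, F.mem.1 haC⟩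
  have hk2 : r2 ≤ q1 := hr2'.trans hk1
  have hL : F r2 fun G => ∀ x, EG G x (NG.mk G C') → ∀ z, EG G z (NG.mk G C') →
      Val (EG G) (NG.mk G m) x (NG.mk G (b s)) → Val (EG G) (NG.mk G m) z (NG.mk G (b s)) →
      ∀ s', Ap (EG G) (NG.mk G (dN pv y δ)) x z s' →
        Val (EG G) (NG.mk G lN) s' (NG.mk G e) := by
    refine hR.all (hk2.trans hq1) (h1.mono hk2) fun a5 r5 hr5 ha5 hC5 => ?_
    refine hR.all (hr5.trans (hk2.trans hq1)) (h1.mono (hr5.trans hk2))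
      fun a6 r6 hr6 ha6 hC6 => ?_
    refine F.imp.2 fun r7 hr7 h7 => F.imp.2 fun r8 hr8 h8 => ?_
    have k6 := hr8.trans hr7
    have k5 := k6.trans hr6
    have k4 := k5.trans hr5
    have g1 : r8 ∈ pv a5 := (pv a5).down k5 ha5
    have g2 : r8 ∈ pv a6 := (pv a6).down k6 ha6
    have g3 := hst r8 k4 a5 a6 ⟨g1, F.mem.1 (hC5.mono k5)⟩ ⟨g2, F.mem.1 (hC6.mono k6)⟩
      (hv_other k4 hs2 (h7.mono hr8)) (hv_other k4 hs2 h8)
    intro G hG s' h12
    have h13 : s' = NG.mk G (kn (δ a5 a6)) :=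
      (ap_val hQ (k4.trans (hk2.trans hq1)) g1 g2 G hG s').1 h12
    have h14 : NG.mk G e = NG.mk G (kn ε) := hε G (up_mem (k4.trans (hr2'.trans hr1')) hG)
    rw [h13, h14, val_l]
    exact g3
  rw [mem_hvN] at hs2
  have haC2 : F r2 fun G => EG G (NG.mk G (y a2)) (NG.mk G C') := F.mem.2 ha2.2
  refine ⟨r2, hr2'.trans (hr1'.trans hr), fun G hG => ⟨NG.mk G (b s), (hs2 G hG).1,
    ⟨NG.mk G (y a2), haC2 G hG, (hs2 G hG).2.2⟩, fun x z s' g1 g2 g3 g4 g5 =>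
      hL G hG x g1 z g2 g3 g4 s' g5⟩⟩

end

theorem br_ret {p : P} {Y D m g f : BSet (RO P)}
    (h : F p fun G => ImD (EG G) (NG.mk G RN) (NG.mk G (sn pv)) (NG.mk G (sn bv))
      (NG.mk G (mN ht)) (NG.mk G Y) (NG.mk G D) (NG.mk G m) (NG.mk G g) (NG.mk G f))
    {y : A → BSet (RO P)} (hy : ∀ a (G : Ult (RO P)),
      (∃ z, Val (EG G) (NG.mk G g) (NG.mk G (kn a)) z) →
        Val (EG G) (NG.mk G g) (NG.mk G (kn a)) (NG.mk G (y a)))
    {b : ℝ → BSet (RO P)} {q : P} (hq : q ≤ p) {δ : A → A → ℝ}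
    (hQ : TQm pv q (hvN D f m y b) (evN y) δ) :
    F q fun G => IsRN (EG G) (NG.mk G RN) (NG.mk G lN) (NG.mk G aN) (NG.mk G zN) (NG.mk G Y)
      (NG.mk G D) (NG.mk G m) := by
  have hR := rp_of h hy hq
  have h2 := ret2 hR hQ
  have h3 := ret3 hR hQ
  have hL := retL hR hQ
  have hF := retF hR hQ
  intro G hG
  refine ⟨NG.mk G (dN pv y δ), ⟨⟨?_, ?_⟩, ?_, ?_⟩, ?_, hF G hG⟩
  · intro x z hx hz
    obtain ⟨t, ht, h4, -⟩ := h2 G hG x hx z hz
    exact ⟨t, ht, (h4 t).2 rfl⟩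
  · intro x z t t' hx hz h5 h6
    obtain ⟨t0, ht, h4, -⟩ := h2 G hG x hx z hz
    exact ((h4 t).1 h5).trans ((h4 t').1 h6).symm
  · intro x z t hx hz h5
    obtain ⟨t0, ht, h4, h6, h7, h8⟩ := h2 G hG x hx z hz
    have h9 := (h4 t).1 h5
    subst h9
    exact ⟨h6, h7, (h8 t).2 rfl⟩
  · intro x y z s t u w hx hy hz g1 g2 g3 g4
    exact h3 G hG x hx y hy z hz s t u w g1 g2 g3 g4
  · intro x z t c hx hz hc g1 g2
    exact hL G hG x hx z hz c hc t g1 g2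

end RNC
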