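import Pool.Agent.RNC.Nb

/-! # Hausdorff (package R08)

(problem MP_9bfcae_gt, project RNC)

`thd`. PROOF (always `r = q`). By cases on the two points (and symmetry). `oo`, `la g t`: the codes
`cO {g} ∅` and `cL g n ∅` with `t ∈ W n`. `oo`, `ix a x`: `cO ∅ {a}` and `cI a []`. `la g t`, `la g t'`
with `t ≠ t'`: disjoint open sets (`t2_separation`) and `wb_exists` give `t ∈ W n`, `t' ∈ W n'`,
`Disjoint (W n) (W n')`, take `cL g n ∅`, `cL g n' ∅` (a point `ix a y` of both would have `u g a y` in both).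
`la g t`, `la g' t'` with `g ≠ g'`: let `e` be the finite set `g.1 ∩ g'.1` (`Cd.ad` for `q`), take
`cL g n e`, `cL g' n' e`. `la g t`, `ix a x`: `cL g n {a}` and `cI a []`. `ix a x`, `ix b y`, `a ≠ b`:
`cI a []`, `cI b []`; `a = b`, `x i ≠ y i`: `cI a (sg x (i + 1))`, `cI a (sg y (i + 1))` (`in_seg`). -/

set_option autoImplicit false

namespace RNC

open STP

section

variable {T : Type} [TopologicalSpace T] (W : ℕ → Set T) (u : Lad → Ix → Ct → T)

/-- separated by two codes -/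
private def Sp (q : Cd) (a b : PT T) : Prop :=
  ∃ c d, q ∈ bv c ∧ q ∈ bv d ∧ hit W u a c ∧ hit W u b d ∧ ∀ x, hit W u x c → hit W u x d → False

variable {W u}

omit [TopologicalSpace T] in
private theorem Sp.symm {q : Cd} {a b : PT T} (h : Sp W u q a b) : Sp W u q b a := by
  obtain ⟨c, d, h1, h2, h3, h4, h5⟩ := h
  exact ⟨d, c, h2, h1, h4, h3, fun x h6 h7 => h5 x h7 h6⟩

private theorem ext_nil (x : Ct) : Ext x [] := fun i h => absurd h (Nat.not_lt_zero i)

private theorem wb_ex (hF : Fb W u) (t : T) : ∃ n, t ∈ W n := by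
  obtain ⟨n, hn, -⟩ := wb_exists hF isOpen_univ (Set.mem_univ t)
  exact ⟨n, hn⟩

private theorem sp_oo_la (hF : Fb W u) {q : Cd} {g : Lad} {t : T} (hg : g ∈ q.F) :
    Sp W u q .oo (.la g t) := by
  obtain ⟨n, hn⟩ := wb_ex hF t
  refine ⟨.cO {g} ∅, .cL g n ∅, ?_, mem_bv_cL.2 hg, hit_oo_cO W u, (hit_la_cL W u).2 ⟨rfl, hn⟩,
    fun x => ?_⟩
  · rw [mem_bv_cO]
    intro g' hg'
    rw [Finset.mem_singleton.1 hg']
    exact hg
  · cases x with
    | oo => exact fun _ h => hit_oo_cL W u h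
    | la g' s =>
      intro h1 h2
      rw [hit_la_cO] at h1
      rw [hit_la_cL] at h2
      exact h1 (Finset.mem_singleton.2 h2.1)
    | ix a y =>
      intro h1 h2
      rw [hit_ix_cO] at h1
      rw [hit_ix_cL] at h2
      exact h1.2 g (Finset.mem_singleton_self g) h2.1

omit [TopologicalSpace T] in
private theorem sp_oo_ix {q : Cd} {a : Ix} {x : Ct} : Sp W u q .oo (.ix a x) := by
  refine ⟨.cO ∅ {a}, .cI a [], ?_, mem_bv_cI, hit_oo_cO W u, (hit_ix_cI W u).2 ⟨rfl, ext_nil x⟩,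
    fun y => ?_⟩
  · rw [mem_bv_cO]
    intro g' hg'
    exact absurd hg' (Finset.notMem_empty g')
  · cases y with
    | oo => exact fun _ h => hit_oo_cI W u h
    | la g' s => exact fun _ h => hit_la_cI W u h
    | ix b z =>
      intro h1 h2
      rw [hit_ix_cO] at h1
      rw [hit_ix_cI] at h2
      exact h1.1 (Finset.mem_singleton.2 h2.1)

private theorem sp_la_la [T2Space T] (hF : Fb W u) {q : Cd} {g g' : Lad} {t t' : T}
    (hg : g ∈ q.F) (hg' : g' ∈ q.F) (hne : (.la g t : PT T) ≠ .la g' t') :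
    Sp W u q (.la g t) (.la g' t') := by
  by_cases h : g = g'
  · subst h
    have ht : t ≠ t' := fun h => hne (by rw [h])
    obtain ⟨U, U', hU, hU', htU, htU', hd⟩ := t2_separation ht
    obtain ⟨n, hn, hnU⟩ := wb_exists hF hU htU
    obtain ⟨n', hn', hnU'⟩ := wb_exists hF hU' htU'
    refine ⟨.cL g n ∅, .cL g n' ∅, mem_bv_cL.2 hg, mem_bv_cL.2 hg, (hit_la_cL W u).2 ⟨rfl, hn⟩,
      (hit_la_cL W u).2 ⟨rfl, hn'⟩, fun x => ?_⟩
    cases x with
    | oo => exact fun h _ => hit_oo_cL W u h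
    | la g' s =>
      intro h1 h2
      rw [hit_la_cL] at h1 h2
      exact Set.disjoint_left.1 hd (hnU h1.2) (hnU' h2.2)
    | ix a y =>
      intro h1 h2
      rw [hit_ix_cL] at h1 h2
      exact Set.disjoint_left.1 hd (hnU h1.2.2) (hnU' h2.2.2)
  · obtain ⟨n, hn⟩ := wb_ex hF t
    obtain ⟨n', hn'⟩ := wb_ex hF t'
    have hf := q.ad hg hg' h
    refine ⟨.cL g n hf.toFinset, .cL g' n' hf.toFinset, mem_bv_cL.2 hg, mem_bv_cL.2 hg',
      (hit_la_cL W u).2 ⟨rfl, hn⟩, (hit_la_cL W u).2 ⟨rfl, hn'⟩, fun x => ?_⟩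
    cases x with
    | oo => exact fun h _ => hit_oo_cL W u h
    | la g'' s =>
      intro h1 h2
      rw [hit_la_cL] at h1 h2
      exact h (h1.1.symm.trans h2.1)
    | ix a y =>
      intro h1 h2
      rw [hit_ix_cL] at h1 h2
      exact h1.2.1 (hf.mem_toFinset.2 ⟨h1.1, h2.1⟩)

private theorem sp_la_ix (hF : Fb W u) {q : Cd} {g : Lad} {t : T} {a : Ix} {x : Ct}
    (hg : g ∈ q.F) : Sp W u q (.la g t) (.ix a x) := by
  obtain ⟨n, hn⟩ := wb_ex hF t
  refine ⟨.cL g n {a}, .cI a [], mem_bv_cL.2 hg, mem_bv_cI, (hit_la_cL W u).2 ⟨rfl, hn⟩,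
    (hit_ix_cI W u).2 ⟨rfl, ext_nil x⟩, fun y => ?_⟩
  cases y with
  | oo => exact fun h _ => hit_oo_cL W u h
  | la g' s => exact fun _ h => hit_la_cI W u h
  | ix b z =>
    intro h1 h2
    rw [hit_ix_cL] at h1
    rw [hit_ix_cI] at h2
    exact h1.2.1 (Finset.mem_singleton.2 h2.1)

omit [TopologicalSpace T] in
private theorem sp_ix_ix {q : Cd} {a b : Ix} {x y : Ct} (hne : (.ix a x : PT T) ≠ .ix b y) :
    Sp W u q (.ix a x) (.ix b y) := by
  by_cases h : a = b
  · subst h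
    have hxy : x ≠ y := fun h => hne (by rw [h])
    obtain ⟨i, hi⟩ := Function.ne_iff.1 hxy
    refine ⟨.cI a (sg x (i + 1)), .cI a (sg y (i + 1)), mem_bv_cI, mem_bv_cI,
      (hit_ix_cI W u).2 ⟨rfl, in_seg.2 fun _ _ => rfl⟩,
      (hit_ix_cI W u).2 ⟨rfl, in_seg.2 fun _ _ => rfl⟩, fun z => ?_⟩
    cases z with
    | oo => exact fun _ h => hit_oo_cI W u h
    | la g' s => exact fun _ h => hit_la_cI W u h
    | ix c z =>
      intro h1 h2
      rw [hit_ix_cI, in_seg] at h1 h2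
      exact hi ((h1.2 i (Nat.lt_succ_self i)).symm.trans (h2.2 i (Nat.lt_succ_self i)))
  · refine ⟨.cI a [], .cI b [], mem_bv_cI, mem_bv_cI,
      (hit_ix_cI W u).2 ⟨rfl, ext_nil x⟩, (hit_ix_cI W u).2 ⟨rfl, ext_nil y⟩, fun z => ?_⟩
    cases z with
    | oo => exact fun _ h => hit_oo_cI W u h
    | la g' s => exact fun _ h => hit_la_cI W u h
    | ix c z =>
      intro h1 h2
      rw [hit_ix_cI] at h1 h2
      exact h (h1.1.symm.trans h2.1)

end

theorem thd {T : Type} [TopologicalSpace T] [T2Space T] {W : ℕ → Set T}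
    {u : Lad → Ix → Ct → T} (hF : Fb W u) : THd (pv (T := T)) bv (hit W u) := by
  intro q a b ha hb hne
  have key : Sp W u q a b := by
    cases a with
    | oo =>
      cases b with
      | oo => exact absurd rfl hne
      | la g t => exact sp_oo_la hF (mem_pv_la.1 hb)
      | ix a x => exact sp_oo_ix
    | la g t =>
      cases b with
      | oo => exact (sp_oo_la hF (mem_pv_la.1 ha)).symm
      | la g' t' => exact sp_la_la hF (mem_pv_la.1 ha) (mem_pv_la.1 hb) hne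
      | ix a x => exact sp_la_ix hF (mem_pv_la.1 ha)
    | ix a x =>
      cases b with
      | oo => exact sp_oo_ix.symm
      | la g t => exact (sp_la_ix hF (mem_pv_la.1 hb)).symm
      | ix b y => exact sp_ix_ix hne
  obtain ⟨c, d, h1, h2, h3, h4, h5⟩ := key
  exact ⟨q, le_rfl, c, d, h1, h2, h3, h4, fun _ _ x _ h => h5 x h.1 h.2⟩

end RNC
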