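import Pool.Agent.RNC.Un

/-! # At most `𝔠` dense open sets have a dense intersection (package R02)

(problem MP_9bfcae_gt, project RNC)

PROOF of `dist`. Take a well order on `J` (`obtain ⟨hlin, hwf⟩ := exists_wellFoundedLT J` as in `REC`,
file `STP/Rec.lean`, with `open Cardinal`). Define `x : J → Cd` by well founded recursion
(`WellFounded.fix wellFounded_lt`, `WellFounded.fix_eq`): given `x j` for `j < i`, if there are a
union `v` of `p` and the `x j`, `j < i` (`IsU (insert p {q | ∃ j < i, q = x j}) v`), with `v ≤ p` and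
an `r ≤ v` with `D i r`, let `x i` be such an `r`; otherwise `x i := p`. (To have the set
`{q | ∃ j < i, q = x j}` inside the recursion extend the given partial function by `p`, as in the
proof of `TR` in `STP/Rec.lean`; or let the recursion step be a function of the partial function
`f : ∀ j, j < i → Cd` and use the set `{q | ∃ j, ∃ h : j < i, q = f j h}`.)

Claim, by strong induction on `i` (`WellFoundedLT.induction`): there is `v` with
`IsU (insert p {q | ∃ j < i, q = x j}) v`, `v ≤ p`, `v ≤ x j` for all `j < i`, `x i ≤ v` and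
`D i (x i)`. Indeed, for the `j < i` choose `v j` by the induction hypothesis and apply
`exists_union` to the subtype `{j // j < i}` (its cardinal is at most `#J ≤ 𝔠`), to `x` and `v`
restricted to it (the union over `{k : {j // j < i} // k < j}` is the union over `k < j`, since
`k < j < i`); it gives `v` (the range of the restriction is `{q | ∃ j < i, q = x j}`); by `hd` there
is `r ≤ v` with `D i r`, so `x i` was chosen in the first case (unions are unique: `Cd.ext`), hence
`x i ≤ v` and `D i (x i)`. Finally apply `exists_union` to `J` itself: `w ≤ p` and `w ≤ x i`, so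
`D i w` by `hop` for all `i`. -/

set_option autoImplicit false

namespace RNC

open STP Cardinal

theorem dist {J : Type} (hJ : #J ≤ 𝔠) (D : J → Cd → Prop) (p : Cd)
    (hop : ∀ s q r, r ≤ q → D s q → D s r) (hd : ∀ s, ∀ q ≤ p, ∃ r ≤ q, D s r) :
    ∃ r ≤ p, ∀ s, D s r := by
  classical
  obtain ⟨hlin, hwf⟩ := exists_wellFoundedLT J
  let U : ∀ i : J, (∀ j, j < i → Cd) → Set Cd := fun i f =>
    insert p {q | ∃ j, ∃ h : j < i, q = f j h}
  let F : ∀ i : J, (∀ j, j < i → Cd) → Cd := fun i f =>
    if H : ∃ r, ∃ v, IsU (U i f) v ∧ v ≤ p ∧ r ≤ v ∧ D i r then H.choose else p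
  let x : J → Cd := WellFounded.fix (wellFounded_lt (α := J)) F
  have hx : ∀ i, x i = F i (fun j _ => x j) := fun i =>
    WellFounded.fix_eq (wellFounded_lt (α := J)) F i
  have hset : ∀ i, U i (fun j _ => x j) = insert p {q | ∃ j < i, q = x j} := by
    intro i
    refine congrArg (insert p) (Set.ext fun q => ?_)
    simp only [Set.mem_ofPred_eq, exists_prop]
  have uni : ∀ (S : Set Cd) (v w : Cd), IsU S v → IsU S w → v = w := fun S v w h1 h2 =>
    Cd.ext (h1.1.trans h2.1.symm) (h1.2.trans h2.2.symm)
  have key : ∀ i, ∃ v, IsU (insert p {q | ∃ j < i, q = x j}) v ∧ v ≤ p ∧ (∀ j < i, v ≤ x j) ∧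
      x i ≤ v ∧ D i (x i) := by
    intro i
    induction i using WellFoundedLT.induction with
    | ind i ih =>
      choose v hv1 hv2 hv3 hv4 hv5 using ih
      obtain ⟨w, hw1, hw2, hw3⟩ := exists_union (α := {j : J // j < i})
        ((Cardinal.mk_subtype_le _).trans hJ) p (fun j => x j.1) (fun j => v j.1 j.2) (by
          intro j
          have h1 : {q | ∃ k < j, q = x k.1} = {q | ∃ k < j.1, q = x k} := by
            ext q
            constructor
            · rintro ⟨k, hk, rfl⟩
              exact ⟨k.1, hk, rfl⟩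
            · rintro ⟨k, hk, rfl⟩
              exact ⟨⟨k, hk.trans j.2⟩, hk, rfl⟩
          rw [h1]
          exact hv1 j.1 j.2) (fun j => hv4 j.1 j.2) (fun j => hv2 j.1 j.2)
          (fun j k hjk => (hv4 k.1 k.2).trans (hv3 k.1 k.2 j.1 hjk))
      have h2 : Set.range (fun j : {j : J // j < i} => x j.1) = {q | ∃ j < i, q = x j} := by
        ext q
        constructor
        · rintro ⟨k, rfl⟩
          exact ⟨k.1, k.2, rfl⟩
        · rintro ⟨k, hk, rfl⟩
          exact ⟨⟨k, hk⟩, rfl⟩
      rw [h2] at hw1
      obtain ⟨r, hr, hDr⟩ := hd i w hw2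
      have H : ∃ r, ∃ v, IsU (U i (fun j _ => x j)) v ∧ v ≤ p ∧ r ≤ v ∧ D i r :=
        ⟨r, w, by rw [hset]; exact hw1, hw2, hr, hDr⟩
      have hxi : x i = H.choose := by
        rw [hx i]
        exact dif_pos H
      obtain ⟨v', h3, h4, h5, h6⟩ := H.choose_spec
      rw [← hxi] at h5 h6
      rw [hset] at h3
      obtain rfl := uni _ _ _ h3 hw1
      exact ⟨v', h3, h4, fun j hj => hw3 ⟨j, hj⟩, h5, h6⟩
  choose v hv1 hv2 hv3 hv4 hv5 using key
  obtain ⟨w, -, hw2, hw3⟩ := exists_union hJ p x v hv1 hv4 hv2
    (fun j k hjk => (hv4 k).trans (hv3 k j hjk))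
  exact ⟨w, hw2, fun s => hop s _ _ (hw3 s) (hv5 s)⟩

end RNC
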