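import Pool.Agent.RNC.CpA
import Pool.Agent.RNC.Dst

/-! # The spaces are compact (package R10)

(problem MP_9bfcae_gt, project RNC)

Let `O`, `p` be as in `TCpt` (`hO : ∀ c, O c ≤ bv c`, `hc`: `p` forces that `O` covers). Write `c ⊑ d` for
`∀ x, hit W u x c → hit W u x d`.

`piece_la`. PROOF. Let `Sm` be the set of the codes `cL g n e` with `↑e ⊆ g.1` and `cI a s` with
`a ∈ g.1`; it is countable because `g.1` is countable (`q0.ct g hg`; a finite subset of a countable set: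
`Set.Countable` of `{e : Finset Ix | ↑e ⊆ g.1}` is `Set.countable_setOf_finite_subset` up to the coercion,
`List Bool` is countable). Apply `dist` (file `Dst.lean`) with `J := Sm` (`countable_le_cont`) and
`D c q := (∃ d, q ∈ O d ∧ c ⊑ d) ∨ (∀ r ≤ q, ∀ d, r ∈ O d → ¬ c ⊑ d)` below `q0`: open by `RO.mono`-type
lemma (membership in `RO` is inherited by stronger conditions), dense: if the second alternative fails for
`q`, some `r ≤ q` has the first. Get `q ≤ q0` with `D c q` for all `c ∈ Sm`. Let `S` be the set of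
`c ∈ Sm` with `∃ d, q ∈ O d ∧ c ⊑ d`. `S` satisfies the hypotheses of `cpA`: a code of `Sm` containing a
point `la g t` is some `cL g n e`. Given `t`, `hc` for `q` and `la g t` (`g ∈ q.F` because `q ≤ q0`) gives
`r ≤ q` and `d` with `r ∈ O d`, `hit (la g t) d`; `r ∈ bv d` by `hO`; `la_nb` gives `n, e` with
`t ∈ W n`, `cL g n e ⊑ d`; for `e' := e.filter (· ∈ g.1)` the sets `cL g n e'` and `cL g n e` have the
same points, so `c := cL g n e' ∈ Sm` satisfies `c ⊑ d` and the second alternative of `D c q` fails, so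
`c ∈ S`, and it contains `la g t`. Given `a ∈ g.1` and `x`, `hc` for `ix a x` gives `r ≤ q`, `d` with
`r ∈ O d`, `hit (ix a x) d`, and `ix_nb` gives `l` with `cI a (sg x l) ⊑ d` (`in_seg`), so
`cI a (sg x l) ∈ S`. Now `cpA` gives a finite list of elements of `S`; replace each `c` of the list by
some `d` with `q ∈ O d`, `c ⊑ d`.

`piece_ix` is the same with the codes `cI a s` (`s : List Bool`) for one fixed `a`, and `cpI`.

`tcpt`. PROOF. `hc` for the point `oo` gives `r0 ≤ p` and a code `c0` with `r0 ∈ O c0` which contains `oo`, so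
`c0 = cO G e`, and `r0 ∈ bv c0` says `G ⊆ r0.F`. By induction on the finite sets `G` and `e` (using
`piece_la`, `piece_ix` and monotonicity) find `q ≤ r0` and a list `β` of codes `c` with `q ∈ O c` which
covers `{g} × T ∪ g.1 × Ct` for all `g ∈ G` and `{a} × Ct` for all `a ∈ e`. The list `c0 :: β` is as
required: a point `la g t` is in `c0` if `g ∉ G`; `ix a x` is in `c0` unless `a ∈ e` or `a ∈ g.1` for some
`g ∈ G`. -/

set_option autoImplicit false

namespace RNC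

open STP

section

variable {T : Type} [TopologicalSpace T] {W : ℕ → Set T} {u : Lad → Ix → Ct → T}

omit [TopologicalSpace T] in
/-- some condition decides for countably many codes whether they are in a member of `O` -/
private theorem ct_dist (O : BC → RO Cd) (q0 : Cd) {J : Type} [Countable J] (cd : J → BC) :
    ∃ q ≤ q0, ∀ j, (∃ d, q ∈ O d ∧ ∀ x, hit W u x (cd j) → hit W u x d) ∨
      ∀ r ≤ q, ∀ d, r ∈ O d → ¬ ∀ x, hit W u x (cd j) → hit W u x d := by
  refine dist (Cardinal.mk_le_aleph0.trans aleph0_le_cont)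
    (fun j q => (∃ d, q ∈ O d ∧ ∀ x, hit W u x (cd j) → hit W u x d) ∨
      ∀ r ≤ q, ∀ d, r ∈ O d → ¬ ∀ x, hit W u x (cd j) → hit W u x d) q0 ?_ ?_
  · rintro j q r hr (⟨d, h1, h2⟩ | h)
    · exact Or.inl ⟨d, (O d).down hr h1, h2⟩
    · exact Or.inr fun r' hr' => h r' (hr'.trans hr)
  · intro j q _
    by_cases h : ∃ r ≤ q, ∃ d, r ∈ O d ∧ ∀ x, hit W u x (cd j) → hit W u x d
    · obtain ⟨r, hr, h1⟩ := h
      exact ⟨r, hr, Or.inl h1⟩
    · refine ⟨q, le_rfl, Or.inr fun r hr d h1 h2 => h ⟨r, hr, d, h1, h2⟩⟩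

omit [TopologicalSpace T] in
/-- a finite list of codes contained in members of `O` is replaced by members of `O` -/
private theorem ct_list (O : BC → RO Cd) (q : Cd) (β : List BC)
    (h : ∀ c ∈ β, ∃ d, q ∈ O d ∧ ∀ x, hit W u x c → hit W u x d) :
    ∃ β' : List BC, (∀ c ∈ β', q ∈ O c) ∧
      ∀ x : PT T, (∃ c ∈ β, hit W u x c) → ∃ c ∈ β', hit W u x c := by
  induction β with
  | nil =>
    refine ⟨[], fun c hc => absurd hc List.not_mem_nil, ?_⟩
    rintro x ⟨c, hc, -⟩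
    exact absurd hc List.not_mem_nil
  | cons b β ih =>
    obtain ⟨β', h1, h2⟩ := ih fun c hc => h c (List.mem_cons_of_mem _ hc)
    obtain ⟨d, hd, hd'⟩ := h b List.mem_cons_self
    refine ⟨d :: β', ?_, ?_⟩
    · intro c hc
      rcases List.mem_cons.1 hc with rfl | hc
      · exact hd
      · exact h1 c hc
    · rintro x ⟨c, hc, hx⟩
      rcases List.mem_cons.1 hc with rfl | hc
      · exact ⟨d, List.mem_cons_self, hd' x hx⟩
      · obtain ⟨c', hc', hx'⟩ := h2 x ⟨c, hc, hx⟩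
        exact ⟨c', List.mem_cons_of_mem _ hc', hx'⟩

private theorem ct_seg (hF : Fb W u) {a : Ix} {x : Ct} {d : BC} (h : hit W u (.ix a x) d) :
    ∃ l, ∀ z : PT T, hit W u z (.cI a (sg x l)) → hit W u z d := by
  obtain ⟨l, hl⟩ := ix_nb hF h
  refine ⟨l, fun z hz => ?_⟩
  cases z with
  | oo => exact absurd hz (hit_oo_cI W u)
  | la g t => exact absurd hz (hit_la_cI W u)
  | ix b y =>
    obtain ⟨rfl, hy⟩ := (hit_ix_cI W u).1 hz
    exact hl y (in_seg.1 hy)

theorem piece_la [CompactSpace T] (hF : Fb W u) (O : BC → RO Cd) (p : Cd)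
    (hO : ∀ c, O c ≤ bv c)
    (hc : ∀ q ≤ p, ∀ a : PT T, q ∈ pv a → ∃ r ≤ q, ∃ c, r ∈ O c ∧ hit W u a c)
    (q0 : Cd) (h0 : q0 ≤ p) (g : Lad) (hg : g ∈ q0.F) :
    ∃ q ≤ q0, ∃ β : List BC, (∀ c ∈ β, q ∈ O c) ∧ (∀ t, ∃ c ∈ β, hit W u (.la g t) c) ∧
      ∀ a ∈ g.1, ∀ x, ∃ c ∈ β, hit W u (.ix a x) c := by
  classical
  have hct : Countable g.1 := (q0.ct g hg).to_subtype
  let cd : (ℕ × Finset g.1) ⊕ (g.1 × List Bool) → BC := fun j =>
    match j with
    | .inl (n, e) => .cL g n (e.map (Function.Embedding.subtype _))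
    | .inr (a, s) => .cI a.1 s
  obtain ⟨q, hq, hD⟩ := ct_dist (W := W) (u := u) O q0 cd
  have hgq : g ∈ q.F := hq.2.1 hg
  let S : Set BC := {c | (∃ j, c = cd j) ∧ ∃ d, q ∈ O d ∧ ∀ x, hit W u x c → hit W u x d}
  have hS : ∀ c ∈ S, ∀ t, hit W u (.la g t) c → ∃ n e, c = .cL g n e := by
    rintro c ⟨⟨j, rfl⟩, -⟩ t ht
    rcases j with ⟨n, e⟩ | ⟨a, s⟩
    · exact ⟨n, _, rfl⟩
    · exact absurd ht (hit_la_cI W u)
  have h1 : ∀ t, ∃ c ∈ S, hit W u (.la g t) c := by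
    intro t
    obtain ⟨r, hr, d, hrd, hd⟩ := hc q (hq.trans h0) (.la g t) (mem_pv_la.2 hgq)
    obtain ⟨n, e, htn, hsub⟩ := la_nb hF (hr.2.1 hgq) (RO.le_def.1 (hO d) r hrd) hd
    have hle : ∀ x, hit W u x (cd (.inl (n, e.subtype (· ∈ g.1)))) → hit W u x d := by
      intro x hx
      refine hsub x ?_
      change hit W u x (.cL g n ((e.subtype (· ∈ g.1)).map (Function.Embedding.subtype _))) at hx
      rw [Finset.subtype_map] at hx
      cases x with
      | oo => exact absurd hx (hit_oo_cL W u)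
      | la g' t' => exact hx
      | ix a y =>
        obtain ⟨h2, h3, h4⟩ := (hit_ix_cL W u).1 hx
        refine (hit_ix_cL W u).2 ⟨h2, fun h5 => h3 (Finset.mem_filter.2 ⟨h5, h2⟩), h4⟩
    refine ⟨cd (.inl (n, e.subtype (· ∈ g.1))), ⟨⟨.inl (n, e.subtype (· ∈ g.1)), rfl⟩, ?_⟩,
      (hit_la_cL W u).2 ⟨rfl, htn⟩⟩
    rcases hD (.inl (n, e.subtype (· ∈ g.1))) with h2 | h2
    · exact h2
    · exact absurd hle (h2 r hr d hrd)
  have h2 : ∀ a ∈ g.1, ∀ x, ∃ c ∈ S, hit W u (.ix a x) c := by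
    intro a ha x
    obtain ⟨r, hr, d, hrd, hd⟩ := hc q (hq.trans h0) (.ix a x) mem_pv_ix
    obtain ⟨l, hl⟩ := ct_seg hF hd
    refine ⟨.cI a (sg x l), ⟨⟨.inr (⟨a, ha⟩, sg x l), rfl⟩, ?_⟩,
      (hit_ix_cI W u).2 ⟨rfl, in_seg.2 fun _ _ => rfl⟩⟩
    rcases hD (.inr (⟨a, ha⟩, sg x l)) with h3 | h3
    · exact h3
    · exact absurd hl (h3 r hr d hrd)
  obtain ⟨β, hβ1, hβ2, hβ3⟩ := cpA hF g S hS h1 h2
  obtain ⟨β', hβ', hβ''⟩ := ct_list (W := W) (u := u) O q β fun c hcβ => (hβ1 c hcβ).2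
  exact ⟨q, hq, β', hβ', fun t => hβ'' _ (hβ2 t), fun a ha x => hβ'' _ (hβ3 a ha x)⟩

theorem piece_ix (hF : Fb W u) (O : BC → RO Cd) (p : Cd)
    (hc : ∀ q ≤ p, ∀ a : PT T, q ∈ pv a → ∃ r ≤ q, ∃ c, r ∈ O c ∧ hit W u a c)
    (q0 : Cd) (h0 : q0 ≤ p) (a : Ix) :
    ∃ q ≤ q0, ∃ β : List BC, (∀ c ∈ β, q ∈ O c) ∧ ∀ x, ∃ c ∈ β, hit W u (.ix a x) c := by
  obtain ⟨q, hq, hD⟩ := ct_dist (W := W) (u := u) O q0 fun s : List Bool => BC.cI a s
  let S : Set BC := {c | ∃ d, q ∈ O d ∧ ∀ x, hit W u x c → hit W u x d}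
  have h2 : ∀ x, ∃ c ∈ S, hit W u (.ix a x) c := by
    intro x
    obtain ⟨r, hr, d, hrd, hd⟩ := hc q (hq.trans h0) (.ix a x) mem_pv_ix
    obtain ⟨l, hl⟩ := ct_seg hF hd
    refine ⟨.cI a (sg x l), ?_, (hit_ix_cI W u).2 ⟨rfl, in_seg.2 fun _ _ => rfl⟩⟩
    rcases hD (sg x l) with h3 | h3
    · exact h3
    · exact absurd hl (h3 r hr d hrd)
  obtain ⟨β, hβ1, hβ2⟩ := cpI hF a S h2
  obtain ⟨β', hβ', hβ''⟩ := ct_list (W := W) (u := u) O q β fun c hcβ => hβ1 c hcβ
  exact ⟨q, hq, β', hβ', fun x => hβ'' _ (hβ2 x)⟩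

theorem tcpt [CompactSpace T] (hF : Fb W u) : TCpt (pv (T := T)) bv (hit W u) := by
  classical
  intro O p hO hc
  obtain ⟨r0, hr0, c0, h0, h0'⟩ := hc p le_rfl .oo mem_pv_oo
  have hc0 : ∃ G e, c0 = .cO G e := by
    cases c0 with
    | cI a s => exact absurd h0' (hit_oo_cI W u)
    | cL g n e => exact absurd h0' (hit_oo_cL W u)
    | cO G e => exact ⟨G, e, rfl⟩
  obtain ⟨G, e, rfl⟩ := hc0
  have hG : ∀ g ∈ G, g ∈ r0.F := mem_bv_cO.1 (RO.le_def.1 (hO _) r0 h0)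
  have key1 : ∀ G' : Finset Lad, G' ⊆ G → ∃ q ≤ r0, ∃ β : List BC, (∀ c ∈ β, q ∈ O c) ∧
      ∀ g ∈ G', (∀ t, ∃ c ∈ β, hit W u (.la g t) c) ∧
        ∀ a ∈ g.1, ∀ x, ∃ c ∈ β, hit W u (.ix a x) c := by
    intro G'
    induction G' using Finset.induction_on with
    | empty =>
      intro _
      exact ⟨r0, le_rfl, [], fun c hc => absurd hc List.not_mem_nil,
        fun g hg => absurd hg (Finset.notMem_empty g)⟩
    | insert g G' _ ih =>
      intro hsub
      obtain ⟨q1, hq1, β1, h1, h2⟩ := ih ((Finset.subset_insert _ _).trans hsub)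
      have hg : g ∈ q1.F := hq1.2.1 (hG g (hsub (Finset.mem_insert_self _ _)))
      obtain ⟨q2, hq2, β2, h3, h4, h5⟩ := piece_la hF O p hO hc q1 (hq1.trans hr0) g hg
      refine ⟨q2, hq2.trans hq1, β2 ++ β1, ?_, ?_⟩
      · intro c hcβ
        rcases List.mem_append.1 hcβ with h | h
        · exact h3 c h
        · exact (O c).down hq2 (h1 c h)
      · intro g' hg'
        rcases Finset.mem_insert.1 hg' with rfl | hg'
        · refine ⟨fun t => ?_, fun a ha x => ?_⟩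
          · obtain ⟨c, hc1, hc2⟩ := h4 t
            exact ⟨c, List.mem_append_left _ hc1, hc2⟩
          · obtain ⟨c, hc1, hc2⟩ := h5 a ha x
            exact ⟨c, List.mem_append_left _ hc1, hc2⟩
        · obtain ⟨h6, h7⟩ := h2 g' hg'
          refine ⟨fun t => ?_, fun a ha x => ?_⟩
          · obtain ⟨c, hc1, hc2⟩ := h6 t
            exact ⟨c, List.mem_append_right _ hc1, hc2⟩
          · obtain ⟨c, hc1, hc2⟩ := h7 a ha x
            exact ⟨c, List.mem_append_right _ hc1, hc2⟩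
  obtain ⟨q1, hq1, β1, h1, h2⟩ := key1 G subset_rfl
  have key2 : ∀ e' : Finset Ix, ∃ q ≤ q1, ∃ β : List BC, (∀ c ∈ β, q ∈ O c) ∧
      ∀ a ∈ e', ∀ x, ∃ c ∈ β, hit W u (.ix a x) c := by
    intro e'
    induction e' using Finset.induction_on with
    | empty =>
      exact ⟨q1, le_rfl, [], fun c hc => absurd hc List.not_mem_nil,
        fun a ha => absurd ha (Finset.notMem_empty a)⟩
    | insert a e' _ ih =>
      obtain ⟨q2, hq2, β2, h3, h4⟩ := ih
      obtain ⟨q3, hq3, β3, h5, h6⟩ :=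
        piece_ix hF O p hc q2 (hq2.trans (hq1.trans hr0)) a
      refine ⟨q3, hq3.trans hq2, β3 ++ β2, ?_, ?_⟩
      · intro c hcβ
        rcases List.mem_append.1 hcβ with h | h
        · exact h5 c h
        · exact (O c).down hq3 (h3 c h)
      · intro b hb x
        rcases Finset.mem_insert.1 hb with rfl | hb
        · obtain ⟨c, hc1, hc2⟩ := h6 x
          exact ⟨c, List.mem_append_left _ hc1, hc2⟩
        · obtain ⟨c, hc1, hc2⟩ := h4 b hb x
          exact ⟨c, List.mem_append_right _ hc1, hc2⟩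
  obtain ⟨q2, hq2, β2, h3, h4⟩ := key2 e
  refine ⟨q2, hq2.trans (hq1.trans hr0), .cO G e :: (β1 ++ β2), ?_, ?_⟩
  · intro c hcβ
    rcases List.mem_cons.1 hcβ with rfl | h
    · exact (O _).down (hq2.trans hq1) h0
    · rcases List.mem_append.1 h with h | h
      · exact (O c).down hq2 (h1 c h)
      · exact h3 c h
  · intro r _ a _
    cases a with
    | oo => exact ⟨_, List.mem_cons_self, (hit_oo_cO W u)⟩
    | la g t =>
      by_cases hg : g ∈ G
      · obtain ⟨c, hc1, hc2⟩ := (h2 g hg).1 t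
        exact ⟨c, List.mem_cons_of_mem _ (List.mem_append_left _ hc1), hc2⟩
      · exact ⟨_, List.mem_cons_self, (hit_la_cO W u).2 hg⟩
    | ix a x =>
      by_cases ha : a ∈ e
      · obtain ⟨c, hc1, hc2⟩ := h4 a ha x
        exact ⟨c, List.mem_cons_of_mem _ (List.mem_append_right _ hc1), hc2⟩
      · by_cases hg : ∃ g ∈ G, a ∈ g.1
        · obtain ⟨g, hg, hag⟩ := hg
          obtain ⟨c, hc1, hc2⟩ := (h2 g hg).2 a hag x
          exact ⟨c, List.mem_cons_of_mem _ (List.mem_append_left _ hc1), hc2⟩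
        · exact ⟨_, List.mem_cons_self,
            (hit_ix_cO W u).2 ⟨ha, fun g hgG hag => hg ⟨g, hgG, hag⟩⟩⟩

end

end RNC
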