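import Pool.Agent.RNC.ImC

/-! # The metric given by a family of functions (package R32)

(problem MP_9bfcae_gt, project RNC; any poset `P`)

`Fam q 𝓕`: a ground model family `𝓕` of functions on the points, (below `q`) continuous, with values in
`[0, 1]`, which separates exactly the points with different images, and is locally controlled by
finitely many of its members at all points which are not equivalent to `o`.
`DF 𝓕 a b := ⨆ f : 𝓕, |f a - f b|`.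

`tqm`. PROOF. All `|f a - f b| ≤ 1`, so the suprema are bounded (`BddAbove`); if `𝓕` is empty, `DF = 0`
(`Real.iSup_of_isEmpty`). `nn`: `Real.iSup_nonneg`. `sy`: `abs_sub_comm`. `tr`: `Real.iSup_le` (or `ciSup_le`
with the empty case apart), `abs_sub_le`, `le_ciSup`. `eq`: `DF a b = 0` iff all `f a = f b` iff
`r ∈ ev a b` (`h.eq`).
`ls`: let `x < DF a b`. If `x < 0` take `s`, `t` by `hT.cv` and use `nn`. Otherwise some `f ∈ 𝓕` has
`x < |f a - f b|` (`exists_lt_of_lt_ciSup`); let `δ := (|f a - f b| - x) / 2`. Apply `clm` (`r` for `q`) to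
`a` and `U := {b' | |f b' - f a| < δ}`: `hop`: for `b` with `|f b - f a| < δ` use `h.ct` with
`ε := δ - |f b - f a|`; `hev`: `ev a b'` gives `f a = f b'` (`h.eq`). We get `r1 ≤ r`, `s`; then the same
for `b` below `r1`: `r2`, `t`. For `a'` in `s`, `b'` in `t`: `|f a' - f b'| > |f a - f b| - 2 δ = x`.
`fr`: Case 1: there are `r' ≤ r`, `a` with `r' ∈ O a` and some `f ∈ 𝓕` with `f a ≠ f o`. Take `𝓖`, `δ`
from `h.fr` for `a` and `ε / 2`. For each `g ∈ 𝓖` `clm` (as above, with `δ`) gives a basic set `s` with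
`|g b - g a| < δ` on `s`; by induction over the finite set `𝓖` (`hT.cv`, `hT.dr`) there are `r1 ≤ r'` and one
`s` for all `g ∈ 𝓖`. For `a'`, `b'` in `s` all `|f a' - f b'| < ε / 2`, so `DF a' b' ≤ ε / 2 < ε`. And
`r1 ∈ O a`. Case 2: otherwise all `a'` with `r' ∈ O a'` for some `r' ≤ r` have `f a' = f o` for all
`f ∈ 𝓕`, so `DF a' b' = 0` for two such points; take any `a` with `r ∈ O a` and `hT.cv`. -/

set_option autoImplicit false

namespace RNC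

open STP

/-- a ground model family of functions on the points which describes the image -/
structure Fam {P : Type} [PartialOrder P] {A C : Type} (pv : A → RO P) (bv : C → RO P)
    (ht : A → C → Prop) (ev : A → A → RO P) (o : A) (q : P) (𝓕 : Set (A → ℝ)) : Prop where
  rg : ∀ f ∈ 𝓕, ∀ a, f a ∈ Set.Icc (0 : ℝ) 1
  eq : ∀ r ≤ q, ∀ a b, r ∈ pv a → r ∈ pv b → (r ∈ ev a b ↔ ∀ f ∈ 𝓕, f a = f b)
  ct : ∀ f ∈ 𝓕, ∀ r ≤ q, ∀ a, r ∈ pv a → ∀ ε : ℝ, 0 < ε → ∃ r' ≤ r, ∃ c, r' ∈ bv c ∧ ht a c ∧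
    ∀ b, ht b c → |f b - f a| < ε
  fr : ∀ a, (∃ f ∈ 𝓕, f a ≠ f o) → ∀ ε : ℝ, 0 < ε → ∃ 𝓖 : Finset (A → ℝ), ↑𝓖 ⊆ 𝓕 ∧
    ∃ δ : ℝ, 0 < δ ∧ ∀ b c, (∀ g ∈ 𝓖, |g b - g a| < δ ∧ |g c - g a| < δ) →
      ∀ f ∈ 𝓕, |f b - f c| < ε

/-- the metric of a family of functions -/
noncomputable def DF {A : Type} (𝓕 : Set (A → ℝ)) (a b : A) : ℝ := ⨆ f : 𝓕, |f.1 a - f.1 b|

private theorem dn {P : Type} [PartialOrder P] {U : RO P} {p q : P} (h : q ≤ p) (hp : p ∈ U) :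
    q ∈ U := U.down h hp

section

variable {P : Type} [PartialOrder P] {A C : Type} {pv : A → RO P} {bv : C → RO P}
  {ht : A → C → Prop} {p : P} {hv : A → ℝ → RO P} {ev : A → A → RO P} {o : A} {q : P}
  {𝓕 : Set (A → ℝ)}

private theorem near (hc : TCpt pv bv ht) (hT : TIm pv bv ht p hv ev) (hq : q ≤ p)
    (h : Fam pv bv ht ev o q 𝓕) {f : A → ℝ} (hf : f ∈ 𝓕) {r : P} (hr : r ≤ q) {a : A}
    (ha : r ∈ pv a) {δ : ℝ} (hδ : 0 < δ) : ∃ r1 ≤ r, ∃ s, r1 ∈ hv a s ∧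
      ∀ r' ≤ r1, ∀ b, r' ∈ pv b → r' ∈ hv b s → |f b - f a| < δ := by
  refine clm hc hT r (hr.trans hq) a ha (fun b => |f b - f a| < δ) ?_ ?_
  · intro r1 hr1 b hb hfb
    obtain ⟨r', hr', c, h1, h2, h3⟩ := h.ct f hf r1 (hr1.trans hr) b hb (δ - |f b - f a|)
      (sub_pos.2 hfb)
    refine ⟨r', hr', c, h1, h2, fun _ _ b' _ hb' => ?_⟩
    have h4 := h3 b' hb'
    have h5 := abs_sub_le (f b') (f b) (f a)
    linarith
  · intro r1 hr1 b hb hev
    have h1 := (h.eq r1 (hr1.trans hr) a b (dn hr1 ha) hb).1 hev f hf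
    rw [h1, sub_self, abs_zero]
    exact hδ

private theorem df_bdd (h : Fam pv bv ht ev o q 𝓕) (a b : A) :
    BddAbove (Set.range fun f : 𝓕 => |f.1 a - f.1 b|) := by
  refine ⟨1, ?_⟩
  rintro _ ⟨f, rfl⟩
  have h1 := h.rg f.1 f.2 a
  have h2 := h.rg f.1 f.2 b
  rw [abs_le]
  exact ⟨by linarith [h1.1, h2.2], by linarith [h1.2, h2.1]⟩

private theorem df_nn (a b : A) : 0 ≤ DF 𝓕 a b := Real.iSup_nonneg fun _ => abs_nonneg _

private theorem df_zero {a b : A} (h : ∀ f ∈ 𝓕, f a = f b) : DF 𝓕 a b = 0 := by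
  refine le_antisymm (Real.iSup_le (fun f => ?_) le_rfl) (df_nn a b)
  rw [h f.1 f.2, sub_self, abs_zero]

private theorem near_fin (hc : TCpt pv bv ht) (hT : TIm pv bv ht p hv ev) (hq : q ≤ p)
    (h : Fam pv bv ht ev o q 𝓕) {r : P} (hr : r ≤ q) {a : A} (ha : r ∈ pv a) {δ : ℝ}
    (hδ : 0 < δ) (𝓖 : Finset (A → ℝ)) (hG : (𝓖 : Set (A → ℝ)) ⊆ 𝓕) :
    ∃ r1 ≤ r, ∃ s, r1 ∈ hv a s ∧
      ∀ r' ≤ r1, ∀ b, r' ∈ pv b → r' ∈ hv b s → ∀ g ∈ 𝓖, |g b - g a| < δ := by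
  classical
  induction 𝓖 using Finset.induction_on with
  | empty =>
    obtain ⟨r1, hr1, s, hs⟩ := hT.cv r (hr.trans hq) a ha
    exact ⟨r1, hr1, s, hs, fun _ _ _ _ _ g hg => absurd hg (Finset.notMem_empty g)⟩
  | insert g 𝓖 _ ih =>
    have hG' : (𝓖 : Set (A → ℝ)) ⊆ 𝓕 := fun f hf => hG (Finset.mem_insert_of_mem hf)
    obtain ⟨r1, hr1, s, hs, h1⟩ := ih hG'
    have hg : g ∈ 𝓕 := hG (Finset.mem_insert_self g 𝓖)
    obtain ⟨r2, hr2, t, ht', h2⟩ := near hc hT hq h hg (hr1.trans hr) (dn hr1 ha) hδ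
    obtain ⟨r3, hr3, u, hu, h3⟩ := hT.dr r2 ((hr2.trans (hr1.trans hr)).trans hq) a s t
      (dn (hr2.trans hr1) ha) (dn hr2 hs) ht'
    refine ⟨r3, hr3.trans (hr2.trans hr1), u, hu, fun r' hr' b hb hbu f hf => ?_⟩
    have h4 := h3 r' hr' b hb hbu
    rw [Finset.mem_insert] at hf
    rcases hf with hf | hf
    · rw [hf]
      exact h2 r' (hr'.trans hr3) b hb h4.2
    · exact h1 r' (hr'.trans (hr3.trans hr2)) b hb h4.1 f hf

end

theorem tqm {P : Type} [PartialOrder P] {A C : Type} {pv : A → RO P} {bv : C → RO P}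
    {ht : A → C → Prop} (hc : TCpt pv bv ht) {p : P} {hv : A → ℝ → RO P} {ev : A → A → RO P}
    (hT : TIm pv bv ht p hv ev) {o : A} {q : P} (hq : q ≤ p) {𝓕 : Set (A → ℝ)}
    (h : Fam pv bv ht ev o q 𝓕) : TQm pv q hv ev (DF 𝓕) := by
  have hle : ∀ (f : 𝓕) (a b : A), |f.1 a - f.1 b| ≤ DF 𝓕 a b := fun f a b =>
    le_ciSup (df_bdd h a b) f
  refine
    { nn := df_nn
      sy := fun a b => ?_
      tr := fun a b c => ?_
      eq := fun r hr a b ha hb => ?_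
      ls := fun r hr a b x ha hb hx => ?_
      fr := fun O r hr ε hε hO hr0 => ?_ }
  · unfold DF
    refine iSup_congr fun f => ?_
    exact abs_sub_comm _ _
  · refine Real.iSup_le (fun f => ?_) (add_nonneg (df_nn a b) (df_nn b c))
    exact (abs_sub_le (f.1 a) (f.1 b) (f.1 c)).trans (add_le_add (hle f a b) (hle f b c))
  · rw [h.eq r hr a b ha hb]
    constructor
    · intro h0 f hf
      have h1 := hle ⟨f, hf⟩ a b
      rw [h0] at h1
      exact sub_eq_zero.1 (abs_nonpos_iff.1 h1)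
    · exact df_zero
  · by_cases hx0 : x < 0
    · obtain ⟨r1, hr1, s, hs⟩ := hT.cv r (hr.trans hq) a ha
      obtain ⟨r2, hr2, t, ht'⟩ := hT.cv r1 (hr1.trans (hr.trans hq)) b (dn hr1 hb)
      exact ⟨r2, hr2.trans hr1, s, t, dn hr2 hs, ht', fun _ _ a' b' _ _ _ _ =>
        hx0.trans_le (df_nn a' b')⟩
    · rw [not_lt] at hx0
      have hne : Nonempty 𝓕 := by
        by_contra hem
        rw [not_nonempty_iff] at hem
        unfold DF at hx
        rw [Real.iSup_of_isEmpty] at hx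
        exact absurd hx (not_lt.2 hx0)
      obtain ⟨f, hf⟩ := exists_lt_of_lt_ciSup hx
      have hδ : 0 < (|f.1 a - f.1 b| - x) / 2 := half_pos (sub_pos.2 hf)
      obtain ⟨r1, hr1, s, hs, h1⟩ := near hc hT hq h f.2 hr ha hδ
      obtain ⟨r2, hr2, t, ht', h2⟩ := near hc hT hq h f.2 (hr1.trans hr) (dn hr1 hb) hδ
      refine ⟨r2, hr2.trans hr1, s, t, dn hr2 hs, ht', fun r' hr' a' b' ha' hb' hs' ht'' => ?_⟩
      have h3 := h1 r' (hr'.trans hr2) a' ha' hs'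
      have h4 := h2 r' hr' b' hb' ht''
      refine lt_of_lt_of_le ?_ (hle f a' b')
      have h5 := abs_sub_le (f.1 a) (f.1 a') (f.1 b)
      have h6 := abs_sub_le (f.1 a') (f.1 b') (f.1 b)
      rw [abs_sub_comm (f.1 a) (f.1 a')] at h5
      linarith
  · by_cases hcase : ∃ r' ≤ r, ∃ a, r' ∈ O a ∧ ∃ f ∈ 𝓕, f a ≠ f o
    · obtain ⟨r', hr', a, ha, hfa⟩ := hcase
      obtain ⟨𝓖, hG, δ, hδ, h1⟩ := h.fr a hfa (ε / 2) (half_pos hε)
      obtain ⟨r1, hr1, s, hs, h2⟩ := near_fin hc hT hq h (hr'.trans hr) (hO a r' ha) hδ 𝓖 hG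
      refine ⟨r1, hr1.trans hr', s, ⟨a, dn hr1 ha, hs⟩, fun r'' hr'' a' b' ha' hb' hsa hsb => ?_⟩
      have h3 := h2 r'' hr'' a' (hO a' r'' ha') hsa
      have h4 := h2 r'' hr'' b' (hO b' r'' hb') hsb
      have h5 : DF 𝓕 a' b' ≤ ε / 2 := Real.iSup_le
        (fun f => (h1 a' b' (fun g hg => ⟨h3 g hg, h4 g hg⟩) f.1 f.2).le) (half_pos hε).le
      linarith
    · obtain ⟨a, ha⟩ := hr0
      obtain ⟨r1, hr1, s, hs⟩ := hT.cv r (hr.trans hq) a (hO a r ha)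
      have h1 : ∀ r' ≤ r1, ∀ a', r' ∈ O a' → ∀ f ∈ 𝓕, f a' = f o := by
        intro r' hr' a' ha' f hf
        by_contra hne
        exact hcase ⟨r', hr'.trans hr1, a', ha', f, hf, hne⟩
      refine ⟨r1, hr1, s, ⟨a, dn hr1 ha, hs⟩, fun r' hr' a' b' ha' hb' _ _ => ?_⟩
      rw [df_zero fun f hf => (h1 r' hr' a' ha' f hf).trans (h1 r' hr' b' hb' f hf).symm]
      exact hε

end RNC
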