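import Mathlib

/-! # Components of a graph with countable degrees (package R21)

(problem MP_9bfcae_gt, project RNC)

`comp_countable`. PROOF. `{i | ReflTransGen r j i}` is the union over `n : ℕ` of the sets `S n`, where
`S 0 = {j}` and `S (n + 1) = ⋃ k ∈ S n, {i | r k i}` (induction on `ReflTransGen`); each `S n` is
countable by induction (`Set.Countable.biUnion`). -/

set_option autoImplicit false

namespace RNC

theorem comp_countable {ι : Type} (r : ι → ι → Prop) (hc : ∀ j, {i | r j i}.Countable) (j : ι) :
    {i | Relation.ReflTransGen r j i}.Countable := by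
  obtain ⟨S, hS0, hS⟩ : ∃ S : ℕ → Set ι, S 0 = {j} ∧ ∀ n, S (n + 1) = ⋃ k ∈ S n, {i | r k i} :=
    ⟨fun n => Nat.rec {j} (fun _ T => ⋃ k ∈ T, {i | r k i}) n, rfl, fun n => rfl⟩
  have h1 : ∀ n, (S n).Countable := by
    intro n
    induction n with
    | zero =>
      rw [hS0]
      exact Set.countable_singleton j
    | succ n ih =>
      rw [hS]
      exact ih.biUnion fun k _ => hc k
  refine (Set.countable_iUnion h1).mono fun i hi => ?_
  have hi' : Relation.ReflTransGen r j i := hi
  clear hi
  rw [Set.mem_iUnion]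
  induction hi' with
  | refl => exact ⟨0, by rw [hS0]; exact Set.mem_singleton j⟩
  | @tail b c _ hbc ih =>
    obtain ⟨n, hn⟩ := ih
    refine ⟨n + 1, ?_⟩
    rw [hS, Set.mem_iUnion₂]
    exact ⟨b, hn, hbc⟩

end RNC
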