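import Pool.Agent.RNC.VOne
import Pool.Agent.RNC.VCls

/-! # The family of functions (package R24)

(problem MP_9bfcae_gt, project RNC)

`va`. PROOF. Let `r := Aj N s oo` (symmetric by `adj_symm`). For `j : ι` let
`J j := {i | Relation.ReflTransGen r j i}`; it is countable (`comp_countable`, `adj_countable`) and
closed under `r`, and `J i = J j` if `i ∈ J j` (symmetry). Let `JJ` be the set of the sets `J j`;
different elements of `JJ` are disjoint. For `K ∈ JJ` choose `F K : ℕ → X → ℝ` by `one` and let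
`𝓕 := {f | ∃ K ∈ JJ, ∃ n, f = fun x => F K n x / 2 ^ n}`.
* `f` continuous, values in `[0, 1]`, invariant: clear.
* Separation: suppose `f x = f y` for all `f ∈ 𝓕`, so `F K n x = F K n y` for all `K`, `n`. If `¬
  s x oo` then
  `x ≠ oo`, `x ∈ N i`, `Prt N s oo (J i) x` and `s x y` by `one`. If `¬ s y oo`, the same with
  `x`, `y`
  exchanged. If both are equivalent to `oo` then `s x y`.
* The last property: let `¬ s x oo`, `x ∈ N i`, `K := J i`, `Prt N s oo K x`. Some `F K n0 x ≠ 0`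
  (otherwise `F K n x = 0 = F K n oo` for all `n`, as `¬ Prt N s oo K oo`, so `s x oo`). Let
  `g0 x := F K n0 x / 2 ^ n0 > 0`, `1 / 2 ^ M < ε`, `𝓖 := {F K n / 2 ^ n | n < M} ∪ {g0}` (a
  finite set: `Finset.image` over `Finset.range (max M (n0 + 1))`, with classical decidability),
  `δ := min (g0 x) (ε / 2)`. Let `y`, `z` be as in the statement. Then
  `g0 y > 0`, so `Prt N s oo K y`, and the same for `z`. If `K' ∈ JJ`, `K' ≠ K`, then
  `¬ Prt N s oo K' y`: otherwise `y ∈ N k ∩ N k'` with `k ∈ K`, `k' ∈ K'`, `¬ s y oo`, so `r k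
  k'`, `k' ∈ K`,
  `K ∩ K' ≠ ∅`. So `F K' n y = 0 = F K' n z`. For `K`: `n < M`: `|f y - f z| ≤ |f y - f x| + |f z
  - f x| < 2 δ
  ≤ ε`. `n ≥ M`: `|f y - f z| ≤ 1 / 2 ^ n ≤ 1 / 2 ^ M < ε`. -/

set_option autoImplicit false

namespace RNC

variable {X : Type} [TopologicalSpace X] [CompactSpace X] [T2Space X] {ι : Type} {oo : X}
  {N : ι → Set X} {s : Setoid X}

/-- the component of the index `j` -/
private def Jc (N : ι → Set X) (s : Setoid X) (oo : X) (j : ι) : Set ι :=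
  {i | Relation.ReflTransGen (Aj N s oo) j i}

omit [TopologicalSpace X] [CompactSpace X] [T2Space X] in
private theorem jc_closed {j : ι} : ∀ i ∈ Jc N s oo j, ∀ k, Aj N s oo i k → k ∈ Jc N s oo j :=
  fun _ hi _ hk => Relation.ReflTransGen.tail hi hk

private theorem jc_eq {i j : ι} (hi : i ∈ Jc N s oo j) : Jc N s oo i = Jc N s oo j := by
  have h1 : Relation.ReflTransGen (Aj N s oo) j i := hi
  have h2 : Relation.ReflTransGen (Aj N s oo) i j :=
    Relation.ReflTransGen.mono (fun _ _ h => adj_symm h) _ _ (Relation.reflTransGen_swap.2 h1)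
  ext k
  exact ⟨fun hk => h1.trans hk, fun hk => h2.trans hk⟩

theorem va (h : Pcs oo N s) :
    ∃ 𝓕 : Set (X → ℝ), (∀ f ∈ 𝓕, Continuous f) ∧ (∀ f ∈ 𝓕, ∀ x, f x ∈ Set.Icc (0 : ℝ) 1) ∧
      (∀ f ∈ 𝓕, ∀ x y, s x y → f x = f y) ∧ (∀ x y, (∀ f ∈ 𝓕, f x = f y) → s x y) ∧
      ∀ x, ¬ s x oo → ∀ ε : ℝ, 0 < ε → ∃ 𝓖 : Finset (X → ℝ), ↑𝓖 ⊆ 𝓕 ∧ ∃ δ : ℝ, 0 < δ ∧
        ∀ y z, (∀ g ∈ 𝓖, |g y - g x| < δ ∧ |g z - g x| < δ) → ∀ f ∈ 𝓕, |f y - f z| < ε := by
  classical
  have hex : ∀ K : Set ι, ∃ f : ℕ → X → ℝ, K.Countable →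
      (∀ i ∈ K, ∀ j, Aj N s oo i j → j ∈ K) → (∀ n, Continuous (f n)) ∧
      (∀ n x, f n x ∈ Set.Icc (0 : ℝ) 1) ∧
      (∀ n x y, s x y → f n x = f n y) ∧ (∀ n x, ¬ Prt N s oo K x → f n x = 0) ∧
      ∀ x y, Prt N s oo K x → (∀ n, f n x = f n y) → s x y := by
    intro K
    by_cases h1 : K.Countable ∧ ∀ i ∈ K, ∀ j, Aj N s oo i j → j ∈ K
    · obtain ⟨f, hf⟩ := one h K h1.1 h1.2
      exact ⟨f, fun _ _ => hf⟩
    · exact ⟨fun _ _ => 0, fun h2 h3 => absurd ⟨h2, h3⟩ h1⟩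
  choose F hF using hex
  have hc : ∀ j, (Jc N s oo j).Countable := fun j =>
    comp_countable _ (fun i => adj_countable h i) j
  have F1 : ∀ j n, Continuous (F (Jc N s oo j) n) := fun j => (hF _ (hc j) jc_closed).1
  have F2 : ∀ j n x, F (Jc N s oo j) n x ∈ Set.Icc (0 : ℝ) 1 := fun j =>
    (hF _ (hc j) jc_closed).2.1
  have F3 : ∀ j n x y, s x y → F (Jc N s oo j) n x = F (Jc N s oo j) n y := fun j =>
    (hF _ (hc j) jc_closed).2.2.1
  have F4 : ∀ j n x, ¬ Prt N s oo (Jc N s oo j) x → F (Jc N s oo j) n x = 0 := fun j =>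
    (hF _ (hc j) jc_closed).2.2.2.1
  have F5 : ∀ j x y, Prt N s oo (Jc N s oo j) x →
      (∀ n, F (Jc N s oo j) n x = F (Jc N s oo j) n y) → s x y := fun j =>
    (hF _ (hc j) jc_closed).2.2.2.2
  have hprt : ∀ x, ¬ s x oo → ∃ i, Prt N s oo (Jc N s oo i) x := by
    intro x hx
    have hne : x ≠ oo := fun he => hx (he ▸ s.refl' x)
    obtain ⟨i, hi⟩ := h.cov x hne
    exact ⟨i, i, Relation.ReflTransGen.refl, hi, hx⟩
  have hp2 : ∀ n : ℕ, (0 : ℝ) < 2 ^ n := fun n => by positivity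
  have hval : ∀ j n x, 0 ≤ F (Jc N s oo j) n x / 2 ^ n ∧
      F (Jc N s oo j) n x / 2 ^ n ≤ 1 / 2 ^ n := fun j n x =>
    ⟨div_nonneg (F2 j n x).1 (hp2 n).le, div_le_div_of_nonneg_right (F2 j n x).2 (hp2 n).le⟩
  refine ⟨{f | ∃ j n, f = fun x => F (Jc N s oo j) n x / 2 ^ n}, ?_, ?_, ?_, ?_, ?_⟩
  · rintro f ⟨j, n, rfl⟩
    exact (F1 j n).div_const _
  · rintro f ⟨j, n, rfl⟩ x
    refine ⟨(hval j n x).1, (hval j n x).2.trans ?_⟩
    rw [div_le_one (hp2 n)]
    exact one_le_pow₀ (by norm_num)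
  · rintro f ⟨j, n, rfl⟩ x y hxy
    change F (Jc N s oo j) n x / 2 ^ n = F (Jc N s oo j) n y / 2 ^ n
    rw [F3 j n x y hxy]
  · intro x y hxy
    have h1 : ∀ j n, F (Jc N s oo j) n x = F (Jc N s oo j) n y := by
      intro j n
      have h2 : F (Jc N s oo j) n x / 2 ^ n = F (Jc N s oo j) n y / 2 ^ n := hxy _ ⟨j, n, rfl⟩
      exact (div_left_inj' (hp2 n).ne').1 h2
    by_cases hx : s x oo
    · by_cases hy : s y oo
      · exact s.trans' hx (s.symm' hy)
      · obtain ⟨i, hi⟩ := hprt y hy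
        exact s.symm' (F5 i y x hi fun n => (h1 i n).symm)
    · obtain ⟨i, hi⟩ := hprt x hx
      exact F5 i x y hi fun n => h1 i n
  · intro x hx ε hε
    obtain ⟨i, hi⟩ := hprt x hx
    have hoo : ¬ Prt N s oo (Jc N s oo i) oo := by
      rintro ⟨k, -, -, h2⟩
      exact h2 (s.refl' oo)
    have hn0 : ∃ n0, F (Jc N s oo i) n0 x ≠ 0 := by
      by_contra hcon
      push Not at hcon
      exact hx (F5 i x oo hi fun n => by rw [hcon n, F4 i n oo hoo])
    obtain ⟨n0, hn0⟩ := hn0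
    have hg0 : 0 < F (Jc N s oo i) n0 x / 2 ^ n0 :=
      div_pos (lt_of_le_of_ne (F2 i n0 x).1 (Ne.symm hn0)) (hp2 n0)
    obtain ⟨M, hM⟩ := exists_pow_lt_of_lt_one hε (show (1 / 2 : ℝ) < 1 by norm_num)
    have hM' : ∀ n, M ≤ n → (1 : ℝ) / 2 ^ n < ε := by
      intro n hn
      have h1 : (1 / 2 : ℝ) ^ n ≤ (1 / 2 : ℝ) ^ M :=
        pow_le_pow_of_le_one (by norm_num) (by norm_num) hn
      rw [one_div, ← inv_pow, ← one_div]
      exact h1.trans_lt hM
    refine ⟨insert (fun x => F (Jc N s oo i) n0 x / 2 ^ n0)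
      ((Finset.range M).image fun n => fun x => F (Jc N s oo i) n x / 2 ^ n), ?_,
      min (F (Jc N s oo i) n0 x / 2 ^ n0) (ε / 2), lt_min hg0 (by linarith), ?_⟩
    · intro g hg
      rw [Finset.mem_coe, Finset.mem_insert, Finset.mem_image] at hg
      rcases hg with rfl | ⟨n, -, rfl⟩
      · exact ⟨i, n0, rfl⟩
      · exact ⟨i, n, rfl⟩
    · intro y z hyz f hf
      obtain ⟨j, n, rfl⟩ := hf
      have h1 := hyz _ (Finset.mem_insert_self _ _)
      have hpos : ∀ w, |F (Jc N s oo i) n0 w / 2 ^ n0 - F (Jc N s oo i) n0 x / 2 ^ n0| <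
          min (F (Jc N s oo i) n0 x / 2 ^ n0) (ε / 2) → Prt N s oo (Jc N s oo i) w := by
        intro w hw
        by_contra hcon
        rw [F4 i n0 w hcon, zero_div, zero_sub, abs_neg, abs_of_pos hg0] at hw
        exact absurd (hw.trans_le (min_le_left _ _)) (lt_irrefl _)
      have hy := hpos y h1.1
      have hz := hpos z h1.2
      change |F (Jc N s oo j) n y / 2 ^ n - F (Jc N s oo j) n z / 2 ^ n| < ε
      by_cases hK : Jc N s oo j = Jc N s oo i
      · rw [hK]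
        rcases lt_or_ge n M with hn | hn
        · have h2 := hyz (fun x => F (Jc N s oo i) n x / 2 ^ n)
            (Finset.mem_insert_of_mem (Finset.mem_image.2 ⟨n, Finset.mem_range.2 hn, rfl⟩))
          have h3 := h2.1.trans_le (min_le_right _ _)
          have h4 := h2.2.trans_le (min_le_right _ _)
          rw [abs_lt] at h3 h4 ⊢
          constructor <;> linarith
        · have h2 := hval i n y
          have h3 := hval i n z
          have h4 := hM' n hn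
          rw [abs_lt]
          constructor <;> linarith
      · have hno : ∀ w, Prt N s oo (Jc N s oo i) w → ¬ Prt N s oo (Jc N s oo j) w := by
          rintro w ⟨k, hk, hwk, hw⟩ ⟨k', hk', hwk', -⟩
          have h2 : k' ∈ Jc N s oo i := jc_closed k hk k' ⟨w, hwk, w, hwk', s.refl' w, hw⟩
          exact hK ((jc_eq hk').symm.trans (jc_eq h2))
        rw [F4 j n y (hno y hy), F4 j n z (hno z hz)]
        simpa using hε

end RNC
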