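import Pool.Agent.RNC.VPc
import Pool.Agent.RNC.VFam

/-! # The functions on the small space (package R27)

(problem MP_9bfcae_gt, project RNC)

`vthm`. PROOF. Give `SC T Γ I` the topology `topC W u Γ I`, compact (`sc_cpt`) and Hausdorff
(`sc_t2`). `s` is the restriction of `E` to `SC T Γ I`. The set `{p | s p.1 p.2}` is closed: its
complement is open by `hcl` (the sets of the points in the codes `c`, `d` are open by
`TopologicalSpace.isOpen_generateFrom_of_mem`, their product is a neighbourhood). By `sc_pcs` and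
`va` there is a family `𝓕'` of functions on `SC T Γ I`. For `f ∈ 𝓕'` let `f̃ a := f ⟨a, h⟩` if
`h : inA Γ I a` and `f̃ a := 0` otherwise, and `𝓕 := {f̃ | f ∈ 𝓕'}`. Continuity: `f` is continuous at
`⟨a, ha⟩`, so `{b | |f b - f a| < ε}` is an open set containing it; by `sc_basis` there is a code `c` over
`Γ`, `I` between. For the last property take the set of the `g̃`, `g ∈ 𝓖'` (`Finset.image`). -/

set_option autoImplicit false

namespace RNC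

open STP

/-- a family of functions on the points over `Γ`, `I` which separates the classes of `E` -/
structure FamC {T : Type} (W : ℕ → Set T) (u : Lad → Ix → Ct → T) (Γ : Set Lad) (I : Set Ix)
    (E : PT T → PT T → Prop) (𝓕 : Set (PT T → ℝ)) : Prop where
  rg : ∀ f ∈ 𝓕, ∀ a, inA Γ I a → f a ∈ Set.Icc (0 : ℝ) 1
  iv : ∀ f ∈ 𝓕, ∀ a b, inA Γ I a → inA Γ I b → E a b → f a = f b
  sp : ∀ a b, inA Γ I a → inA Γ I b → (∀ f ∈ 𝓕, f a = f b) → E a b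
  ct : ∀ f ∈ 𝓕, ∀ a, inA Γ I a → ∀ ε : ℝ, 0 < ε → ∃ c, inC Γ I c ∧ hit W u a c ∧
    ∀ b, inA Γ I b → hit W u b c → |f b - f a| < ε
  fr : ∀ a, inA Γ I a → ¬ E a .oo → ∀ ε : ℝ, 0 < ε → ∃ 𝓖 : Finset (PT T → ℝ), ↑𝓖 ⊆ 𝓕 ∧
    ∃ δ : ℝ, 0 < δ ∧ ∀ b c, inA Γ I b → inA Γ I c →
      (∀ g ∈ 𝓖, |g b - g a| < δ ∧ |g c - g a| < δ) → ∀ f ∈ 𝓕, |f b - f c| < ε

theorem vthm {T : Type} [TopologicalSpace T] [T2Space T] [CompactSpace T] {W : ℕ → Set T}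
    {u : Lad → Ix → Ct → T} (hF : Fb W u) {Γ : Set Lad} {I : Set Ix} (hΓ : Free Γ)
    (hct : ∀ g ∈ Γ, g.1.Countable) (hI : ∀ g ∈ Γ, g.1 ⊆ I) (E : PT T → PT T → Prop)
    (hE : Equivalence E)
    (hcl : ∀ a b, inA Γ I a → inA Γ I b → ¬ E a b → ∃ c d, inC Γ I c ∧ inC Γ I d ∧
      hit W u a c ∧ hit W u b d ∧ ∀ a' b', inA Γ I a' → inA Γ I b' → hit W u a' c →
        hit W u b' d → ¬ E a' b') :
    ∃ 𝓕, FamC W u Γ I E 𝓕 := by
  classical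
  letI : TopologicalSpace (SC T Γ I) := topC W u Γ I
  have hcpt : CompactSpace (SC T Γ I) := sc_cpt hF hΓ hI
  have ht2 : T2Space (SC T Γ I) := sc_t2 hF hΓ
  have hb := sc_basis (I := I) hF hΓ
  let s : Setoid (SC T Γ I) := ⟨fun a b => E a.1 b.1,
    ⟨fun a => hE.refl a.1, fun h => hE.symm h, fun h h' => hE.trans h h'⟩⟩
  have hs : IsClosed {p : SC T Γ I × SC T Γ I | s p.1 p.2} := by
    rw [← isOpen_compl_iff, isOpen_prod_iff]
    intro a b hab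
    obtain ⟨c, d, hc, hd, hac, hbd, h⟩ := hcl a.1 b.1 a.2 b.2 hab
    exact ⟨{x | hit W u x.1 c}, {x | hit W u x.1 d},
      TopologicalSpace.isOpen_generateFrom_of_mem ⟨c, hc, rfl⟩,
      TopologicalSpace.isOpen_generateFrom_of_mem ⟨d, hd, rfl⟩, hac, hbd,
      fun p hp => h p.1.1 p.2.1 p.1.2 p.2.2 hp.1 hp.2⟩
  obtain ⟨ι, N, hN⟩ := sc_pcs hF hΓ hct hI s hs
  obtain ⟨𝓕', h1, h2, h3, h4, h5⟩ := va hN
  obtain ⟨ex, hex⟩ : ∃ ex : (SC T Γ I → ℝ) → PT T → ℝ,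
      ∀ f a, ∀ h : inA Γ I a, ex f a = f ⟨a, h⟩ :=
    ⟨fun f a => if h : inA Γ I a then f ⟨a, h⟩ else 0, fun f a h => dif_pos h⟩
  refine ⟨ex '' 𝓕', ?_, ?_, ?_, ?_, ?_⟩
  · rintro _ ⟨f, hf, rfl⟩ a ha
    rw [hex f a ha]
    exact h2 f hf _
  · rintro _ ⟨f, hf, rfl⟩ a b ha hb hab
    rw [hex f a ha, hex f b hb]
    exact h3 f hf _ _ hab
  · intro a b ha hb h
    refine h4 ⟨a, ha⟩ ⟨b, hb⟩ fun f hf => ?_
    have h6 := h _ ⟨f, hf, rfl⟩
    rwa [hex f a ha, hex f b hb] at h6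
  · rintro _ ⟨f, hf, rfl⟩ a ha ε hε
    have h6 : IsOpen {b : SC T Γ I | |f b - f ⟨a, ha⟩| < ε} :=
      isOpen_lt ((h1 f hf).sub continuous_const).abs continuous_const
    have h7 : (⟨a, ha⟩ : SC T Γ I) ∈ {b : SC T Γ I | |f b - f ⟨a, ha⟩| < ε} := by
      show |f ⟨a, ha⟩ - f ⟨a, ha⟩| < ε
      rw [sub_self, abs_zero]
      exact hε
    obtain ⟨_, ⟨c, hc, rfl⟩, hac, hsub⟩ := hb.exists_subset_of_mem_open h7 h6
    refine ⟨c, hc, hac, fun b hb' hbc => ?_⟩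
    rw [hex f a ha, hex f b hb']
    exact hsub (a := ⟨b, hb'⟩) hbc
  · intro a ha hne ε hε
    obtain ⟨𝓖', hG, δ, hδ, h6⟩ := h5 ⟨a, ha⟩ hne ε hε
    refine ⟨𝓖'.image ex, ?_, δ, hδ, fun b c hb' hc' h7 => ?_⟩
    · rw [Finset.coe_image]
      exact Set.image_mono hG
    · rintro _ ⟨f, hf, rfl⟩
      rw [hex f b hb', hex f c hc']
      refine h6 ⟨b, hb'⟩ ⟨c, hc'⟩ (fun g hg => ?_) f hf
      have h8 := h7 (ex g) (Finset.mem_image_of_mem _ hg)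
      rwa [hex g a ha, hex g b hb', hex g c hc'] at h8

end RNC
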