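import Pool.Agent.RNC.ImD
import Pool.Agent.RNC.ImE
import Pool.Agent.RNC.VTh
import Pool.Agent.RNC.CpT

/-! # Images of weight at most the continuum are Radon-Nikodym compact (package R33)

(problem MP_9bfcae_gt, project RNC)

`img`. PROOF. `supp` gives `q0 ≤ p`, `Γ`, `I`; `dec` gives `q ≤ q0` deciding `ev a b` for `a`, `b` over
`Γ`, `I`; `Sup.mono`. Let `E := Er ev q Γ I`. `Γ ⊆ q.F`, so `Free Γ` (a subset of the free set `q.F`) and
all `g ∈ Γ` are countable. `vthm` (with `er_eqv`, `er_cl`) gives `𝓕` with `FamC W u Γ I E 𝓕`. Let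
`𝓕' := {f' | ∃ f ∈ 𝓕, f' = fun a => f (rp Γ I a)}` and show `Fam pv bv (hit W u) ev oo q 𝓕'`:
* `rg`: clear (`rp_inA`).
* `eq`: `r ∈ ev a b ↔ E a b` (`er_iff`), and `E a b ↔ E (rp a) (rp b)` (`rp (rp a) = rp a`), which is
  equivalent to `∀ f ∈ 𝓕, f (rp a) = f (rp b)` by `iv` and `sp`.
* `ct`: let `r ≤ q`, `r ∈ pv a`. `FamC.ct` for `f` and `rp a` gives a code `c` over `Γ`, `I` containing `rp a`
  with `|f b - f (rp a)| < ε` for the `b` over `Γ`, `I` in `c`. `r ∈ bv c` since `Γ ⊆ r.F`. If `a` is over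
  `Γ`, `I`: `rp a = a` is in `c`. Otherwise `rp a = oo`, `c = cO G e`, `a = la g t` with `g ∉ Γ` or
  `a = ix b x` with `b ∉ I`; since `G ⊆ Γ`, `e ⊆ I`, `g'.1 ⊆ I` for `g' ∈ G`, `a` is in `c`. Let `b` be in
  `c`. If `b` is over `Γ`, `I`, `rp b = b`. Otherwise `rp b = oo`, and `c` is a `cO` (a point in `cI a' s` with
  `a' ∈ I` or in `cL g n e` with `g ∈ Γ` is over `Γ`, `I`, as `g.1 ⊆ I`), so `oo` is in `c`. In both cases
  `rp b` is over `Γ`, `I` and in `c`.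
* `fr`: `f (rp a) ≠ f oo` for some `f ∈ 𝓕` implies `¬ E (rp a) oo` by `iv` (`rp oo = oo`). `FamC.fr` for
  `rp a`; take the `Finset.image` of `𝓖` under `f ↦ fun a => f (rp a)`.
Then `tqm` with `tcpt hF`. -/

set_option autoImplicit false

namespace RNC

open STP Cardinal

private theorem if_hit {T : Type} {W : ℕ → Set T} {u : Lad → Ix → Ct → T} {Γ : Set Lad}
    {I : Set Ix} (hI : ∀ g ∈ Γ, g.1 ⊆ I) {c : BC} (hc : inC Γ I c) (a : PT T) :
    hit W u (rp Γ I a) c ↔ hit W u a c := by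
  by_cases ha : inA Γ I a
  · rw [rp_eq ha]
  rw [rp_oo ha]
  cases c with
  | cI b s =>
    refine ⟨fun h => absurd h (hit_oo_cI W u), fun h => ?_⟩
    cases a with
    | oo => exact absurd trivial ha
    | la g t => exact absurd h (hit_la_cI W u)
    | ix a x =>
      have h1 : a = b := ((hit_ix_cI W u).1 h).1
      exact absurd (h1 ▸ hc : a ∈ I) ha
  | cL g n e =>
    refine ⟨fun h => absurd h (hit_oo_cL W u), fun h => ?_⟩
    cases a with
    | oo => exact absurd trivial ha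
    | la g' t =>
      have h1 : g' = g := ((hit_la_cL W u).1 h).1
      exact absurd (h1 ▸ hc : g' ∈ Γ) ha
    | ix a x => exact absurd (hI g hc ((hit_ix_cL W u).1 h).1) ha
  | cO G e =>
    refine ⟨fun _ => ?_, fun _ => hit_oo_cO W u⟩
    cases a with
    | oo => exact hit_oo_cO W u
    | la g t => exact (hit_la_cO W u).2 fun h => ha (hc.1 g h)
    | ix a x =>
      exact (hit_ix_cO W u).2 ⟨fun h => ha (hc.2 a h), fun g hg h => ha (hI g (hc.1 g hg) h)⟩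

private theorem if_bv {Γ : Set Lad} {I : Set Ix} {r : Cd} (hr : Γ ⊆ r.F) {c : BC}
    (hc : inC Γ I c) : r ∈ bv c := by
  cases c with
  | cI b s => exact mem_bv_cI
  | cL g n e => exact mem_bv_cL.2 (hr hc)
  | cO G e => exact mem_bv_cO.2 fun g hg => hr (hc.1 g hg)

theorem img {T : Type} [TopologicalSpace T] [T2Space T] [CompactSpace T] (hTc : #T ≤ 𝔠)
    {W : ℕ → Set T} {u : Lad → Ix → Ct → T} (hF : Fb W u) {p : Cd} {hv : PT T → ℝ → RO Cd}
    {ev : PT T → PT T → RO Cd} (hT : TIm pv bv (hit W u) p hv ev) :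
    ∃ q ≤ p, ∃ D, TQm (pv (T := T)) q hv ev D := by
  classical
  obtain ⟨q0, hq0, Γ, I, hS0⟩ := supp hT
  obtain ⟨q, hq, hd⟩ := dec hTc hS0.cΓ hS0.cI ev q0
  have hS : Sup W u hv q Γ I := hS0.mono hq
  have hqp : q ≤ p := hq.trans hq0
  have hfree : Free Γ := by
    obtain ⟨e, he⟩ := q.free
    exact ⟨e, fun g hg g' hg' h => he g (hS.sΓ hg) g' (hS.sΓ hg') h⟩
  have hct : ∀ g ∈ Γ, g.1.Countable := fun g hg => q.ct g (hS.sΓ hg)
  have heq : Equivalence (Er ev q Γ I) := er_eqv hT hqp hS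
  obtain ⟨𝓕, hf⟩ := vthm hF hfree hct hS.sI (Er ev q Γ I) heq (er_cl hF hT hqp hS hd)
  have hrr : ∀ a b : PT T, Er ev q Γ I (rp Γ I a) (rp Γ I b) ↔ Er ev q Γ I a b := by
    intro a b
    unfold Er
    rw [rp_eq (rp_inA a), rp_eq (rp_inA b)]
  have hoo : rp Γ I (.oo : PT T) = .oo := rp_eq trivial
  let 𝓕' : Set (PT T → ℝ) := {f' | ∃ f ∈ 𝓕, f' = fun a => f (rp Γ I a)}
  have hfam : Fam pv bv (hit W u) ev .oo q 𝓕' := by
    refine ⟨?_, ?_, ?_, ?_⟩
    · rintro f' ⟨f, h, rfl⟩ a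
      exact hf.rg f h _ (rp_inA a)
    · intro r hr a b ha hb
      rw [er_iff hT hqp hS hd hr ha hb, ← hrr a b]
      constructor
      · rintro h f' ⟨f, h1, rfl⟩
        exact hf.iv f h1 _ _ (rp_inA a) (rp_inA b) h
      · intro h
        exact hf.sp _ _ (rp_inA a) (rp_inA b) fun f h1 => h _ ⟨f, h1, rfl⟩
    · rintro f' ⟨f, h, rfl⟩ r hr a ha ε hε
      obtain ⟨c, hc, hac, hb⟩ := hf.ct f h _ (rp_inA a) ε hε
      refine ⟨r, le_rfl, c, if_bv (hS.sΓ.trans hr.2.1) hc, (if_hit hS.sI hc a).1 hac, ?_⟩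
      intro b hbc
      exact hb _ (rp_inA b) ((if_hit hS.sI hc b).2 hbc)
    · rintro a ⟨f', ⟨f, h, rfl⟩, hne⟩ ε hε
      have h1 : ¬ Er ev q Γ I (rp Γ I a) .oo := by
        intro h2
        refine hne ?_
        change f (rp Γ I a) = f (rp Γ I .oo)
        rw [hoo]
        exact hf.iv f h _ _ (rp_inA a) trivial h2
      obtain ⟨𝓖, hG, δ, hδ, h3⟩ := hf.fr _ (rp_inA a) h1 ε hε
      refine ⟨𝓖.image fun (g : PT T → ℝ) (x : PT T) => g (rp Γ I x), ?_, δ, hδ, ?_⟩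
      · intro g' hg'
        obtain ⟨g, hg, rfl⟩ := Finset.mem_image.1 (Finset.mem_coe.1 hg')
        exact ⟨g, hG (Finset.mem_coe.2 hg), rfl⟩
      · rintro b c hbc f'' ⟨g, hg, rfl⟩
        refine h3 _ _ (rp_inA b) (rp_inA c) (fun g' hg' => ?_) g hg
        exact hbc _ (Finset.mem_image.2 ⟨g', hg', rfl⟩)
  exact ⟨q, hqp, DF 𝓕', tqm (tcpt hF) hT hqp hfam⟩

end RNC
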