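import Pool.Agent.RNC.LmB

/-! # The metric on `Z` fragments `Z` (package R13)

(problem MP_9bfcae_gt, project RNC)

`dl_frg`. PROOF. Let `N` be a natural number with `1 / (1 + N) < ε`.
Case 1: there are `r ≤ q`, `a`, `x` with `r ∈ O (ix a x)`. Take this `r` and `c := cI a (sg x N)`. Its points
are the `ix a y` with `y i = x i` for `i < N`; for two different ones, `y`, `z`: `fd y z ≥ N` (`fd_ne`,
otherwise `y` and `z` agree at `fd y z < N`), so `DL = 1 / (1 + fd y z) ≤ 1 / (1 + N) < ε`; for equal ones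
`DL = 0`.
Case 2: not Case 1, and there are `r ≤ q`, `g`, `t` with `r ∈ O (la g t)`. Then `g ∈ r.F` (`O a ≤ pv a`).
Take `c := cL g (encode (sg t N)) ∅`. For `r' ≤ r` and `r' ∈ O a`, `hit a c`: `a` is not some `ix`, by
not Case 1 (`r' ≤ q`), so `a = la g t'` with `t' i = t i` for `i < N`. For two different such points
`DL = wt g (fd t' t'') ≤ 1 / (1 + fd t' t'') ≤ 1 / (1 + N) < ε` (`wt_le`).
Case 3: neither. Then `q ∈ O a` gives `a = oo`; take `r = q`, `c := cO ∅ ∅`; for `r' ≤ q` only `oo` can be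
in `O` and `DL oo oo = 0 < ε`.

`tgmL`: put everything together (`DL_nn`, `DL_eq`, `DL_sy`, `DL_tr`, `dl_lsc`, `dl_frg`). -/

set_option autoImplicit false

namespace RNC

open STP

theorem dl_frg (O : PT Ct → RO Cd) (q : Cd) (ε : ℝ) (hε : 0 < ε) (hO : ∀ a, O a ≤ pv a)
    (hne : ∃ a, q ∈ O a) :
    ∃ r ≤ q, ∃ c, r ∈ bv c ∧ (∃ a, r ∈ O a ∧ hit WL uL a c) ∧
      ∀ r' ≤ r, ∀ a b, r' ∈ O a → r' ∈ O b → hit WL uL a c → hit WL uL b c → DL a b < ε := by
  obtain ⟨N, hN⟩ := exists_nat_one_div_lt hε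
  have hfd : ∀ {x y z : Ct}, Ext y (sg x N) → Ext z (sg x N) → y ≠ z → N ≤ fd y z := by
    intro x y z hy hz hne
    rw [in_seg] at hy hz
    by_contra hlt
    rw [not_le] at hlt
    exact fd_ne hne ((hy _ hlt).trans (hz _ hlt).symm)
  have hfrac : ∀ n : ℕ, N ≤ n → 1 / (1 + (n : ℝ)) < ε := by
    intro n hn
    refine lt_of_le_of_lt ?_ hN
    have h1 : (N : ℝ) ≤ n := by exact_mod_cast hn
    exact one_div_le_one_div_of_le (by positivity) (by linarith)
  by_cases h1 : ∃ r ≤ q, ∃ a x, r ∈ O (.ix a x)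
  · obtain ⟨r, hr, a, x, hrO⟩ := h1
    refine ⟨r, hr, .cI a (sg x N), mem_bv_cI, ⟨.ix a x, hrO, rfl, in_seg.2 fun _ _ => rfl⟩,
      fun r' _ b b' _ _ hb hb' => ?_⟩
    cases b with
    | oo => exact hb.elim
    | la g t => exact hb.elim
    | ix c y =>
      cases b' with
      | oo => exact hb'.elim
      | la g t => exact hb'.elim
      | ix c' z =>
        obtain ⟨e1, e2⟩ : c = a ∧ Ext y (sg x N) := hb
        obtain ⟨e3, e4⟩ : c' = a ∧ Ext z (sg x N) := hb'
        subst e1
        subst e3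
        by_cases hyz : y = z
        · have h2 : DL (.ix c' y) (.ix c' z) = 0 := (DL_eq _ _).2 (by rw [hyz])
          rw [h2]
          exact hε
        · have h2 : DL (.ix c' y) (.ix c' z) = 1 / (1 + fd y z) := by
            simp only [DL, if_neg hyz, if_true]
          rw [h2]
          exact hfrac _ (hfd e2 e4 hyz)
  · by_cases h2 : ∃ r ≤ q, ∃ g t, r ∈ O (.la g t)
    · obtain ⟨r, hr, g, t, hrO⟩ := h2
      have hg : g ∈ r.F := RO.le_def.1 (hO (.la g t)) r hrO
      have hW : ∀ y : Ct, y ∈ WL (Encodable.encode (sg t N)) ↔ Ext y (sg t N) := by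
        intro y
        constructor
        · rintro ⟨s, hs, hy⟩
          rw [Encodable.encode_injective hs] at hy
          exact hy
        · exact fun hy => ⟨_, rfl, hy⟩
      refine ⟨r, hr, .cL g (Encodable.encode (sg t N)) ∅, hg,
        ⟨.la g t, hrO, rfl, (hW t).2 (in_seg.2 fun _ _ => rfl)⟩,
        fun r' hr' b b' hbO hbO' hb hb' => ?_⟩
      cases b with
      | oo => exact hb.elim
      | ix c y => exact absurd ⟨r', hr'.trans hr, c, y, hbO⟩ h1
      | la g1 t1 =>
        cases b' with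
        | oo => exact hb'.elim
        | ix c y => exact absurd ⟨r', hr'.trans hr, c, y, hbO'⟩ h1
        | la g2 t2 =>
          obtain ⟨e1, e2⟩ : g1 = g ∧ t1 ∈ WL (Encodable.encode (sg t N)) := hb
          obtain ⟨e3, e4⟩ : g2 = g ∧ t2 ∈ WL (Encodable.encode (sg t N)) := hb'
          subst e1
          subst e3
          rw [hW] at e2 e4
          by_cases htt : t1 = t2
          · have h3 : DL (.la g2 t1) (.la g2 t2) = 0 := (DL_eq _ _).2 (by rw [htt])
            rw [h3]
            exact hε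
          · have h3 : DL (.la g2 t1) (.la g2 t2) = wt g2 (fd t1 t2) := by
              simp only [DL, if_neg htt, if_true]
            rw [h3]
            exact (wt_le _ _).trans_lt (hfrac _ (hfd e2 e4 htt))
    · have key : ∀ r' ≤ q, ∀ a, r' ∈ O a → a = .oo := by
        intro r' hr' a ha
        cases a with
        | oo => rfl
        | la g t => exact absurd ⟨r', hr', g, t, ha⟩ h2
        | ix c y => exact absurd ⟨r', hr', c, y, ha⟩ h1
      obtain ⟨a, ha⟩ := hne
      have ha' := key q le_rfl a ha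
      subst ha'
      refine ⟨q, le_rfl, .cO ∅ ∅, mem_bv_cO.2 fun g hg => absurd hg (Finset.notMem_empty g),
        ⟨.oo, ha, trivial⟩, fun r' hr' b b' hbO hbO' _ _ => ?_⟩
      rw [key r' hr' b hbO, key r' hr' b' hbO', (DL_eq _ _).2 rfl]
      exact hε

theorem tgmL (hL : Fb WL uL) : TGM (pv (T := Ct)) bv (hit WL uL) DL := by
  exact ⟨DL_nn, DL_eq, DL_sy, DL_tr, fun q a b x ha hb hx => dl_lsc hL q a b x ha hb hx,
    fun O q ε hε hO hne => dl_frg O q ε hε hO hne⟩

end RNC
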