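import Pool.Agent.RNC.Spc

/-! # Binary expansions (package R14)

(problem MP_9bfcae_gt, project RNC)

`bR y = ∑' j, y(j) / 2 ^ (j + 1)`. The terms are between `0` and `1 / 2 ^ (j + 1)` and
`∑' j, 1 / 2 ^ (j + 1) = 1` (`tsum_geometric_two'`, `summable_geometric_two'`, ...), so `bR y ∈ [0, 1]`
(`bR_mem`) by comparison.

`bR_cont`: uniform limit of continuous functions (`continuous_tsum`).

`bR_surj`: every `t ∈ [0, 1]` is a value. For `t = 1` take `y = 1, 1, ...`. For `t < 1` let
`y j = (⌊2 ^ (j + 1) t⌋ is odd)`; the partial sums are `⌊2 ^ n t⌋ / 2 ^ n` (induction on `n`: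
`⌊2 s⌋ = 2 ⌊s⌋` or `2 ⌊s⌋ + 1`) and converge to `t`. (Alternatively: the image of the compact space `Ct`
is closed, and contains all dyadic rationals in `[0, 1]`: for `k < 2 ^ r` the value at the `r` binary
digits of `k` followed by zeros is `k / 2 ^ r`, see `bR_uL`.)

`bR_uL`: `bR (uL g a x) = uR a.2 (g.2 (rr a.2)) x`. Let `r = rr a.2`, `k = kk a.2 < 2 ^ r` (`kk_lt`). The sum
over `j < r` is `∑ j < r, testBit k (r - 1 - j) / 2 ^ (j + 1) = k / 2 ^ r` (`∑ i < r, testBit k i * 2 ^ i = k`
for `k < 2 ^ r`, by induction or `Nat.sum_..`/`Nat.twoPowSum_bitIndices`, reflect the sum), and the sum over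
`j ≥ r` is `x(i) ∑ j ≥ r, 1 / 2 ^ (j + 1) = x(i) / 2 ^ r` (`Summable.sum_add_tsum_nat_add`). -/

set_option autoImplicit false

namespace RNC

open STP

/-- the sequence of digits -/
private def dg (y : Ct) (j : ℕ) : Fin 2 := if y j then 1 else 0

private theorem dg_term (y : Ct) (j : ℕ) :
    Real.ofDigitsTerm (dg y) j = (if y j then 1 else 0 : ℝ) / 2 ^ (j + 1) := by
  unfold Real.ofDigitsTerm dg
  split_ifs <;> simp

private theorem bR_eq (y : Ct) : bR y = Real.ofDigits (dg y) := by
  unfold bR Real.ofDigits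
  exact tsum_congr fun j => (dg_term y j).symm

theorem bR_mem (y : Ct) : bR y ∈ Set.Icc (0 : ℝ) 1 := by
  rw [bR_eq]
  exact ⟨Real.ofDigits_nonneg _, Real.ofDigits_le_one _⟩

theorem bR_cont : Continuous bR := by
  have h1 : bR = fun y => Real.ofDigits (dg y) := funext bR_eq
  rw [h1]
  refine Real.continuous_ofDigits.comp (continuous_pi fun j => ?_)
  exact (continuous_of_discreteTopology (f := fun b : Bool => (if b then 1 else 0 : Fin 2))).comp
    (continuous_apply j)

private theorem bit_sum (r : ℕ) : ∀ k : ℕ, k < 2 ^ r →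
    ∑ j ∈ Finset.range r, (if k.testBit (r - 1 - j) then 1 else 0 : ℝ) / 2 ^ (j + 1) =
      k / 2 ^ r := by
  induction r with
  | zero =>
    intro k hk
    have h0 : k = 0 := by simpa using hk
    simp [h0]
  | succ r ih =>
    intro k hk
    rw [Finset.sum_range_succ]
    have h1 : ∀ j ∈ Finset.range r,
        (if k.testBit (r + 1 - 1 - j) then 1 else 0 : ℝ) / 2 ^ (j + 1) =
          (if (k / 2).testBit (r - 1 - j) then 1 else 0 : ℝ) / 2 ^ (j + 1) := by
      intro j hj
      have h2 : r + 1 - 1 - j = r - 1 - j + 1 := by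
        have := Finset.mem_range.1 hj
        omega
      rw [h2, Nat.testBit_succ]
    rw [Finset.sum_congr rfl h1, ih (k / 2) (by rw [pow_succ] at hk; omega)]
    have h3 : r + 1 - 1 - r = 0 := by omega
    rw [h3, Nat.testBit_zero]
    have h4 : (k : ℝ) = 2 * ((k / 2 : ℕ) : ℝ) + ((k % 2 : ℕ) : ℝ) := by
      exact_mod_cast (Nat.div_add_mod k 2).symm
    have h5 : (if decide (k % 2 = 1) = true then 1 else 0 : ℝ) = ((k % 2 : ℕ) : ℝ) := by
      rcases Nat.mod_two_eq_zero_or_one k with h | h <;> simp [h]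
    rw [h5]
    have h6 : (2 : ℝ) ^ r ≠ 0 := by positivity
    rw [pow_succ]
    field_simp
    linarith

private theorem dg_const (b : Bool) :
    Real.ofDigits (dg fun _ => b) = if b then 1 else 0 := by
  cases b with
  | false =>
    unfold Real.ofDigits
    have h1 : ∀ n, Real.ofDigitsTerm (dg fun _ => false) n = 0 := by
      intro n
      rw [dg_term]
      simp
    simp [h1]
  | true =>
    have h1 := Real.ofDigits_const_last_eq_one 1
    have h2 : (dg fun _ => true) = fun _ => Fin.last 1 := by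
      funext j
      rfl
    rw [h2]
    simpa using h1

theorem bR_uL (g : Lad) (a : Ix) (x : Ct) : bR (uL g a x) = uR a.2 (g.2 (rr a.2)) x := by
  rw [bR_eq, Real.ofDigits_eq_sum_add_ofDigits _ (rr a.2)]
  have h1 : ∀ j ∈ Finset.range (rr a.2), Real.ofDigitsTerm (dg (uL g a x)) j =
      (if (kk a.2).testBit (rr a.2 - 1 - j) then 1 else 0 : ℝ) / 2 ^ (j + 1) := by
    intro j hj
    rw [dg_term]
    unfold uL
    rw [if_pos (Finset.mem_range.1 hj)]
  have h2 : (fun i => dg (uL g a x) (i + rr a.2)) = dg fun _ => x (g.2 (rr a.2)) := by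
    funext i
    have h3 : ¬ i + rr a.2 < rr a.2 := by omega
    unfold dg uL
    simp only [if_neg h3]
  rw [Finset.sum_congr rfl h1, bit_sum _ _ (kk_lt a.2), h2, dg_const]
  unfold uR
  push_cast
  ring

theorem bR_surj (t : ℝ) (ht : t ∈ Set.Icc (0 : ℝ) 1) : ∃ y, bR y = t := by
  obtain ⟨d, -, hd⟩ := Real.ofDigits_SurjOn (b := 2) (by norm_num) ht
  refine ⟨fun j => decide (d j = 1), ?_⟩
  rw [bR_eq, ← hd]
  congr 1
  funext j
  unfold dg
  show (if decide (d j = 1) = true then (1 : Fin 2) else 0) = d j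
  generalize d j = c
  revert c
  decide

/-- the binary expansion as a map to the unit interval -/
noncomputable def bt (y : Ct) : UI := ⟨bR y, bR_mem y⟩

theorem bt_cont : Continuous bt := bR_cont.subtype_mk _

theorem bt_surj : Function.Surjective bt := by
  intro t
  obtain ⟨y, hy⟩ := bR_surj t.1 t.2
  exact ⟨y, Subtype.ext hy⟩

theorem bt_uL (g : Lad) (a : Ix) (x : Ct) : bt (uL g a x) = uK g a x :=
  Subtype.ext (bR_uL g a x)

end RNC
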