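import Pool.Agent.RNC.Spc

/-! # Bases and continuity of the gluing maps (package R15)

(problem MP_9bfcae_gt, project RNC)

`fbL : Fb WL uL`. `WL n` is empty or (if `n = encode s`) the cylinder `{y | Ext y s}`, which is open
(a finite intersection of preimages of points under `continuous_apply`), and every open set
containing `x` contains some cylinder `{y | Ext y (List.ofFn fun i : Fin l => x i)}`. `uL g a` is
continuous: every coordinate is constant or the coordinate `g.2 (rr a.2)` (`continuous_pi`).

`fbK : Fb WK uK`. `WK n` is the set of the points of `[0, 1]` between two rational numbers; open,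
and rational intervals form a base of `ℝ`. `uK g a` is continuous: `uR m i` is a continuous function
of the coordinate `x i`. -/

set_option autoImplicit false

namespace RNC

open STP

private theorem isOpen_Ext (s : List Bool) : IsOpen {y : Ct | Ext y s} := by
  have e : {y : Ct | Ext y s} = ⋂ i : Fin s.length, (fun y : Ct => y i) ⁻¹' {s[i]} := by
    ext y
    simp only [Set.mem_iInter, Set.mem_preimage, Set.mem_singleton_iff]
    exact ⟨fun h i => h i i.2, fun h i hi => h ⟨i, hi⟩⟩
  rw [e]
  exact isOpen_iInter_of_finite fun i => (isOpen_discrete _).preimage (continuous_apply _)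

private theorem open_sg {O : Set Ct} (hO : IsOpen O) {x : Ct} (hx : x ∈ O) :
    ∃ l : ℕ, ∀ y : Ct, (∀ i < l, y i = x i) → y ∈ O := by
  obtain ⟨I, v, hv, hvO⟩ := isOpen_pi_iff.1 hO x hx
  refine ⟨I.sup id + 1, fun y hy => hvO fun i hi => ?_⟩
  rw [hy i (Nat.lt_succ_of_le (Finset.le_sup (f := id) hi))]
  exact (hv i hi).2

theorem fbL : Fb WL uL := by
  refine ⟨TopologicalSpace.isTopologicalBasis_of_isOpen_of_nhds ?_ ?_, fun g a => ?_⟩
  · rintro _ ⟨n, rfl⟩
    have e : WL n = ⋃ s : {s : List Bool // Encodable.encode s = n}, {y : Ct | Ext y s.1} := by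
      ext y
      simp only [Set.mem_iUnion]
      exact ⟨fun ⟨s, hs, hy⟩ => ⟨⟨s, hs⟩, hy⟩, fun ⟨s, hy⟩ => ⟨s.1, s.2, hy⟩⟩
    rw [e]
    exact isOpen_iUnion fun s => isOpen_Ext s.1
  · intro x O hx hO
    obtain ⟨l, hl⟩ := open_sg hO hx
    refine ⟨WL (Encodable.encode (List.ofFn fun i : Fin l => x i)), Set.mem_range_self _,
      ⟨_, rfl, fun i hi => ?_⟩, ?_⟩
    · rw [List.getElem_ofFn]
    · rintro y ⟨s, hs, hy⟩
      have e := Encodable.encode_injective hs
      subst e
      refine hl y fun i hi => ?_
      have h1 := hy i (by rw [List.length_ofFn]; exact hi)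
      rwa [List.getElem_ofFn] at h1
  · refine continuous_pi fun j => ?_
    unfold uL
    by_cases h : j < rr a.2
    · simp only [h, if_true]
      exact continuous_const
    · simp only [h, if_false]
      exact continuous_apply _

theorem fbK : Fb WK uK := by
  refine ⟨TopologicalSpace.isTopologicalBasis_of_isOpen_of_nhds ?_ ?_, fun g a => ?_⟩
  · rintro _ ⟨n, rfl⟩
    exact (isOpen_lt continuous_const continuous_subtype_val).inter
      (isOpen_lt continuous_subtype_val continuous_const)
  · intro x O hx hO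
    obtain ⟨V, hV, rfl⟩ := isOpen_induced_iff.1 hO
    obtain ⟨ε, he, hb⟩ := Metric.isOpen_iff.1 hV x.1 hx
    obtain ⟨q1, h1, h2⟩ := exists_rat_btwn (show x.1 - ε < x.1 by linarith)
    obtain ⟨q2, h3, h4⟩ := exists_rat_btwn (show x.1 < x.1 + ε by linarith)
    obtain ⟨n, hn⟩ : ∃ n : ℕ, Denumerable.ofNat (ℚ × ℚ) n = (q1, q2) :=
      ⟨_, Denumerable.ofNat_encode (q1, q2)⟩
    have key : ∀ y : UI, y ∈ WK n ↔ (q1 : ℝ) < y.1 ∧ y.1 < q2 := by
      intro y
      unfold WK
      rw [hn]
      exact Iff.rfl
    refine ⟨WK n, Set.mem_range_self n, (key x).2 ⟨h2, h3⟩, ?_⟩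
    · intro y hy
      obtain ⟨y1, y2⟩ := (key y).1 hy
      refine hb ?_
      rw [Metric.mem_ball, Real.dist_eq, abs_lt]
      constructor <;> linarith
  · refine Continuous.subtype_mk ?_ _
    exact (continuous_of_discreteTopology (f := fun b : Bool =>
      ((kk a.2 : ℝ) + if b then 1 else 0) / 2 ^ rr a.2)).comp (continuous_apply (g.2 (rr a.2)))

end RNC
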