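import Pool.Agent.RNC.Nb
import Pool.Agent.RNC.Bn
import Pool.Agent.RNC.FbK

/-! # The space `X` is a continuous image of the space `Z` (package R16)

(problem MP_9bfcae_gt, project RNC)

`tmp`. PROOF. `pt`: by cases, both truth values are the same. `sj`: `r = q`; `oo` and `ix a x` are the
images of themselves, `la g t = mp (la g y)` with `bt y = t` (`bt_surj`), and `q ∈ pv (la g y)` says
`g ∈ q.F`, the same as `q ∈ pv (la g t)`. `ct`: `r = q`. Let `hit WK uK (mp a) c`. If `c` is a `cI` or a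
`cO`, take `d := c`: for every point `b` `hit WL uL b c ↔ hit WK uK (mp b) c` (by cases). If
`c = cL g n e`: `q ∈ bv c` says `g ∈ q.F`. The point `a` is `la g y` with `bt y ∈ WK n` or `ix a' x` with
`a' ∈ g.1`, `a' ∉ e` and `uK g a' x = bt (uL g a' x) ∈ WK n` (`bt_uL`); in the second case let
`y := uL g a' x`. By continuity of `bt` and `wb_exists fbL` there is `n'` with `y ∈ WL n'` and
`WL n' ⊆ bt ⁻¹' WK n` (`WK n` is open: `fbK.ba.isOpen`). Take `d := cL g n' e`. If `b` is in `d` then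
`b = la g y'` with `bt y' ∈ WK n`, or `b = ix b' x'` with `b' ∈ g.1`, `b' ∉ e`, `uL g b' x' ∈ WL n'`, so
`uK g b' x' = bt (uL g b' x') ∈ WK n`. -/

set_option autoImplicit false

namespace RNC

open STP

/-- the map of `Z` onto `X` -/
noncomputable def mp : PT Ct → PT UI
  | .oo => .oo
  | .la g y => .la g (bt y)
  | .ix a x => .ix a x

private theorem nbL {y : Ct} {n : ℕ} (h : bt y ∈ WK n) :
    ∃ n', y ∈ WL n' ∧ ∀ z ∈ WL n', bt z ∈ WK n := by
  obtain ⟨n', h1, h2⟩ := wb_exists fbL ((fbK.ba.isOpen ⟨n, rfl⟩).preimage bt_cont) (t := y) h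
  exact ⟨n', h1, fun z hz => h2 hz⟩

private theorem hit_cI {b : PT Ct} {a : Ix} {s : List Bool} :
    hit WK uK (mp b) (.cI a s) ↔ hit WL uL b (.cI a s) := by
  cases b <;> exact Iff.rfl

private theorem hit_cO {b : PT Ct} {G : Finset Lad} {e : Finset Ix} :
    hit WK uK (mp b) (.cO G e) ↔ hit WL uL b (.cO G e) := by
  cases b <;> exact Iff.rfl

private theorem hit_cL {b : PT Ct} {g : Lad} {n n' : ℕ} {e : Finset Ix}
    (hn : ∀ z ∈ WL n', bt z ∈ WK n) (h : hit WL uL b (.cL g n' e)) :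
    hit WK uK (mp b) (.cL g n e) := by
  cases b with
  | oo => exact h.elim
  | la g' t => exact ⟨h.1, hn t h.2⟩
  | ix a x =>
    refine ⟨h.1, h.2.1, ?_⟩
    rw [← bt_uL]
    exact hn _ h.2.2

theorem tmp : TMp (pv (T := Ct)) bv (hit WL uL) (pv (T := UI)) bv (hit WK uK) mp where
  pt a := by cases a <;> exact le_rfl
  sj q b hb := by
    refine ⟨q, le_rfl, ?_⟩
    cases b with
    | oo => exact ⟨.oo, hb, rfl⟩
    | la g t =>
      obtain ⟨y, rfl⟩ := bt_surj t
      exact ⟨.la g y, hb, rfl⟩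
    | ix a x => exact ⟨.ix a x, hb, rfl⟩
  ct q a c ha hc h := by
    refine ⟨q, le_rfl, ?_⟩
    cases c with
    | cI b s => exact ⟨.cI b s, hc, hit_cI.1 h, fun r' _ b _ hb => hit_cI.2 hb⟩
    | cO G e => exact ⟨.cO G e, hc, hit_cO.1 h, fun r' _ b _ hb => hit_cO.2 hb⟩
    | cL g n e =>
      cases a with
      | oo => exact h.elim
      | la g' t =>
        obtain ⟨n', h1, h2⟩ := nbL (y := t) h.2
        exact ⟨.cL g n' e, hc, ⟨h.1, h1⟩, fun r' _ b _ hb => hit_cL h2 hb⟩
      | ix a x =>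
        have h3 : bt (uL g a x) ∈ WK n := by
          rw [bt_uL]
          exact h.2.2
        obtain ⟨n', h1, h2⟩ := nbL h3
        exact ⟨.cL g n' e, hc, ⟨h.1, h.2.1, h1⟩, fun r' _ b _ hb => hit_cL h2 hb⟩

end RNC
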