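import Pool.Agent.RNC.NrA

/-! # `X` is not Radon-Nikodym compact (package R18)

(problem MP_9bfcae_gt, project RNC)

`jump`. For `q ≤ p`, `g ∈ q.F` and `t0 > 0` with `q ∈ V (la g 0) (la g 1) t0`, and `n` with
`1 / 2 ^ n < t0`, there are `k < 2 ^ n`, `r ≤ q` and `t > 1 / 2 ^ (n + n)` with
`r ∈ V (la g (k / 2 ^ n)) (la g ((k + 1) / 2 ^ n)) t`. PROOF. Suppose not. By induction on `k ≤ 2 ^ n`: for
every `q' ≤ q` there are `r ≤ q'` and `s ≤ k / 2 ^ (n + n)` with `r ∈ V (la g 0) (la g (k / 2 ^ n)) s`: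
for `k = 0` the value `V (la g 0) (la g 0) s` exists (`hV.ex`), and `s ≤ 0`: by `hV.tr` with the three
points equal we only get `s ≤ s + s`; so start the induction at `k = 1` instead, where
`r ∈ V (la g 0) (la g (1 / 2 ^ n)) t` exists by `hV.ex` and `t ≤ 1 / 2 ^ (n + n)` because `jump` fails for
`k = 0`. Step: `r ∈ V (la g 0) (la g (k / 2 ^ n)) s`; extend `r` (`hV.ex` twice) to have
`V (la g (k / 2 ^ n)) (la g ((k + 1) / 2 ^ n)) t`, so `t ≤ 1 / 2 ^ (n + n)`, and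
`V (la g 0) (la g ((k + 1) / 2 ^ n)) u`; `u ≤ s + t` by `hV.tr`. For `k = 2 ^ n` we get
`r ∈ V (la g 0) (la g 1) s` with `s ≤ 2 ^ n / 2 ^ (n + n) = 1 / 2 ^ n < t0`, but `s = t0` by `hV.un`.
(Membership in `RO Cd` is inherited by stronger conditions. `ui n k : UI` is the point `k / 2 ^ n`,
`min` makes it a point of `[0, 1]` for all `k`; `g ∈ r.F` for all `r ≤ q`, so `r ∈ pv (la g t)`.)

`not_tmt`. PROOF. Suppose `hV`. Apply `fusion` (file `Fus.lean`) to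
`Q q a f := Qv V q a f ∨ (∀ r ≤ q, ¬ r ≤ p)`: inherited by `qv_mono`; dense: if some `q' ≤ q` is
`≤ p`, use `qv_dense` for `q'`, otherwise `Q q a f` holds for all `f`. It gives `q ≤ p` and
`g ∈ q.F` with the property of `fusion`; since `q ≤ p`, `Q q a f` implies `Qv V q a f`. By `hV.ex` and
`hV.ps` (the points `la g 0`, `la g 1` are different) there are `q1 ≤ q` and `t0 > 0` with
`q1 ∈ V (la g 0) (la g 1) t0`; let `1 / 2 ^ n < t0`. Take `k`, `r`, `t` from `jump`. By `hV.ls` for these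
two points with `x := 1 / 2 ^ (n + n)` there are `r1 ≤ r` and codes `c`, `d` containing
`la g (k / 2 ^ n)`, `la g ((k + 1) / 2 ^ n)` such that (below `r1`) `V a' b' s` implies `x < s` for all points
`a'` in `c` and `b'` in `d`. By `la_nb` (`g ∈ r1.F`) `cL g n1 e1 ⊆ c` and `cL g n2 e2 ⊆ d` with
`k / 2 ^ n ∈ WK n1`, `(k + 1) / 2 ^ n ∈ WK n2`. The set of the `a ∈ g.1` with `a.2 = mc n k` and some `f` with
`Qv V q a f` and `f n ≤ g.2 n` is infinite, so it has an element `a ∉ e1 ∪ e2`. `rr a.2 = n`,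
`kk a.2 = k` (`rr_mc`, `kk_mc`). Let `i := g.2 n ≥ f n`: there are `x`, `y` with `x i ≠ y i` and
`t < 1 / 2 ^ (n + n)` whenever `r' ≤ q`, `r' ∈ V (ix a x) (ix a y) t`. If `x i = false`, `y i = true` then
`uK g a x = k / 2 ^ n ∈ WK n1` and `uK g a y = (k + 1) / 2 ^ n ∈ WK n2`, so `ix a x` is in `c` and `ix a y` in
`d`; by `hV.ex` there are `r2 ≤ r1` and `s` with `r2 ∈ V (ix a x) (ix a y) s`, so
`1 / 2 ^ (n + n) < s < 1 / 2 ^ (n + n)`. If `x i = true`, `y i = false` then `ix a y` is in `c`, `ix a x` in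
`d`, and we use `V (ix a y) (ix a x) s` and `hV.sy`. -/

set_option autoImplicit false

namespace RNC

open STP

/-- the point `k / 2 ^ n` of `[0, 1]` -/
noncomputable def ui (n k : ℕ) : UI :=
  ⟨min 1 (k / 2 ^ n), le_min zero_le_one (by positivity), min_le_left _ _⟩

private theorem ui_zero (n : ℕ) : ui n 0 = 0 := by
  refine Subtype.ext ?_
  change min (1 : ℝ) (((0 : ℕ) : ℝ) / 2 ^ n) = 0
  rw [Nat.cast_zero, zero_div]
  exact min_eq_right zero_le_one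

private theorem ui_top (n : ℕ) : ui n (2 ^ n) = 1 := by
  refine Subtype.ext ?_
  change min (1 : ℝ) (((2 ^ n : ℕ) : ℝ) / 2 ^ n) = 1
  rw [Nat.cast_pow, Nat.cast_ofNat, div_self (by positivity)]
  exact min_self 1

theorem jump {p : Cd} {V : PT UI → PT UI → ℝ → RO Cd}
    (hV : TMt (pv (T := UI)) bv (hit WK uK) p V) (q : Cd) (hq : q ≤ p) (g : Lad) (hg : g ∈ q.F)
    (t0 : ℝ) (h0 : q ∈ V (.la g 0) (.la g 1) t0) (n : ℕ) (hn : 1 / 2 ^ n < t0) :
    ∃ k < 2 ^ n, ∃ r ≤ q, ∃ t, 1 / 2 ^ (n + n) < t ∧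
      r ∈ V (.la g (ui n k)) (.la g (ui n (k + 1))) t := by
  by_contra hcon
  push Not at hcon
  have hc : ∀ k < 2 ^ n, ∀ r ≤ q, ∀ t, r ∈ V (.la g (ui n k)) (.la g (ui n (k + 1))) t →
      t ≤ 1 / 2 ^ (n + n) := by
    intro k hk r hr t ht
    by_contra h
    exact hcon k hk r hr t (not_le.1 h) ht
  have hp : ∀ r ≤ q, ∀ t : UI, r ∈ pv (.la g t : PT UI) := fun r hr t =>
    mem_pv_la.2 (hr.2.1 hg)
  have key : ∀ k : ℕ, 1 ≤ k → k ≤ 2 ^ n → ∀ q' ≤ q, ∃ r ≤ q', ∃ s : ℝ,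
      s ≤ k * (1 / 2 ^ (n + n)) ∧ r ∈ V (.la g (ui n 0)) (.la g (ui n k)) s := by
    intro k hk
    induction k, hk using Nat.le_induction with
    | base =>
      intro h1 q' hq'
      obtain ⟨r, hr, t, ht⟩ := hV.ex q' (hq'.trans hq) _ _ (hp q' hq' (ui n 0)) (hp q' hq' (ui n 1))
      refine ⟨r, hr, t, ?_, ht⟩
      rw [Nat.cast_one, one_mul]
      exact hc 0 (by positivity) r (hr.trans hq') t ht
    | succ k hk ih =>
      intro h1 q' hq'
      obtain ⟨r0, hr0, s, hs, hs'⟩ := ih (by omega) q' hq'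
      have hr0q : r0 ≤ q := hr0.trans hq'
      obtain ⟨r1, hr1, t, ht⟩ := hV.ex r0 (hr0q.trans hq) _ _ (hp r0 hr0q (ui n k))
        (hp r0 hr0q (ui n (k + 1)))
      have hr1q : r1 ≤ q := hr1.trans hr0q
      obtain ⟨r2, hr2, v, hv⟩ := hV.ex r1 (hr1q.trans hq) _ _ (hp r1 hr1q (ui n 0))
        (hp r1 hr1q (ui n (k + 1)))
      have hr2q : r2 ≤ q := hr2.trans hr1q
      have h2 : t ≤ 1 / 2 ^ (n + n) := hc k (by omega) r1 hr1q t ht
      have h3 : v ≤ s + t := hV.tr r2 (hr2q.trans hq) _ _ _ s t v (hp r2 hr2q (ui n 0))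
        (hp r2 hr2q (ui n k)) (hp r2 hr2q (ui n (k + 1)))
        ((V _ _ _).down (hr2.trans hr1) hs') ((V _ _ _).down hr2 ht) hv
      refine ⟨r2, hr2.trans (hr1.trans hr0), v, ?_, hv⟩
      push_cast
      rw [add_mul, one_mul]
      linarith
  obtain ⟨r, hr, s, hs, hs'⟩ := key (2 ^ n) Nat.one_le_two_pow le_rfl q le_rfl
  rw [ui_zero, ui_top] at hs'
  have h1 : s = t0 := hV.un r (hr.trans hq) _ _ s t0 (hp r hr 0) (hp r hr 1) hs'
    ((V _ _ _).down hr h0)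
  have h2 : ((2 ^ n : ℕ) : ℝ) * (1 / 2 ^ (n + n)) = 1 / 2 ^ n := by
    rw [Nat.cast_pow, Nat.cast_ofNat, pow_add]
    field_simp
  rw [h2, h1] at hs
  exact absurd hn (not_lt.2 hs)

private theorem uK_eq {g : Lad} {a : Ix} {x : Ct} {n k : ℕ} (hk : k < 2 ^ n) (hr : rr a.2 = n)
    (hkk : kk a.2 = k) (b : Bool) (hx : x (g.2 n) = b) :
    uK g a x = ui n (k + if b then 1 else 0) := by
  refine Subtype.ext ?_
  change uR a.2 (g.2 (rr a.2)) x = min (1 : ℝ) (((k + if b then 1 else 0 : ℕ) : ℝ) / 2 ^ n)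
  unfold uR
  rw [hr, hkk, hx]
  have h1 : ((k : ℕ) : ℝ) + 1 ≤ 2 ^ n := by exact_mod_cast hk
  have h2 : (0 : ℝ) < 2 ^ n := by positivity
  rw [min_eq_right]
  · cases b <;> simp
  · rw [div_le_one h2]
    cases b
    · simp only [Bool.false_eq_true, if_false, add_zero]
      linarith
    · simp only [if_true, Nat.cast_add, Nat.cast_one]
      exact h1

theorem not_tmt (hK : Fb WK uK) (p : Cd) (V : PT UI → PT UI → ℝ → RO Cd) :
    ¬ TMt (pv (T := UI)) bv (hit WK uK) p V := by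
  intro hV
  obtain ⟨q, hq, g, hg, hinf⟩ := fusion (fun q a f => Qv V q a f ∨ ∀ r ≤ q, ¬ r ≤ p)
    (fun q r a f hr h => h.elim (fun h1 => Or.inl (qv_mono hr h1))
      fun h1 => Or.inr fun r' hr' => h1 r' (hr'.trans hr))
    (fun q a => by
      by_cases h : ∃ q' ≤ q, q' ≤ p
      · obtain ⟨q', h1, h2⟩ := h
        obtain ⟨r, hr, f, hf⟩ := qv_dense hK hV q' h2 a
        exact ⟨r, hr.trans h1, f, Or.inl hf⟩
      · exact ⟨q, le_rfl, 0, Or.inr fun r hr hr' => h ⟨r, hr, hr'⟩⟩) p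
  obtain ⟨q1, hq1, t0, ht0⟩ := hV.ex q hq (.la g 0) (.la g 1) (mem_pv_la.2 hg) (mem_pv_la.2 hg)
  have hq1p : q1 ≤ p := hq1.trans hq
  have hg1 : g ∈ q1.F := hq1.2.1 hg
  have hne : (.la g 0 : PT UI) ≠ .la g 1 := by
    intro h
    injection h with h1 h2
    exact zero_ne_one h2
  have hpos : 0 < t0 := hV.ps q1 hq1p _ _ t0 (mem_pv_la.2 hg1) (mem_pv_la.2 hg1) hne ht0
  obtain ⟨n, hn⟩ : ∃ n : ℕ, 1 / 2 ^ n < t0 := by
    obtain ⟨n, hn⟩ := exists_pow_lt_of_lt_one hpos (by norm_num : (1 / 2 : ℝ) < 1)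
    exact ⟨n, by rwa [one_div_pow] at hn⟩
  obtain ⟨k, hk, r, hr, t, ht, hrt⟩ := jump hV q1 hq1p g hg1 t0 ht0 n hn
  have hrp : r ≤ p := hr.trans hq1p
  have hgr : g ∈ r.F := hr.2.1 hg1
  obtain ⟨r1, hr1, c, d, hc, hd, hc', hd', hls⟩ := hV.ls r hrp _ _ t (1 / 2 ^ (n + n))
    (mem_pv_la.2 hgr) (mem_pv_la.2 hgr) hrt ht
  have hg2 : g ∈ r1.F := hr1.2.1 hgr
  obtain ⟨n1, e1, hn1, he1⟩ := la_nb hK hg2 hc hc'
  obtain ⟨n2, e2, hn2, he2⟩ := la_nb hK hg2 hd hd'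
  obtain ⟨a, ha, hae⟩ := (hinf n k hk).exists_notMem_finset (e1 ∪ e2)
  obtain ⟨hag, ham, f, hf, hfn⟩ := ha
  rw [Finset.mem_union, not_or] at hae
  have hQv : Qv V q a f := hf.resolve_right fun h => h q le_rfl hq
  have hrr : rr a.2 = n := by
    rw [ham]
    exact rr_mc hk
  have hkk : kk a.2 = k := by
    rw [ham]
    exact kk_mc hk
  obtain ⟨x, y, hxy, hxyV⟩ := hQv n (g.2 n) (hfn n le_rfl)
  rw [hrr] at hxyV
  have key : ∀ x y : Ct, x (g.2 n) = false → y (g.2 n) = true → ∀ r' ≤ r1, ∀ s,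
      r' ∈ V (.ix a x) (.ix a y) s → 1 / 2 ^ (n + n) < s := by
    intro x y hx hy r' hr' s hs
    refine hls r' hr' (.ix a x) (.ix a y) s mem_pv_ix mem_pv_ix (he1 _ ?_) (he2 _ ?_) hs
    · refine ⟨hag, hae.1, ?_⟩
      rw [uK_eq hk hrr hkk false hx]
      exact hn1
    · refine ⟨hag, hae.2, ?_⟩
      rw [uK_eq hk hrr hkk true hy]
      exact hn2
  have hr1p : r1 ≤ p := hr1.trans hrp
  have hr1q : r1 ≤ q := hr1.trans (hr.trans hq1)
  obtain ⟨r2, hr2, s, hs⟩ := hV.ex r1 hr1p (.ix a x) (.ix a y) mem_pv_ix mem_pv_ix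
  have h1 : s < 1 / 2 ^ (n + n) := hxyV r2 (hr2.trans hr1q) s hs
  have h2 : 1 / 2 ^ (n + n) < s := by
    rcases hb : x (g.2 n) with _ | _
    · rcases hb' : y (g.2 n) with _ | _
      · exact absurd (hb.trans hb'.symm) hxy
      · exact key x y hb hb' r2 hr2 s hs
    · rcases hb' : y (g.2 n) with _ | _
      · exact key y x hb' hb r2 hr2 s (hV.sy r2 (hr2.trans hr1p) _ _ s mem_pv_ix mem_pv_ix hs)
      · exact absurd (hb.trans hb'.symm) hxy
  exact absurd h1 (not_lt.2 h2.le)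

end RNC
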