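import Pool.Agent.RNC.BSpc
import Pool.Agent.RNC.BCpt
import Pool.Agent.RNC.BGrp
import Pool.Agent.RNC.BGmt
import Pool.Agent.RNC.BNrn
import Pool.Agent.RNC.BMap
import Pool.Agent.RNC.BImg
import Pool.Agent.RNC.BRet
import Pool.Agent.RNC.ImF
import Pool.Agent.RNC.HdT
import Pool.Agent.RNC.LmC
import Pool.Agent.RNC.MpT
import Pool.Agent.RNC.NrB

/-! # The model (package R42, assembly)

(problem MP_9bfcae_gt, project RNC)

`neg_rn`: `NegRN (EG G)` for every `G`. PROOF. `R, l, a, o := RN, lN, aN, zN` (`br_ra sig`, `ap_dom`),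
`X, B, h := sn (pv (T := UI)), sn bv, mN (hit WK uK)`, `Z, C, k := sn (pv (T := Ct)), sn bv,
mN (hit WL uL)`. `br_sp`, `br_hd`, `br_cp` with `tsp`, `thd`, `tcpt` for `fbK`, `fbL`; `br_rn (tgmL fbL)`;
`IsIm`: from `br_cm tmp`; `br_nrn (not_tmt fbK)`. The last clause (`im_rn`): `F.top`, `F.all` for `Y`, `D`,
`m`, `F.imp`; then `F.all`, `F.imp` for the functions `g` of `IsIm` and `f` of `IsSm` (state it for names
`g`, `f` with `ImD` as the only premise: `F.top fun p => F.all.2 ... F.imp.2 fun q0 _ h => ?_`, and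
derive the clause from that). `h : F q0 ImD`. Let `y`, `b` be from `exists_yn`, `exists_bn`. Use `F.loc`: for
`q' ≤ q0`, `ext_tim (h.mono _) ..` is a `TIm` below `q'`, and `img` (for `T := UI`: `#UI ≤ 𝔠` by
`Cardinal.mk_subtype_le`/`Cardinal.mk_Icc_real`; `fbK`) gives `q ≤ q'` and `D`, and `br_ret` says
`F q IsRN`. (For the truth value of `IsRN` see the instances in `BDef.lean`.)

`exists_model`: as in `CPI/Main.lean`: an ultrafilter of `RO Cd` exists (`Ult.exists_mem` for `⊤`; some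
condition exists, e.g. with `A = ∅`, `F = ∅`), `NG_zfc G`. -/

set_option autoImplicit false

namespace RNC

open STP STP.BSet CPI Cardinal

set_option synthInstance.maxSize 100000

private theorem bn_card : #UI ≤ 𝔠 := by
  rw [← Cardinal.mk_real]
  exact Cardinal.mk_subtype_le _

private theorem bn_key (p : Cd) : F p fun G : Ult (RO Cd) => ∀ Y D m g f,
    ImD (EG G) (NG.mk G RN) (NG.mk G (sn (pv (T := UI)))) (NG.mk G (sn bv))
      (NG.mk G (mN (hit WK uK))) Y D m g f →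
    IsRN (EG G) (NG.mk G RN) (NG.mk G lN) (NG.mk G aN) (NG.mk G zN) Y D m := by
  refine F.all.2 fun Y => F.all.2 fun D => F.all.2 fun m => F.all.2 fun g => F.all.2 fun f => ?_
  refine F.imp.2 fun q0 _ h => ?_
  obtain ⟨y, hy⟩ := exists_yn (PT UI) g
  obtain ⟨b, hb⟩ := exists_bn D f
  refine F.loc fun q' hq' => ?_
  obtain ⟨q, hq, δ, hQ⟩ := img bn_card fbK (ext_tim (F.mono hq' h) hy hb)
  exact ⟨q, hq, br_ret (F.mono hq' h) hy hq hQ⟩

theorem im_rn (G : Ult (RO Cd)) : ∀ Y D m g f,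
    ImD (EG G) (NG.mk G RN) (NG.mk G (sn (pv (T := UI)))) (NG.mk G (sn bv))
      (NG.mk G (mN (hit WK uK))) Y D m g f →
    IsRN (EG G) (NG.mk G RN) (NG.mk G lN) (NG.mk G aN) (NG.mk G zN) Y D m := by
  exact F.top (S := fun G : Ult (RO Cd) => ∀ Y D m g f,
    ImD (EG G) (NG.mk G RN) (NG.mk G (sn (pv (T := UI)))) (NG.mk G (sn bv))
      (NG.mk G (mN (hit WK uK))) Y D m g f →
    IsRN (EG G) (NG.mk G RN) (NG.mk G lN) (NG.mk G aN) (NG.mk G zN) Y D m) bn_key G

theorem neg_rn (G : Ult (RO Cd)) : NegRN (EG G) := by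
  refine ⟨NG.mk G RN, NG.mk G lN, NG.mk G aN, NG.mk G zN, NG.mk G (sn (pv (T := UI))),
    NG.mk G (sn bv), NG.mk G (mN (hit WK uK)), NG.mk G (sn (pv (T := Ct))), NG.mk G (sn bv),
    NG.mk G (mN (hit WL uL)), br_ra sig G, ap_dom G, br_sp (tsp fbK) G, br_hd (thd fbK) G,
    br_cp (tcpt fbK) G, br_sp (tsp fbL) G, br_hd (thd fbL) G, br_cp (tcpt fbL) G,
    br_rn (tgmL fbL) G, br_cm tmp G, br_nrn (not_tmt fbK) G, ?_⟩
  rintro Y D m h1 h2 ⟨g, hg⟩ ⟨f, hf⟩
  exact im_rn G Y D m g f ⟨h1, h2, hg, hf⟩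

private def bnEmpty : Cd where
  A := ∅
  F := ∅
  cA := by
    rw [Cardinal.mk_emptyCollection]
    exact zero_le
  ct g hg := absurd hg (Set.notMem_empty g)
  inf g hg := absurd hg (Set.notMem_empty g)
  sub g hg := absurd hg (Set.notMem_empty g)
  free := ⟨fun _ => ∅, fun g hg => absurd hg (Set.notMem_empty g)⟩

theorem exists_model : ∃ (N : Type 1) (E : N → N → Prop), ZFC E ∧ NegRN E := by
  obtain ⟨G, -⟩ := Ult.exists_mem (B := RO Cd) (b := ⊤) (by
    intro h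
    have h1 : bnEmpty ∈ (⊤ : RO Cd) := RO.mem_top
    rw [h] at h1
    exact RO.not_mem_bot h1)
  exact ⟨NG G, EG G, NG_zfc G, neg_rn G⟩

end RNC
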