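import Pool.Agent.RNC.BDef

/-! # Names of spaces: base, Hausdorff (package R34)

(problem MP_9bfcae_gt, project RNC)

`br_sp`. `CSp` for the name `(sn pv, sn bv, mN ht)`. PROOF. `F.top`. First clause: `F.bsn` (`y = kn a`,
`q ∈ pv a`), `F.esn`: for `q' ≤ q` `h.cov` gives `r ≤ q'`, `c` with `r ∈ bv c`, `ht a c`, and `Val` is
`val_m`. Second clause: reorder the quantifiers (`y ∈ Y`, `b ∈ B`, `b' ∈ B`), `F.bsn` three times; now
`q ∈ pv a`, `q ∈ bv c`, `q ∈ bv d`. `Val h y b` is the constant statement `ht a c` (`val_m`): if it is false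
the implication is trivial. Otherwise `F.esn` with `h.dir` (for `q' ≤ q`): `r ≤ q'` and `e`, and the last part
is `F.bsn` again (`z = kn b`, `r' ∈ pv b`).
`br_hd`: the same with `h : THd` (`x ≠ y` becomes `a ≠ b` by `kn_eq`).

How to work with these statements: see the docstrings of `CPI/BRLa.lean`, `CPI/BNam.lean`. `F p S` (file
`CPI/BTv.lean`): `S G` is true in all quotients `NG G` with `RO.up p ∈ G.s`. A statement for an
arbitrary `G` is proved by `F.top fun p => ?_` (all statements about names have a truth value: class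
`TV`, found by instance search; state the statement as a function of `G`; for long statements use
`set_option synthInstance.maxSize 100000`). Quantifiers: `F.all`, `F.ex`, `F.bsn` (it is enough to
treat `x = kn a` below conditions `q ∈ φ a`), `F.esn`, `F.bsub`, `F.esub` (names of subsets of
`sn φ`), `F.dest_sn`, connectives: `F.imp`, `F.and`, `F.no`, `F.loc` (densely), `F.mono`, `F.const`,
`F.not_false`. Atomic statements about `kn a`: `kn_eq`, `kn_sn`, `kn_sn_chi`, `kn_RN`, `val_rn`,
`val_m`, `val_l`, `ap_eN`, `ap_eN_iff`, `chi_mem`; forced forms: `F.sn`, `F.valr`, `F.kn_eq`. To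
reorder premises (so that all quantifiers become bounded) prove the reordered statement and
apply it. From `q ∈ φ a` and `RO.up q ∈ G.s` one gets `φ a ∈ G.s` by `G.up hG (RO.up_le.2 h)`. -/

set_option autoImplicit false

namespace RNC

open STP STP.BSet CPI

variable {P : Type} [PartialOrder P] {A C : Type} {pv : A → RO P} {bv : C → RO P}
  {ht : A → C → Prop}

theorem br_sp (h : TSp pv bv ht) (G : Ult (RO P)) :
    CSp (EG G) (NG.mk G (sn pv)) (NG.mk G (sn bv)) (NG.mk G (mN ht)) := by
  refine ⟨?_, ?_⟩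
  · have h1 : ∀ G : Ult (RO P), ∀ y, EG G y (NG.mk G (sn pv)) →
        ∃ b, EG G b (NG.mk G (sn bv)) ∧ Val (EG G) (NG.mk G (mN ht)) y b := by
      refine F.top fun p => F.bsn.2 fun a q _ hq => F.esn.2 fun q' hq' => ?_
      obtain ⟨r, hr, c, hc, hac⟩ := h.cov q' a ((pv a).down hq' hq)
      exact ⟨r, hr, c, hc, fun G _ => (val_m G).2 hac⟩
    exact h1 G
  · have h1 : ∀ G : Ult (RO P), ∀ y, EG G y (NG.mk G (sn pv)) →
        ∀ b, EG G b (NG.mk G (sn bv)) → ∀ b', EG G b' (NG.mk G (sn bv)) →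
          (Val (EG G) (NG.mk G (mN ht)) y b → Val (EG G) (NG.mk G (mN ht)) y b' →
            ∃ c, EG G c (NG.mk G (sn bv)) ∧ (Val (EG G) (NG.mk G (mN ht)) y c ∧
              ∀ z, EG G z (NG.mk G (sn pv)) → (Val (EG G) (NG.mk G (mN ht)) z c →
                Val (EG G) (NG.mk G (mN ht)) z b ∧ Val (EG G) (NG.mk G (mN ht)) z b'))) := by
      refine F.top fun p => F.bsn.2 fun a q1 _ ha => F.bsn.2 fun b q2 hq2 hb =>
        F.bsn.2 fun b' q3 hq3 hb' => ?_
      by_cases hab : ht a b ∧ ht a b'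
      · have h2 : F q3 fun G => ∃ c, EG G c (NG.mk G (sn bv)) ∧
            (Val (EG G) (NG.mk G (mN ht)) (NG.mk G (kn a)) c ∧
              ∀ z, EG G z (NG.mk G (sn pv)) → (Val (EG G) (NG.mk G (mN ht)) z c →
                Val (EG G) (NG.mk G (mN ht)) z (NG.mk G (kn b)) ∧
                Val (EG G) (NG.mk G (mN ht)) z (NG.mk G (kn b')))) := by
          refine F.esn.2 fun q' hq' => ?_
          obtain ⟨r, hr, e, he, hae, hl⟩ := h.dir q' a b b'
            ((pv a).down (hq'.trans (hq3.trans hq2)) ha) ((bv b).down (hq'.trans hq3) hb)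
            ((bv b').down hq' hb') hab.1 hab.2
          have h3 : F r fun G => ∀ z, EG G z (NG.mk G (sn pv)) →
              (Val (EG G) (NG.mk G (mN ht)) z (NG.mk G (kn e)) →
                Val (EG G) (NG.mk G (mN ht)) z (NG.mk G (kn b)) ∧
                Val (EG G) (NG.mk G (mN ht)) z (NG.mk G (kn b'))) := by
            refine F.bsn.2 fun a2 s hs hs2 G hG => ?_
            beta_reduce
            rw [val_m, val_m, val_m]
            exact hl s hs a2 hs2
          exact ⟨r, hr, e, he, fun G hG => ⟨(val_m G).2 hae, h3 G hG⟩⟩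
        exact fun G hG _ _ => h2 G hG
      · intro G hG h4 h5
        exact absurd ⟨(val_m G).1 h4, (val_m G).1 h5⟩ hab
    exact fun y b b' hy hb hb' h4 h5 => h1 G y hy b hb b' hb' h4 h5

theorem br_hd (h : THd pv bv ht) (G : Ult (RO P)) :
    CHd (EG G) (NG.mk G (sn pv)) (NG.mk G (sn bv)) (NG.mk G (mN ht)) := by
  have h1 : ∀ G : Ult (RO P), ∀ x, EG G x (NG.mk G (sn pv)) →
      ∀ y, EG G y (NG.mk G (sn pv)) → (¬ x = y →
        ∃ b c, EG G b (NG.mk G (sn bv)) ∧ EG G c (NG.mk G (sn bv)) ∧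
          Val (EG G) (NG.mk G (mN ht)) x b ∧ Val (EG G) (NG.mk G (mN ht)) y c ∧
          ∀ z, EG G z (NG.mk G (sn pv)) →
            ¬ (Val (EG G) (NG.mk G (mN ht)) z b ∧ Val (EG G) (NG.mk G (mN ht)) z c)) := by
    refine F.top fun p => F.bsn.2 fun a q1 _ ha => F.bsn.2 fun a' q2 hq2 ha' => ?_
    by_cases haa : a = a'
    · subst haa
      exact fun G _ h2 => absurd rfl h2
    · have h2 : F q2 fun G => ∃ b c, EG G b (NG.mk G (sn bv)) ∧ EG G c (NG.mk G (sn bv)) ∧
          Val (EG G) (NG.mk G (mN ht)) (NG.mk G (kn a)) b ∧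
          Val (EG G) (NG.mk G (mN ht)) (NG.mk G (kn a')) c ∧
          ∀ z, EG G z (NG.mk G (sn pv)) →
            ¬ (Val (EG G) (NG.mk G (mN ht)) z b ∧ Val (EG G) (NG.mk G (mN ht)) z c) := by
        refine F.loc fun r hr => ?_
        obtain ⟨r', hr', b, b', hb, hb', hab, hab', hl⟩ :=
          h r a a' ((pv a).down (hr.trans hq2) ha) ((pv a').down hr ha') haa
        have h3 : F r' fun G => ∀ z, EG G z (NG.mk G (sn pv)) →
            ¬ (Val (EG G) (NG.mk G (mN ht)) z (NG.mk G (kn b)) ∧
              Val (EG G) (NG.mk G (mN ht)) z (NG.mk G (kn b'))) := by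
          refine F.bsn.2 fun a2 s hs hs2 G hG => ?_
          beta_reduce
          rw [val_m, val_m]
          exact hl s hs a2 hs2
        refine ⟨r', hr', fun G hG => ⟨NG.mk G (kn b), NG.mk G (kn b'), ?_, ?_, ?_, ?_, h3 G hG⟩⟩
        · exact F.sn.2 hb G hG
        · exact F.sn.2 hb' G hG
        · exact (val_m G).2 hab
        · exact (val_m G).2 hab'
      exact fun G hG _ => h2 G hG
  exact fun x y hx hy hxy => h1 G x hx y hy hxy

end RNC
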