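import Pool.Agent.RNC.Nb

/-! # Compactness of the pieces in the ground model (package R09)

(problem MP_9bfcae_gt, project RNC)

`cpI`: finitely many codes of a set of codes covering `{a} × Ct` cover it. PROOF. By `ix_nb` the sets
`{x | hit W u (.ix a x) c}` (`c ∈ S`) are open (each contains, with `x`, a cylinder
`{y | ∀ i < l, y i = x i}`, which is open), `Ct = ℕ → Bool` is compact; take a finite subcover.

`cpA`: the same for `{g} × T ∪ g.1 × Ct`, if the codes in `S` which contain a point `la g t` are of the form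
`cL g n e`. PROOF. The sets `W n` with `.cL g n e ∈ S` for some `e` are open and cover `T` (by `h1` and `hS`,
`hit_la_cL`); `T` is compact, so finitely many codes `cL g (n i) (e i) ∈ S` have `T = ⋃ W (n i)`.
Let `e` be the union of the `e i`, finite. For `a ∈ g.1`, `a ∉ e` and every `x` some `W (n i)` contains
`u g a x`, so `ix a x` is in `cL g (n i) (e i)`. For each of the finitely many `a ∈ e` with `a ∈ g.1`
`cpI` (with `h2 a`) gives a finite list. Concatenate the lists (`β` is a list; use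
`Finset.toList`, or prove the statements for finite sets of codes first). -/

set_option autoImplicit false

namespace RNC

open STP

section

variable {T : Type} [TopologicalSpace T] {W : ℕ → Set T} {u : Lad → Ix → Ct → T}

private theorem open_seg (x : Ct) (l : ℕ) : IsOpen {y : Ct | ∀ i < l, y i = x i} := by
  have h1 : {y : Ct | ∀ i < l, y i = x i} = ⋂ i ∈ Finset.range l, {y : Ct | y i = x i} := by
    ext y
    simp
  rw [h1]
  refine isOpen_biInter_finset fun i _ => ?_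
  have h2 : Continuous fun y : Ct => y i := continuous_apply i
  exact (isOpen_discrete ({x i} : Set Bool)).preimage h2

theorem cpI (hF : Fb W u) (a : Ix) (S : Set BC) (h : ∀ x, ∃ c ∈ S, hit W u (.ix a x) c) :
    ∃ β : List BC, (∀ c ∈ β, c ∈ S) ∧ ∀ x, ∃ c ∈ β, hit W u (.ix a x) c := by
  classical
  have hop : ∀ c : {c // c ∈ S}, IsOpen {x : Ct | hit W u (.ix a x) c.1} := by
    intro c
    rw [isOpen_iff_forall_mem_open]
    intro x hx
    obtain ⟨l, hl⟩ := ix_nb hF hx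
    exact ⟨{y : Ct | ∀ i < l, y i = x i}, fun y hy => hl y hy, open_seg x l, fun i _ => rfl⟩
  obtain ⟨t, ht⟩ := (isCompact_univ (X := Ct)).elim_finite_subcover
    (fun c : {c // c ∈ S} => {x : Ct | hit W u (.ix a x) c.1}) hop (by
      intro x _
      obtain ⟨c, hc, hx⟩ := h x
      exact Set.mem_iUnion.2 ⟨⟨c, hc⟩, hx⟩)
  refine ⟨t.toList.map Subtype.val, ?_, ?_⟩
  · intro c hc
    obtain ⟨d, -, rfl⟩ := List.mem_map.1 hc
    exact d.2
  · intro x
    have hx := ht (Set.mem_univ x)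
    simp only [Set.mem_iUnion] at hx
    obtain ⟨c, hc, hcx⟩ := hx
    exact ⟨c.1, List.mem_map.2 ⟨c, Finset.mem_toList.2 hc, rfl⟩, hcx⟩

theorem cpA [CompactSpace T] (hF : Fb W u) (g : Lad) (S : Set BC)
    (hS : ∀ c ∈ S, ∀ t, hit W u (.la g t) c → ∃ n e, c = .cL g n e)
    (h1 : ∀ t, ∃ c ∈ S, hit W u (.la g t) c)
    (h2 : ∀ a ∈ g.1, ∀ x, ∃ c ∈ S, hit W u (.ix a x) c) :
    ∃ β : List BC, (∀ c ∈ β, c ∈ S) ∧ (∀ t, ∃ c ∈ β, hit W u (.la g t) c) ∧
      ∀ a ∈ g.1, ∀ x, ∃ c ∈ β, hit W u (.ix a x) c := by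
  classical
  obtain ⟨t, ht⟩ := (isCompact_univ (X := T)).elim_finite_subcover
    (fun n : {n : ℕ // ∃ e, BC.cL g n e ∈ S} => W n.1) (fun n => hF.ba.isOpen ⟨n.1, rfl⟩) (by
      intro x _
      obtain ⟨c, hc, hx⟩ := h1 x
      obtain ⟨n, e, rfl⟩ := hS c hc x hx
      exact Set.mem_iUnion.2 ⟨⟨n, e, hc⟩, (hit_la_cL W u).1 hx |>.2⟩)
  have ht' : ∀ x : T, ∃ n ∈ t, x ∈ W n.1 := by
    intro x
    have hx := ht (Set.mem_univ x)
    simp only [Set.mem_iUnion] at hx
    obtain ⟨n, hn, hx⟩ := hx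
    exact ⟨n, hn, hx⟩
  choose e he using fun n : {n : ℕ // ∃ e, BC.cL g n e ∈ S} => n.2
  have h3 : ∀ a : Ix, ∃ β : List BC, (∀ c ∈ β, c ∈ S) ∧
      (a ∈ g.1 → ∀ x, ∃ c ∈ β, hit W u (.ix a x) c) := by
    intro a
    by_cases ha : a ∈ g.1
    · obtain ⟨β, hb, hb'⟩ := cpI hF a S (h2 a ha)
      exact ⟨β, hb, fun _ => hb'⟩
    · exact ⟨[], by simp, fun h => absurd h ha⟩
  choose B hB hB' using h3
  refine ⟨t.toList.map (fun n => BC.cL g n.1 (e n)) ++ (t.biUnion e).toList.flatMap B, ?_, ?_, ?_⟩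
  · intro c hc
    rcases List.mem_append.1 hc with hc | hc
    · obtain ⟨n, -, rfl⟩ := List.mem_map.1 hc
      exact he n
    · obtain ⟨a, -, hc⟩ := List.mem_flatMap.1 hc
      exact hB a c hc
  · intro x
    obtain ⟨n, hn, hx⟩ := ht' x
    exact ⟨_, List.mem_append.2 (Or.inl (List.mem_map.2 ⟨n, Finset.mem_toList.2 hn, rfl⟩)),
      (hit_la_cL W u).2 ⟨rfl, hx⟩⟩
  · intro a ha x
    by_cases hE : a ∈ t.biUnion e
    · obtain ⟨c, hc, hx⟩ := hB' a ha x
      exact ⟨c, List.mem_append.2 (Or.inr (List.mem_flatMap.2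
        ⟨a, Finset.mem_toList.2 hE, hc⟩)), hx⟩
    · obtain ⟨n, hn, hx⟩ := ht' (u g a x)
      refine ⟨_, List.mem_append.2 (Or.inl (List.mem_map.2 ⟨n, Finset.mem_toList.2 hn, rfl⟩)),
        (hit_ix_cL W u).2 ⟨ha, fun hae => hE (Finset.mem_biUnion.2 ⟨n, hn, hae⟩), hx⟩⟩

end

end RNC
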