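import Pool.Agent.RNC.Per

/-! # The fusion lemma (package R05)

(problem MP_9bfcae_gt, project RNC)

`new_ladder`: `q 0 ≥ q 1 ≥ ...` and `x n ∈ (q (n + 1)).A`, `x n ∉ (q n).A`, `m : ℕ → ℕ`,
`s : ℕ → ℕ`. There is a condition `w ≤ q n` for all `n` which contains the ladder
`g = ({(x n, m n) | n}, s)`.

PROOF. Let `w0` be the union of the `q n` as in `seq_lower` (use `exists_union` with `α := ℕ`,
`p := q 0`, `x := q`, `v n := q (n - 1)`, so that `IsU (insert (q 0) (Set.range q)) w0`, in particular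
every `g' ∈ w0.F` is in some `(q n).F`, and every `y ∈ w0.A` in some `(q n).A`). Note
`x i ∈ (q j).A ↔ i < j`: if `i < j` then `x i ∈ (q (i + 1)).A ⊆ (q j).A`, if `j ≤ i` then
`(q j).A ⊆ (q i).A` does not contain `x i`. In particular `x` is injective and `g.1 = {(x n, m n)}` is
infinite; it is countable. Also `g ∉ w0.F` (`g ∈ (q j).F` would give `x j ∈ (q j).A` by `sub`).
`w.A := w0.A`, `w.F := insert g w0.F`. `free`: let `e0` be a witness for `w0` and for `g' ∈ w0.F` let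
`j` be the least number with `g' ∈ (q j).F`; then all elements of `g'.1` are over `(q j).A`, so
`g'.1 ∩ g.1 ⊆ {(x i, m i) | i < j}` is finite. Put `e g' := e0 g' ∪ (g'.1 ∩ g.1)` for `g' ≠ g`, and
`e g := ∅`. `w ≤ q n`: `g' ∈ w0.F`, `g' ∉ (q n).F`: finite as `w0 ≤ q n`. For `g`:
`ov g (q n).A ⊆ {(x i, m i) | i < n}` is finite.

`fusion`. PROOF. By `perAll` there are `q ≤ p` and `f` with `Per Q q m (f m)` for all `m`. Let
`s r := (Finset.range (2 ^ (r + 1))).sup fun m => (Finset.range (r + 1)).sup (f m)`, so that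
`f m n ≤ s r` for `n ≤ r`, `m < 2 ^ (r + 1)`. Let `md : ℕ → ℕ` take every value infinitely often (e.g.
`md n = (Nat.unpair n).1`). Recursion: `q 0 = q`, and given `q n ≤ q` the property
`Per Q q (md n) (f (md n))` gives `q (n + 1) ≤ q n` and `x n ∈ (q (n + 1)).A`, `x n ∉ (q n).A`, with
`Q (q (n + 1)) (x n, md n) (f (md n))`. Let `w` and `g` be as in `new_ladder` (`m := md`). For `r` and
`k < 2 ^ r` let `m = mc r k < 2 ^ (r + 1)`. For all `n` with `md n = m` the element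
`a = (x n, m) ∈ g.1` satisfies `Q w a (f m)` (`hQ`, `w ≤ q (n + 1)`) and `f m n' ≤ s r` for `n' ≤ r`.
These are infinitely many `a`, because `x` is injective. -/

set_option autoImplicit false

namespace RNC

open STP Cardinal

private theorem fus_mono (q : ℕ → Cd) (hq : ∀ n, q (n + 1) ≤ q n) (i j : ℕ) (h : i ≤ j) :
    q j ≤ q i := by
  induction j, h using Nat.le_induction with
  | base => exact le_rfl
  | succ j _ ih => exact (hq j).trans ih

private theorem fus_idx (q : ℕ → Cd) (hq : ∀ n, q (n + 1) ≤ q n) (x : ℕ → Om)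
    (hx : ∀ n, x n ∈ (q (n + 1)).A) (hx' : ∀ n, x n ∉ (q n).A) (i j : ℕ) :
    x i ∈ (q j).A ↔ i < j := by
  constructor
  · intro h
    by_contra hc
    exact hx' i ((fus_mono q hq j i (not_lt.1 hc)).1 h)
  · intro h
    exact (fus_mono q hq (i + 1) j h).1 (hx i)

private theorem fus_inj (q : ℕ → Cd) (hq : ∀ n, q (n + 1) ≤ q n) (x : ℕ → Om)
    (hx : ∀ n, x n ∈ (q (n + 1)).A) (hx' : ∀ n, x n ∉ (q n).A) (i j : ℕ) (h : x i = x j) :
    i = j := by
  have h1 := (fus_idx q hq x hx hx' i (j + 1)).1 (by rw [h]; exact hx j)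
  have h2 := (fus_idx q hq x hx hx' j (i + 1)).1 (by rw [← h]; exact hx i)
  omega

theorem new_ladder (q : ℕ → Cd) (hq : ∀ n, q (n + 1) ≤ q n) (x : ℕ → Om)
    (hx : ∀ n, x n ∈ (q (n + 1)).A) (hx' : ∀ n, x n ∉ (q n).A) (m s : ℕ → ℕ) :
    ∃ w : Cd, (∀ n, w ≤ q n) ∧ (Set.range fun n => ((x n, m n) : Ix), s) ∈ w.F := by
  classical
  have mono := fus_mono q hq
  have idx := fus_idx q hq x hx hx'
  have inj := fus_inj q hq x hx hx'
  have hN : #ℕ ≤ 𝔠 := by
    rw [Cardinal.mk_nat]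
    exact aleph0_le_cont
  have hv : ∀ n, IsU (insert (q 0) {r | ∃ j < n, r = q j}) (q (n - 1)) := by
    intro n
    constructor
    · ext a
      constructor
      · intro ha
        rcases Nat.eq_zero_or_pos n with rfl | hn
        · exact Set.mem_iUnion₂.2 ⟨q 0, Or.inl rfl, ha⟩
        · exact Set.mem_iUnion₂.2 ⟨q (n - 1), Or.inr ⟨n - 1, by omega, rfl⟩, ha⟩
      · intro ha
        obtain ⟨r, hr, har⟩ := Set.mem_iUnion₂.1 ha
        rcases hr with rfl | ⟨j, hj, rfl⟩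
        · exact (mono 0 (n - 1) (Nat.zero_le _)).1 har
        · exact (mono j (n - 1) (by omega)).1 har
    · ext a
      constructor
      · intro ha
        rcases Nat.eq_zero_or_pos n with rfl | hn
        · exact Set.mem_iUnion₂.2 ⟨q 0, Or.inl rfl, ha⟩
        · exact Set.mem_iUnion₂.2 ⟨q (n - 1), Or.inr ⟨n - 1, by omega, rfl⟩, ha⟩
      · intro ha
        obtain ⟨r, hr, har⟩ := Set.mem_iUnion₂.1 ha
        rcases hr with rfl | ⟨j, hj, rfl⟩
        · exact (mono 0 (n - 1) (Nat.zero_le _)).2.1 har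
        · exact (mono j (n - 1) (by omega)).2.1 har
  obtain ⟨w0, hU, -, hw0⟩ := exists_union hN (q 0) q (fun n => q (n - 1)) hv
    (fun n => mono _ _ (Nat.sub_le n 1)) (fun n => mono 0 _ (Nat.zero_le _))
    (fun j i h => mono j i h.le)
  have hF : ∀ g ∈ w0.F, ∃ j, g ∈ (q j).F := by
    intro g hg
    rw [hU.2] at hg
    obtain ⟨r, hr, hgr⟩ := Set.mem_iUnion₂.1 hg
    rcases hr with rfl | ⟨j, rfl⟩
    · exact ⟨0, hgr⟩
    · exact ⟨j, hgr⟩
  have hfin : ∀ g ∈ w0.F, (g.1 ∩ Set.range fun n => (x n, m n)).Finite := by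
    intro g hg
    obtain ⟨j, hj⟩ := hF g hg
    refine ((Set.finite_lt_nat j).image fun i => (x i, m i)).subset ?_
    rintro a ⟨ha, i, rfl⟩
    exact ⟨i, (idx i j).1 ((q j).sub g hj _ ha), rfl⟩
  obtain ⟨e0, he0⟩ := w0.free
  refine ⟨{
    A := w0.A
    F := insert (Set.range fun n => (x n, m n), s) w0.F
    cA := w0.cA
    ct := ?_
    inf := ?_
    sub := ?_
    free := ⟨fun g => e0 g ∪
      (if h : (g.1 ∩ Set.range fun n => (x n, m n)).Finite then h.toFinset else ∅), ?_⟩ },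
      fun n => ⟨(hw0 n).1, (hw0 n).2.1.trans (Set.subset_insert _ _), ?_⟩, Or.inl rfl⟩
  · rintro g (rfl | h)
    · exact Set.countable_range _
    · exact w0.ct g h
  · rintro g (rfl | h)
    · exact Set.infinite_range_of_injective fun i j h => inj i j (Prod.ext_iff.1 h).1
    · exact w0.inf g h
  · rintro g (rfl | h) a ha
    · obtain ⟨i, rfl⟩ := ha
      exact (hw0 (i + 1)).1 (hx i)
    · exact w0.sub g h a ha
  · have key : ∀ g ∈ w0.F, Disjoint
        ((Set.range fun n => (x n, m n)) \ ((e0 (Set.range fun n => (x n, m n), s) ∪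
          (if h : ((Set.range fun n => (x n, m n)) ∩
            Set.range fun n => (x n, m n)).Finite then h.toFinset else ∅) : Finset Ix) : Set Ix))
        (g.1 \ ((e0 g ∪ (if h : (g.1 ∩ Set.range fun n => (x n, m n)).Finite then
          h.toFinset else ∅) : Finset Ix) : Set Ix)) := by
      intro g hg
      rw [Set.disjoint_left]
      intro a ha ha'
      apply ha'.2
      rw [Finset.coe_union, dif_pos (hfin g hg)]
      exact Or.inr ((hfin g hg).mem_toFinset.2 ⟨ha'.1, ha.1⟩)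
    rintro g (rfl | hg) g' (rfl | hg') hne
    · exact absurd rfl hne
    · exact key g' hg'
    · exact (key g hg).symm
    · refine (he0 g hg g' hg' hne).mono (Set.sdiff_subset_sdiff_right ?_)
        (Set.sdiff_subset_sdiff_right ?_)
      · exact Finset.coe_subset.2 Finset.subset_union_left
      · exact Finset.coe_subset.2 Finset.subset_union_left
  · rintro g (rfl | h) h'
    · refine ((Set.finite_lt_nat n).image fun i => (x i, m i)).subset ?_
      rintro a ⟨⟨i, rfl⟩, ha⟩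
      exact ⟨i, (idx i n).1 ha, rfl⟩
    · exact (hw0 n).2.2 g h h'

theorem fusion (Q : Cd → Ix → (ℕ → ℕ) → Prop) (hQ : ∀ q r a f, r ≤ q → Q q a f → Q r a f)
    (hd : ∀ q a, ∃ r ≤ q, ∃ f, Q r a f) (p : Cd) :
    ∃ q ≤ p, ∃ g ∈ q.F, ∀ r k, k < 2 ^ r →
      {a | a ∈ g.1 ∧ a.2 = mc r k ∧ ∃ f, Q q a f ∧ ∀ n ≤ r, f n ≤ g.2 r}.Infinite := by
  obtain ⟨q, hq, f, hf⟩ := perAll Q hQ hd p
  have hstep : ∀ (r : {r : Cd // r ≤ q}) (n : ℕ), ∃ r' : {r : Cd // r ≤ q}, r'.1 ≤ r.1 ∧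
      ∃ x, x ∈ r'.1.A ∧ x ∉ r.1.A ∧ Q r'.1 (x, (Nat.unpair n).1) (f (Nat.unpair n).1) := by
    intro r n
    obtain ⟨r', hr', x, hx, hx', hQx⟩ := hf (Nat.unpair n).1 r.1 r.2
    exact ⟨⟨r', hr'.trans r.2⟩, hr', x, hx, hx', hQx⟩
  choose nx hnx hnx' using hstep
  obtain ⟨Z, hZ0, hZ⟩ : ∃ Z : ℕ → {r : Cd // r ≤ q}, (Z 0).1 = q ∧
      ∀ n, Z (n + 1) = nx (Z n) n :=
    ⟨fun n => Nat.rec ⟨q, le_rfl⟩ (fun n z => nx z n) n, rfl, fun n => rfl⟩
  choose x hx hx' hQx using fun n => hnx' (Z n) n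
  simp only [← hZ] at hx hQx
  have hdec : ∀ n, (Z (n + 1)).1 ≤ (Z n).1 := by
    intro n
    rw [hZ n]
    exact hnx (Z n) n
  obtain ⟨w, hw, hg⟩ := new_ladder (fun n => (Z n).1) hdec x hx hx' (fun n => (Nat.unpair n).1)
    (fun r => (Finset.range (2 ^ (r + 1))).sup fun m => (Finset.range (r + 1)).sup (f m))
  refine ⟨w, ((hw 0).trans (Z 0).2).trans hq, _, hg, fun r k hk => ?_⟩
  have hinf : {n : ℕ | (Nat.unpair n).1 = mc r k}.Infinite := by
    refine Set.infinite_of_injective_forall_mem (f := fun t : ℕ => Nat.pair (mc r k) t) ?_ ?_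
    · intro t t' h
      have h1 := congrArg (fun z => (Nat.unpair z).2) h
      simpa using h1
    · intro t
      simp
  have hinj : Function.Injective fun n : ℕ => ((x n, (Nat.unpair n).1) : Ix) := fun i j h =>
    fus_inj (fun n => (Z n).1) hdec x hx hx' i j (Prod.ext_iff.1 h).1
  refine (hinf.image hinj.injOn).mono ?_
  rintro _ ⟨n, hn, rfl⟩
  refine ⟨⟨n, rfl⟩, hn, f (Nat.unpair n).1, hQ _ _ _ _ (hw (n + 1)) (hQx n), fun i hi => ?_⟩
  have h1 : (Nat.unpair n).1 ∈ Finset.range (2 ^ (r + 1)) := by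
    have hn' : (Nat.unpair n).1 = mc r k := hn
    rw [hn', Finset.mem_range, pow_succ, mc]
    have : 1 ≤ 2 ^ r := Nat.one_le_two_pow
    omega
  have h2 : i ∈ Finset.range (r + 1) := Finset.mem_range.2 (by omega)
  exact (Finset.le_sup (f := f (Nat.unpair n).1) h2).trans
    (Finset.le_sup (f := fun m => (Finset.range (r + 1)).sup (f m)) h1)

end RNC
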