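import Pool.Agent.RNC.Spc
import Pool.Agent.RNC.Dst

/-! # The support of an image of small weight (package R28)

(problem MP_9bfcae_gt, project RNC)

`Sup p hv q Γ I`: `Γ`, `I` support the image below `q`: every basic set which contains the image of
`oo` contains (below `q`) the image of all points of some `cO G e` with `G ⊆ Γ`, `e ⊆ I`.

`supp`. PROOF. For `s : ℝ` let `D s q := (∀ r ≤ q, r ∉ hv oo s) ∨ ∃ G e, (∀ g ∈ G, g ∈ q.F) ∧
∀ r ≤ q, ∀ x, r ∈ pv x → hit W u x (cO G e) → r ∈ hv x s`. It is inherited by stronger conditions. It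
is dense below `p`: let `q ≤ p`; if some `r ≤ q` is in `hv oo s` then `hT.ct` (for the point `oo`, `q ∈ pv oo`
always) gives `r1 ≤ r` and a code `c` with `r1 ∈ bv c`, `hit oo c`, so `c = cO G e`, and `G ⊆ r1.F`
by `mem_bv_cO`, and the rest of the second alternative for `r1`. By `dist` with `J := ℝ`
(`Cardinal.mk_real`) there is `q ≤ p` with `D s q` for all `s`. For the `s` with the second alternative
choose `G s`, `e s` (otherwise `∅`). `Γ := ⋃ s, G s` and `I := (⋃ s, e s) ∪ ⋃ g ∈ Γ, g.1`; both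
have at most `𝔠` elements (`Cardinal.mk_iUnion_le`, `Cardinal.mul_le_of_le`, `countable_le_cont`,
`q.ct`).

`out_oo`. Let `r ≤ q`, `r ∈ pv a`, `¬ inA Γ I a`. Then `r ∈ ev a oo`. PROOF. `ev a oo` is regular, so it
is enough that for every `r0 ≤ r` some `r' ≤ r0` is in `ev a oo` (`RO.reg` / the characterization of
membership in `STP/RO.lean`). Otherwise for some `r0 ≤ r` no `r' ≤ r0` is in `ev a oo`, and `hT.hd` gives
`r1 ≤ r0`, `s`, `t` with `r1 ∈ hv a s`, `r1 ∈ hv oo t`, and no point is in both below `r1`. The first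
alternative of `Sup` for `t` is impossible (`r1 ≤ q`), so `cO G e` is as in the second one.
`hit W u a (cO G e)`: if `a = la g y` then `g ∉ Γ`, so `g ∉ G`; if `a = ix b x` then `b ∉ I`, so `b ∉ e` and
`b ∉ g.1` for `g ∈ G ⊆ Γ` (`hI`); `a = oo` is excluded. So `r1 ∈ hv a t`, and `a` is in both:
contradiction. -/

set_option autoImplicit false

namespace RNC

open STP Cardinal

section

variable {T : Type} {W : ℕ → Set T} {u : Lad → Ix → Ct → T}

/-- `Γ`, `I` support the image below `q` -/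
structure Sup (W : ℕ → Set T) (u : Lad → Ix → Ct → T) (hv : PT T → ℝ → RO Cd) (q : Cd)
    (Γ : Set Lad) (I : Set Ix) : Prop where
  cΓ : #Γ ≤ 𝔠
  cI : #I ≤ 𝔠
  sΓ : Γ ⊆ q.F
  sI : ∀ g ∈ Γ, g.1 ⊆ I
  su : ∀ s, (∀ r ≤ q, r ∉ hv .oo s) ∨ ∃ G e, inC Γ I (.cO G e) ∧
    ∀ r ≤ q, ∀ x, r ∈ pv x → hit W u x (.cO G e) → r ∈ hv x s

private theorem card_iU {α ι : Type} (hι : #ι ≤ 𝔠) (f : ι → Set α) (hf : ∀ i, #(f i) ≤ 𝔠) :
    #(⋃ i, f i) ≤ 𝔠 :=
  (Cardinal.mk_iUnion_le f).trans (Cardinal.mul_le_of_le aleph0_le_cont hι (ciSup_le' hf))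

private theorem inv_cO {c : BC} (h : hit W u (.oo : PT T) c) : ∃ G e, c = .cO G e := by
  cases c with
  | cI b s => exact absurd h (hit_oo_cI W u)
  | cL g n e => exact absurd h (hit_oo_cL W u)
  | cO G e => exact ⟨G, e, rfl⟩

theorem supp {p : Cd} {hv : PT T → ℝ → RO Cd} {ev : PT T → PT T → RO Cd}
    (hT : TIm pv bv (hit W u) p hv ev) : ∃ q ≤ p, ∃ Γ I, Sup W u hv q Γ I := by
  obtain ⟨q, hq, hD⟩ := dist (J := ℝ) Cardinal.mk_real.le
    (fun s q => (∀ r ≤ q, r ∉ hv .oo s) ∨ ∃ (G : Finset Lad) (e : Finset Ix),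
      (∀ g ∈ G, g ∈ q.F) ∧ ∀ r ≤ q, ∀ x, r ∈ pv x → hit W u x (.cO G e) → r ∈ hv x s) p
    (by
      rintro s q r hr (h | ⟨G, e, h1, h2⟩)
      · exact Or.inl fun r' hr' => h r' (hr'.trans hr)
      · exact Or.inr ⟨G, e, fun g hg => hr.2.1 (h1 g hg), fun r' hr' => h2 r' (hr'.trans hr)⟩)
    (by
      intro s q hq
      by_cases h : ∃ r ≤ q, r ∈ hv .oo s
      · obtain ⟨r, hr, hrs⟩ := h
        obtain ⟨r1, hr1, c, hc, hoc, h1⟩ := hT.ct r (hr.trans hq) .oo s mem_pv_oo hrs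
        obtain ⟨G, e, rfl⟩ := inv_cO hoc
        exact ⟨r1, hr1.trans hr, Or.inr ⟨G, e, mem_bv_cO.1 hc, h1⟩⟩
      · exact ⟨q, le_rfl, Or.inl fun r hr hrs => h ⟨r, hr, hrs⟩⟩)
  have hD' : ∀ s, ∃ (G : Finset Lad) (e : Finset Ix), (∀ g ∈ G, g ∈ q.F) ∧
      ((∀ r ≤ q, r ∉ hv .oo s) ∨
        ∀ r ≤ q, ∀ x, r ∈ pv x → hit W u x (.cO G e) → r ∈ hv x s) := by
    intro s
    rcases hD s with h | ⟨G, e, h1, h2⟩
    · exact ⟨∅, ∅, fun g hg => absurd hg (Finset.notMem_empty g), Or.inl h⟩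
    · exact ⟨G, e, h1, Or.inr h2⟩
  choose G e h1 h2 using hD'
  have hsub : (⋃ s, (G s : Set Lad)) ⊆ q.F := Set.iUnion_subset fun s g hg => h1 s g hg
  have hcG : #(⋃ s, (G s : Set Lad)) ≤ 𝔠 :=
    card_iU Cardinal.mk_real.le _ fun s => countable_le_cont (G s).countable_toSet
  refine ⟨q, hq, ⋃ s, (G s : Set Lad), (⋃ s, (e s : Set Ix)) ∪
    ⋃ g : (⋃ s, (G s : Set Lad) : Set Lad), g.1.1, ?_⟩
  refine ⟨hcG, ?_, hsub, fun g hg a ha => Or.inr (Set.mem_iUnion.2 ⟨⟨g, hg⟩, ha⟩), fun s => ?_⟩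
  · refine (Cardinal.mk_union_le _ _).trans (Cardinal.add_le_of_le aleph0_le_cont
      (card_iU Cardinal.mk_real.le _ fun s => countable_le_cont (e s).countable_toSet)
      (card_iU hcG _ fun g => countable_le_cont (q.ct g.1 (hsub g.2))))
  · rcases h2 s with h | h
    · exact Or.inl h
    · exact Or.inr ⟨G s, e s, ⟨fun g hg => Set.mem_iUnion.2 ⟨s, hg⟩,
        fun a ha => Or.inl (Set.mem_iUnion.2 ⟨s, ha⟩)⟩, h⟩

theorem Sup.mono {hv : PT T → ℝ → RO Cd} {q r : Cd} {Γ : Set Lad} {I : Set Ix}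
    (h : Sup W u hv q Γ I) (hr : r ≤ q) : Sup W u hv r Γ I where
  cΓ := h.cΓ
  cI := h.cI
  sΓ := h.sΓ.trans hr.2.1
  sI := h.sI
  su s := by
    rcases h.su s with h' | ⟨G, e, h1, h2⟩
    · exact Or.inl fun r' hr' => h' r' (hr'.trans hr)
    · exact Or.inr ⟨G, e, h1, fun r' hr' => h2 r' (hr'.trans hr)⟩

theorem out_oo {p : Cd} {hv : PT T → ℝ → RO Cd} {ev : PT T → PT T → RO Cd}
    (hT : TIm pv bv (hit W u) p hv ev) {q : Cd} (hq : q ≤ p) {Γ : Set Lad} {I : Set Ix}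
    (hS : Sup W u hv q Γ I) {r : Cd} (hr : r ≤ q) {a : PT T} (ha : r ∈ pv a)
    (ho : ¬ inA Γ I a) : r ∈ ev a .oo := by
  refine (ev a .oo).locally fun r0 hr0 => ?_
  by_contra hcon
  obtain ⟨r1, hr1, s, t, h1, h2, h3⟩ := hT.hd r0 ((hr0.trans hr).trans hq) a .oo
    ((pv a).down hr0 ha) mem_pv_oo fun r' hr' h => hcon ⟨r', hr', h⟩
  have hr1q : r1 ≤ q := (hr1.trans hr0).trans hr
  have hr1a : r1 ∈ pv a := (pv a).down (hr1.trans hr0) ha
  rcases hS.su t with h | ⟨G, e, hin, h⟩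
  · exact h r1 hr1q h2
  · have hhit : hit W u a (.cO G e) := by
      cases a with
      | oo => exact absurd trivial ho
      | la g y => exact fun hg => ho (hin.1 g hg)
      | ix b x => exact ⟨fun hb => ho (hin.2 b hb), fun g hg hb => ho (hS.sI g (hin.1 g hg) hb)⟩
    exact h3 r1 le_rfl a hr1a ⟨h1, h r1 hr1q a hr1a hhit⟩

end

end RNC
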