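import Pool.Agent.RNC.ImA

/-! # Deciding the equivalence relation (package R29)

(problem MP_9bfcae_gt, project RNC)

`card_inA`: there are at most `𝔠` points over `Γ`, `I` if `#Γ`, `#I`, `#T ≤ 𝔠`. PROOF. They are `oo`,
the `la g t` with `(g, t) ∈ Γ × T` and the `ix a x` with `(a, x) ∈ I × Ct`: the image of the sum type
`Unit ⊕ (Γ × T) ⊕ (I × Ct)`; `#Ct = 𝔠` (`Cardinal.mk_pi`/`Cardinal.two_power_aleph0`), products and
sums of cardinals `≤ 𝔠` are `≤ 𝔠` (`Cardinal.mul_le_of_le`, `Cardinal.add_le_of_le`).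

`dec`. PROOF. `dist` with `J := {ab : PT T × PT T // inA Γ I ab.1 ∧ inA Γ I ab.2}` (at most `𝔠` elements)
and `D ab q := q ∈ ev a b ∨ ∀ r ≤ q, r ∉ ev a b` below `q`.

`rp_inA`, `rp_eq`, `rp_pv`: the point `rp Γ I a` is over `Γ`, `I`; it is `a` if `a` is over `Γ`, `I`; it is a
point for all `r` with `Γ ⊆ r.F`. -/

set_option autoImplicit false

namespace RNC

open STP Cardinal

section

variable {T : Type} {W : ℕ → Set T} {u : Lad → Ix → Ct → T}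

theorem card_inA (hT : #T ≤ 𝔠) {Γ : Set Lad} {I : Set Ix} (hΓ : #Γ ≤ 𝔠) (hI : #I ≤ 𝔠) :
    #{a : PT T // inA Γ I a} ≤ 𝔠 := by
  have hCt : #Ct ≤ 𝔠 := by
    rw [← Cardinal.power_def, Cardinal.mk_bool, Cardinal.mk_nat, Cardinal.two_power_aleph0]
  let φ : Unit ⊕ ((Γ × T) ⊕ (I × Ct)) → {a : PT T // inA Γ I a} := fun z =>
    match z with
    | .inl _ => ⟨.oo, trivial⟩
    | .inr (.inl (g, t)) => ⟨.la g.1 t, g.2⟩
    | .inr (.inr (a, x)) => ⟨.ix a.1 x, a.2⟩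
  have hφ : Function.Surjective φ := by
    rintro ⟨a, ha⟩
    cases a with
    | oo => exact ⟨.inl (), rfl⟩
    | la g t => exact ⟨.inr (.inl (⟨g, ha⟩, t)), rfl⟩
    | ix a x => exact ⟨.inr (.inr (⟨a, ha⟩, x)), rfl⟩
  refine (Cardinal.mk_le_of_surjective hφ).trans ?_
  rw [Cardinal.mk_sum, Cardinal.mk_sum, Cardinal.mk_prod, Cardinal.mk_prod]
  simp only [Cardinal.lift_id]
  refine Cardinal.add_le_of_le aleph0_le_cont ?_ (Cardinal.add_le_of_le aleph0_le_cont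
    (Cardinal.mul_le_of_le aleph0_le_cont hΓ hT) (Cardinal.mul_le_of_le aleph0_le_cont hI hCt))
  rw [Cardinal.mk_unit]
  exact Cardinal.one_le_aleph0.trans aleph0_le_cont

theorem dec (hTc : #T ≤ 𝔠) {Γ : Set Lad} {I : Set Ix} (hΓ : #Γ ≤ 𝔠) (hI : #I ≤ 𝔠)
    (ev : PT T → PT T → RO Cd) (q : Cd) :
    ∃ r ≤ q, ∀ a b, inA Γ I a → inA Γ I b → r ∈ ev a b ∨ ∀ r' ≤ r, r' ∉ ev a b := by
  have hc := card_inA hTc hΓ hI
  have hJ : #({a : PT T // inA Γ I a} × {a : PT T // inA Γ I a}) ≤ 𝔠 := by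
    rw [Cardinal.mk_prod]
    simp only [Cardinal.lift_id]
    exact Cardinal.mul_le_of_le aleph0_le_cont hc hc
  obtain ⟨r, hr, h⟩ := dist hJ
    (fun ab q => q ∈ ev ab.1.1 ab.2.1 ∨ ∀ r' ≤ q, r' ∉ ev ab.1.1 ab.2.1) q
    (fun ab q r hr h => by
      rcases h with h | h
      · exact Or.inl ((ev ab.1.1 ab.2.1).down hr h)
      · exact Or.inr fun r' hr' => h r' (hr'.trans hr))
    (fun ab q _ => by
      by_cases h : ∃ r' ≤ q, r' ∈ ev ab.1.1 ab.2.1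
      · obtain ⟨r', hr', h'⟩ := h
        exact ⟨r', hr', Or.inl h'⟩
      · exact ⟨q, le_rfl, Or.inr fun r' hr' h' => h ⟨r', hr', h'⟩⟩)
  exact ⟨r, hr, fun a b ha hb => h (⟨a, ha⟩, ⟨b, hb⟩)⟩

theorem rp_inA {Γ : Set Lad} {I : Set Ix} (a : PT T) : inA Γ I (rp Γ I a) := by
  unfold rp
  split_ifs with h
  · exact h
  · trivial

theorem rp_eq {Γ : Set Lad} {I : Set Ix} {a : PT T} (h : inA Γ I a) : rp Γ I a = a := by
  exact if_pos h

theorem rp_oo {Γ : Set Lad} {I : Set Ix} {a : PT T} (h : ¬ inA Γ I a) : rp Γ I a = .oo := by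
  exact if_neg h

theorem pv_inA {Γ : Set Lad} {I : Set Ix} {r : Cd} (hr : Γ ⊆ r.F) {a : PT T}
    (h : inA Γ I a) : r ∈ pv a := by
  cases a with
  | oo => exact mem_pv_oo
  | la g t => exact mem_pv_la.2 (hr h)
  | ix a x => exact mem_pv_ix

end

end RNC
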