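import Pool.Agent.RNC.Typ

/-! # Neighbourhoods of a fibre of a map to a Hausdorff space (package R30)

(problem MP_9bfcae_gt, project RNC; any poset `P`)

`clm`: let (`p` forces that) the space be compact and `hv`, `ev` describe a Hausdorff image. Let
`q ≤ p`, `a` a point, `U` a ground model set of points which is open (`hop`) and contains all points
`b` with `ev a b` (`hev`). Then some `r ≤ q` and a basic set `s` of the image contain the image of
`a`, and all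
points with image in `s` are in `U`.

PROOF. For a code `c` let `B1 c r` be: for all `r' ≤ r` and `b` with `r' ∈ pv b`, `ht b c` we have
`U b`.
Let `B2 c r` be: there are `s`, `t` with `r ∈ hv a s`, for all `r' ≤ r`, `x` with `r' ∈ pv x` not
both
`r' ∈ hv x s` and `r' ∈ hv x t`, and for all `r' ≤ r` and `b` with `r' ∈ pv b`, `ht b c` we have
`r' ∈ hv b t`. Let `O c : RO P` be the regular hull of the open set
`{r | r ∈ bv c ∧ (B1 c r ∨ B2 c r)}`: the set of the `r` such that for every `r' ≤ r` some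
`r'' ≤ r'` is
in it (see `STP/RO.lean`, e.g. `RO.of`/`mkRO`-type constructors, or build the structure by hand).
`O c ≤ bv c` since `bv c` is regular. Below `q` the `O c` cover: let `r ≤ q`, `r ∈ pv b`. If some
`r' ≤ r`
is in `ev a b` then `U b` (`hev`) and `hop` gives `r'' ≤ r'` and a code `c` with `B1 c r''`.
Otherwise
`hd` (for `r`, `a`, `b`) gives `r1 ≤ r`, `s`, `t` with `r1 ∈ hv a s`, `r1 ∈ hv b t`, disjoint, and
`ct` for
`b`, `t` gives `r2 ≤ r1` and `c` with `r2 ∈ bv c`, `ht b c`, so `B2 c r2`. (All membership in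
`RO P` is
inherited by stronger conditions: `RO.mono`.) By `TCpt` (for `O`, `q`) there are `q1 ≤ q` and a list
`β` with `q1 ∈ O c` for `c ∈ β`, covering below `q1`. By induction on sublists of `β` there is
`q2 ≤ q1`
with `B1 c q2 ∨ B2 c q2` for all `c ∈ β` (`B1`, `B2` are inherited), and then, again by induction,
`q3 ≤ q2` and `s` with `q3 ∈ hv a s` such that for all `c ∈ β` with `B2`, with its `s_c`:
`r' ∈ hv x s → r' ∈ hv x s_c` for all `r' ≤ q3`, `r' ∈ pv x` (`cv` for the empty list, `dr` for the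
step).
Let `r' ≤ q3`, `r' ∈ pv b`, `r' ∈ hv b s`. Some `c ∈ β` has `ht b c`. If `B1 c q2`: `U b`. If `B2`:
`r' ∈ hv b t_c` and `r' ∈ hv b s_c`, contradiction. -/

set_option autoImplicit false

namespace RNC

open STP

theorem clm {P : Type} [PartialOrder P] {A C : Type} {pv : A → RO P} {bv : C → RO P}
    {ht : A → C → Prop} (hc : TCpt pv bv ht) {p : P} {hv : A → ℝ → RO P} {ev : A → A → RO P}
    (hT : TIm pv bv ht p hv ev) (q : P) (hq : q ≤ p) (a : A) (ha : q ∈ pv a) (U : A → Prop)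
    (hop : ∀ r ≤ q, ∀ b, r ∈ pv b → U b → ∃ r' ≤ r, ∃ c, r' ∈ bv c ∧ ht b c ∧
      ∀ r'' ≤ r', ∀ b', r'' ∈ pv b' → ht b' c → U b')
    (hev : ∀ r ≤ q, ∀ b, r ∈ pv b → r ∈ ev a b → U b) :
    ∃ r ≤ q, ∃ s, r ∈ hv a s ∧ ∀ r' ≤ r, ∀ b, r' ∈ pv b → r' ∈ hv b s → U b := by
  classical
  let S : C → Set P := fun c => {r | r ∈ bv c ∧
    ((∀ r' ≤ r, ∀ b, r' ∈ pv b → ht b c → U b) ∨
      ∃ s t, r ∈ hv a s ∧ (∀ r' ≤ r, ∀ x, r' ∈ pv x → ¬ (r' ∈ hv x s ∧ r' ∈ hv x t)) ∧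
        ∀ r' ≤ r, ∀ b, r' ∈ pv b → ht b c → r' ∈ hv b t)}
  have hSd : ∀ c, ∀ p' q', q' ≤ p' → p' ∈ S c → q' ∈ S c := by
    rintro c p' q' hqp ⟨h1, h2⟩
    refine ⟨(bv c).down hqp h1, ?_⟩
    rcases h2 with h2 | ⟨s, t, h3, h4, h5⟩
    · exact Or.inl fun r' hr' => h2 r' (hr'.trans hqp)
    · exact Or.inr ⟨s, t, (hv a s).down hqp h3, fun r' hr' => h4 r' (hr'.trans hqp),
        fun r' hr' => h5 r' (hr'.trans hqp)⟩
  have hO : ∀ c, RO.cl (S c) ≤ bv c := by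
    intro c
    rw [RO.le_def]
    intro p' hp'
    rw [RO.mem_cl (hSd c)] at hp'
    refine (bv c).locally fun q' hq' => ?_
    obtain ⟨r, hr, h1⟩ := hp' q' hq'
    exact ⟨r, hr, h1.1⟩
  have hself : ∀ c r, r ∈ S c → r ∈ RO.cl (S c) := fun c r hr =>
    (RO.mem_cl (hSd c)).2 fun q' hq' => ⟨q', le_rfl, hSd c r q' hq' hr⟩
  have hcov : ∀ r ≤ q, ∀ b, r ∈ pv b → ∃ r' ≤ r, ∃ c, r' ∈ RO.cl (S c) ∧ ht b c := by
    intro r hr b hb
    by_cases h : ∃ r' ≤ r, r' ∈ ev a b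
    · obtain ⟨r', hr', h1⟩ := h
      have hb' : r' ∈ pv b := (pv b).down hr' hb
      have hU := hev r' (hr'.trans hr) b hb' h1
      obtain ⟨r2, hr2, c, h2, h3, h4⟩ := hop r' (hr'.trans hr) b hb' hU
      exact ⟨r2, hr2.trans hr', c, hself c r2 ⟨h2, Or.inl h4⟩, h3⟩
    · have h0 : ∀ r' ≤ r, r' ∉ ev a b := fun r' hr' h1 => h ⟨r', hr', h1⟩
      obtain ⟨r1, hr1, s, t, h1, h2, h3⟩ := hT.hd r (hr.trans hq) a b ((pv a).down hr ha) hb h0
      have hb1 : r1 ∈ pv b := (pv b).down hr1 hb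
      obtain ⟨r2, hr2, c, h4, h5, h6⟩ := hT.ct r1 (hr1.trans (hr.trans hq)) b t hb1 h2
      refine ⟨r2, hr2.trans hr1, c, hself c r2 ⟨h4, Or.inr ⟨s, t, (hv a s).down hr2 h1, ?_, h6⟩⟩,
        h5⟩
      exact fun r' hr' => h3 r' (hr'.trans hr2)
  obtain ⟨q1, hq1, β, hβ, hcβ⟩ := hc (fun c => RO.cl (S c)) q hO hcov
  have key : ∀ β' : List C, (∀ c ∈ β', q1 ∈ RO.cl (S c)) → ∃ q3 ≤ q1, ∃ s, q3 ∈ hv a s ∧
      ∀ c ∈ β', ∀ r' ≤ q3, ∀ b, r' ∈ pv b → ht b c → r' ∈ hv b s → U b := by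
    intro β'
    induction β' with
    | nil =>
      intro _
      obtain ⟨q3, hq3, s, hs⟩ := hT.cv q1 (hq1.trans hq) a ((pv a).down hq1 ha)
      exact ⟨q3, hq3, s, hs, fun c hc' => absurd hc' List.not_mem_nil⟩
    | cons c β' ih =>
      intro h
      obtain ⟨q3, hq3, s, hs, h1⟩ := ih fun c' hc' => h c' (List.mem_cons_of_mem _ hc')
      have h2 := h c List.mem_cons_self
      rw [RO.mem_cl (hSd c)] at h2
      obtain ⟨r, hr, -, h3⟩ := h2 q3 hq3
      rcases h3 with h3 | ⟨s', t, h3, h4, h5⟩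
      · refine ⟨r, hr.trans hq3, s, (hv a s).down hr hs, fun c' hc' => ?_⟩
        rcases List.mem_cons.1 hc' with rfl | hc'
        · exact fun r' hr' b hb hbc _ => h3 r' hr' b hb hbc
        · exact fun r' hr' b hb hbc hbs => h1 c' hc' r' (hr'.trans hr) b hb hbc hbs
      · have hrq : r ≤ q := hr.trans (hq3.trans hq1)
        obtain ⟨r2, hr2, u, hu, h6⟩ := hT.dr r (hrq.trans hq) a s s' ((pv a).down hrq ha)
          ((hv a s).down hr hs) h3
        refine ⟨r2, hr2.trans (hr.trans hq3), u, hu, fun c' hc' => ?_⟩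
        rcases List.mem_cons.1 hc' with rfl | hc'
        · intro r' hr' b hb hbc hbu
          exact absurd ⟨(h6 r' hr' b hb hbu).2, h5 r' (hr'.trans hr2) b hb hbc⟩
            (h4 r' (hr'.trans hr2) b hb)
        · intro r' hr' b hb hbc hbu
          exact h1 c' hc' r' ((hr'.trans hr2).trans hr) b hb hbc (h6 r' hr' b hb hbu).1
  obtain ⟨q3, hq3, s, hs, h1⟩ := key β hβ
  refine ⟨q3, hq3.trans hq1, s, hs, fun r' hr' b hb hbs => ?_⟩
  obtain ⟨c, hcβ', hbc⟩ := hcβ r' (hr'.trans hq3) b hb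
  exact h1 c hcβ' r' hr' b hb hbc hbs

end RNC
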