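import Pool.Agent.RNC.Nb
import Pool.Agent.RNC.ImB

/-! # The equivalence relation in the ground model (package R31)

(problem MP_9bfcae_gt, project RNC)

The situation: `hT : TIm ... p hv ev`, `q ≤ p`, `hS : Sup W u hv q Γ I`, and `hd`: `q` decides `ev a b` for
all `a`, `b` over `Γ`, `I` (see `dec`). `Er ev q Γ I a b` is the relation `q ∈ ev (rp a) (rp b)`.

`er_iff`: for `r ≤ q` and points `a`, `b` (`r ∈ pv a`, `r ∈ pv b`): `r ∈ ev a b ↔ Er ev q Γ I a b`. PROOF.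
`r ∈ ev a (rp a)`: if `a` is over `Γ`, `I` then `rp a = a` and `hT.rf`; otherwise `rp a = oo` and `out_oo`.
With `hT.sy`, `hT.tr` (`r ≤ q ≤ p`; all points involved are points for `r`, `pv_inA`, `rp_inA`,
`hS.sΓ`, `hr.2.1`): `r ∈ ev a b ↔ r ∈ ev (rp a) (rp b)`. By `hd`, `q ∈ ev (rp a) (rp b)` or no `r ≤ q` is
in it; so `r ∈ ev (rp a) (rp b) ↔ q ∈ ev (rp a) (rp b)` (`RO` membership is inherited).

`er_eqv`: `Er` is an equivalence relation (`hT.rf`, `hT.sy`, `hT.tr` for `q` and points over `Γ`, `I`).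

`er_cl`. PROOF. Let `a`, `b` be over `Γ`, `I` and not `Er`. `rp a = a`, `rp b = b`, so no `r ≤ q` is in
`ev a b`, and `hT.hd` gives `r1 ≤ q`, `s`, `t` with `r1 ∈ hv a s`, `r1 ∈ hv b t`, and no point in both below
`r1`. Claim: for `a` (over `Γ`, `I`) and `r1 ≤ q`, `r1 ∈ hv a s` there are `r2 ≤ r1` and a code `c` over
`Γ`, `I` with `hit W u a c` and `r' ∈ hv x s` for all `r' ≤ r2` and points `x` of `c`. If `a = oo`: the first
alternative of `hS.su s` fails, the second one is the claim with `r2 = r1`. If `a = la g y`, `g ∈ Γ`: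
`hT.ct` gives `r2` and a code `c'`, `r2 ∈ bv c'`, and `la_nb` gives `cL g n e ⊆ c'` (a code over `Γ`, `I`).
If `a = ix b x`, `b ∈ I`: `hT.ct` and `ix_nb` give `cI b (sg x l) ⊆ c'` (`in_seg`). Apply the claim to `a, s`
and then to `b, t`: `r3 ≤ r1` and `c`, `d`. Let `a'`, `b'` be over `Γ`, `I`, in `c`, `d`, and `Er a' b'`. Then
`r3 ∈ hv a' s`, `r3 ∈ hv b' t`, `r3 ∈ ev a' b'` (`er_iff`), so `r3 ∈ hv b' s` (`hT.cg`), contradiction. -/

set_option autoImplicit false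

namespace RNC

open STP Cardinal

section

variable {T : Type} {W : ℕ → Set T} {u : Lad → Ix → Ct → T}

/-- the equivalence relation of the image, decided by `q` -/
def Er (ev : PT T → PT T → RO Cd) (q : Cd) (Γ : Set Lad) (I : Set Ix) (a b : PT T) : Prop :=
  q ∈ ev (rp Γ I a) (rp Γ I b)

private theorem ev_rp {p : Cd} {hv : PT T → ℝ → RO Cd} {ev : PT T → PT T → RO Cd}
    (hT : TIm pv bv (hit W u) p hv ev) {q : Cd} (hq : q ≤ p) {Γ : Set Lad} {I : Set Ix}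
    (hS : Sup W u hv q Γ I) {r : Cd} (hr : r ≤ q) {a : PT T} (ha : r ∈ pv a) :
    r ∈ ev a (rp Γ I a) := by
  by_cases h : inA Γ I a
  · rw [rp_eq h]
    exact hT.rf r (hr.trans hq) a ha
  · rw [rp_oo h]
    exact out_oo hT hq hS hr ha h

private theorem pv_rp {hv : PT T → ℝ → RO Cd} {q : Cd} {Γ : Set Lad} {I : Set Ix}
    (hS : Sup W u hv q Γ I) {r : Cd} (hr : r ≤ q) (a : PT T) : r ∈ pv (rp Γ I a) :=
  pv_inA (hS.sΓ.trans hr.2.1) (rp_inA a)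

theorem er_iff {p : Cd} {hv : PT T → ℝ → RO Cd} {ev : PT T → PT T → RO Cd}
    (hT : TIm pv bv (hit W u) p hv ev) {q : Cd} (hq : q ≤ p) {Γ : Set Lad} {I : Set Ix}
    (hS : Sup W u hv q Γ I)
    (hd : ∀ a b, inA Γ I a → inA Γ I b → q ∈ ev a b ∨ ∀ r' ≤ q, r' ∉ ev a b)
    {r : Cd} (hr : r ≤ q) {a b : PT T} (ha : r ∈ pv a) (hb : r ∈ pv b) :
    r ∈ ev a b ↔ Er ev q Γ I a b := by
  have hrp : r ≤ p := hr.trans hq
  have ha1 := ev_rp hT hq hS hr ha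
  have hb1 := ev_rp hT hq hS hr hb
  have ha2 := pv_rp hS hr a
  have hb2 := pv_rp hS hr b
  have ha3 := hT.sy r hrp _ _ ha ha2 ha1
  have hb3 := hT.sy r hrp _ _ hb hb2 hb1
  constructor
  · intro h
    have h1 := hT.tr r hrp _ _ _ ha2 ha hb ha3 h
    have h2 := hT.tr r hrp _ _ _ ha2 hb hb2 h1 hb1
    rcases hd _ _ (rp_inA a) (rp_inA b) with h3 | h3
    · exact h3
    · exact absurd h2 (h3 r hr)
  · intro h
    have h1 : r ∈ ev (rp Γ I a) (rp Γ I b) := (ev (rp Γ I a) (rp Γ I b)).down hr h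
    have h2 := hT.tr r hrp _ _ _ ha ha2 hb2 ha1 h1
    exact hT.tr r hrp _ _ _ ha hb2 hb h2 hb3

theorem er_eqv {p : Cd} {hv : PT T → ℝ → RO Cd} {ev : PT T → PT T → RO Cd}
    (hT : TIm pv bv (hit W u) p hv ev) {q : Cd} (hq : q ≤ p) {Γ : Set Lad} {I : Set Ix}
    (hS : Sup W u hv q Γ I) : Equivalence (Er ev q Γ I) where
  refl a := hT.rf q hq _ (pv_rp hS le_rfl a)
  symm {a b} h := hT.sy q hq _ _ (pv_rp hS le_rfl a) (pv_rp hS le_rfl b) h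
  trans {a b c} h h' := hT.tr q hq _ _ _ (pv_rp hS le_rfl a) (pv_rp hS le_rfl b)
    (pv_rp hS le_rfl c) h h'

private theorem er_nb [TopologicalSpace T] (hF : Fb W u) {p : Cd} {hv : PT T → ℝ → RO Cd}
    {ev : PT T → PT T → RO Cd} (hT : TIm pv bv (hit W u) p hv ev) {q : Cd} (hq : q ≤ p)
    {Γ : Set Lad} {I : Set Ix} (hS : Sup W u hv q Γ I) {a : PT T} (ha : inA Γ I a) {r1 : Cd}
    (hr1 : r1 ≤ q) {s : ℝ} (hs : r1 ∈ hv a s) :
    ∃ r2 ≤ r1, ∃ c, inC Γ I c ∧ hit W u a c ∧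
      ∀ r' ≤ r2, ∀ x, r' ∈ pv x → hit W u x c → r' ∈ hv x s := by
  have hpa : r1 ∈ pv a := pv_inA (hS.sΓ.trans hr1.2.1) ha
  cases a with
  | oo =>
    rcases hS.su s with h | ⟨G, e, h1, h2⟩
    · exact absurd hs (h r1 hr1)
    · exact ⟨r1, le_rfl, .cO G e, h1, trivial, fun r' hr' => h2 r' (hr'.trans hr1)⟩
  | la g y =>
    obtain ⟨r2, hr2, c', h1, h2, h3⟩ := hT.ct r1 (hr1.trans hq) _ s hpa hs
    have hg : g ∈ r2.F := (hr2.trans hr1).2.1 (hS.sΓ ha)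
    obtain ⟨n, e, h4, h5⟩ := la_nb hF hg h1 h2
    exact ⟨r2, hr2, .cL g n e, ha, ⟨rfl, h4⟩, fun r' hr' x hx hxc => h3 r' hr' x hx (h5 x hxc)⟩
  | ix b x =>
    obtain ⟨r2, hr2, c', h1, h2, h3⟩ := hT.ct r1 (hr1.trans hq) _ s hpa hs
    obtain ⟨l, hl⟩ := ix_nb hF h2
    refine ⟨r2, hr2, .cI b (sg x l), ha, ⟨rfl, in_seg.2 fun i _ => rfl⟩, ?_⟩
    intro r' hr' x' hx' hxc
    refine h3 r' hr' x' hx' ?_
    cases x' with
    | oo => exact hxc.elim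
    | la g t => exact hxc.elim
    | ix b' y =>
      obtain ⟨rfl, hy⟩ := hxc
      exact hl y (in_seg.1 hy)

theorem er_cl [TopologicalSpace T] (hF : Fb W u) {p : Cd} {hv : PT T → ℝ → RO Cd}
    {ev : PT T → PT T → RO Cd} (hT : TIm pv bv (hit W u) p hv ev) {q : Cd} (hq : q ≤ p)
    {Γ : Set Lad} {I : Set Ix} (hS : Sup W u hv q Γ I)
    (hd : ∀ a b, inA Γ I a → inA Γ I b → q ∈ ev a b ∨ ∀ r' ≤ q, r' ∉ ev a b)
    (a b : PT T) (ha : inA Γ I a) (hb : inA Γ I b) (h : ¬ Er ev q Γ I a b) :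
    ∃ c d, inC Γ I c ∧ inC Γ I d ∧ hit W u a c ∧ hit W u b d ∧
      ∀ a' b', inA Γ I a' → inA Γ I b' → hit W u a' c → hit W u b' d →
        ¬ Er ev q Γ I a' b' := by
  have hno : ∀ r' ≤ q, r' ∉ ev a b := by
    rcases hd a b ha hb with h1 | h1
    · refine absurd ?_ h
      unfold Er
      rw [rp_eq ha, rp_eq hb]
      exact h1
    · exact h1
  obtain ⟨r1, hr1, s, t, h1, h2, h3⟩ := hT.hd q hq a b (pv_inA hS.sΓ ha) (pv_inA hS.sΓ hb) hno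
  obtain ⟨r2, hr2, c, hc1, hc2, hc3⟩ := er_nb hF hT hq hS ha hr1 h1
  obtain ⟨r3, hr3, d, hd1, hd2, hd3⟩ :=
    er_nb hF hT hq hS hb (hr2.trans hr1) ((hv b t).down hr2 h2)
  refine ⟨c, d, hc1, hd1, hc2, hd2, fun a' b' ha' hb' hac hbd hE => ?_⟩
  have hr3q : r3 ≤ q := hr3.trans (hr2.trans hr1)
  have hpa : r3 ∈ pv a' := pv_inA (hS.sΓ.trans hr3q.2.1) ha'
  have hpb : r3 ∈ pv b' := pv_inA (hS.sΓ.trans hr3q.2.1) hb'
  have h4 := hc3 r3 hr3 a' hpa hac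
  have h5 := hd3 r3 le_rfl b' hpb hbd
  have h6 : r3 ∈ ev a' b' := (er_iff hT hq hS hd hr3q hpa hpb).2 hE
  have h7 := hT.cg r3 (hr3q.trans hq) a' b' s hpa hpb h6 h4
  exact h3 r3 (hr3.trans hr2) b' hpb ⟨h7, h5⟩

end

end RNC
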