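import Pool.Agent.CPI.Coded

/-! # Radon-Nikodym compact spaces inside a structure `(N, E)`

(problem MP_9bfcae_gt, project RNC; definitions, no sorry in this file)

Every definition quantifies over the elements of `N` only. A space is presented by a base: `(Y, B, h)`
consists of the set of points `Y`, a set `B` of indices and a set `h`; the basic open set with the
index `b ∈ B` is `{y ∈ Y | (y, b) ∈ h}` (`Val E h y b`). `CSp`, `CHd`, `CCpt` (file
`CPI/Coded.lean`): the basic sets are a base of a topology on `Y`, the space is Hausdorff, compact.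
`Sub`, `IsFun`, `Val` (`STP/Lang.lean`), `IsRL`, `Ap`, `CEv` (`CPI`): inclusion, function, pairs, the
ordered set of real numbers, `e(z, y) = t`, function of two variables with values in `R`. -/

universe v

namespace RNC

open STP CPI

section

variable {N : Type v} (E : N → N → Prop)

/-- `(R, l, a, o)` is (isomorphic to) the ordered group of real numbers: `l` is the order, `a` the
addition (`Ap a x y z` means `x + y = z`), `o` is zero -/
def IsRA (R l a o : N) : Prop :=
  IsRL E R l ∧ E o R ∧ CEv E R R R a ∧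
  (∀ x y z, E x R → E y R → Ap E a x y z → Ap E a y x z) ∧
  (∀ x y z s t, E x R → E y R → E z R → Ap E a x y s → Ap E a s z t →
    ∃ u, E u R ∧ Ap E a y z u ∧ Ap E a x u t) ∧
  (∀ x, E x R → Ap E a x o x) ∧
  (∀ x, E x R → ∃ y, E y R ∧ Ap E a x y o) ∧
  ∀ x y z s t, E z R → Val E l x y → Ap E a x z s → Ap E a y z t → Val E l s t

/-- `d` is a metric on `Y` -/
def IsMet (R l a o Y d : N) : Prop :=
  CEv E R Y Y d ∧
  (∀ x y t, E x Y → E y Y → Ap E d x y t →
    ¬ Val E l t o ∧ (t = o ↔ x = y) ∧ Ap E d y x t) ∧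
  ∀ x y z s t u w, E x Y → E y Y → E z Y → Ap E d x y s → Ap E d y z t → Ap E d x z u →
    Ap E a s t w → ¬ Val E l w u

/-- the function `d` on `Y × Y` is lower semicontinuous -/
def IsLsc (R l Y B h d : N) : Prop :=
  ∀ x y t r, E x Y → E y Y → E r R → Ap E d x y t → Val E l r t →
    ∃ b c, E b B ∧ E c B ∧ Val E h x b ∧ Val E h y c ∧
      ∀ x' y' s, E x' Y → E y' Y → Val E h x' b → Val E h y' c → Ap E d x' y' s → Val E l r s

/-- `d` fragments the space: for every nonempty `C ⊆ Y` and `e > 0` there is a basic open set `b`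
which meets `C`, such that `d(x, y) < e` for all `x, y ∈ b ∩ C` -/
def IsFrg (R l o Y B h d : N) : Prop :=
  ∀ C e, Sub E C Y → (∃ x, E x C) → E e R → Val E l o e →
    ∃ b, E b B ∧ (∃ x, E x C ∧ Val E h x b) ∧
      ∀ x y s, E x C → E y C → Val E h x b → Val E h y b → Ap E d x y s → Val E l s e

/-- there is a lower semicontinuous metric which fragments the space (for compact spaces: the space
is Radon-Nikodym compact) -/
def IsRN (R l a o Y B h : N) : Prop :=
  ∃ d, IsMet E R l a o Y d ∧ IsLsc E R l Y B h d ∧ IsFrg E R l o Y B h d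

/-- `g` is a continuous map from the space `(X, B, h)` to the space `(Y, D, m)` -/
def IsCM (X B h Y D m g : N) : Prop :=
  IsFun E g X ∧ (∀ x y, Val E g x y → E y Y) ∧
  ∀ x y c, Val E g x y → E c D → Val E m y c →
    ∃ b, E b B ∧ Val E h x b ∧ ∀ x' y', E x' X → Val E h x' b → Val E g x' y' → Val E m y' c

/-- `(Y, D, m)` is a continuous image of `(X, B, h)` -/
def IsIm (X B h Y D m : N) : Prop :=
  ∃ g, IsCM E X B h Y D m g ∧ ∀ y, E y Y → ∃ x, Val E g x y

/-- `|D| ≤ |R|`: some function with domain `R` takes all elements of `D` as values -/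
def IsSm (R D : N) : Prop := ∃ f, IsFun E f R ∧ ∀ b, E b D → ∃ r, Val E f r b

/-- There is a compact Hausdorff space `(X, B, h)` which is a continuous image of a Radon-Nikodym
compact space `(Z, C, k)` and is not Radon-Nikodym compact, although all Hausdorff continuous images
of `(X, B, h)` of weight at most `𝔠` (with a base indexed by a set of cardinality at most `𝔠`) are
Radon-Nikodym compact. -/
def NegRN : Prop :=
  ∃ R l a o X B h Z C k, IsRA E R l a o ∧
    (∀ x y z, Ap E a x y z → E x R ∧ E y R ∧ E z R) ∧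
    CSp E X B h ∧ CHd E X B h ∧ CCpt E X B h ∧
    CSp E Z C k ∧ CHd E Z C k ∧ CCpt E Z C k ∧
    IsRN E R l a o Z C k ∧ IsIm E Z C k X B h ∧ ¬ IsRN E R l a o X B h ∧
    ∀ Y D m, CSp E Y D m → CHd E Y D m → IsIm E X B h Y D m → IsSm E R D →
      IsRN E R l a o Y D m

end

end RNC
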