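import Pool.Agent.RNC.Spc

/-! # The metric on `Z`: axioms of a metric (package R11)

(problem MP_9bfcae_gt, project RNC)

`fd x y` is the first difference of `x` and `y` (for `x ≠ y`). `fd_ne`, `fd_eq_of_lt`: `Nat.find_spec`,
`Nat.find_min` (`x ≠ y` gives `∃ n, x n ≠ y n` by `funext`). `fd_unique`: if `x j ≠ y j` and `x i = y i` for
`i < j` then `fd x y = j`. `fd_comm`. `fd_le_of_ne`: `x i ≠ y i → fd x y ≤ i`.

`wt g j` is positive, at most `1`, at most `1 / (1 + j)` and antitone in `j` (`Finset.sup_mono`,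
`one_div_le_one_div_of_le`). `le_wt`-type facts: `wt g j ≤ 1 / (1 + g.2 j)`.

`DL_nn`, `DL_eq`, `DL_sy`: by cases on the two points. `DL_tr`: in fact `DL a c ≤ max (DL a b) (DL b c)`:
the values of `DL` are at most `1`; if `a`, `c` are in different pieces then `b` is not in the same piece as
both, and the right side is `1`. If `a`, `c` are in the same piece and `b` is not, the right side is `1`. If all
three are in the same piece `la g _` or `ix a _` then `fd x z ≥ min (fd x y) (fd y z)` and the function of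
`fd` is antitone (cases where two of the points are equal are trivial). -/

set_option autoImplicit false

namespace RNC

open STP

private theorem ex_ne {x y : Ct} (h : x ≠ y) : ∃ n, x n ≠ y n := Function.ne_iff.1 h

open Classical in
private theorem fd_find {x y : Ct} (h : ∃ n, x n ≠ y n) : fd x y = Nat.find h := by
  unfold fd
  rw [dif_pos h]

theorem fd_ne {x y : Ct} (h : x ≠ y) : x (fd x y) ≠ y (fd x y) := by
  classical
  rw [fd_find (ex_ne h)]
  exact Nat.find_spec (ex_ne h)

theorem fd_eq_of_lt {x y : Ct} {i : ℕ} (h : i < fd x y) : x i = y i := by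
  classical
  by_cases hxy : x = y
  · rw [hxy]
  · rw [fd_find (ex_ne hxy)] at h
    by_contra h1
    exact Nat.find_min (ex_ne hxy) h h1

theorem fd_unique {x y : Ct} {j : ℕ} (h : x j ≠ y j) (h' : ∀ i < j, x i = y i) : fd x y = j := by
  have hne : x ≠ y := fun h1 => h (by rw [h1])
  rcases lt_trichotomy (fd x y) j with h1 | h1 | h1
  · exact absurd (h' _ h1) (fd_ne hne)
  · exact h1
  · exact absurd (fd_eq_of_lt h1) h

theorem fd_comm (x y : Ct) : fd x y = fd y x := by
  by_cases h : x = y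
  · rw [h]
  · exact (fd_unique (fd_ne h).symm fun i hi => (fd_eq_of_lt hi).symm).symm

theorem fd_le_of_ne {x y : Ct} {i : ℕ} (h : x i ≠ y i) : fd x y ≤ i := by
  by_contra h1
  exact h (fd_eq_of_lt (not_le.1 h1))

private theorem dn_pos (g : Lad) (j : ℕ) :
    (0 : ℝ) < 1 + j + ((Finset.range (j + 1)).sup g.2 : ℕ) := by positivity

theorem wt_pos (g : Lad) (j : ℕ) : 0 < wt g j := by
  unfold wt
  exact one_div_pos.2 (dn_pos g j)

theorem wt_le (g : Lad) (j : ℕ) : wt g j ≤ 1 / (1 + j) := by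
  unfold wt
  refine one_div_le_one_div_of_le (by positivity) ?_
  have h : (0 : ℝ) ≤ ((Finset.range (j + 1)).sup g.2 : ℕ) := Nat.cast_nonneg _
  linarith

theorem wt_le_one (g : Lad) (j : ℕ) : wt g j ≤ 1 := by
  refine (wt_le g j).trans ?_
  rw [div_le_one (by positivity)]
  have h : (0 : ℝ) ≤ j := Nat.cast_nonneg _
  linarith

theorem wt_le' (g : Lad) (j : ℕ) : wt g j ≤ 1 / (1 + g.2 j) := by
  unfold wt
  refine one_div_le_one_div_of_le (by positivity) ?_
  have h : (g.2 j : ℝ) ≤ ((Finset.range (j + 1)).sup g.2 : ℕ) := by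
    exact_mod_cast Finset.le_sup (f := g.2) (Finset.mem_range.2 (Nat.lt_succ_self j))
  have h1 : (0 : ℝ) ≤ j := Nat.cast_nonneg _
  linarith

theorem wt_anti (g : Lad) {i j : ℕ} (h : i ≤ j) : wt g j ≤ wt g i := by
  unfold wt
  refine one_div_le_one_div_of_le (dn_pos g i) ?_
  have h1 : (((Finset.range (i + 1)).sup g.2 : ℕ) : ℝ) ≤ ((Finset.range (j + 1)).sup g.2 : ℕ) := by
    exact_mod_cast Finset.sup_mono (Finset.range_mono (Nat.succ_le_succ h))
  have h2 : (i : ℝ) ≤ j := by exact_mod_cast h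
  linarith

open Classical in
/-- the distance in a piece -/
private noncomputable def dd (w : ℕ → ℝ) (x y : Ct) : ℝ := if x = y then 0 else w (fd x y)

private theorem dd_self (w : ℕ → ℝ) (x : Ct) : dd w x x = 0 := if_pos rfl

private theorem dd_ne (w : ℕ → ℝ) {x y : Ct} (h : x ≠ y) : dd w x y = w (fd x y) := if_neg h

private theorem dd_nn {w : ℕ → ℝ} (hw : ∀ j, 0 < w j) (x y : Ct) : 0 ≤ dd w x y := by
  by_cases h : x = y
  · rw [h, dd_self]
  · rw [dd_ne w h]
    exact (hw _).le

private theorem dd_le_one {w : ℕ → ℝ} (hw : ∀ j, w j ≤ 1) (x y : Ct) : dd w x y ≤ 1 := by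
  by_cases h : x = y
  · rw [h, dd_self]
    exact zero_le_one
  · rw [dd_ne w h]
    exact hw _

private theorem dd_eq {w : ℕ → ℝ} (hw : ∀ j, 0 < w j) (x y : Ct) : dd w x y = 0 ↔ x = y := by
  constructor
  · intro h
    by_contra h1
    rw [dd_ne w h1] at h
    exact (hw _).ne' h
  · rintro rfl
    exact dd_self w x

private theorem dd_sy (w : ℕ → ℝ) (x y : Ct) : dd w x y = dd w y x := by
  by_cases h : x = y
  · rw [h]
  · rw [dd_ne w h, dd_ne w (Ne.symm h), fd_comm]

private theorem dd_tr {w : ℕ → ℝ} (hw : ∀ j, 0 < w j) (ha : ∀ i j, i ≤ j → w j ≤ w i)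
    (x y z : Ct) : dd w x z ≤ dd w x y + dd w y z := by
  have h1 := dd_nn hw x y
  have h2 := dd_nn hw y z
  by_cases hxz : x = z
  · rw [hxz, dd_self]
    rw [hxz] at h1
    linarith
  by_cases hxy : x = y
  · rw [hxy, dd_self, zero_add]
  by_cases hyz : y = z
  · rw [hyz, dd_self, add_zero]
  have h3 : fd x y ≤ fd x z ∨ fd y z ≤ fd x z := by
    by_contra hcon
    push Not at hcon
    exact fd_ne hxz ((fd_eq_of_lt hcon.1).trans (fd_eq_of_lt hcon.2))
  rw [dd_ne w hxz]
  rw [dd_ne w hxy] at h1 ⊢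
  rw [dd_ne w hyz] at h2 ⊢
  rcases h3 with h3 | h3
  · linarith [ha _ _ h3]
  · linarith [ha _ _ h3]

private theorem DL_la_same (g : Lad) (x y : Ct) : DL (.la g x) (.la g y) = dd (wt g) x y :=
  if_pos rfl

private theorem DL_la_ne {g g' : Lad} (h : g ≠ g') (x y : Ct) : DL (.la g x) (.la g' y) = 1 :=
  if_neg h

private theorem DL_ix_same (a : Ix) (x y : Ct) :
    DL (.ix a x) (.ix a y) = dd (fun j => 1 / (1 + j)) x y :=
  if_pos rfl

private theorem DL_ix_ne {a b : Ix} (h : a ≠ b) (x y : Ct) : DL (.ix a x) (.ix b y) = 1 :=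
  if_neg h

private theorem w0_pos (j : ℕ) : (0 : ℝ) < 1 / (1 + j) := by positivity

private theorem w0_le_one (j : ℕ) : (1 : ℝ) / (1 + j) ≤ 1 := by
  rw [div_le_one (by positivity)]
  have h : (0 : ℝ) ≤ j := Nat.cast_nonneg _
  linarith

private theorem w0_anti (i j : ℕ) (h : i ≤ j) : (1 : ℝ) / (1 + j) ≤ 1 / (1 + i) := by
  refine one_div_le_one_div_of_le (by positivity) ?_
  have h2 : (i : ℝ) ≤ j := by exact_mod_cast h
  linarith

private theorem DL_mixed (a b : PT Ct) : DL a b = 1 ∨ (a = .oo ∧ b = .oo) ∨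
    (∃ g x y, a = .la g x ∧ b = .la g y) ∨ ∃ i x y, a = .ix i x ∧ b = .ix i y := by
  cases a with
  | oo =>
    cases b with
    | oo => exact Or.inr (Or.inl ⟨rfl, rfl⟩)
    | la g t => exact Or.inl rfl
    | ix i x => exact Or.inl rfl
  | la g t =>
    cases b with
    | oo => exact Or.inl rfl
    | la g' t' =>
      by_cases h : g = g'
      · subst h
        exact Or.inr (Or.inr (Or.inl ⟨g, t, t', rfl, rfl⟩))
      · exact Or.inl (DL_la_ne h t t')
    | ix i x => exact Or.inl rfl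
  | ix i x =>
    cases b with
    | oo => exact Or.inl rfl
    | la g t => exact Or.inl rfl
    | ix i' y =>
      by_cases h : i = i'
      · subst h
        exact Or.inr (Or.inr (Or.inr ⟨i, x, y, rfl, rfl⟩))
      · exact Or.inl (DL_ix_ne h x y)

private theorem DL_oo : DL .oo .oo = 0 := rfl

theorem DL_nn (a b : PT Ct) : 0 ≤ DL a b := by
  rcases DL_mixed a b with h | ⟨rfl, rfl⟩ | ⟨g, x, y, rfl, rfl⟩ | ⟨i, x, y, rfl, rfl⟩
  · rw [h]
    exact zero_le_one
  · exact le_of_eq DL_oo.symm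
  · rw [DL_la_same]
    exact dd_nn (wt_pos g) x y
  · rw [DL_ix_same]
    exact dd_nn w0_pos x y

theorem DL_le_one (a b : PT Ct) : DL a b ≤ 1 := by
  rcases DL_mixed a b with h | ⟨rfl, rfl⟩ | ⟨g, x, y, rfl, rfl⟩ | ⟨i, x, y, rfl, rfl⟩
  · exact h.le
  · rw [DL_oo]
    exact zero_le_one
  · rw [DL_la_same]
    exact dd_le_one (wt_le_one g) x y
  · rw [DL_ix_same]
    exact dd_le_one w0_le_one x y

private theorem DL_self (a : PT Ct) : DL a a = 0 := by
  cases a with
  | oo => rfl
  | la g x => rw [DL_la_same, dd_self]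
  | ix i x => rw [DL_ix_same, dd_self]

theorem DL_eq (a b : PT Ct) : DL a b = 0 ↔ a = b := by
  constructor
  · intro h0
    rcases DL_mixed a b with h | ⟨rfl, rfl⟩ | ⟨g, x, y, rfl, rfl⟩ | ⟨i, x, y, rfl, rfl⟩
    · rw [h] at h0
      exact absurd h0 one_ne_zero
    · rfl
    · rw [DL_la_same, dd_eq (wt_pos g)] at h0
      rw [h0]
    · rw [DL_ix_same, dd_eq w0_pos] at h0
      rw [h0]
  · rintro rfl
    exact DL_self a

theorem DL_sy (a b : PT Ct) : DL a b = DL b a := by
  rcases DL_mixed a b with h | ⟨rfl, rfl⟩ | ⟨g, x, y, rfl, rfl⟩ | ⟨i, x, y, rfl, rfl⟩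
  · rcases DL_mixed b a with h' | ⟨rfl, rfl⟩ | ⟨g, x, y, rfl, rfl⟩ | ⟨i, x, y, rfl, rfl⟩
    · rw [h, h']
    · rfl
    · rw [DL_la_same, DL_la_same, dd_sy]
    · rw [DL_ix_same, DL_ix_same, dd_sy]
  · rfl
  · rw [DL_la_same, DL_la_same, dd_sy]
  · rw [DL_ix_same, DL_ix_same, dd_sy]

theorem DL_tr (a b c : PT Ct) : DL a c ≤ DL a b + DL b c := by
  have h1 := DL_le_one a c
  have h2 := DL_nn a b
  have h3 := DL_nn b c
  rcases DL_mixed a b with h | ⟨rfl, rfl⟩ | ⟨g, x, y, rfl, rfl⟩ | ⟨i, x, y, rfl, rfl⟩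
  · linarith
  · rw [DL_oo, zero_add]
  · cases c with
    | oo =>
      have h4 : DL (.la g y) .oo = 1 := rfl
      linarith
    | la g' z =>
      by_cases h : g = g'
      · subst h
        rw [DL_la_same, DL_la_same, DL_la_same]
        exact dd_tr (wt_pos g) (fun i j hij => wt_anti g hij) x y z
      · have h4 := DL_la_ne h y z
        linarith
    | ix i z =>
      have h4 : DL (.la g y) (.ix i z) = 1 := rfl
      linarith
  · cases c with
    | oo =>
      have h4 : DL (.ix i y) .oo = 1 := rfl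
      linarith
    | la g z =>
      have h4 : DL (.ix i y) (.la g z) = 1 := rfl
      linarith
    | ix i' z =>
      by_cases h : i = i'
      · subst h
        rw [DL_ix_same, DL_ix_same, DL_ix_same]
        exact dd_tr w0_pos w0_anti x y z
      · have h4 := DL_ix_ne h y z
        linarith

end RNC
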