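import Pool.Agent.RNC.Nb

/-! # The basic sets are a base of a topology (package R07)

(problem MP_9bfcae_gt, project RNC)

`tsp`. PROOF (always `r = q`). `cov`: the point `oo` is in `cO ∅ ∅`, `la g t` is in `cL g n ∅` with
`t ∈ W n` (`wb_exists` with `U = univ`; `q ∈ pv (la g t)` says `g ∈ q.F`, and this is
`q ∈ bv (cL g n ∅)`), `ix a x` is in `cI a []`.
`dir`: the point is `oo`: then `c = cO G e`, `d = cO G' e'`, take `cO (G ∪ G') (e ∪ e')`. The point is
`la g t`: `la_nb` gives `n, e` and `n', e'` with `cL g n e ⊆ c`, `cL g n' e' ⊆ d` (as sets of points), and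
`wb_inter` gives `n''` with `t ∈ W n'' ⊆ W n ∩ W n'`; take `cL g n'' (e ∪ e')`. The point is `ix a x`:
`ix_nb` gives `l` and `l'`; take `cI a (sg x (max l l'))` (`in_seg`). -/

set_option autoImplicit false

namespace RNC

open STP

theorem tsp {T : Type} [TopologicalSpace T] {W : ℕ → Set T} {u : Lad → Ix → Ct → T}
    (hF : Fb W u) : TSp (pv (T := T)) bv (hit W u) := by
  classical
  constructor
  · intro q a hqa
    cases a with
    | oo =>
      exact ⟨q, le_rfl, .cO ∅ ∅, mem_bv_cO.2 fun g hg => absurd hg (Finset.notMem_empty g), trivial⟩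
    | la g t =>
      obtain ⟨n, hn, -⟩ := wb_exists hF isOpen_univ (Set.mem_univ t)
      exact ⟨q, le_rfl, .cL g n ∅, hqa, rfl, hn⟩
    | ix a x =>
      exact ⟨q, le_rfl, .cI a [], mem_bv_cI, rfl, fun i h => absurd h (Nat.not_lt_zero i)⟩
  · intro q a c d hqa hqc hqd hac had
    cases a with
    | oo =>
      cases c with
      | cI b s => exact hac.elim
      | cL g n e => exact hac.elim
      | cO G e =>
        cases d with
        | cI b s => exact had.elim
        | cL g n e => exact had.elim
        | cO G' e' =>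
          refine ⟨q, le_rfl, .cO (G ∪ G') (e ∪ e'), mem_bv_cO.2 fun g hg => ?_, trivial,
            fun r' _ b _ hb => ?_⟩
          · rcases Finset.mem_union.1 hg with h | h
            · exact mem_bv_cO.1 hqc g h
            · exact mem_bv_cO.1 hqd g h
          · cases b with
            | oo => exact ⟨trivial, trivial⟩
            | la g t =>
              have h1 : g ∉ G ∪ G' := hb
              exact ⟨fun h => h1 (Finset.mem_union_left _ h),
                fun h => h1 (Finset.mem_union_right _ h)⟩
            | ix a x =>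
              obtain ⟨h1, h2⟩ : a ∉ e ∪ e' ∧ ∀ g ∈ G ∪ G', a ∉ g.1 := hb
              exact ⟨⟨fun h => h1 (Finset.mem_union_left _ h),
                fun g hg => h2 g (Finset.mem_union_left _ hg)⟩,
                fun h => h1 (Finset.mem_union_right _ h),
                fun g hg => h2 g (Finset.mem_union_right _ hg)⟩
    | la g t =>
      have hg : g ∈ q.F := hqa
      obtain ⟨n, e, ht, H⟩ := la_nb hF hg hqc hac
      obtain ⟨n', e', ht', H'⟩ := la_nb hF hg hqd had
      obtain ⟨n'', ht'', hsub⟩ := wb_inter hF ht ht'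
      refine ⟨q, le_rfl, .cL g n'' (e ∪ e'), hg, ⟨rfl, ht''⟩, fun r' _ b _ hb =>
        ⟨H b ?_, H' b ?_⟩⟩
      · cases b with
        | oo => exact hb.elim
        | la g' t' => exact ⟨hb.1, (hsub hb.2).1⟩
        | ix a x =>
          obtain ⟨h1, h2, h3⟩ : a ∈ g.1 ∧ a ∉ e ∪ e' ∧ u g a x ∈ W n'' := hb
          exact ⟨h1, fun h => h2 (Finset.mem_union_left _ h), (hsub h3).1⟩
      · cases b with
        | oo => exact hb.elim
        | la g' t' => exact ⟨hb.1, (hsub hb.2).2⟩
        | ix a x =>
          obtain ⟨h1, h2, h3⟩ : a ∈ g.1 ∧ a ∉ e ∪ e' ∧ u g a x ∈ W n'' := hb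
          exact ⟨h1, fun h => h2 (Finset.mem_union_right _ h), (hsub h3).2⟩
    | ix a x =>
      obtain ⟨l, H⟩ := ix_nb hF hac
      obtain ⟨l', H'⟩ := ix_nb hF had
      refine ⟨q, le_rfl, .cI a (sg x (max l l')), mem_bv_cI, ⟨rfl, in_seg.2 fun _ _ => rfl⟩,
        fun r' _ b _ hb => ?_⟩
      cases b with
      | oo => exact hb.elim
      | la g' t' => exact hb.elim
      | ix b y =>
        obtain ⟨h1, h2⟩ : b = a ∧ Ext y (sg x (max l l')) := hb
        subst h1
        rw [in_seg] at h2
        exact ⟨H y fun i hi => h2 i (hi.trans_le (le_max_left _ _)),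
          H' y fun i hi => h2 i (hi.trans_le (le_max_right _ _))⟩

end RNC
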