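import Pool.Agent.RNC.LmA
import Pool.Agent.RNC.SpT

/-! # The metric on `Z` is lower semicontinuous (package R12)

(problem MP_9bfcae_gt, project RNC)

`dl_lsc`. PROOF. If `x < 0` use any codes containing the points (`(tsp hF).cov`) and `DL_nn`. So let `0 ≤ x`;
then `a ≠ b` (`DL_eq`). Always `r = q`. Cases (and the symmetric ones, by `DL_sy`):
* `oo`, `la g t`: `cO {g} ∅`, `cL g n ∅` (`t ∈ WL n`). Every point of the first code and every point of the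
  second code are in different pieces (`ix a _` with `a ∉ g.1` and `ix b _` with `b ∈ g.1`, `la g' _` with
  `g' ≠ g` and `la g _`), so `DL = 1`.
* `oo`, `ix a y`: `cO ∅ {a}`, `cI a []`, `DL = 1`.
* `la g t`, `la g' t'`, `g ≠ g'`: let `e` be the finite set `g.1 ∩ g'.1` (`Cd.ad` for `q`), `cL g n e`,
  `cL g' n' e`, `DL = 1`.
* `la g t`, `ix a y`: `cL g n {a}`, `cI a []`, `DL = 1`.
* `ix a y`, `ix b z`, `a ≠ b`: `cI a []`, `cI b []`. `a = b`, `y ≠ z`, `j = fd y z`: `cI a (sg y (j + 1))`,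
  `cI a (sg z (j + 1))`: for `y'`, `z'` in these sets `fd y' z' = j` (`fd_unique`).
* `la g t`, `la g t'`, `t ≠ t'`, `j = fd t t'`, `DL = wt g j`. Let `n := encode (sg t (j + 1))`,
  `n' := encode (sg t' (j + 1))`, so `WL n`, `WL n'` are the cylinders of `t`, `t'` of length `j + 1`; take
  `cL g n ∅`, `cL g n' ∅`. Points `la g t1`, `la g t2` of them: `fd t1 t2 = j`. Points in different pieces:
  `DL = 1 ≥ wt g j` (`wt_le_one`). Points `ix a y1`, `ix a y2`, `a ∈ g.1`: `v1 := uL g a y1` extends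
  `sg t (j + 1)`, `v2 := uL g a y2` extends `sg t' (j + 1)`, so `v1 i = v2 i` for `i < j` and `v1 j ≠ v2 j`.
  Let `ρ := rr a.2`. By definition of `uL`, `v1 i = v2 i` for `i < ρ`, so `ρ ≤ j`. If `ρ < j` then `v1 ρ = v2 ρ`,
  i.e. `y1 (g.2 ρ) = y2 (g.2 ρ)`, and then `v1 j = v2 j`, a contradiction. So `ρ = j` and
  `y1 (g.2 j) ≠ y2 (g.2 j)`, hence `fd y1 y2 ≤ g.2 j` (`fd_le_of_ne`) and
  `DL (ix a y1) (ix a y2) = 1 / (1 + fd y1 y2) ≥ 1 / (1 + g.2 j) ≥ wt g j` (`wt_le'`).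
`hL : Fb WL uL` is the statement of another package (`FbL.lean`), here it is a hypothesis. -/

set_option autoImplicit false

namespace RNC

open STP

/-- the conclusion of `dl_lsc` -/
private def Sp (q : Cd) (a b : PT Ct) (x : ℝ) : Prop :=
  ∃ r ≤ q, ∃ c d, r ∈ bv c ∧ r ∈ bv d ∧ hit WL uL a c ∧ hit WL uL b d ∧
    ∀ r' ≤ r, ∀ a' b', r' ∈ pv a' → r' ∈ pv b' → hit WL uL a' c → hit WL uL b' d → x < DL a' b'

private theorem Sp.symm {q : Cd} {a b : PT Ct} {x : ℝ} (h : Sp q b a x) : Sp q a b x := by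
  obtain ⟨r, hr, c, d, hc, hd, hbc, had, h1⟩ := h
  refine ⟨r, hr, d, c, hd, hc, had, hbc, fun r' hr' a' b' ha' hb' ha hb => ?_⟩
  rw [DL_sy]
  exact h1 r' hr' b' a' hb' ha' hb ha

private theorem Sp.one {q : Cd} {a b : PT Ct} {x : ℝ} (hx : x < DL a b) (c d : BC)
    (hc : q ∈ bv c) (hd : q ∈ bv d) (ha : hit WL uL a c) (hb : hit WL uL b d)
    (h : ∀ a' b', hit WL uL a' c → hit WL uL b' d → DL a' b' = 1) : Sp q a b x :=
  ⟨q, le_rfl, c, d, hc, hd, ha, hb, fun _ _ a' b' _ _ ha' hb' =>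
    (hx.trans_le (DL_le_one a b)).trans_eq (h a' b' ha' hb').symm⟩

open Classical in
private theorem DL_la {g g' : Lad} {x y : Ct} : DL (.la g x) (.la g' y) =
    if g = g' then (if x = y then 0 else wt g (fd x y)) else 1 := rfl

open Classical in
private theorem DL_ix {a b : Ix} {x y : Ct} : DL (.ix a x) (.ix b y) =
    (if a = b then (if x = y then (0 : ℝ) else 1 / (1 + (fd x y : ℝ))) else 1 : ℝ) := rfl

private theorem DL_la_ne {g g' : Lad} {x y : Ct} (h : g ≠ g') : DL (.la g x) (.la g' y) = 1 := by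
  rw [DL_la, if_neg h]

private theorem DL_ix_ne {a b : Ix} {x y : Ct} (h : a ≠ b) : DL (.ix a x) (.ix b y) = 1 := by
  rw [DL_ix, if_neg h]

private theorem DL_oo_la {g : Lad} {x : Ct} : DL .oo (.la g x) = 1 := rfl

private theorem DL_oo_ix {a : Ix} {x : Ct} : DL .oo (.ix a x) = 1 := rfl

private theorem DL_la_ix {g : Lad} {t : Ct} {a : Ix} {x : Ct} : DL (.la g t) (.ix a x) = 1 := rfl

private theorem DL_ix_la {g : Lad} {t : Ct} {a : Ix} {x : Ct} : DL (.ix a x) (.la g t) = 1 := rfl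

private theorem mem_WL {y : Ct} {s : List Bool} : y ∈ WL (Encodable.encode s) ↔ Ext y s := by
  constructor
  · rintro ⟨s', hs', h⟩
    rwa [Encodable.encode_injective hs'] at h
  · exact fun h => ⟨s, rfl, h⟩

private theorem self_WL (y : Ct) (l : ℕ) : y ∈ WL (Encodable.encode (sg y l)) :=
  mem_WL.2 (in_seg.2 fun _ _ => rfl)

private theorem Sp.oo_la {q : Cd} {g : Lad} {t : Ct} {x : ℝ} (hx : x < DL .oo (.la g t))
    (hg : g ∈ q.F) : Sp q .oo (.la g t) x := by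
  refine Sp.one hx (.cO {g} ∅) (.cL g (Encodable.encode (sg t 0)) ∅)
    (mem_bv_cO.2 fun g' hg' => by rwa [Finset.mem_singleton.1 hg']) (mem_bv_cL.2 hg)
    (hit_oo_cO _ _) ((hit_la_cL _ _).2 ⟨rfl, self_WL t 0⟩) ?_
  rintro (_ | ⟨g1, t1⟩ | ⟨a1, x1⟩) (_ | ⟨g2, t2⟩ | ⟨a2, x2⟩) h1 h2
  · exact absurd h2 (hit_oo_cL _ _)
  · exact DL_oo_la
  · exact DL_oo_ix
  · exact absurd h2 (hit_oo_cL _ _)
  · rw [hit_la_cO, Finset.mem_singleton] at h1
    rw [hit_la_cL] at h2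
    exact DL_la_ne fun h => h1 (h.trans h2.1)
  · exact DL_la_ix
  · exact absurd h2 (hit_oo_cL _ _)
  · exact DL_ix_la
  · rw [hit_ix_cO] at h1
    rw [hit_ix_cL] at h2
    exact DL_ix_ne fun h => h1.2 g (Finset.mem_singleton_self g) (h ▸ h2.1)

private theorem Sp.oo_ix {q : Cd} {a : Ix} {y : Ct} {x : ℝ} (hx : x < DL .oo (.ix a y)) :
    Sp q .oo (.ix a y) x := by
  refine Sp.one hx (.cO ∅ {a}) (.cI a []) (mem_bv_cO.2 fun g' hg' => by simp at hg') mem_bv_cI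
    (hit_oo_cO _ _) ((hit_ix_cI _ _).2 ⟨rfl, fun i h => absurd h (by simp)⟩) ?_
  rintro (_ | ⟨g1, t1⟩ | ⟨a1, x1⟩) (_ | ⟨g2, t2⟩ | ⟨a2, x2⟩) h1 h2
  · exact absurd h2 (hit_oo_cI _ _)
  · exact absurd h2 (hit_la_cI _ _)
  · exact DL_oo_ix
  · exact absurd h2 (hit_oo_cI _ _)
  · exact absurd h2 (hit_la_cI _ _)
  · exact DL_la_ix
  · exact absurd h2 (hit_oo_cI _ _)
  · exact absurd h2 (hit_la_cI _ _)
  · rw [hit_ix_cO, Finset.mem_singleton] at h1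
    rw [hit_ix_cI] at h2
    exact DL_ix_ne fun h => h1.1 (h.trans h2.1)

private theorem Sp.la_ix {q : Cd} {g : Lad} {t : Ct} {a : Ix} {y : Ct} {x : ℝ}
    (hx : x < DL (.la g t) (.ix a y)) (hg : g ∈ q.F) : Sp q (.la g t) (.ix a y) x := by
  refine Sp.one hx (.cL g (Encodable.encode (sg t 0)) {a}) (.cI a []) (mem_bv_cL.2 hg) mem_bv_cI
    ((hit_la_cL _ _).2 ⟨rfl, self_WL t 0⟩)
    ((hit_ix_cI _ _).2 ⟨rfl, fun i h => absurd h (by simp)⟩) ?_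
  rintro (_ | ⟨g1, t1⟩ | ⟨a1, x1⟩) (_ | ⟨g2, t2⟩ | ⟨a2, x2⟩) h1 h2
  · exact absurd h2 (hit_oo_cI _ _)
  · exact absurd h2 (hit_la_cI _ _)
  · exact DL_oo_ix
  · exact absurd h2 (hit_oo_cI _ _)
  · exact absurd h2 (hit_la_cI _ _)
  · exact DL_la_ix
  · exact absurd h2 (hit_oo_cI _ _)
  · exact absurd h2 (hit_la_cI _ _)
  · rw [hit_ix_cL, Finset.mem_singleton] at h1
    rw [hit_ix_cI] at h2
    exact DL_ix_ne fun h => h1.2.1 (h.trans h2.1)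

private theorem Sp.la_la {q : Cd} {g g' : Lad} {t t' : Ct} {x : ℝ}
    (hx : x < DL (.la g t) (.la g' t')) (hg : g ∈ q.F) (hg' : g' ∈ q.F) (hne : g ≠ g') :
    Sp q (.la g t) (.la g' t') x := by
  classical
  have hfin := q.ad hg hg' hne
  refine Sp.one hx (.cL g (Encodable.encode (sg t 0)) hfin.toFinset)
    (.cL g' (Encodable.encode (sg t' 0)) hfin.toFinset) (mem_bv_cL.2 hg) (mem_bv_cL.2 hg')
    ((hit_la_cL _ _).2 ⟨rfl, self_WL t 0⟩) ((hit_la_cL _ _).2 ⟨rfl, self_WL t' 0⟩) ?_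
  rintro (_ | ⟨g1, t1⟩ | ⟨a1, x1⟩) (_ | ⟨g2, t2⟩ | ⟨a2, x2⟩) h1 h2
  · exact absurd h2 (hit_oo_cL _ _)
  · exact DL_oo_la
  · exact DL_oo_ix
  · exact absurd h2 (hit_oo_cL _ _)
  · rw [hit_la_cL] at h1 h2
    refine DL_la_ne fun h => hne ?_
    rw [← h1.1, ← h2.1, h]
  · exact DL_la_ix
  · exact absurd h2 (hit_oo_cL _ _)
  · exact DL_ix_la
  · rw [hit_ix_cL] at h1 h2
    refine DL_ix_ne fun h => h1.2.1 ?_
    rw [Set.Finite.mem_toFinset]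
    exact ⟨h1.1, h ▸ h2.1⟩

private theorem Sp.ix_ne {q : Cd} {a b : Ix} {y z : Ct} {x : ℝ}
    (hx : x < DL (.ix a y) (.ix b z)) (hne : a ≠ b) : Sp q (.ix a y) (.ix b z) x := by
  refine Sp.one hx (.cI a []) (.cI b []) mem_bv_cI mem_bv_cI
    ((hit_ix_cI _ _).2 ⟨rfl, fun i h => absurd h (by simp)⟩)
    ((hit_ix_cI _ _).2 ⟨rfl, fun i h => absurd h (by simp)⟩) ?_
  rintro (_ | ⟨g1, t1⟩ | ⟨a1, x1⟩) (_ | ⟨g2, t2⟩ | ⟨a2, x2⟩) h1 h2
  · exact absurd h2 (hit_oo_cI _ _)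
  · exact absurd h2 (hit_la_cI _ _)
  · exact DL_oo_ix
  · exact absurd h2 (hit_oo_cI _ _)
  · exact absurd h2 (hit_la_cI _ _)
  · exact DL_la_ix
  · exact absurd h2 (hit_oo_cI _ _)
  · exact absurd h2 (hit_la_cI _ _)
  · rw [hit_ix_cI] at h1 h2
    refine DL_ix_ne fun h => hne ?_
    rw [← h1.1, ← h2.1, h]

private theorem fd_of_ext {y z y' z' : Ct} (hne : y ≠ z) (h1 : ∀ i < fd y z + 1, y' i = y i)
    (h2 : ∀ i < fd y z + 1, z' i = z i) : fd y' z' = fd y z ∧ y' ≠ z' := by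
  have h3 : y' (fd y z) ≠ z' (fd y z) := by
    rw [h1 _ (Nat.lt_succ_self _), h2 _ (Nat.lt_succ_self _)]
    exact fd_ne hne
  refine ⟨fd_unique h3 fun i hi => ?_, fun h => h3 (by rw [h])⟩
  rw [h1 i (by omega), h2 i (by omega)]
  exact fd_eq_of_lt hi

private theorem Sp.ix_eq {q : Cd} {a : Ix} {y z : Ct} {x : ℝ}
    (hx : x < DL (.ix a y) (.ix a z)) (hne : y ≠ z) : Sp q (.ix a y) (.ix a z) x := by
  refine ⟨q, le_rfl, .cI a (sg y (fd y z + 1)), .cI a (sg z (fd y z + 1)), mem_bv_cI, mem_bv_cI,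
    (hit_ix_cI _ _).2 ⟨rfl, in_seg.2 fun _ _ => rfl⟩,
    (hit_ix_cI _ _).2 ⟨rfl, in_seg.2 fun _ _ => rfl⟩, ?_⟩
  rintro r' - (_ | ⟨g1, t1⟩ | ⟨a1, x1⟩) (_ | ⟨g2, t2⟩ | ⟨a2, x2⟩) - - h1 h2
  · exact absurd h2 (hit_oo_cI _ _)
  · exact absurd h2 (hit_la_cI _ _)
  · exact absurd h1 (hit_oo_cI _ _)
  · exact absurd h2 (hit_oo_cI _ _)
  · exact absurd h2 (hit_la_cI _ _)
  · exact absurd h1 (hit_la_cI _ _)
  · exact absurd h2 (hit_oo_cI _ _)
  · exact absurd h2 (hit_la_cI _ _)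
  · rw [hit_ix_cI, in_seg] at h1 h2
    obtain ⟨h3, h4⟩ := fd_of_ext hne h1.2 h2.2
    rw [DL_ix, if_pos rfl, if_neg hne] at hx
    rw [DL_ix, if_pos (h1.1.trans h2.1.symm), if_neg h4, h3]
    exact hx

private theorem uL_lt {g : Lad} {a : Ix} {x : Ct} {j : ℕ} (h : j < rr a.2) :
    uL g a x j = (kk a.2).testBit (rr a.2 - 1 - j) := if_pos h

private theorem uL_ge {g : Lad} {a : Ix} {x : Ct} {j : ℕ} (h : ¬ j < rr a.2) :
    uL g a x j = x (g.2 (rr a.2)) := if_neg h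

private theorem wt_le_ix {g : Lad} {a : Ix} {t t' y1 y2 : Ct} (hne : t ≠ t')
    (h1 : ∀ i < fd t t' + 1, uL g a y1 i = t i) (h2 : ∀ i < fd t t' + 1, uL g a y2 i = t' i) :
    wt g (fd t t') ≤ DL (.ix a y1) (.ix a y2) := by
  have h3 : uL g a y1 (fd t t') ≠ uL g a y2 (fd t t') := by
    rw [h1 _ (Nat.lt_succ_self _), h2 _ (Nat.lt_succ_self _)]
    exact fd_ne hne
  have h4 : ¬ fd t t' < rr a.2 := fun h => h3 (by rw [uL_lt h, uL_lt h])
  have h5 : y1 (g.2 (rr a.2)) ≠ y2 (g.2 (rr a.2)) := by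
    rwa [uL_ge h4, uL_ge h4] at h3
  have h6 : rr a.2 = fd t t' := by
    by_contra h7
    have h8 : rr a.2 < fd t t' := by omega
    have h9 : uL g a y1 (rr a.2) = uL g a y2 (rr a.2) := by
      rw [h1 _ (by omega), h2 _ (by omega)]
      exact fd_eq_of_lt h8
    rw [uL_ge (lt_irrefl _), uL_ge (lt_irrefl _)] at h9
    exact h5 h9
  rw [h6] at h5
  have h7 : fd y1 y2 ≤ g.2 (fd t t') := fd_le_of_ne h5
  rw [DL_ix, if_pos rfl, if_neg fun h => h5 (by rw [h])]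
  refine (wt_le' g _).trans (one_div_le_one_div_of_le (by positivity) ?_)
  have : ((fd y1 y2 : ℕ) : ℝ) ≤ (g.2 (fd t t') : ℕ) := by exact_mod_cast h7
  linarith

private theorem Sp.la_eq {q : Cd} {g : Lad} {t t' : Ct} {x : ℝ}
    (hx : x < DL (.la g t) (.la g t')) (hg : g ∈ q.F) (hne : t ≠ t') :
    Sp q (.la g t) (.la g t') x := by
  rw [DL_la, if_pos rfl, if_neg hne] at hx
  have hx1 : x < 1 := hx.trans_le (wt_le_one _ _)
  refine ⟨q, le_rfl, .cL g (Encodable.encode (sg t (fd t t' + 1))) ∅,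
    .cL g (Encodable.encode (sg t' (fd t t' + 1))) ∅, mem_bv_cL.2 hg, mem_bv_cL.2 hg,
    (hit_la_cL _ _).2 ⟨rfl, self_WL _ _⟩, (hit_la_cL _ _).2 ⟨rfl, self_WL _ _⟩, ?_⟩
  rintro r' - (_ | ⟨g1, t1⟩ | ⟨a1, x1⟩) (_ | ⟨g2, t2⟩ | ⟨a2, x2⟩) - - h1 h2
  · exact absurd h2 (hit_oo_cL _ _)
  · exact absurd h1 (hit_oo_cL _ _)
  · exact absurd h1 (hit_oo_cL _ _)
  · exact absurd h2 (hit_oo_cL _ _)
  · rw [hit_la_cL, mem_WL, in_seg] at h1 h2
    obtain ⟨h3, h4⟩ := fd_of_ext hne h1.2 h2.2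
    rw [DL_la, if_pos (h1.1.trans h2.1.symm), if_neg h4, h3, h1.1]
    exact hx
  · rw [DL_la_ix]
    exact hx1
  · exact absurd h2 (hit_oo_cL _ _)
  · rw [DL_ix_la]
    exact hx1
  · rw [hit_ix_cL, mem_WL, in_seg] at h1 h2
    by_cases h : a1 = a2
    · subst h
      exact hx.trans_le (wt_le_ix hne h1.2.2 h2.2.2)
    · rw [DL_ix_ne h]
      exact hx1
theorem dl_lsc (hL : Fb WL uL) (q : Cd) (a b : PT Ct) (x : ℝ) (ha : q ∈ pv a) (hb : q ∈ pv b)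
    (hx : x < DL a b) :
    ∃ r ≤ q, ∃ c d, r ∈ bv c ∧ r ∈ bv d ∧ hit WL uL a c ∧ hit WL uL b d ∧
      ∀ r' ≤ r, ∀ a' b', r' ∈ pv a' → r' ∈ pv b' → hit WL uL a' c → hit WL uL b' d →
        x < DL a' b' := by
  change Sp q a b x
  rcases lt_or_ge x 0 with hx0 | hx0
  · obtain ⟨r, hr, c, hc, hac⟩ := (tsp hL).cov q a ha
    obtain ⟨r', hr', d, hd, hbd⟩ := (tsp hL).cov r b (RO.down _ hr hb)
    exact ⟨r', hr'.trans hr, c, d, RO.down _ hr' hc, hd, hac, hbd,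
      fun _ _ a' b' _ _ _ _ => hx0.trans_le (DL_nn a' b')⟩
  · have hab : a ≠ b := by
      intro h
      rw [(DL_eq a b).2 h] at hx
      exact absurd hx (not_lt.2 hx0)
    have hx' : x < DL b a := by rwa [DL_sy]
    rcases a with _ | ⟨g, t⟩ | ⟨a, y⟩ <;> rcases b with _ | ⟨g', t'⟩ | ⟨b, z⟩
    · exact absurd rfl hab
    · exact Sp.oo_la hx (mem_pv_la.1 hb)
    · exact Sp.oo_ix hx
    · exact (Sp.oo_la hx' (mem_pv_la.1 ha)).symm
    · by_cases h : g = g'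
      · subst h
        exact Sp.la_eq hx (mem_pv_la.1 ha) fun h => hab (by rw [h])
      · exact Sp.la_la hx (mem_pv_la.1 ha) (mem_pv_la.1 hb) h
    · exact Sp.la_ix hx (mem_pv_la.1 ha)
    · exact (Sp.oo_ix hx').symm
    · exact (Sp.la_ix hx' (mem_pv_la.1 hb)).symm
    · by_cases h : a = b
      · subst h
        exact Sp.ix_eq hx fun h => hab (by rw [h])
      · exact Sp.ix_ne hx h

end RNC
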