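import Pool.Agent.RNC.Spc

/-! # Small neighbourhoods (package R06)

(problem MP_9bfcae_gt, project RNC)

`ix_nb`: a code which contains `ix a x` contains `ix a y` for all `y` close to `x`. PROOF. `cI b s`:
`l = s.length`. `cL g n e`: `u g a` is continuous and `W n` is open (`hF.ba.isOpen`), so
`{y | u g a y ∈ W n}` is an open set with the element `x`; an open subset of `ℕ → Bool` contains, with
`x`, all `y` which agree with `x` below some `l` (e.g. `isOpen_pi_iff` and discreteness of `Bool`, `l` a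
bound of the finite set of coordinates; or `PiNat.isOpen_iff_dist`). `cO G e`: `l = 0`.

`la_nb`: let `g ∈ p.F`. A code (a code for `p`) which contains `la g t` contains a set `cL g n e`, `t ∈ W n`.
PROOF. `cI` is impossible. `cL g' n e`: `g = g'`, take the same `n`, `e`. `cO G e`: `g ∉ G`, and
`G ⊆ p.F` (`mem_bv_cO`), so `g.1 ∩ g'.1` is finite for all `g' ∈ G` (`Cd.ad`); let `e'` be the union of
`e` and these finite sets (`Finset.biUnion`, `Set.Finite.toFinset`), and `n` any number with `t ∈ W n` (`hF.ba`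
covers). The points of `cL g n e'` are `la g t'` (`g ∉ G`) and `ix a x` with `a ∈ g.1`, `a ∉ e'`, so
`a ∉ e` and `a ∉ g'.1` for `g' ∈ G`.

`in_seg`: `Ext y (List.ofFn fun i : Fin l => x i) ↔ ∀ i < l, y i = x i` (unfold `Ext`, `List.getElem_ofFn`).

`wb_exists`, `wb_inter`: from `hF.ba : IsTopologicalBasis (Set.range W)`. -/

set_option autoImplicit false

namespace RNC

open STP

/-- the initial segment of length `l` -/
def sg (x : Ct) (l : ℕ) : List Bool := List.ofFn fun i : Fin l => x i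

theorem in_seg {x y : Ct} {l : ℕ} : Ext y (sg x l) ↔ ∀ i < l, y i = x i := by
  unfold Ext sg
  constructor
  · intro h i hi
    have := h i (by rw [List.length_ofFn]; exact hi)
    rwa [List.getElem_ofFn] at this
  · intro h i hi
    rw [List.getElem_ofFn]
    exact h i (by rw [List.length_ofFn] at hi; exact hi)

private theorem open_seg {O : Set Ct} (hO : IsOpen O) {x : Ct} (hx : x ∈ O) :
    ∃ l : ℕ, ∀ y : Ct, (∀ i < l, y i = x i) → y ∈ O := by
  obtain ⟨I, v, hv, hvO⟩ := isOpen_pi_iff.1 hO x hx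
  refine ⟨I.sup id + 1, fun y hy => hvO fun i hi => ?_⟩
  rw [hy i (Nat.lt_succ_of_le (Finset.le_sup (f := id) hi))]
  exact (hv i hi).2

section

variable {T : Type} [TopologicalSpace T] {W : ℕ → Set T} {u : Lad → Ix → Ct → T}

theorem wb_exists (hF : Fb W u) {U : Set T} (hU : IsOpen U) {t : T} (ht : t ∈ U) :
    ∃ n, t ∈ W n ∧ W n ⊆ U := by
  obtain ⟨v, ⟨n, rfl⟩, hv, hvU⟩ := hF.ba.exists_subset_of_mem_open ht hU
  exact ⟨n, hv, hvU⟩

theorem wb_inter (hF : Fb W u) {t : T} {n m : ℕ} (hn : t ∈ W n) (hm : t ∈ W m) :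
    ∃ l, t ∈ W l ∧ W l ⊆ W n ∩ W m :=
  wb_exists hF ((hF.ba.isOpen ⟨n, rfl⟩).inter (hF.ba.isOpen ⟨m, rfl⟩)) ⟨hn, hm⟩

theorem ix_nb (hF : Fb W u) {a : Ix} {x : Ct} {c : BC} (h : hit W u (.ix a x) c) :
    ∃ l : ℕ, ∀ y : Ct, (∀ i < l, y i = x i) → hit W u (.ix a y) c := by
  cases c with
  | cI b s =>
    rw [hit_ix_cI] at h
    exact ⟨s.length, fun y hy => ⟨h.1, fun i hi => (hy i hi).trans (h.2 i hi)⟩⟩
  | cL g n e =>
    rw [hit_ix_cL] at h
    obtain ⟨l, hl⟩ := open_seg ((hF.ba.isOpen ⟨n, rfl⟩).preimage (hF.co g a)) (x := x) h.2.2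
    exact ⟨l, fun y hy => ⟨h.1, h.2.1, hl y hy⟩⟩
  | cO G e => exact ⟨0, fun y _ => h⟩

theorem la_nb (hF : Fb W u) {p : Cd} {g : Lad} (hg : g ∈ p.F) {t : T} {c : BC} (hc : p ∈ bv c)
    (h : hit W u (.la g t) c) :
    ∃ n e, t ∈ W n ∧ ∀ d, hit W u d (.cL g n e) → hit W u d c := by
  classical
  cases c with
  | cI b s => exact h.elim
  | cL g' n e =>
    rw [hit_la_cL] at h
    obtain ⟨rfl, h⟩ := h
    exact ⟨n, e, h, fun d hd => hd⟩
  | cO G e =>
    rw [hit_la_cO] at h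
    rw [mem_bv_cO] at hc
    obtain ⟨n, hn, -⟩ := wb_exists hF isOpen_univ (Set.mem_univ t)
    have hfin : (⋃ g' ∈ (G : Set Lad), g.1 ∩ g'.1).Finite :=
      G.finite_toSet.biUnion fun g' hg' => p.ad hg (hc g' hg') fun he => h (he ▸ hg')
    refine ⟨n, e ∪ hfin.toFinset, hn, fun d hd => ?_⟩
    cases d with
    | oo => exact hd.elim
    | la g' t' =>
      rw [hit_la_cL] at hd
      rw [hit_la_cO, hd.1]
      exact h
    | ix a x =>
      rw [hit_ix_cL] at hd
      rw [hit_ix_cO]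
      rw [Finset.mem_union, not_or] at hd
      refine ⟨hd.2.1.1, fun g' hg' ha => hd.2.1.2 ?_⟩
      rw [Set.Finite.mem_toFinset, Set.mem_iUnion₂]
      exact ⟨g', hg', hd.1, ha⟩

end

end RNC
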