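import Pool.Agent.RNC.Nb
import Pool.Agent.RNC.Fus

/-! # A name of a metric on `X` has small jumps (package R17)

(problem MP_9bfcae_gt, project RNC)

`V` is a name (below `p`) of a lower semicontinuous metric `d` which fragments `X` (`TMt`).
`Qv V q a f`: for all `n` and `i ≥ f n` there are `x`, `y` with `x i ≠ y i` and (`q` forces)
`d((a, x), (a, y)) < 2 ^ -(n + rr a.2)`.

`qv_mono` is clear (`r' ≤ r ≤ q`).

`qv_dense`. PROOF. For `n : ℕ` let `D n q` be the property: there is `l` such that for all `i ≥ l` there are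
`x`, `y` with `x i ≠ y i` and `t < 1 / 2 ^ (n + rr a.2)` for all `r ≤ q` and `t` with
`r ∈ V (ix a x) (ix a y) t`. It is inherited by stronger conditions. It is dense below `p`: let `q' ≤ q`
(`q ≤ p`). Apply `hV.fr` with `S := {b | ∃ x, b = ix a x}` (all conditions are in `pv (ix a x)`,
`mem_pv_ix`), `ε := 1 / 2 ^ (n + rr a.2)`: there are `r ≤ q'` and a code `c` containing some `ix a x`, such
that `V b b' t` at conditions below `r` implies `t < ε` for all `b`, `b' ∈ S` in `c`. By `ix_nb` there is `l`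
such that `ix a y` is in `c` whenever `y` agrees with `x` below `l`. For `i ≥ l` take `x` and
`y := Function.update x i (!x i)`; both points are in `c`. So `D n r`. By `dist` with `J := ℕ` there is
`r ≤ q` with `D n r` for all `n`; choose `f n := l`. -/

set_option autoImplicit false

namespace RNC

open STP

/-- `q` forces that the jumps of `d` in the Cantor set of `a` are small from `f n` on -/
def Qv (V : PT UI → PT UI → ℝ → RO Cd) (q : Cd) (a : Ix) (f : ℕ → ℕ) : Prop :=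
  ∀ n, ∀ i ≥ f n, ∃ x y : Ct, x i ≠ y i ∧
    ∀ r ≤ q, ∀ t, r ∈ V (.ix a x) (.ix a y) t → t < 1 / 2 ^ (n + rr a.2)

theorem qv_mono {V : PT UI → PT UI → ℝ → RO Cd} {q r : Cd} {a : Ix} {f : ℕ → ℕ} (h : r ≤ q)
    (hq : Qv V q a f) : Qv V r a f :=
  fun n i hi => by
    obtain ⟨x, y, hxy, h'⟩ := hq n i hi
    exact ⟨x, y, hxy, fun r' hr' => h' r' (hr'.trans h)⟩

theorem qv_dense (hK : Fb WK uK) {p : Cd} {V : PT UI → PT UI → ℝ → RO Cd}
    (hV : TMt (pv (T := UI)) bv (hit WK uK) p V) (q : Cd) (hq : q ≤ p) (a : Ix) :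
    ∃ r ≤ q, ∃ f, Qv V r a f := by
  classical
  have hJ : Cardinal.mk ℕ ≤ Cardinal.continuum := by
    rw [Cardinal.mk_nat]
    exact Cardinal.aleph0_le_continuum
  have key : ∃ r ≤ q, ∀ n : ℕ, ∃ l : ℕ, ∀ i ≥ l, ∃ x y : Ct, x i ≠ y i ∧
      ∀ r' ≤ r, ∀ t, r' ∈ V (.ix a x) (.ix a y) t → t < 1 / 2 ^ (n + rr a.2) := by
    refine dist hJ (fun n r => ∃ l : ℕ, ∀ i ≥ l, ∃ x y : Ct, x i ≠ y i ∧
      ∀ r' ≤ r, ∀ t, r' ∈ V (.ix a x) (.ix a y) t → t < 1 / 2 ^ (n + rr a.2)) q ?_ ?_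
    · rintro n q' r hr ⟨l, hl⟩
      refine ⟨l, fun i hi => ?_⟩
      obtain ⟨x, y, hxy, h⟩ := hl i hi
      exact ⟨x, y, hxy, fun r' hr' => h r' (hr'.trans hr)⟩
    · intro n q' hq'
      obtain ⟨r, hr, c, -, ⟨b, ⟨x, rfl⟩, hb⟩, hsm⟩ := hV.fr
        {b | ∃ x : Ct, b = (.ix a x : PT UI)}
        (by
          rintro b ⟨x, rfl⟩ q''
          exact mem_pv_ix) ⟨.ix a fun _ => false, _, rfl⟩
        (1 / 2 ^ (n + rr a.2)) (by positivity) q' (hq'.trans hq)
      obtain ⟨l, hl⟩ := ix_nb hK hb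
      refine ⟨r, hr, l, fun i hi => ⟨x, Function.update x i (!x i), ?_, fun r' hr' t ht => ?_⟩⟩
      · simp
      · refine hsm r' hr' _ ⟨x, rfl⟩ _ ⟨_, rfl⟩ t hb (hl _ fun j hj => ?_) ht
        exact Function.update_of_ne (by omega) _ _
  obtain ⟨r, hr, h⟩ := key
  choose f hf using h
  exact ⟨r, hr, f, hf⟩

end RNC
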