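import Pool.Agent.RNC.Un

/-! # The poset is countably directed closed (package R03)

(problem MP_9bfcae_gt, project RNC)

`seq_lower`: a descending sequence has a lower bound. PROOF. `exists_union` for `α := ℕ`, `p := x 0`
and the sequence `x n`, with `v n := x (n - 1)` (`v 0 = x 0`): the union of `x 0` and of the `x j`,
`j < n`, is `x (n - 1)` because `A` and `F` increase (`x j ≥ x (n - 1)` for `j ≤ n - 1`). `hx`:
`x n ≤ x (n - 1)`, `hp`: `x (n - 1) ≤ x 0`. (`#ℕ = ℵ₀ ≤ 𝔠`: `Cardinal.mk_nat`, `aleph0_le_cont`.)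

`sig`: `DC (succ ℵ₀) Cd` says that every directed subset `D` of `Cd` with `#D < succ ℵ₀`, i.e.
`#D ≤ ℵ₀` (`Order.lt_succ_iff`), i.e. `D` countable (`Cardinal.le_aleph0_iff_set_countable`), has a
lower bound. If `D` is empty take any condition, e.g. the one with `A = ∅`, `F = ∅`. Otherwise
`D = Set.range d` for some `d : ℕ → Cd` (`Set.Countable.exists_eq_range`); choose a descending
sequence `x n` in `D` with `x n ≤ d n` (recursion on `n`, with directedness), and apply
`seq_lower`. -/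

set_option autoImplicit false

namespace RNC

open STP Cardinal

private theorem sig_anti {x : ℕ → Cd} (hx : ∀ n, x (n + 1) ≤ x n) {m n : ℕ} (h : m ≤ n) :
    x n ≤ x m := by
  induction n, h using Nat.le_induction with
  | base => exact le_rfl
  | succ n _ ih => exact (hx n).trans ih

private theorem sig_isU {x : ℕ → Cd} (hx : ∀ n, x (n + 1) ≤ x n) (n : ℕ) :
    IsU (insert (x 0) {q | ∃ j < n, q = x j}) (x (n - 1)) := by
  have h0 : x (n - 1) ≤ x 0 := sig_anti hx (Nat.zero_le _)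
  have hmem : x (n - 1) ∈ insert (x 0) {q | ∃ j < n, q = x j} := by
    rcases Nat.eq_zero_or_pos n with h | h
    · left
      rw [h]
    · right
      exact ⟨n - 1, by omega, rfl⟩
  have hle : ∀ q ∈ insert (x 0) {q | ∃ j < n, q = x j}, x (n - 1) ≤ q := by
    rintro q (rfl | ⟨j, hj, rfl⟩)
    · exact h0
    · exact sig_anti hx (by omega)
  constructor
  · refine Set.Subset.antisymm (fun a ha => Set.mem_iUnion₂.2 ⟨_, hmem, ha⟩) ?_
    intro a ha
    obtain ⟨q, hq, haq⟩ := Set.mem_iUnion₂.1 ha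
    exact (hle q hq).1 haq
  · refine Set.Subset.antisymm (fun a ha => Set.mem_iUnion₂.2 ⟨_, hmem, ha⟩) ?_
    intro a ha
    obtain ⟨q, hq, haq⟩ := Set.mem_iUnion₂.1 ha
    exact (hle q hq).2.1 haq

theorem seq_lower (x : ℕ → Cd) (hx : ∀ n, x (n + 1) ≤ x n) : ∃ w, ∀ n, w ≤ x n := by
  have hc : #ℕ ≤ 𝔠 := by
    rw [Cardinal.mk_nat]
    exact aleph0_le_cont
  obtain ⟨w, -, -, hw⟩ := exists_union hc (x 0) x (fun n => x (n - 1)) (sig_isU hx)
    (fun n => sig_anti hx (Nat.sub_le n 1)) (fun n => sig_anti hx (Nat.zero_le _))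
    (fun j i hji => sig_anti hx hji.le)
  exact ⟨w, hw⟩

private def sigEmpty : Cd where
  A := ∅
  F := ∅
  cA := by
    rw [Cardinal.mk_emptyCollection]
    exact zero_le
  ct g hg := absurd hg (Set.notMem_empty g)
  inf g hg := absurd hg (Set.notMem_empty g)
  sub g hg := absurd hg (Set.notMem_empty g)
  free := ⟨fun _ => ∅, fun g hg => absurd hg (Set.notMem_empty g)⟩

theorem sig : DC (Order.succ ℵ₀) Cd := by
  intro D hD hcard
  have hc : D.Countable := Cardinal.le_aleph0_iff_set_countable.1 (Order.lt_succ_iff.1 hcard)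
  rcases D.eq_empty_or_nonempty with rfl | hne
  · exact ⟨sigEmpty, fun d hd => absurd hd (Set.notMem_empty d)⟩
  obtain ⟨d, rfl⟩ := hc.exists_eq_range hne
  have step : ∀ a b : Set.range d, ∃ c : Set.range d, (c : Cd) ≤ a ∧ (c : Cd) ≤ b := by
    intro a b
    obtain ⟨c, hc, h1, h2⟩ := hD a a.2 b b.2
    exact ⟨⟨c, hc⟩, h1, h2⟩
  choose f hf1 hf2 using step
  let x : ℕ → Set.range d := fun n =>
    Nat.rec ⟨d 0, 0, rfl⟩ (fun n a => f a ⟨d (n + 1), n + 1, rfl⟩) n
  have hx : ∀ n : ℕ, (x (n + 1)).1 ≤ (x n).1 := by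
    intro n
    exact hf1 (x n) ⟨d (n + 1), n + 1, rfl⟩
  have hxd : ∀ n : ℕ, (x n).1 ≤ d n := by
    intro n
    cases n with
    | zero => exact le_rfl
    | succ n => exact hf2 (x n) ⟨d (n + 1), n + 1, rfl⟩
  obtain ⟨w, hw⟩ := seq_lower (fun n => (x n).1) hx
  refine ⟨w, ?_⟩
  rintro _ ⟨n, rfl⟩
  exact (hw n).trans (hxd n)

end RNC
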