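import Pool.Agent.RNC.Dst
import Pool.Agent.RNC.Sig

/-! # Persistent values (package R04)

(problem MP_9bfcae_gt, project RNC)

`Q q a f` is a property of a condition `q`, an index `a : Ix` and a function `f : ℕ → ℕ`, inherited by
stronger conditions (`hQ`), and for every `q`, `a` some `r ≤ q` has it for some `f` (`hd`).

`per`. PROOF. Suppose the contrary for some `m`, `p`: for all `q ≤ p` and `f`, `¬ Per Q q m f`. For
`f : ℕ → ℕ` let `D f q` be the property: for all `r ≤ q` and all `x ∈ r.A`, `x ∉ q.A` we have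
`¬ Q r (x, m) f`. It is inherited: if `q' ≤ q`, `r ≤ q'`, `x ∈ r.A`, `x ∉ q'.A`, then `r ≤ q` and
`x ∉ q.A` as `q.A ⊆ q'.A`. It is dense below `p`: for `q ≤ p`, `¬ Per Q q m f` gives `q' ≤ q` such
that no `r ≤ q'` and `x ∈ r.A`, `x ∉ q'.A` have `Q r (x, m) f`, i.e. `D f q'`. By `dist` with
`J := ℕ → ℕ` (`#(ℕ → ℕ) = 𝔠`: `Cardinal.mk_pi`/`Cardinal.power_def`, `Cardinal.aleph0_power_aleph0`)
there is `q ≤ p` with `D f q` for all `f`. Choose `x ∉ q.A` (`Cd.exists_new`), let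
`q1 := q.addA {x} _ ≤ q` and by `hd` let `r ≤ q1` with `Q r (x, m) f`. Then `x ∈ q1.A ⊆ r.A`, `r ≤ q`,
`x ∉ q.A` contradict `D f q`.

`perAll`. Apply `dist` with `J := ℕ` to `D m q := ∃ f, Per Q q m f` (inherited by `Per.mono`, dense by
`per`), and choose `f m`. -/

set_option autoImplicit false

namespace RNC

open STP Cardinal

/-- below `q`, the value `f` is taken at new indices `(x, m)` -/
def Per (Q : Cd → Ix → (ℕ → ℕ) → Prop) (q : Cd) (m : ℕ) (f : ℕ → ℕ) : Prop :=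
  ∀ q' ≤ q, ∃ r ≤ q', ∃ x ∈ r.A, x ∉ q'.A ∧ Q r (x, m) f

theorem Per.mono {Q : Cd → Ix → (ℕ → ℕ) → Prop} {q q' : Cd} (hq : q' ≤ q) {m : ℕ} {f : ℕ → ℕ}
    (h : Per Q q m f) : Per Q q' m f := fun r hr => h r (hr.trans hq)

theorem per (Q : Cd → Ix → (ℕ → ℕ) → Prop) (hQ : ∀ q r a f, r ≤ q → Q q a f → Q r a f)
    (hd : ∀ q a, ∃ r ≤ q, ∃ f, Q r a f) (m : ℕ) (p : Cd) : ∃ q ≤ p, ∃ f, Per Q q m f := by
  by_contra hcon
  have hcon' : ∀ q ≤ p, ∀ f, ¬ Per Q q m f := fun q hq f h => hcon ⟨q, hq, f, h⟩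
  have hJ : #(ℕ → ℕ) ≤ 𝔠 := by
    rw [← Cardinal.power_def, Cardinal.mk_nat, Cardinal.aleph0_power_aleph0]
  have h1 : ∀ (f : ℕ → ℕ) (q r : Cd), r ≤ q →
      (∀ r' ≤ q, ∀ x ∈ r'.A, x ∉ q.A → ¬ Q r' (x, m) f) →
      ∀ r' ≤ r, ∀ x ∈ r'.A, x ∉ r.A → ¬ Q r' (x, m) f :=
    fun f q r hr hD r' hr' x hx hx' => hD r' (hr'.trans hr) x hx fun h => hx' (hr.1 h)
  have h2 : ∀ (f : ℕ → ℕ), ∀ q ≤ p, ∃ r ≤ q, ∀ r' ≤ r, ∀ x ∈ r'.A, x ∉ r.A →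
      ¬ Q r' (x, m) f := by
    intro f q hq
    by_contra hn
    refine hcon' q hq f fun q' hq' => ?_
    by_contra hn'
    exact hn ⟨q', hq', fun r' hr' x hx hx' hQf => hn' ⟨r', hr', x, hx, hx', hQf⟩⟩
  obtain ⟨q, hq, hD⟩ := dist hJ (fun f q => ∀ r ≤ q, ∀ x ∈ r.A, x ∉ q.A → ¬ Q r (x, m) f) p
    h1 h2
  obtain ⟨x, hx⟩ := q.exists_new
  obtain ⟨r, hr, f, hf⟩ := hd (q.addA {x} (countable_le_cont (Set.countable_singleton x))) (x, m)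
  exact hD f r (hr.trans (q.addA_le _ _)) x (hr.1 (Or.inr rfl)) hx hf

theorem perAll (Q : Cd → Ix → (ℕ → ℕ) → Prop) (hQ : ∀ q r a f, r ≤ q → Q q a f → Q r a f)
    (hd : ∀ q a, ∃ r ≤ q, ∃ f, Q r a f) (p : Cd) :
    ∃ q ≤ p, ∃ f : ℕ → ℕ → ℕ, ∀ m, Per Q q m (f m) := by
  have hJ : #ℕ ≤ 𝔠 := by
    rw [Cardinal.mk_nat]
    exact aleph0_le_cont
  obtain ⟨q, hq, h⟩ := dist hJ (fun m q => ∃ f, Per Q q m f) p
    (fun m q r hr h => h.imp fun f hf => hf.mono hr) fun m q _ => per Q hQ hd m q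
  choose f hf using h
  exact ⟨q, hq, f, hf⟩

end RNC
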