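import Pool.Agent.STP.RO
import Pool.Agent.STP.Rec

/-! # The poset of free families of ladders (definitions)

(problem MP_9bfcae_gt, project RNC; no sorry in this file)

* `Om`: a set with more than `𝔠` elements, `Ix = Om × ℕ`. A ladder `g : Lad` is a pair: a set
  `g.1 : Set Ix` and a function `g.2 : ℕ → ℕ`.
* `rr m`, `kk m`: the numbers `r`, `k` with `m + 1 = 2 ^ r + k`, `k < 2 ^ r`; `mc r k = 2 ^ r - 1 + k`.
* `Free F`: the ladders in `F` become pairwise disjoint after the removal of a finite set from each.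
* `Cd`: the conditions `(A, F)`: `A ⊆ Om` with `#A ≤ 𝔠`, `F` a free set of countable infinite ladders
  over `A`. `q ≤ p`: every ladder of `q` which is not in `p` has only finitely many elements over
  `p.A`.
* `inF g`: the truth value of: the ladder `g` is in the generic family. -/

namespace RNC

open STP Cardinal

/-- the index set of the countable sets, more than `𝔠` elements -/
abbrev Om : Type := Set (Set ℕ)

/-- indices of the Cantor sets -/
abbrev Ix : Type := Om × ℕ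

/-- ladders -/
abbrev Lad : Type := Set Ix × (ℕ → ℕ)

/-- the Cantor set -/
abbrev Ct : Type := ℕ → Bool

/-- `r` in `m + 1 = 2 ^ r + k` -/
def rr (m : ℕ) : ℕ := Nat.log 2 (m + 1)

/-- `k` in `m + 1 = 2 ^ r + k` -/
def kk (m : ℕ) : ℕ := m + 1 - 2 ^ rr m

/-- `m` in `m + 1 = 2 ^ r + k` -/
def mc (r k : ℕ) : ℕ := 2 ^ r - 1 + k

theorem pow_rr_le (m : ℕ) : 2 ^ rr m ≤ m + 1 := Nat.pow_log_le_self 2 (Nat.succ_ne_zero m)

theorem kk_lt (m : ℕ) : kk m < 2 ^ rr m := by
  have h1 : m + 1 < 2 ^ (rr m + 1) := Nat.lt_pow_succ_log_self (by norm_num) (m + 1)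
  have h2 := pow_rr_le m
  rw [pow_succ] at h1
  unfold kk
  omega

theorem rr_mc {r k : ℕ} (h : k < 2 ^ r) : rr (mc r k) = r := by
  unfold rr mc
  have h1 : 1 ≤ 2 ^ r := Nat.one_le_two_pow
  rw [Nat.log_eq_iff (Or.inr ⟨by norm_num, by omega⟩), pow_succ]
  omega

theorem kk_mc {r k : ℕ} (h : k < 2 ^ r) : kk (mc r k) = k := by
  unfold kk
  rw [rr_mc h]
  have h1 : 1 ≤ 2 ^ r := Nat.one_le_two_pow
  unfold mc
  omega

theorem mc_rr_kk (m : ℕ) : mc (rr m) (kk m) = m := by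
  have h2 := pow_rr_le m
  have h1 : 1 ≤ 2 ^ rr m := Nat.one_le_two_pow
  unfold mc kk
  omega

/-- the ladders in `F` can be made pairwise disjoint by removing a finite set from each of them -/
def Free (F : Set Lad) : Prop :=
  ∃ e : Lad → Finset Ix, ∀ g ∈ F, ∀ g' ∈ F, g ≠ g' → Disjoint (g.1 \ (e g : Set Ix)) (g'.1 \ e g')

/-- the part of the ladder `g` over `A` -/
def ov (g : Lad) (A : Set Om) : Set Ix := {a | a ∈ g.1 ∧ a.1 ∈ A}

/-- the conditions -/
@[ext] structure Cd : Type where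
  /-- the set of used indices -/
  A : Set Om
  /-- the family of ladders -/
  F : Set Lad
  cA : #A ≤ 𝔠
  ct : ∀ g ∈ F, g.1.Countable
  inf : ∀ g ∈ F, g.1.Infinite
  sub : ∀ g ∈ F, ∀ a ∈ g.1, a.1 ∈ A
  free : Free F

theorem ov_mono (g : Lad) {A B : Set Om} (h : A ⊆ B) : ov g A ⊆ ov g B :=
  fun _ ha => ⟨ha.1, h ha.2⟩

instance : PartialOrder Cd where
  le q p := p.A ⊆ q.A ∧ p.F ⊆ q.F ∧ ∀ g ∈ q.F, g ∉ p.F → (ov g p.A).Finite
  le_refl _ := ⟨Set.Subset.rfl, Set.Subset.rfl, fun _ h h' => absurd h h'⟩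
  le_trans r q p h h' := by
    refine ⟨h'.1.trans h.1, h'.2.1.trans h.2.1, fun g hg hg' => ?_⟩
    by_cases hq : g ∈ q.F
    · exact h'.2.2 g hq hg'
    · exact (h.2.2 g hg hq).subset (ov_mono g h'.1)
  le_antisymm _ _ h h' := Cd.ext (h'.1.antisymm h.1) (h'.2.1.antisymm h.2.1)

theorem Cd.le_def {q p : Cd} :
    q ≤ p ↔ p.A ⊆ q.A ∧ p.F ⊆ q.F ∧ ∀ g ∈ q.F, g ∉ p.F → (ov g p.A).Finite := Iff.rfl

theorem aleph0_le_cont : ℵ₀ ≤ 𝔠 := Cardinal.aleph0_le_continuum

/-- the condition with `A` enlarged by a set of size at most `𝔠` -/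
def Cd.addA (p : Cd) (S : Set Om) (hS : #S ≤ 𝔠) : Cd where
  A := p.A ∪ S
  F := p.F
  cA := (Cardinal.mk_union_le _ _).trans (Cardinal.add_le_of_le aleph0_le_cont p.cA hS)
  ct := p.ct
  inf := p.inf
  sub g hg a ha := Or.inl (p.sub g hg a ha)
  free := p.free

theorem Cd.addA_le (p : Cd) (S : Set Om) (hS : #S ≤ 𝔠) : p.addA S hS ≤ p :=
  ⟨Set.subset_union_left, Set.Subset.rfl, fun _ h h' => absurd h h'⟩

theorem countable_le_cont {α : Type} {S : Set α} (h : S.Countable) : #S ≤ 𝔠 :=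
  (Cardinal.le_aleph0_iff_set_countable.2 h).trans aleph0_le_cont

/-- the truth value of: `g` is in the generic family -/
def inF (g : Lad) : RO Cd where
  carrier := {p | g ∈ p.F}
  reg p := by
    constructor
    · intro h q hq
      exact ⟨q, le_rfl, hq.2.1 h⟩
    · intro h
      by_contra hg
      obtain ⟨r0, -, hr0⟩ := h p le_rfl
      have hc : (Prod.fst '' g.1).Countable := (r0.ct g hr0).image _
      obtain ⟨r, hr, hgr⟩ := h (p.addA _ (countable_le_cont hc)) (p.addA_le _ _)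
      refine r.inf g hgr ((hr.2.2 g hgr hg).subset fun a ha => ⟨ha, Or.inr ⟨a, ha, rfl⟩⟩)

theorem mem_inF {g : Lad} {p : Cd} : p ∈ inF g ↔ g ∈ p.F := Iff.rfl

/-- two ladders of a condition have finite intersection -/
theorem Cd.ad (p : Cd) {g g' : Lad} (hg : g ∈ p.F) (hg' : g' ∈ p.F) (h : g ≠ g') :
    (g.1 ∩ g'.1).Finite := by
  classical
  obtain ⟨e, he⟩ := p.free
  refine ((e g ∪ e g').finite_toSet).subset fun a ha => ?_
  by_contra hcon
  rw [Finset.coe_union, Set.mem_union, not_or] at hcon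
  exact Set.disjoint_left.1 (he g hg g' hg' h) ⟨ha.1, hcon.1⟩ ⟨ha.2, hcon.2⟩

/-- there is an unused index -/
theorem Cd.exists_new (p : Cd) : ∃ x : Om, x ∉ p.A := by
  by_contra hcon
  push Not at hcon
  have h1 : p.A = Set.univ := Set.eq_univ_of_forall hcon
  have h2 := p.cA
  rw [h1, Cardinal.mk_univ, Cardinal.mk_set, Cardinal.mk_set, Cardinal.mk_nat] at h2
  exact absurd h2 (not_le.2 (Cardinal.cantor _))

end RNC
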