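import Pool.Agent.RNC.Pos
import Pool.Agent.RNC.Typ

/-! # The two spaces (definitions)

(problem MP_9bfcae_gt, project RNC; no sorry in this file)

`T` is a compact space with a base `W n` (`n : ℕ`), `u g a : Ct → T` (`g` a ladder, `a : Ix`) are continuous
maps. The points of the space: `oo`, `la g t` (for the generic ladders `g` and `t : T`), `ix a x` (`a : Ix`,
`x : Ct`). The codes of the basic sets: `cI a s` (the `ix a x` where `x` extends `s`), `cL g n e` (the
`la g t` with `t ∈ W n` and the `ix a x` with `a ∈ g.1`, `a ∉ e`, `u g a x ∈ W n`), `cO G e` (all points except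
the `la g t` with `g ∈ G` and the `ix a x` with `a ∈ e` or `a ∈ g.1` for some `g ∈ G`).

The space `X`: `T = [0, 1]`, `u = uK`; the space `Z`: `T = 2^ω`, `u = uL`; the map `bt : 2^ω → [0, 1]` is the
binary expansion. -/

namespace RNC

open STP

/-- `x` extends `s` -/
def Ext (x : Ct) (s : List Bool) : Prop := ∀ i : ℕ, (h : i < s.length) → x i = s[i]

/-- the points -/
inductive PT (T : Type) : Type
  /-- the point at infinity -/
  | oo : PT T
  /-- a point of the fibre of a ladder -/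
  | la (g : Lad) (t : T) : PT T
  /-- a point of a Cantor set -/
  | ix (a : Ix) (x : Ct) : PT T

/-- the codes of the basic sets -/
inductive BC : Type
  /-- a clopen subset of a Cantor set -/
  | cI (a : Ix) (s : List Bool) : BC
  /-- a neighbourhood of points in the fibre of a ladder -/
  | cL (g : Lad) (n : ℕ) (e : Finset Ix) : BC
  /-- a neighbourhood of infinity -/
  | cO (G : Finset Lad) (e : Finset Ix) : BC

section

variable {T : Type} (W : ℕ → Set T) (u : Lad → Ix → Ct → T)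

/-- the point is in the basic set -/
def hit : PT T → BC → Prop
  | .ix a x, .cI b s => a = b ∧ Ext x s
  | .ix a x, .cL g n e => a ∈ g.1 ∧ a ∉ e ∧ u g a x ∈ W n
  | .ix a _, .cO G e => a ∉ e ∧ ∀ g ∈ G, a ∉ g.1
  | .la g t, .cL g' n _ => g = g' ∧ t ∈ W n
  | .la g _, .cO G _ => g ∉ G
  | .oo, .cO _ _ => True
  | _, _ => False

@[simp] theorem hit_ix_cI {a : Ix} {x : Ct} {b : Ix} {s : List Bool} :
    hit W u (.ix a x) (.cI b s) ↔ a = b ∧ Ext x s := Iff.rfl

@[simp] theorem hit_ix_cL {a : Ix} {x : Ct} {g : Lad} {n : ℕ} {e : Finset Ix} :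
    hit W u (.ix a x) (.cL g n e) ↔ a ∈ g.1 ∧ a ∉ e ∧ u g a x ∈ W n := Iff.rfl

@[simp] theorem hit_ix_cO {a : Ix} {x : Ct} {G : Finset Lad} {e : Finset Ix} :
    hit W u (.ix a x) (.cO G e) ↔ a ∉ e ∧ ∀ g ∈ G, a ∉ g.1 := Iff.rfl

@[simp] theorem hit_la_cI {g : Lad} {t : T} {b : Ix} {s : List Bool} :
    ¬ hit W u (.la g t) (.cI b s) := fun h => h

@[simp] theorem hit_la_cL {g g' : Lad} {t : T} {n : ℕ} {e : Finset Ix} :
    hit W u (.la g t) (.cL g' n e) ↔ g = g' ∧ t ∈ W n := Iff.rfl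

@[simp] theorem hit_la_cO {g : Lad} {t : T} {G : Finset Lad} {e : Finset Ix} :
    hit W u (.la g t) (.cO G e) ↔ g ∉ G := Iff.rfl

@[simp] theorem hit_oo_cI {b : Ix} {s : List Bool} : ¬ hit W u .oo (.cI b s) := fun h => h

@[simp] theorem hit_oo_cL {g : Lad} {n : ℕ} {e : Finset Ix} :
    ¬ hit W u .oo (.cL g n e) := fun h => h

@[simp] theorem hit_oo_cO {G : Finset Lad} {e : Finset Ix} : hit W u .oo (.cO G e) := trivial

end

/-- `T` has the base `W n`, the maps `u g a` are continuous -/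
structure Fb {T : Type} [TopologicalSpace T] (W : ℕ → Set T) (u : Lad → Ix → Ct → T) : Prop where
  ba : TopologicalSpace.IsTopologicalBasis (Set.range W)
  co : ∀ g a, Continuous (u g a)

/-- the codes over `Γ`, `I` -/
def inC (Γ : Set Lad) (I : Set Ix) : BC → Prop
  | .cI a _ => a ∈ I
  | .cL g _ _ => g ∈ Γ
  | .cO G e => (∀ g ∈ G, g ∈ Γ) ∧ ∀ a ∈ e, a ∈ I

/-- the points over `Γ`, `I` -/
def inA {T : Type} (Γ : Set Lad) (I : Set Ix) : PT T → Prop
  | .oo => True
  | .la g _ => g ∈ Γ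
  | .ix a _ => a ∈ I

open Classical in
/-- the points which are not over `Γ`, `I` are replaced by `oo` -/
noncomputable def rp {T : Type} (Γ : Set Lad) (I : Set Ix) (a : PT T) : PT T :=
  if inA Γ I a then a else .oo

/-- the truth value of being a point -/
def pv {T : Type} : PT T → RO Cd
  | .oo => ⊤
  | .la g _ => inF g
  | .ix _ _ => ⊤

/-- the truth value of being a code -/
def bv : BC → RO Cd
  | .cI _ _ => ⊤
  | .cL g _ _ => inF g
  | .cO G _ => ⨅ g : {g // g ∈ G}, inF g.1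

theorem mem_pv_oo {T : Type} {p : Cd} : p ∈ pv (.oo : PT T) := RO.mem_top

theorem mem_pv_la {T : Type} {g : Lad} {t : T} {p : Cd} : p ∈ pv (.la g t) ↔ g ∈ p.F := Iff.rfl

theorem mem_pv_ix {T : Type} {a : Ix} {x : Ct} {p : Cd} : p ∈ pv (.ix a x : PT T) := RO.mem_top

theorem mem_bv_cI {a : Ix} {s : List Bool} {p : Cd} : p ∈ bv (.cI a s) := RO.mem_top

theorem mem_bv_cL {g : Lad} {n : ℕ} {e : Finset Ix} {p : Cd} : p ∈ bv (.cL g n e) ↔ g ∈ p.F :=
  Iff.rfl

theorem mem_bv_cO {G : Finset Lad} {e : Finset Ix} {p : Cd} :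
    p ∈ bv (.cO G e) ↔ ∀ g ∈ G, g ∈ p.F := by
  change p ∈ (⨅ g : {g // g ∈ G}, inF g.1) ↔ _
  rw [RO.mem_iInf]
  exact ⟨fun h g hg => h ⟨g, hg⟩, fun h g => h g.1 g.2⟩

/-! ## The fibre `[0, 1]` -/

/-- the unit interval -/
abbrev UI : Type := Set.Icc (0 : ℝ) 1

/-- a countable base of the unit interval -/
noncomputable def WK (n : ℕ) : Set UI :=
  {t | ((Denumerable.ofNat (ℚ × ℚ) n).1 : ℝ) < t.1 ∧ t.1 < (Denumerable.ofNat (ℚ × ℚ) n).2}

/-- the value `(k + x) / 2 ^ r` -/
noncomputable def uR (m i : ℕ) (x : Ct) : ℝ := (kk m + if x i then 1 else 0) / 2 ^ rr m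

theorem uR_mem (m i : ℕ) (x : Ct) : uR m i x ∈ Set.Icc (0 : ℝ) 1 := by
  unfold uR
  have h1 : ((kk m : ℕ) : ℝ) + 1 ≤ 2 ^ rr m := by exact_mod_cast kk_lt m
  have h2 : (0 : ℝ) < 2 ^ rr m := by positivity
  constructor
  · split_ifs <;> positivity
  · rw [div_le_one h2]
    split_ifs <;> linarith

/-- the gluing maps of the space `X` -/
noncomputable def uK (g : Lad) (a : Ix) (x : Ct) : UI := ⟨uR a.2 (g.2 (rr a.2)) x, uR_mem _ _ _⟩

/-! ## The fibre `2^ω` -/

/-- a countable base of the Cantor set -/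
def WL (n : ℕ) : Set Ct := {y | ∃ s : List Bool, Encodable.encode s = n ∧ Ext y s}

/-- the gluing maps of the space `Z`: the `rr m` binary digits of `kk m`, then the digit
`x (g.2 (rr m))` -/
def uL (g : Lad) (a : Ix) (x : Ct) : Ct := fun j =>
  if j < rr a.2 then (kk a.2).testBit (rr a.2 - 1 - j) else x (g.2 (rr a.2))

/-- the binary expansion -/
noncomputable def bR (y : Ct) : ℝ := ∑' j, (if y j then 1 else 0 : ℝ) / 2 ^ (j + 1)

/-! ## The metric on the space `Z` -/

open Classical in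
/-- the first place where `x` and `y` differ -/
noncomputable def fd (x y : Ct) : ℕ := if h : ∃ n, x n ≠ y n then Nat.find h else 0

/-- the distance of two points of a fibre with first difference `j` -/
noncomputable def wt (g : Lad) (j : ℕ) : ℝ := 1 / (1 + j + (Finset.range (j + 1)).sup g.2)

open Classical in
/-- the metric on the space `Z` -/
noncomputable def DL : PT Ct → PT Ct → ℝ
  | .oo, .oo => 0
  | .la g x, .la g' y => if g = g' then (if x = y then 0 else wt g (fd x y)) else 1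
  | .ix a x, .ix b y => if a = b then (if x = y then 0 else 1 / (1 + fd x y)) else 1
  | _, _ => 1

end RNC
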