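import Pool.Agent.RNC.Pos

/-! # Unions of well ordered families of conditions (package R01)

(problem MP_9bfcae_gt, project RNC)

`v i` is the union of `p` and of the conditions `x j`, `j < i`, and `x i ≤ v i`.

PROOF. `w.A := p.A ∪ ⋃ i, (x i).A` has at most `𝔠` elements (`Cardinal.mk_union_le`,
`Cardinal.mk_iUnion_le`, `#α ≤ 𝔠`, `Cardinal.mul_eq_self aleph0_le_cont` or
`Cardinal.mul_le_of_le`). `w.F := p.F ∪ ⋃ i, (x i).F`. The fields `ct`, `inf`, `sub` are clear.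

`free`: for `g ∈ w.F`, `g ∉ p.F`, let `i = i(g)` be the least index with `g ∈ (x i).F`
(`WellFounded.min wellFounded_lt`). Then `g ∉ (v i).F = p.F ∪ ⋃ j < i, (x j).F` (`hv i`), so
`ov g (v i).A` is finite by `x i ≤ v i` (`Cd.le_def`). Put `e g := e_{x i} g ∪ ov g (v i).A`
(`Set.Finite.toFinset`), where `e_{x i}` is a witness of `(x i).free`; for `g ∈ p.F` put
`e g := e_p g`. Let `g ≠ g'`. Both in `p.F`: clear. `g ∈ p.F`, `g' ∉ p.F`, `i' = i(g')`: all elements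
of `g.1` are over `p.A ⊆ (v i').A`, and no element of `g'.1 \ e g'` is over `(v i').A`. Both not in
`p.F`: if `i(g) = i(g') = i` use `e_{x i}`; if `i(g) = i < i' = i(g')` then all elements of `g.1` are
over `(x i).A ⊆ (v i').A`.

`w ≤ p`: `g ∈ w.F`, `g ∉ p.F` is in some `(x i).F` and `x i ≤ p` (from `x i ≤ v i ≤ p`), so
`ov g p.A` is finite. `w ≤ x j`: let `g ∈ w.F`, `g ∉ (x j).F`. Then `g ∉ p.F` (`x j ≤ p` gives
`p.F ⊆ (x j).F`), so `g ∈ (x i).F` for some `i`; `i ≤ j` is impossible (`x j ≤ x i` would give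
`g ∈ (x j).F`), so `j < i`, `x i ≤ x j` and `ov g (x j).A` is finite. -/

set_option autoImplicit false

namespace RNC

open STP Cardinal

/-- `w` is the union of the conditions in `S` -/
def IsU (S : Set Cd) (w : Cd) : Prop := w.A = (⋃ p ∈ S, p.A) ∧ w.F = ⋃ p ∈ S, p.F

private theorem un_iA {p : Cd} {α : Type} {x : α → Cd} {P : α → Prop} {w : Cd}
    (h : IsU (insert p {q | ∃ j, P j ∧ q = x j}) w) (a : Om) :
    a ∈ w.A ↔ a ∈ p.A ∨ ∃ j, P j ∧ a ∈ (x j).A := by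
  rw [h.1]
  constructor
  · intro ha
    obtain ⟨q, hq, haq⟩ := Set.mem_iUnion₂.1 ha
    rcases hq with rfl | ⟨j, hj, rfl⟩
    · exact Or.inl haq
    · exact Or.inr ⟨j, hj, haq⟩
  · rintro (ha | ⟨j, hj, ha⟩)
    · exact Set.mem_iUnion₂.2 ⟨p, Or.inl rfl, ha⟩
    · exact Set.mem_iUnion₂.2 ⟨x j, Or.inr ⟨j, hj, rfl⟩, ha⟩

private theorem un_iF {p : Cd} {α : Type} {x : α → Cd} {P : α → Prop} {w : Cd}
    (h : IsU (insert p {q | ∃ j, P j ∧ q = x j}) w) (a : Lad) :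
    a ∈ w.F ↔ a ∈ p.F ∨ ∃ j, P j ∧ a ∈ (x j).F := by
  rw [h.2]
  constructor
  · intro ha
    obtain ⟨q, hq, haq⟩ := Set.mem_iUnion₂.1 ha
    rcases hq with rfl | ⟨j, hj, rfl⟩
    · exact Or.inl haq
    · exact Or.inr ⟨j, hj, haq⟩
  · rintro (ha | ⟨j, hj, ha⟩)
    · exact Set.mem_iUnion₂.2 ⟨p, Or.inl rfl, ha⟩
    · exact Set.mem_iUnion₂.2 ⟨x j, Or.inr ⟨j, hj, rfl⟩, ha⟩

private theorem un_cA {α : Type} (hα : #α ≤ 𝔠) (p : Cd) (x : α → Cd) :
    #(p.A ∪ ⋃ i, (x i).A : Set Om) ≤ 𝔠 := by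
  refine (Cardinal.mk_union_le _ _).trans (Cardinal.add_le_of_le aleph0_le_cont p.cA ?_)
  refine (Cardinal.mk_iUnion_le _).trans ?_
  refine Cardinal.mul_le_of_le aleph0_le_cont hα ?_
  exact ciSup_le' fun i => (x i).cA

private theorem un_free {α : Type} [LinearOrder α] [WellFoundedLT α] (p : Cd)
    (x v : α → Cd) (hv : ∀ i, IsU (insert p {q | ∃ j < i, q = x j}) (v i))
    (hx : ∀ i, x i ≤ v i) : Free (p.F ∪ ⋃ i, (x i).F) := by
  classical
  obtain ⟨ep, hep⟩ := p.free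
  choose ex hex using fun i => (x i).free
  have key : ∀ g : Lad, ∃ s : Finset Ix, ep g ⊆ s ∧ (g ∉ p.F → (∃ i, g ∈ (x i).F) →
      ∃ i, g ∈ (x i).F ∧ ex i g ⊆ s ∧ ov g (v i).A ⊆ (s : Set Ix)) := by
    intro g
    by_cases hg : g ∉ p.F ∧ ∃ i, g ∈ (x i).F
    · obtain ⟨h1, h2⟩ := hg
      obtain ⟨i, hi, hmin⟩ := WellFounded.has_min (wellFounded_lt (α := α)) {i | g ∈ (x i).F} h2
      have h3 : g ∉ (v i).F := by
        rw [un_iF (hv i)]
        rintro (h | ⟨j, hj, h⟩)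
        · exact h1 h
        · exact hmin j h hj
      have h4 : (ov g (v i).A).Finite := (hx i).2.2 g hi h3
      refine ⟨ep g ∪ (ex i g ∪ h4.toFinset), Finset.subset_union_left, fun _ _ => ⟨i, hi, ?_, ?_⟩⟩
      · exact Finset.subset_union_left.trans Finset.subset_union_right
      · intro a ha
        rw [Finset.mem_coe, Finset.mem_union, Finset.mem_union]
        exact Or.inr (Or.inr (h4.mem_toFinset.2 ha))
    · exact ⟨ep g, subset_rfl, fun h1 h2 => absurd ⟨h1, h2⟩ hg⟩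
  choose e he1 he2 using key
  refine ⟨e, ?_⟩
  have hpv : ∀ i, p.A ⊆ (v i).A := fun i a ha => (un_iA (hv i) a).2 (Or.inl ha)
  have hxv : ∀ i i', i < i' → (x i).A ⊆ (v i').A :=
    fun i i' h a ha => (un_iA (hv i') a).2 (Or.inr ⟨i, h, ha⟩)
  have aux : ∀ g g' : Lad, ∀ B : Set Om, (∀ a ∈ g.1, a.1 ∈ B) → ov g' B ⊆ (e g' : Set Ix) →
      Disjoint (g.1 \ (e g : Set Ix)) (g'.1 \ e g') := by
    intro g g' B h1 h2
    rw [Set.disjoint_left]
    intro a ha ha'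
    exact ha'.2 (h2 ⟨ha'.1, h1 a ha.1⟩)
  have mono : ∀ (g g' : Lad) (s s' : Finset Ix), s ⊆ e g → s' ⊆ e g' →
      Disjoint (g.1 \ (s : Set Ix)) (g'.1 \ s') →
      Disjoint (g.1 \ (e g : Set Ix)) (g'.1 \ e g') := by
    intro g g' s s' h1 h2 h3
    exact h3.mono (Set.sdiff_subset_sdiff_right (Finset.coe_subset.2 h1))
      (Set.sdiff_subset_sdiff_right (Finset.coe_subset.2 h2))
  have hmem : ∀ g : Lad, g ∈ p.F ∪ ⋃ i, (x i).F → g ∉ p.F → ∃ i, g ∈ (x i).F := by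
    rintro g (h | h) h'
    · exact absurd h h'
    · exact Set.mem_iUnion.1 h
  intro g hg g' hg' hne
  by_cases h1 : g ∈ p.F <;> by_cases h2 : g' ∈ p.F
  · exact mono g g' _ _ (he1 g) (he1 g') (hep g h1 g' h2 hne)
  · obtain ⟨i, -, -, h3⟩ := he2 g' h2 (hmem g' hg' h2)
    exact aux g g' _ (fun a ha => hpv i (p.sub g h1 a ha)) h3
  · obtain ⟨i, -, -, h3⟩ := he2 g h1 (hmem g hg h1)
    exact (aux g' g _ (fun a ha => hpv i (p.sub g' h2 a ha)) h3).symm
  · obtain ⟨i, hi, hi1, hi2⟩ := he2 g h1 (hmem g hg h1)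
    obtain ⟨i', hi', hi1', hi2'⟩ := he2 g' h2 (hmem g' hg' h2)
    rcases lt_trichotomy i i' with h | rfl | h
    · exact aux g g' _ (fun a ha => hxv i i' h ((x i).sub g hi a ha)) hi2'
    · exact mono g g' _ _ hi1 hi1' (hex i g hi g' hi' hne)
    · exact (aux g' g _ (fun a ha => hxv i' i h ((x i').sub g' hi' a ha)) hi2).symm

theorem exists_union {α : Type} [LinearOrder α] [WellFoundedLT α] (hα : #α ≤ 𝔠) (p : Cd)
    (x v : α → Cd) (hv : ∀ i, IsU (insert p {q | ∃ j < i, q = x j}) (v i))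
    (hx : ∀ i, x i ≤ v i) (hp : ∀ i, v i ≤ p) (hd : ∀ j i, j < i → x i ≤ x j) :
    ∃ w, IsU (insert p (Set.range x)) w ∧ w ≤ p ∧ ∀ i, w ≤ x i := by
  have hxp : ∀ i, x i ≤ p := fun i => (hx i).trans (hp i)
  refine ⟨{
    A := p.A ∪ ⋃ i, (x i).A
    F := p.F ∪ ⋃ i, (x i).F
    cA := un_cA hα p x
    ct := ?_
    inf := ?_
    sub := ?_
    free := un_free p x v hv hx }, ⟨?_, ?_⟩, ⟨Set.subset_union_left, Set.subset_union_left, ?_⟩,
      fun j => ⟨?_, ?_, ?_⟩⟩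
  · rintro g (h | h)
    · exact p.ct g h
    · obtain ⟨i, hi⟩ := Set.mem_iUnion.1 h
      exact (x i).ct g hi
  · rintro g (h | h)
    · exact p.inf g h
    · obtain ⟨i, hi⟩ := Set.mem_iUnion.1 h
      exact (x i).inf g hi
  · rintro g (h | h) a ha
    · exact Or.inl (p.sub g h a ha)
    · obtain ⟨i, hi⟩ := Set.mem_iUnion.1 h
      exact Or.inr (Set.mem_iUnion.2 ⟨i, (x i).sub g hi a ha⟩)
  · change p.A ∪ ⋃ i, (x i).A = _
    rw [Set.biUnion_insert, Set.biUnion_range]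
  · change p.F ∪ ⋃ i, (x i).F = _
    rw [Set.biUnion_insert, Set.biUnion_range]
  · rintro g (h | h) h'
    · exact absurd h h'
    · obtain ⟨i, hi⟩ := Set.mem_iUnion.1 h
      exact (hxp i).2.2 g hi h'
  · exact (Set.subset_iUnion (fun i => (x i).A) j).trans Set.subset_union_right
  · exact (Set.subset_iUnion (fun i => (x i).F) j).trans Set.subset_union_right
  · rintro g (h | h) h'
    · exact absurd ((hxp j).2.1 h) h'
    · obtain ⟨i, hi⟩ := Set.mem_iUnion.1 h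
      rcases lt_trichotomy i j with hij | rfl | hij
      · exact absurd ((hd i j hij).2.1 hi) h'
      · exact absurd hi h'
      · exact (hd j i hij).2.2 g hi h'

end RNC
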