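import Pool.Agent.RNC.VQt

/-! # The pieces meet only countably many other pieces in the quotient (package R22)

(problem MP_9bfcae_gt, project RNC)

The situation (`Pcs X oo N s`): `X` is compact Hausdorff, the sets `N i` are clopen and second
countable, do not contain `oo`, cover all other points, every open set containing `oo` contains all but
finitely many `N i`, and `s` is a closed equivalence relation. `Aj N s oo i j`: some point of `N i`
which is not equivalent to `oo` is equivalent to a point of `N j`.

`adj_symm`: clear (`s` is symmetric and transitive).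

`adj_countable`. PROOF. Fix `j`. The set `F = {x | s x oo}` is closed (`sat_closed` for `{oo}`). The
open subset `Wj := N j \ F` of `N j` is a countable union of compact sets `L n` (the subspace `N j` is
compact, Hausdorff and second countable, so its open subset is a union of countably many basic sets
whose closures are contained in the open subset; or: an open subset of a second countable
locally compact Hausdorff space is σ-compact, `SigmaCompactSpace`; transport by `Subtype.val`). For
every `n` the saturation `{y | ∃ x ∈ L n, s x y}` is closed (`sat_closed`) and does not contain `oo`; its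
complement is open and contains `oo`, so it contains all but finitely many `N i`. If `Aj N s oo j i`,
i.e. `x ∈ N j`, `¬ s x oo`, `y ∈ N i`, `s x y`, then `x ∈ L n` for some `n` and `y` is in the
saturation of `L n`, so `i` is one of the finitely many exceptions for `n`. So
`{i | Aj N s oo j i}` is countable. -/

set_option autoImplicit false

namespace RNC

/-- pieces of a one point compactification, and a closed equivalence relation -/
structure Pcs {X : Type} [TopologicalSpace X] {ι : Type} (oo : X) (N : ι → Set X)
    (s : Setoid X) : Prop where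
  op : ∀ i, IsOpen (N i)
  cl : ∀ i, IsClosed (N i)
  sc : ∀ i, SecondCountableTopology (N i)
  no : ∀ i, oo ∉ N i
  cov : ∀ x, x ≠ oo → ∃ i, x ∈ N i
  fin : ∀ U : Set X, IsOpen U → oo ∈ U → {i | ¬ N i ⊆ U}.Finite
  rel : IsClosed {p : X × X | s p.1 p.2}

/-- two pieces meet in the quotient outside the class of `oo` -/
def Aj {X : Type} {ι : Type} (N : ι → Set X) (s : Setoid X) (oo : X) (i j : ι) : Prop :=
  ∃ x ∈ N i, ∃ y ∈ N j, s x y ∧ ¬ s x oo

variable {X : Type} [TopologicalSpace X] [CompactSpace X] [T2Space X] {ι : Type} {oo : X}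
  {N : ι → Set X} {s : Setoid X}

theorem adj_symm {i j : ι} (h : Aj N s oo i j) : Aj N s oo j i := by
  obtain ⟨x, hx, y, hy, hxy, hoo⟩ := h
  exact ⟨y, hy, x, hx, s.symm hxy, fun h => hoo (s.trans hxy h)⟩

theorem adj_countable (h : Pcs oo N s) (j : ι) : {i | Aj N s oo j i}.Countable := by
  have hF : IsClosed {x | s x oo} := by
    have h1 := sat_closed s h.rel (isClosed_singleton (x := oo))
    have h2 : {y | ∃ x ∈ ({oo} : Set X), s x y} = {x | s x oo} := by
      ext y
      constructor
      · rintro ⟨x, rfl, hxy⟩
        exact s.symm hxy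
      · intro hy
        exact ⟨oo, rfl, s.symm hy⟩
    rwa [h2] at h1
  have hW : IsOpen (N j ∩ {x | s x oo}ᶜ) := (h.op j).inter hF.isOpen_compl
  have : LocallyCompactSpace (N j ∩ {x | s x oo}ᶜ : Set X) :=
    hW.isOpenEmbedding_subtypeVal.locallyCompactSpace
  have := h.sc j
  have : SecondCountableTopology (N j ∩ {x | s x oo}ᶜ : Set X) :=
    (Topology.IsEmbedding.inclusion
      (Set.inter_subset_left : N j ∩ {x | s x oo}ᶜ ⊆ N j)).secondCountableTopology
  have hS : ∀ n, IsClosed {y | ∃ x ∈ Subtype.val ''
      (compactCovering (N j ∩ {x | s x oo}ᶜ : Set X) n), s x y} := fun n =>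
    sat_closed s h.rel ((isCompact_compactCovering _ n).image continuous_subtype_val).isClosed
  have hfin : ∀ n, {i | ¬ N i ⊆ {y | ∃ x ∈ Subtype.val ''
      (compactCovering (N j ∩ {x | s x oo}ᶜ : Set X) n), s x y}ᶜ}.Finite := fun n => by
    refine h.fin _ (hS n).isOpen_compl ?_
    rintro ⟨_, ⟨x, -, rfl⟩, hxo⟩
    exact x.2.2 hxo
  refine (Set.countable_iUnion fun n => (hfin n).countable).mono ?_
  rintro i ⟨x, hx, y, hy, hxy, hoo⟩
  have hxc : (⟨x, hx, hoo⟩ : (N j ∩ {x | s x oo}ᶜ : Set X)) ∈
      ⋃ n, compactCovering (N j ∩ {x | s x oo}ᶜ : Set X) n := by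
    rw [iUnion_compactCovering]
    exact Set.mem_univ _
  obtain ⟨n, hn⟩ := Set.mem_iUnion.1 hxc
  exact Set.mem_iUnion.2 ⟨n, fun hsub => hsub hy ⟨x, ⟨_, hn, rfl⟩, hxy⟩⟩

end RNC
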