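import Mathlib

/-! # A compact Hausdorff space with a countable network is second countable (package R20)

(problem MP_9bfcae_gt, project RNC)

`net`. PROOF. Let `PS` be the (countable) set of the pairs `(M, M')` of elements of `S` for which
there are disjoint open sets `O ⊇ M`, `O' ⊇ M'`; choose such `O`, `O'` for every pair in `PS`; let `B`
be the countable set of all chosen `O` and `O'`, and `t' := TopologicalSpace.generateFrom B`. The
topology `t` of `Y` is finer (`le_generateFrom`, `t ≤ t'`). `t'` is Hausdorff: for `y ≠ y'` there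
are disjoint open sets `U`, `U'` (in `t`) containing them (`t2_separation`), and `M`, `M' ∈ S` with
`y ∈ M ⊆ U`, `y' ∈ M' ⊆ U'`; so `(M, M') ∈ PS` and the chosen `O`, `O'` separate `y`, `y'`. A
continuous bijection of a compact space to a Hausdorff space is a homeomorphism, so `t = t'`
(`Continuous.isClosedMap` for the identity `(Y, t) → (Y, t')`, or `IsCompact`/`le_antisymm` with: every
`t`-closed set is `t`-compact, hence `t'`-compact, hence `t'`-closed). `t'` is second countable:
`⟨B, hB, rfl⟩` (`SecondCountableTopology` has the constructor from `∃ b, b.Countable ∧ t =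
generateFrom b`). -/

set_option autoImplicit false

namespace RNC

theorem net {Y : Type} [TopologicalSpace Y] [CompactSpace Y] [T2Space Y] (S : Set (Set Y))
    (hS : S.Countable) (hn : ∀ y U, IsOpen U → y ∈ U → ∃ M ∈ S, y ∈ M ∧ M ⊆ U) :
    SecondCountableTopology Y := by
  classical
  rename_i t hcomp ht2
  let PS : Set (Set Y × Set Y) := {p | p.1 ∈ S ∧ p.2 ∈ S ∧
    ∃ O O' : Set Y, IsOpen O ∧ IsOpen O' ∧ p.1 ⊆ O ∧ p.2 ⊆ O' ∧ Disjoint O O'}
  have hPS : PS.Countable := (hS.prod hS).mono fun p hp => Set.mk_mem_prod hp.1 hp.2.1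
  have hch : ∀ p : PS, ∃ O O' : Set Y, IsOpen O ∧ IsOpen O' ∧ p.1.1 ⊆ O ∧ p.1.2 ⊆ O' ∧
      Disjoint O O' := fun p => p.2.2.2
  choose O O' hO hO' hsub hsub' hdis using hch
  have : Countable PS := hPS.to_subtype
  let B : Set (Set Y) := Set.range O ∪ Set.range O'
  have hB : B.Countable := (Set.countable_range O).union (Set.countable_range O')
  have hle : t ≤ TopologicalSpace.generateFrom B := by
    refine le_generateFrom ?_
    rintro U (⟨p, rfl⟩ | ⟨p, rfl⟩)
    · exact hO p
    · exact hO' p
  have hH : @T2Space Y (TopologicalSpace.generateFrom B) := by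
    refine @T2Space.mk Y (TopologicalSpace.generateFrom B) fun y y' hne => ?_
    obtain ⟨U, U', hU, hU', hyU, hyU', hUU⟩ := @t2_separation Y t ht2 y y' hne
    obtain ⟨M, hM, hyM, hMU⟩ := hn y U hU hyU
    obtain ⟨M', hM', hyM', hMU'⟩ := hn y' U' hU' hyU'
    let p : PS := ⟨(M, M'), hM, hM', U, U', hU, hU', hMU, hMU', hUU⟩
    exact ⟨O p, O' p, TopologicalSpace.isOpen_generateFrom_of_mem (Or.inl ⟨p, rfl⟩),
      TopologicalSpace.isOpen_generateFrom_of_mem (Or.inr ⟨p, rfl⟩), hsub p hyM, hsub' p hyM',
      hdis p⟩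
  have heq : t = TopologicalSpace.generateFrom B := by
    refine le_antisymm hle ?_
    intro U hU
    have h1 : @IsClosed Y t Uᶜ := (@isClosed_compl_iff Y t U).2 hU
    have h2 : @IsCompact Y t Uᶜ := @IsClosed.isCompact Y t _ hcomp h1
    have h3 : @IsCompact Y (TopologicalSpace.generateFrom B) (id '' Uᶜ) :=
      @IsCompact.image Y Y t (TopologicalSpace.generateFrom B) Uᶜ id h2
        (continuous_id_iff_le.2 hle)
    rw [Set.image_id] at h3
    have h4 : @IsClosed Y (TopologicalSpace.generateFrom B) Uᶜ :=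
      @IsCompact.isClosed Y (TopologicalSpace.generateFrom B) hH Uᶜ h3
    exact (@isClosed_compl_iff Y (TopologicalSpace.generateFrom B) U).1 h4
  exact ⟨B, hB, heq⟩

end RNC
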