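import Pool.Agent.RNC.VAdj
import Pool.Agent.RNC.VNet

/-! # Functions which separate the points of one component (package R23)

(problem MP_9bfcae_gt, project RNC)

`J` is a countable set of indices, closed under `Aj`. `Prt N s oo J x`: `x` is in some `N i`, `i ∈
J`, and is not equivalent to `oo`.

`prt_inv`: `Prt` is invariant: if `x ∈ N i`, `i ∈ J`, `¬ s x oo`, `s x y`, then `y ≠ oo`, so `y ∈
N j` for some `j` (`h.cov`), `Aj N s oo i j`, so `j ∈ J`; and `¬ s y oo`.

`kJ_closed`, `kJ_open`: let `Q := Quotient s` (compact; Hausdorff by `t2_quot h.rel`),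
`m := ⟦oo⟧`, `K := {q | q = m ∨ ∃ x, Prt N s oo J x ∧ q = ⟦x⟧}`. The set `K \ {m}` is open: its
preimage is `(⋃ i ∈ J, N i) \ {x | s x oo}` (`prt_inv`), open because `{x | s x oo}` is closed
(`sat_closed`). `K` is closed: the preimage of its complement is
`(⋃ i ∉ J, N i) \ {x | s x oo}`: if `x` is in it, `x ∈ N i`, `i ∉ J`, and `⟦x⟧ ∈ K` then
`Prt N s oo J x` by `prt_inv`, `x ∈ N k`, `k ∈ J`, and `Aj N s oo k i` (`x` itself), so `i ∈ J`.

`kJ_sc`: the compact Hausdorff space `K` (a closed subset of `Q`) is second countable, by `net`: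
the network consists of `{m}` and of the traces on `K` of the sets `⟦B⟧` (the image of `B`), where
`i ∈ J` and `B` is in the countable base of the subspace `N i`
(`TopologicalSpace.countableBasis`). If `q = ⟦x⟧` with `x ∈ N i`, `i ∈ J`, and `U` is open, `q ∈
U`, then `{z | ⟦z⟧ ∈ U}` is open and contains `x`, so it contains some basic `B ∋ x` of `N i`.

`one`. PROOF. `K` is metrizable (`TopologicalSpace.metrizableSpace_of_t3_secondCountable`,
`TopologicalSpace.metrizableSpaceMetric`); let `d` be a metric, `(z n)` a dense sequence in `K`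
(`TopologicalSpace.denseSeq`), `c n k := min 1 (d k (z n))`, and `g n b k := max 0 (c n k - c n
m)` for `b = true`, `max 0 (c n m - c n k)` for `b = false`. These are continuous functions `K →
[0, 1]`, zero at `m`. Extend them by `0` outside `K`; the extensions are continuous on `Q` because
`Q` is the union of the closed sets `K` and `(K \ {m})ᶜ` (the extension is zero on the second set;
use e.g. `ContinuousOn.union_of_isClosed` or `Continuous.if`-type lemmas). Enumerate `ℕ × Bool` by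
`ℕ` (`Denumerable`) and compose with the quotient map: these are the `f n`. If `¬ Prt N s oo J x`
then `⟦x⟧ ∉ K` or `⟦x⟧ = m` (`prt_inv`), so `f n x = 0`. Let `Prt N s oo J x` and `f n x = f n y`
for all `n`. If `⟦y⟧ ∈ K` then `c n ⟦x⟧ = c n ⟦y⟧` for all `n` (from `max 0 t = max 0 t'` and `max
0 (-t) = max 0 (-t')`), and `z n → ⟦x⟧` along a subsequence gives `d ⟦x⟧ ⟦y⟧ = 0` (for `δ ≤ 1`
take `n` with `d ⟦x⟧ (z n) < δ`, so `d ⟦y⟧ (z n) < δ` and `d ⟦x⟧ ⟦y⟧ < 2 δ`). So `⟦x⟧ = ⟦y⟧`, `s x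
y`. If `⟦y⟧ ∉ K` then `f n y = 0` for all `n`, and the same argument with `m` in place of `⟦y⟧`
gives `⟦x⟧ = m`, a contradiction.-/

set_option autoImplicit false

namespace RNC

/-- `x` is in a piece with index in `J`, not equivalent to `oo` -/
def Prt {X : Type} {ι : Type} (N : ι → Set X) (s : Setoid X) (oo : X) (J : Set ι) (x : X) :
    Prop := ∃ i ∈ J, x ∈ N i ∧ ¬ s x oo

variable {X : Type} [TopologicalSpace X] [CompactSpace X] [T2Space X] {ι : Type} {oo : X}
  {N : ι → Set X} {s : Setoid X}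

private theorem vo_closed (h : Pcs oo N s) : IsClosed {x | s x oo} := by
  have h1 := sat_closed s h.rel (F := {oo}) isClosed_singleton
  have h2 : {y | ∃ x ∈ ({oo} : Set X), s x y} = {x | s x oo} := by
    ext y
    constructor
    · rintro ⟨x, hx, hxy⟩
      rw [Set.mem_singleton_iff] at hx
      subst hx
      exact s.symm' hxy
    · intro hy
      exact ⟨oo, rfl, s.symm' hy⟩
  rwa [h2] at h1

theorem prt_inv (h : Pcs oo N s) {J : Set ι} (hJ : ∀ i ∈ J, ∀ j, Aj N s oo i j → j ∈ J)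
    {x y : X} (hx : Prt N s oo J x) (hxy : s x y) : Prt N s oo J y := by
  obtain ⟨i, hi, h1, h2⟩ := hx
  have h3 : ¬ s y oo := fun h4 => h2 (s.trans' hxy h4)
  have h4 : y ≠ oo := fun h5 => h3 (h5 ▸ s.refl' y)
  obtain ⟨j, hj⟩ := h.cov y h4
  exact ⟨j, hJ i hi j ⟨x, h1, y, hj, hxy, h2⟩, hj, h3⟩

/-- the part of the quotient with the index set `J`, with the point `oo` -/
def KJ (N : ι → Set X) (s : Setoid X) (oo : X) (J : Set ι) : Set (Quotient s) :=
  {q | q = Quotient.mk s oo ∨ ∃ x, Prt N s oo J x ∧ q = Quotient.mk s x}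

private theorem vo_open (h : Pcs oo N s) (J : Set ι) :
    IsOpen {x | ∃ i ∈ J, x ∈ N i ∧ ¬ s x oo} := by
  have h1 : {x | ∃ i ∈ J, x ∈ N i ∧ ¬ s x oo} = (⋃ i ∈ J, N i) ∩ {x | s x oo}ᶜ := by
    ext x
    simp only [Set.mem_ofPred_eq, Set.mem_inter_iff, Set.mem_iUnion, Set.mem_compl_iff]
    constructor
    · rintro ⟨i, hi, h1, h2⟩
      exact ⟨⟨i, hi, h1⟩, h2⟩
    · rintro ⟨⟨i, hi, h1⟩, h2⟩
      exact ⟨i, hi, h1, h2⟩
  rw [h1]
  exact (isOpen_biUnion fun i _ => h.op i).inter (vo_closed h).isOpen_compl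

private theorem vo_eq {x y : X} : Quotient.mk s x = Quotient.mk s y ↔ s x y :=
  Quotient.eq

theorem kJ_open (h : Pcs oo N s) {J : Set ι} (hJ : ∀ i ∈ J, ∀ j, Aj N s oo i j → j ∈ J) :
    IsOpen (KJ N s oo J \ {Quotient.mk s oo}) := by
  change IsOpen (Quotient.mk s ⁻¹' (KJ N s oo J \ {Quotient.mk s oo}))
  have h1 : Quotient.mk s ⁻¹' (KJ N s oo J \ {Quotient.mk s oo}) =
      {x | ∃ i ∈ J, x ∈ N i ∧ ¬ s x oo} := by
    ext x
    constructor
    · rintro ⟨h1, h2⟩
      rcases h1 with h1 | ⟨x', hx', h1⟩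
      · exact absurd h1 h2
      · exact prt_inv h hJ hx' (s.symm' (vo_eq.1 h1))
    · intro hx
      refine ⟨Or.inr ⟨x, hx, rfl⟩, fun h2 => ?_⟩
      obtain ⟨_, _, _, h3⟩ := hx
      exact h3 (vo_eq.1 h2)
  rw [h1]
  exact vo_open h J

theorem kJ_closed (h : Pcs oo N s) {J : Set ι} (hJ : ∀ i ∈ J, ∀ j, Aj N s oo i j → j ∈ J) :
    IsClosed (KJ N s oo J) := by
  rw [← isOpen_compl_iff]
  change IsOpen (Quotient.mk s ⁻¹' (KJ N s oo J)ᶜ)
  have h1 : Quotient.mk s ⁻¹' (KJ N s oo J)ᶜ = {x | ∃ i ∈ Jᶜ, x ∈ N i ∧ ¬ s x oo} := by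
    ext x
    constructor
    · intro hx
      have h2 : ¬ s x oo := fun h3 => hx (Or.inl (vo_eq.2 h3))
      have h3 : x ≠ oo := fun h4 => h2 (h4 ▸ s.refl' x)
      obtain ⟨i, hi⟩ := h.cov x h3
      exact ⟨i, fun hiJ => hx (Or.inr ⟨x, ⟨i, hiJ, hi, h2⟩, rfl⟩), hi, h2⟩
    · rintro ⟨i, hiJ, hi, h2⟩ hK
      rcases hK with h3 | ⟨x', hx', h3⟩
      · exact h2 (vo_eq.1 h3)
      · obtain ⟨k, hk, hxk, -⟩ := prt_inv h hJ hx' (s.symm' (vo_eq.1 h3))
        exact hiJ (hJ k hk i ⟨x, hxk, x, hi, s.refl' x, h2⟩)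
  rw [h1]
  exact vo_open h Jᶜ

theorem kJ_sc (h : Pcs oo N s) {J : Set ι} (hJc : J.Countable)
    (hJ : ∀ i ∈ J, ∀ j, Aj N s oo i j → j ∈ J) :
    SecondCountableTopology (KJ N s oo J) := by
  haveI := t2_quot s h.rel
  haveI : CompactSpace (KJ N s oo J) := isCompact_iff_compactSpace.1 (kJ_closed h hJ).isCompact
  have hb : ∀ i, ∃ b : Set (Set (N i)), b.Countable ∧ TopologicalSpace.IsTopologicalBasis b :=
    fun i => by
      haveI := h.sc i
      exact ⟨_, TopologicalSpace.countable_countableBasis _,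
        TopologicalSpace.isBasis_countableBasis _⟩
  choose b hb1 hb2 using hb
  refine net ({{k | k.1 = Quotient.mk s oo}} ∪ ⋃ i ∈ J,
    (fun B : Set (N i) => {k : KJ N s oo J | ∃ x ∈ B, k.1 = Quotient.mk s x.1}) '' b i) ?_ ?_
  · exact (Set.countable_singleton _).union (hJc.biUnion fun i _ => (hb1 i).image _)
  · rintro k U hU hk
    rcases k.2 with h1 | ⟨x, ⟨i, hi, hxi, -⟩, h1⟩
    · refine ⟨{k | k.1 = Quotient.mk s oo}, Or.inl rfl, h1, fun k' hk' => ?_⟩
      have h2 : k' = k := Subtype.ext (hk'.trans h1.symm)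
      rw [h2]
      exact hk
    · obtain ⟨V, hV, rfl⟩ := isOpen_induced_iff.1 hU
      have h2 : IsOpen {y : N i | Quotient.mk s y.1 ∈ V} :=
        hV.preimage (continuous_quot_mk.comp continuous_subtype_val)
      have h3 : (⟨x, hxi⟩ : N i) ∈ {y : N i | Quotient.mk s y.1 ∈ V} := by
        change Quotient.mk s x ∈ V
        rw [← h1]
        exact hk
      obtain ⟨B, hB, hxB, hBV⟩ := (hb2 i).exists_subset_of_mem_open h3 h2
      refine ⟨{k : KJ N s oo J | ∃ x ∈ B, k.1 = Quotient.mk s x.1},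
        Or.inr (Set.mem_biUnion hi ⟨B, hB, rfl⟩), ⟨⟨x, hxi⟩, hxB, h1⟩, ?_⟩
      rintro k' ⟨y, hy, hk'⟩
      change k'.1 ∈ V
      rw [hk']
      exact hBV hy

private theorem vo_ext {Q : Type} [TopologicalSpace Q] {K : Set Q} (hK : IsClosed K) {m : Q}
    (hm : m ∈ K) (ho : IsOpen (K \ {m})) (g : K → ℝ) (hg : Continuous g) (h0 : g ⟨m, hm⟩ = 0) :
    ∃ F : Q → ℝ, Continuous F ∧ (∀ q (hq : q ∈ K), F q = g ⟨q, hq⟩) ∧ ∀ q, q ∉ K → F q = 0 := by
  classical
  obtain ⟨F, hF⟩ : ∃ F : Q → ℝ, F = fun q => if hq : q ∈ K then g ⟨q, hq⟩ else 0 := ⟨_, rfl⟩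
  have h1 : ∀ q (hq : q ∈ K), F q = g ⟨q, hq⟩ := fun q hq => by rw [hF]; exact dif_pos hq
  have h2 : ∀ q, q ∉ K → F q = 0 := fun q hq => by rw [hF]; exact dif_neg hq
  refine ⟨F, ?_, h1, h2⟩
  rw [continuous_iff_isClosed]
  intro C hC
  have h3 : F ⁻¹' C = (Subtype.val '' (g ⁻¹' C)) ∪ ((K \ {m})ᶜ ∩ {_q | (0 : ℝ) ∈ C}) := by
    ext q
    constructor
    · intro hq
      by_cases hqK : q ∈ K
      · refine Or.inl ⟨⟨q, hqK⟩, ?_, rfl⟩
        change g ⟨q, hqK⟩ ∈ C
        rw [← h1]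
        exact hq
      · refine Or.inr ⟨fun h => hqK h.1, ?_⟩
        change (0 : ℝ) ∈ C
        rw [← h2 q hqK]
        exact hq
    · rintro (⟨k, hk, rfl⟩ | ⟨hq, h4⟩)
      · change F k ∈ C
        rw [h1 k k.2]
        exact hk
      · change F q ∈ C
        have h5 : F q = 0 := by
          by_cases hqK : q ∈ K
          · have h6 : q = m := by
              by_contra hne
              exact hq ⟨hqK, hne⟩
            subst h6
            rw [h1 q hqK]
            exact h0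
          · exact h2 q hqK
        rw [h5]
        exact h4
  rw [h3]
  refine IsClosed.union ?_ (IsClosed.inter ho.isClosed_compl ?_)
  · exact hK.isClosedEmbedding_subtypeVal.isClosedMap _ (hC.preimage hg)
  · by_cases h4 : (0 : ℝ) ∈ C
    · have h5 : {_q : Q | (0 : ℝ) ∈ C} = Set.univ := Set.eq_univ_of_forall fun _ => h4
      rw [h5]
      exact isClosed_univ
    · have h5 : {_q : Q | (0 : ℝ) ∈ C} = ∅ := Set.eq_empty_of_forall_notMem fun _ h => h4 h
      rw [h5]
      exact isClosed_empty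

private theorem vo_sep {K : Type} [TopologicalSpace K] [CompactSpace K] [T2Space K]
    [SecondCountableTopology K] (m : K) : ∃ g : ℕ → K → ℝ, (∀ i, Continuous (g i)) ∧
      (∀ i k, g i k ∈ Set.Icc (0 : ℝ) 1) ∧ (∀ i, g i m = 0) ∧
      ∀ k l, (∀ i, g i k = g i l) → k = l := by
  haveI := TopologicalSpace.metrizableSpace_of_t3_secondCountable K
  letI := TopologicalSpace.metrizableSpaceMetric K
  haveI : Nonempty K := ⟨m⟩
  obtain ⟨z, hz⟩ : ∃ z : ℕ → K, DenseRange z := ⟨_, TopologicalSpace.denseRange_denseSeq K⟩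
  obtain ⟨e⟩ : Nonempty (ℕ ≃ ℕ × Bool) := 
    ⟨Equiv.boolProdNatEquivNat.symm.trans (Equiv.prodComm _ _)⟩
  obtain ⟨c, hc⟩ : ∃ c : ℕ → K → ℝ, c = fun n k => min 1 (dist k (z n)) := ⟨_, rfl⟩
  have hcc : ∀ n, Continuous (c n) := fun n => by
    rw [hc]
    exact continuous_const.min (continuous_id.dist continuous_const)
  have hc0 : ∀ n k, 0 ≤ c n k := fun n k => by
    rw [hc]
    exact le_min zero_le_one dist_nonneg
  have hc1 : ∀ n k, c n k ≤ 1 := fun n k => by
    rw [hc]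
    exact min_le_left _ _
  have key : ∀ k l, (∀ n, c n k = c n l) → k = l := fun k l h => by
    by_contra hne
    have hd : 0 < dist k l := dist_pos.2 hne
    obtain ⟨n, hn⟩ := hz.exists_dist_lt k (ε := min 1 (dist k l / 2))
      (lt_min zero_lt_one (by linarith))
    have h1 := hn.trans_le (min_le_left _ _)
    have h2 := hn.trans_le (min_le_right _ _)
    have h3 : c n k = dist k (z n) := by
      rw [hc]
      exact min_eq_right h1.le
    have h4 : c n l = dist k (z n) := by rw [← h n, h3]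
    have h5 : dist l (z n) = dist k (z n) := by
      rw [hc] at h4
      have h4' : min 1 (dist l (z n)) = dist k (z n) := h4
      rcases le_total 1 (dist l (z n)) with h6 | h6
      · rw [min_eq_left h6] at h4'
        linarith
      · rwa [min_eq_right h6] at h4'
    have h6 := dist_triangle_right k l (z n)
    linarith
  refine ⟨fun i k => if (e i).2 then max 0 (c (e i).1 k - c (e i).1 m) else
    max 0 (c (e i).1 m - c (e i).1 k), fun i => ?_, fun i k => ?_, fun i => ?_, fun k l h => ?_⟩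
  · by_cases h : (e i).2
    · simp only [h, if_true]
      exact continuous_const.max ((hcc _).sub continuous_const)
    · simp only [h]
      exact continuous_const.max (continuous_const.sub (hcc _))
  · have h1 := hc0 (e i).1 k
    have h2 := hc1 (e i).1 k
    have h3 := hc0 (e i).1 m
    have h4 := hc1 (e i).1 m
    dsimp only
    split_ifs
    · exact ⟨le_max_left _ _, max_le zero_le_one (by linarith)⟩
    · exact ⟨le_max_left _ _, max_le zero_le_one (by linarith)⟩
  · dsimp only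
    split_ifs <;> simp
  · refine key k l fun n => ?_
    have h1 := h (e.symm (n, true))
    have h2 := h (e.symm (n, false))
    simp only [Equiv.apply_symm_apply, if_true] at h1
    simp only [Equiv.apply_symm_apply, Bool.false_eq_true, if_false] at h2
    rcases le_total (c n k) (c n m) with h3 | h3 <;> rcases le_total (c n l) (c n m) with h4 | h4
    · rw [max_eq_right (sub_nonneg.2 h3), max_eq_right (sub_nonneg.2 h4)] at h2
      linarith
    · rw [max_eq_left (sub_nonpos.2 h3), max_eq_right (sub_nonneg.2 h4)] at h1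
      rw [max_eq_right (sub_nonneg.2 h3), max_eq_left (sub_nonpos.2 h4)] at h2
      linarith
    · rw [max_eq_right (sub_nonneg.2 h3), max_eq_left (sub_nonpos.2 h4)] at h1
      rw [max_eq_left (sub_nonpos.2 h3), max_eq_right (sub_nonneg.2 h4)] at h2
      linarith
    · rw [max_eq_right (sub_nonneg.2 h3), max_eq_right (sub_nonneg.2 h4)] at h1
      linarith

theorem one (h : Pcs oo N s) (J : Set ι) (hJc : J.Countable)
    (hJ : ∀ i ∈ J, ∀ j, Aj N s oo i j → j ∈ J) :
    ∃ f : ℕ → X → ℝ, (∀ n, Continuous (f n)) ∧ (∀ n x, f n x ∈ Set.Icc (0 : ℝ) 1) ∧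
      (∀ n x y, s x y → f n x = f n y) ∧ (∀ n x, ¬ Prt N s oo J x → f n x = 0) ∧
      ∀ x y, Prt N s oo J x → (∀ n, f n x = f n y) → s x y := by
  haveI := t2_quot s h.rel
  haveI : CompactSpace (KJ N s oo J) := isCompact_iff_compactSpace.1 (kJ_closed h hJ).isCompact
  haveI := kJ_sc h hJc hJ
  have hm : Quotient.mk s oo ∈ KJ N s oo J := Or.inl rfl
  obtain ⟨g, g1, g2, g3, g4⟩ := vo_sep (K := KJ N s oo J) ⟨Quotient.mk s oo, hm⟩
  choose F F1 F2 F3 using fun n => vo_ext (kJ_closed h hJ) hm (kJ_open h hJ) (g n) (g1 n) (g3 n)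
  refine ⟨fun n x => F n (Quotient.mk s x), fun n => (F1 n).comp continuous_quot_mk,
    fun n x => ?_, fun n x y hxy => ?_, fun n x hx => ?_, fun x y hx hxy => ?_⟩
  · change F n (Quotient.mk s x) ∈ Set.Icc (0 : ℝ) 1
    by_cases hq : Quotient.mk s x ∈ KJ N s oo J
    · rw [F2 n _ hq]
      exact g2 n _
    · rw [F3 n _ hq]
      exact ⟨le_rfl, zero_le_one⟩
  · have h1 : Quotient.mk s x = Quotient.mk s y := vo_eq.2 hxy
    change F n (Quotient.mk s x) = F n (Quotient.mk s y)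
    rw [h1]
  · by_cases hq : Quotient.mk s x ∈ KJ N s oo J
    · rcases hq with h1 | ⟨x', hx', h1⟩
      · change F n (Quotient.mk s x) = 0
        rw [h1, F2 n _ hm]
        exact g3 n
      · exact absurd (prt_inv h hJ hx' (s.symm' (vo_eq.1 h1))) hx
    · exact F3 n _ hq
  · have hxK : Quotient.mk s x ∈ KJ N s oo J := Or.inr ⟨x, hx, rfl⟩
    by_cases hyK : Quotient.mk s y ∈ KJ N s oo J
    · have h1 := g4 ⟨_, hxK⟩ ⟨_, hyK⟩ fun n => by
        rw [← F2 n, ← F2 n]
        exact hxy n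
      exact vo_eq.1 (congrArg Subtype.val h1)
    · have h1 := g4 ⟨_, hxK⟩ ⟨_, hm⟩ fun n => by
        rw [g3 n, ← F2 n]
        exact (hxy n).trans (F3 n _ hyK)
      obtain ⟨_, _, _, h2⟩ := hx
      exact absurd (vo_eq.1 (congrArg Subtype.val h1)) h2

end RNC
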