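import Pool.Agent.RNC.VSp
import Pool.Agent.RNC.VAdj

/-! # The pieces of the small space (package R26)

(problem MP_9bfcae_gt, project RNC)

`sc_pcs`. PROOF. Let `e` be a witness of `Free Γ`. Index set `ι := Lad ⊕ Ix`. The pieces:
`N (inl g) := {a | (∃ t, a.1 = la g t) ∨ ∃ b x, a.1 = ix b x ∧ b ∈ g.1 ∧ b ∉ e g}` if `g ∈ Γ` and
`∅` otherwise; `N (inr b) := {a | ∃ x, a.1 = ix b x}` if `b ∈ I` and `b` is in no `g.1 \ e g`, `g ∈ Γ`,
and `∅` otherwise.
* Open: a neighbourhood of `la g t` in `N (inl g)` is `cL g n (e g)` (`t ∈ W n`: `wb_exists`), of `ix b x`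
  it is `cI b []`. Use `sc_basis`.
* Closed: the complement of `N (inl g)` is open: `oo` has the neighbourhood `cO {g} ∅`; `la g' t` with
  `g' ≠ g` has `cL g' n e'` with the finite set `e' = g.1 ∩ g'.1` (`free_ad`); `ix b x` has `cI b []`. The
  complement of `N (inr b)`: `cO ∅ {b}`, `cL g n {b}`, `cI b' []`.
* Second countable: the traces of the codes `cL g n e'` (`e'` a finite subset of the countable set
  `g.1`) and `cI b s` (`b ∈ g.1`) on `N (inl g)` are a countable base of the subspace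
  (`Topology.IsInducing`/`IsTopologicalBasis` restricted to a subtype, or directly
  `TopologicalSpace.IsTopologicalBasis.secondCountableTopology`): every code containing a point of
  `N (inl g)` contains such a code with the point (`sc_nb`, `ix_nb`; intersect the finite set with
  `g.1`). For `N (inr b)`: the codes `cI b s`.
* `oo` is in no piece; every other point is in one (`la g t`: `g ∈ Γ`; `ix b x`: `b ∈ I`).
* `fin`: let `U` be open with `oo ∈ U`. By `sc_basis` there are `G`, `e'` with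
  `inC Γ I (cO G e')` (so `G ⊆ Γ`) and `cO G e' ⊆ U`. If `N (inr b) ⊄ cO G e'` then `b ∈ e'` or `b ∈ g.1`
  for some `g ∈ G`, and then `b ∈ e g`: finitely many `b`. If `N (inl g) ⊄ cO G e'` then `g ∈ G`, or
  some `b ∈ g.1 \ e g` is in `e'` or in `g'.1` for some `g' ∈ G`; if `g ∉ G` and `b ∈ g'.1` then
  `b ∈ e g'` (the sets `g.1 \ e g` and `g'.1 \ e g'` are disjoint). So `b` is in
  the finite set `e' ∪ ⋃ g' ∈ G, e g'`, and every `b` is in at most one `g.1 \ e g`: finitely many `g`.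
* `rel` is `hs`. -/

set_option autoImplicit false

namespace RNC

open STP

/-- the point at infinity of the small space -/
def so (T : Type) (Γ : Set Lad) (I : Set Ix) : SC T Γ I := ⟨.oo, trivial⟩

section

variable {T : Type} [TopologicalSpace T] {W : ℕ → Set T} {u : Lad → Ix → Ct → T}
  {Γ : Set Lad} {I : Set Ix}

private theorem pc_open (hF : Fb W u) (hΓ : Free Γ) {U : Set (SC T Γ I)}
    (h : ∀ a ∈ U, ∃ c, inC Γ I c ∧ hit W u a.1 c ∧ ∀ b : SC T Γ I, hit W u b.1 c → b ∈ U) :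
    @IsOpen _ (topC W u Γ I) U := by
  letI : TopologicalSpace (SC T Γ I) := topC W u Γ I
  refine (sc_basis hF hΓ).isOpen_iff.2 fun a ha => ?_
  obtain ⟨c, hc, hac, hb⟩ := h a ha
  exact ⟨_, ⟨c, hc, rfl⟩, hac, fun b hb' => hb b hb'⟩

private theorem pc_nbhd (hF : Fb W u) (hΓ : Free Γ) {U : Set (SC T Γ I)}
    (hU : @IsOpen _ (topC W u Γ I) U) {a : SC T Γ I} (ha : a ∈ U) :
    ∃ c, inC Γ I c ∧ hit W u a.1 c ∧ ∀ b : SC T Γ I, hit W u b.1 c → b ∈ U := by
  letI : TopologicalSpace (SC T Γ I) := topC W u Γ I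
  obtain ⟨_, ⟨c, hc, rfl⟩, hac, hb⟩ := (sc_basis hF hΓ).isOpen_iff.1 hU a ha
  exact ⟨c, hc, hac, fun b hb' => hb hb'⟩

private theorem pc_snd (hF : Fb W u) (hΓ : Free Γ) (M : Set (SC T Γ I)) (S : Set BC)
    (hS : S.Countable) (hin : ∀ c ∈ S, inC Γ I c)
    (h : ∀ a ∈ M, ∀ c, inC Γ I c → hit W u a.1 c →
      ∃ c' ∈ S, hit W u a.1 c' ∧ ∀ d ∈ M, hit W u d.1 c' → hit W u d.1 c) :
    @SecondCountableTopology M (@instTopologicalSpaceSubtype _ _ (topC W u Γ I)) := by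
  letI : TopologicalSpace (SC T Γ I) := topC W u Γ I
  have hb : TopologicalSpace.IsTopologicalBasis
      ((fun c => {x : M | hit W u x.1.1 c}) '' S) := by
    refine TopologicalSpace.isTopologicalBasis_of_isOpen_of_nhds ?_ ?_
    · rintro _ ⟨c, hc, rfl⟩
      have h1 : IsOpen {a : SC T Γ I | hit W u a.1 c} :=
        pc_open hF hΓ fun a ha => ⟨c, hin c hc, ha, fun b hb => hb⟩
      exact h1.preimage continuous_subtype_val
    · rintro a U ha hU
      obtain ⟨V, hV, rfl⟩ := isOpen_induced_iff.1 hU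
      obtain ⟨c, hc, hac, hcb⟩ := pc_nbhd hF hΓ hV ha
      obtain ⟨c', hc', hac', hd⟩ := h a.1 a.2 c hc hac
      exact ⟨_, ⟨c', hc', rfl⟩, hac', fun d hd' => hcb d.1 (hd d.1 d.2 hd')⟩
  exact hb.secondCountableTopology (hS.image _)

/-- the pieces -/
private def pcN (T : Type) (Γ : Set Lad) (I : Set Ix) (e : Lad → Finset Ix) :
    Lad ⊕ Ix → Set (SC T Γ I)
  | .inl g => {a | g ∈ Γ ∧ ((∃ t, a.1 = .la g t) ∨ ∃ b x, a.1 = .ix b x ∧ b ∈ g.1 ∧ b ∉ e g)}
  | .inr b => {a | b ∈ I ∧ (∀ g ∈ Γ, b ∈ g.1 → b ∈ e g) ∧ ∃ x, a.1 = .ix b x}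

private theorem mem_inl {e : Lad → Finset Ix} {g : Lad} {a : SC T Γ I} :
    a ∈ pcN T Γ I e (.inl g) ↔
      g ∈ Γ ∧ ((∃ t, a.1 = .la g t) ∨ ∃ b x, a.1 = .ix b x ∧ b ∈ g.1 ∧ b ∉ e g) := Iff.rfl

private theorem mem_inr {e : Lad → Finset Ix} {b : Ix} {a : SC T Γ I} :
    a ∈ pcN T Γ I e (.inr b) ↔
      b ∈ I ∧ (∀ g ∈ Γ, b ∈ g.1 → b ∈ e g) ∧ ∃ x, a.1 = .ix b x := Iff.rfl

private theorem cI_nil {b b' : Ix} {x : Ct} : hit W u (.ix b x) (.cI b' []) ↔ b = b' := by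
  rw [hit_ix_cI]
  exact ⟨fun h => h.1, fun h => ⟨h, fun i hi => absurd hi (by simp)⟩⟩

private theorem pc_base (hF : Fb W u) (t : T) : ∃ n, t ∈ W n := by
  obtain ⟨n, hn, -⟩ := wb_exists hF isOpen_univ (Set.mem_univ t)
  exact ⟨n, hn⟩

/-- open neighbourhoods by cases -/
private theorem pc_cases (hF : Fb W u) (hΓ : Free Γ) {U : Set (SC T Γ I)}
    (h0 : ⟨.oo, trivial⟩ ∈ U → ∃ c, inC Γ I c ∧ hit W u .oo c ∧
      ∀ b : SC T Γ I, hit W u b.1 c → b ∈ U)
    (h1 : ∀ g (hg : g ∈ Γ) t, ⟨.la g t, hg⟩ ∈ U → ∀ n, t ∈ W n → ∃ c, inC Γ I c ∧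
      hit W u (.la g t) c ∧ ∀ b : SC T Γ I, hit W u b.1 c → b ∈ U)
    (h2 : ∀ a (ha : a ∈ I) x, ⟨.ix a x, ha⟩ ∈ U → ∀ y, ⟨.ix a y, ha⟩ ∈ U) :
    @IsOpen _ (topC W u Γ I) U := by
  refine pc_open hF hΓ ?_
  rintro ⟨a | ⟨g, t⟩ | ⟨a, x⟩, ha⟩ hU
  · exact h0 hU
  · obtain ⟨n, hn⟩ := pc_base hF t
    exact h1 g ha t hU n hn
  · refine ⟨.cI a [], ha, cI_nil.2 rfl, ?_⟩
    rintro ⟨b | ⟨g, t⟩ | ⟨b, y⟩, hb⟩ hh
    · exact absurd hh (hit_oo_cI _ _)
    · exact absurd hh (hit_la_cI _ _)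
    · obtain rfl := cI_nil.1 hh
      exact h2 _ ha x hU y

private theorem pc_op (hF : Fb W u) (hΓ : Free Γ) (e : Lad → Finset Ix) (i : Lad ⊕ Ix) :
    @IsOpen _ (topC W u Γ I) (pcN T Γ I e i) := by
  rcases i with g | b
  · refine pc_cases hF hΓ ?_ ?_ ?_
    · rintro ⟨-, ⟨t, h⟩ | ⟨b, x, h, -⟩⟩
      · cases h
      · cases h
    · rintro g' hg' t ⟨hg, ⟨t', h⟩ | ⟨b, x, h, -⟩⟩ n hn
      · cases h
        refine ⟨.cL g n (e g), hg, (hit_la_cL _ _).2 ⟨rfl, hn⟩, ?_⟩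
        rintro ⟨b | ⟨g', t⟩ | ⟨b, y⟩, hb⟩ hh
        · exact absurd hh (hit_oo_cL _ _)
        · obtain rfl := ((hit_la_cL _ _).1 hh).1
          exact ⟨hg, Or.inl ⟨t, rfl⟩⟩
        · have h1 := (hit_ix_cL _ _).1 hh
          exact ⟨hg, Or.inr ⟨b, y, rfl, h1.1, h1.2.1⟩⟩
      · cases h
    · rintro a ha x ⟨hg, ⟨t', h⟩ | ⟨b, x', h, h1, h2⟩⟩ y
      · cases h
      · cases h
        exact ⟨hg, Or.inr ⟨a, y, rfl, h1, h2⟩⟩
  · refine pc_cases hF hΓ ?_ ?_ ?_
    · rintro ⟨-, -, x, h⟩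
      cases h
    · rintro g' hg' t ⟨-, -, x, h⟩
      cases h
    · rintro a ha x ⟨h1, h2, x', h⟩ y
      cases h
      exact ⟨h1, h2, y, rfl⟩

private theorem pc_cl (hF : Fb W u) (hΓ : Free Γ) (e : Lad → Finset Ix) (i : Lad ⊕ Ix) :
    @IsClosed _ (topC W u Γ I) (pcN T Γ I e i) := by
  classical
  letI : TopologicalSpace (SC T Γ I) := topC W u Γ I
  refine ⟨?_⟩
  rcases i with g | b
  · by_cases hg : g ∈ Γ
    · refine pc_cases hF hΓ ?_ ?_ ?_
      · intro _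
        refine ⟨.cO {g} ∅, ⟨fun g' hg' => by rwa [Finset.mem_singleton.1 hg'],
          fun a ha => absurd ha (Finset.notMem_empty a)⟩, hit_oo_cO _ _, ?_⟩
        rintro ⟨b | ⟨g', t⟩ | ⟨b, y⟩, hb⟩ hh
        · rintro ⟨-, ⟨t, h⟩ | ⟨b, x, h, -⟩⟩ <;> cases h
        · rw [hit_la_cO] at hh
          rintro ⟨-, ⟨t, h⟩ | ⟨b, x, h, -⟩⟩
          · cases h
            exact hh (Finset.mem_singleton_self _)
          · cases h
        · rw [hit_ix_cO] at hh
          rintro ⟨-, ⟨t, h⟩ | ⟨b, x, h, h1, -⟩⟩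
          · cases h
          · cases h
            exact hh.2 g (Finset.mem_singleton_self _) h1
      · intro g' hg' t ht n hn
        have hne : g ≠ g' := by
          rintro rfl
          exact ht ⟨hg, Or.inl ⟨t, rfl⟩⟩
        refine ⟨.cL g' n (free_ad hΓ hg hg' hne).toFinset, hg', (hit_la_cL _ _).2 ⟨rfl, hn⟩, ?_⟩
        rintro ⟨b | ⟨g', t⟩ | ⟨b, y⟩, hb⟩ hh
        · exact absurd hh (hit_oo_cL _ _)
        · obtain rfl := ((hit_la_cL _ _).1 hh).1
          rintro ⟨-, ⟨t, h⟩ | ⟨b, x, h, -⟩⟩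
          · cases h
            exact hne rfl
          · cases h
        · have h1 := (hit_ix_cL _ _).1 hh
          rintro ⟨-, ⟨t, h⟩ | ⟨b, x, h, h2, -⟩⟩
          · cases h
          · cases h
            exact h1.2.1 ((free_ad hΓ hg hg' hne).mem_toFinset.2 ⟨h2, h1.1⟩)
      · intro a ha x hx y
        rintro ⟨-, ⟨t, h⟩ | ⟨b, x', h, h2, h3⟩⟩
        · cases h
        · cases h
          exact hx ⟨hg, Or.inr ⟨a, x, rfl, h2, h3⟩⟩
    · have h0 : (pcN T Γ I e (.inl g))ᶜ = Set.univ := Set.eq_univ_of_forall fun a ha => hg ha.1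
      rw [h0]
      exact isOpen_univ
  · by_cases hb : b ∈ I
    · refine pc_cases hF hΓ ?_ ?_ ?_
      · intro _
        refine ⟨.cO ∅ {b}, ⟨fun g hg => absurd hg (Finset.notMem_empty g),
          fun a ha => by rwa [Finset.mem_singleton.1 ha]⟩, hit_oo_cO _ _, ?_⟩
        rintro ⟨b' | ⟨g', t⟩ | ⟨b', y⟩, hb'⟩ hh
        · rintro ⟨-, -, x, h⟩
          cases h
        · rintro ⟨-, -, x, h⟩
          cases h
        · rw [hit_ix_cO] at hh
          rintro ⟨-, -, x, h⟩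
          cases h
          exact hh.1 (Finset.mem_singleton_self _)
      · intro g hg t _ n hn
        refine ⟨.cL g n {b}, hg, (hit_la_cL _ _).2 ⟨rfl, hn⟩, ?_⟩
        rintro ⟨b' | ⟨g', t⟩ | ⟨b', y⟩, hb'⟩ hh
        · exact absurd hh (hit_oo_cL _ _)
        · rintro ⟨-, -, x, h⟩
          cases h
        · have h1 := (hit_ix_cL _ _).1 hh
          rintro ⟨-, -, x, h⟩
          cases h
          exact h1.2.1 (Finset.mem_singleton_self _)
      · rintro a ha x hx y ⟨h1, h2, x', h⟩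
        cases h
        exact hx ⟨h1, h2, x, rfl⟩
    · have h0 : (pcN T Γ I e (.inr b))ᶜ = Set.univ := Set.eq_univ_of_forall fun a ha => hb ha.1
      rw [h0]
      exact isOpen_univ

private theorem pc_sc (hF : Fb W u) (hΓ : Free Γ) (hct : ∀ g ∈ Γ, g.1.Countable)
    (hI : ∀ g ∈ Γ, g.1 ⊆ I) (e : Lad → Finset Ix) (i : Lad ⊕ Ix) :
    @SecondCountableTopology (pcN T Γ I e i)
      (@instTopologicalSpaceSubtype _ _ (topC W u Γ I)) := by
  classical
  rcases i with g | b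
  · by_cases hg : g ∈ Γ
    · have : Countable g.1 := (hct g hg).to_subtype
      refine pc_snd hF hΓ _ (Set.range (fun p : ℕ × Finset g.1 =>
        BC.cL g p.1 (p.2.map (Function.Embedding.subtype _))) ∪
        Set.range (fun p : g.1 × List Bool => BC.cI p.1.1 p.2))
        ((Set.countable_range _).union (Set.countable_range _)) ?_ ?_
      · rintro c (⟨p, rfl⟩ | ⟨p, rfl⟩)
        · exact hg
        · exact hI g hg p.1.2
      · rintro ⟨a | ⟨g', t⟩ | ⟨a, x⟩, ha⟩ ha' c hc hac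
        · rcases ha' with ⟨-, ⟨t, h⟩ | ⟨b, x, h, -⟩⟩ <;> cases h
        · rcases ha' with ⟨-, ⟨t', h⟩ | ⟨b, x, h, -⟩⟩
          · cases h
            obtain ⟨n, e0, hn, hd⟩ := sc_nb hF hΓ hg hc hac
            refine ⟨_, Or.inl ⟨(n, e0.subtype (· ∈ g.1)), rfl⟩, (hit_la_cL _ _).2 ⟨rfl, hn⟩, ?_⟩
            rintro ⟨b | ⟨g', t⟩ | ⟨b, y⟩, hb⟩ - hh
            · exact absurd hh (hit_oo_cL _ _)
            · exact hd _ ((hit_la_cL _ _).2 ((hit_la_cL _ _).1 hh))
            · have h1 := (hit_ix_cL _ _).1 hh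
              refine hd _ ((hit_ix_cL _ _).2 ⟨h1.1, fun h2 => h1.2.1 ?_, h1.2.2⟩)
              rw [Finset.subtype_map, Finset.mem_filter]
              exact ⟨h2, h1.1⟩
          · cases h
        · rcases ha' with ⟨-, ⟨t', h⟩ | ⟨b, x', h, h1, -⟩⟩
          · cases h
          · cases h
            obtain ⟨l, hl⟩ := ix_nb hF hac
            refine ⟨_, Or.inr ⟨(⟨a, h1⟩, sg x l), rfl⟩,
              (hit_ix_cI _ _).2 ⟨rfl, in_seg.2 fun _ _ => rfl⟩, ?_⟩
            rintro ⟨b | ⟨g', t⟩ | ⟨b, y⟩, hb⟩ - hh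
            · exact absurd hh (hit_oo_cI _ _)
            · exact absurd hh (hit_la_cI _ _)
            · have h2 := (hit_ix_cI _ _).1 hh
              obtain ⟨rfl, h3⟩ := h2
              exact hl y (in_seg.1 h3)
    · exact pc_snd hF hΓ _ ∅ Set.countable_empty (fun c hc => absurd hc (Set.notMem_empty c))
        fun a ha => absurd ha.1 hg
  · by_cases hb : b ∈ I
    · refine pc_snd hF hΓ _ (Set.range fun s : List Bool => BC.cI b s)
        (Set.countable_range _) ?_ ?_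
      · rintro c ⟨p, rfl⟩
        exact hb
      · rintro ⟨a | ⟨g', t⟩ | ⟨a, x⟩, ha⟩ ha' c hc hac
        · obtain ⟨-, -, x, h⟩ := ha'
          cases h
        · obtain ⟨-, -, x, h⟩ := ha'
          cases h
        · obtain ⟨-, -, x', h⟩ := ha'
          cases h
          obtain ⟨l, hl⟩ := ix_nb hF hac
          refine ⟨_, ⟨sg x l, rfl⟩, (hit_ix_cI _ _).2 ⟨rfl, in_seg.2 fun _ _ => rfl⟩, ?_⟩
          rintro ⟨b | ⟨g', t⟩ | ⟨b, y⟩, hb⟩ - hh
          · exact absurd hh (hit_oo_cI _ _)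
          · exact absurd hh (hit_la_cI _ _)
          · have h2 := (hit_ix_cI _ _).1 hh
            obtain ⟨rfl, h3⟩ := h2
            exact hl y (in_seg.1 h3)
    · exact pc_snd hF hΓ _ ∅ Set.countable_empty (fun c hc => absurd hc (Set.notMem_empty c))
        fun a ha => absurd ha.1 hb

end
theorem sc_pcs {T : Type} [TopologicalSpace T] [T2Space T] [CompactSpace T] {W : ℕ → Set T}
    {u : Lad → Ix → Ct → T} (hF : Fb W u) {Γ : Set Lad} {I : Set Ix} (hΓ : Free Γ)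
    (hct : ∀ g ∈ Γ, g.1.Countable) (hI : ∀ g ∈ Γ, g.1 ⊆ I) (s : Setoid (SC T Γ I))
    (hs : @IsClosed (SC T Γ I × SC T Γ I)
      (@instTopologicalSpaceProd _ _ (topC W u Γ I) (topC W u Γ I)) {p | s p.1 p.2}) :
    ∃ (ι : Type) (N : ι → Set (SC T Γ I)), @Pcs _ (topC W u Γ I) ι (so T Γ I) N s := by
  classical
  letI : TopologicalSpace (SC T Γ I) := topC W u Γ I
  obtain ⟨e, he⟩ := id hΓ
  refine ⟨Lad ⊕ Ix, pcN T Γ I e, ?_⟩
  refine
    { op := pc_op hF hΓ e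
      cl := pc_cl hF hΓ e
      sc := pc_sc hF hΓ hct hI e
      no := ?_
      cov := ?_
      fin := ?_
      rel := hs }
  · rintro (g | b)
    · rintro ⟨-, ⟨t, h⟩ | ⟨b, x, h, -⟩⟩ <;> cases h
    · rintro ⟨-, -, x, h⟩
      cases h
  · rintro ⟨a | ⟨g, t⟩ | ⟨b, y⟩, ha⟩ hne
    · exact absurd rfl hne
    · exact ⟨.inl g, ha, Or.inl ⟨t, rfl⟩⟩
    · by_cases hex : ∃ g ∈ Γ, b ∈ g.1 ∧ b ∉ e g
      · obtain ⟨g, hg, h1, h2⟩ := hex
        exact ⟨.inl g, hg, Or.inr ⟨b, y, rfl, h1, h2⟩⟩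
      · refine ⟨.inr b, ha, fun g hg hb => ?_, y, rfl⟩
        by_contra h
        exact hex ⟨g, hg, hb, h⟩
  · intro U hU h0
    obtain ⟨c, hc, h0c, hcU⟩ := pc_nbhd hF hΓ hU h0
    rcases c with ⟨b, s⟩ | ⟨g, n, e'⟩ | ⟨G, e'⟩
    · exact absurd h0c (hit_oo_cI _ _)
    · exact absurd h0c (hit_oo_cL _ _)
    · have hfin : (⋃ b ∈ (e' ∪ G.biUnion e : Finset Ix),
          {g : Lad | g ∈ Γ ∧ b ∈ g.1 ∧ b ∉ e g}).Finite := by
        refine Set.Finite.biUnion (Finset.finite_toSet _) fun b _ => Set.Subsingleton.finite ?_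
        rintro g ⟨hg, h1, h2⟩ g' ⟨hg', h1', h2'⟩
        by_contra hne
        exact Set.disjoint_left.1 (he g hg g' hg' hne) ⟨h1, h2⟩ ⟨h1', h2'⟩
      refine (((G.finite_toSet.union hfin).image Sum.inl).union
        ((Finset.finite_toSet (e' ∪ G.biUnion e)).image Sum.inr)).subset ?_
      rintro (g | b) hi
      · left
        refine ⟨g, ?_, rfl⟩
        obtain ⟨a, ha, haU⟩ := Set.not_subset.1 hi
        have hh : ¬ hit W u a.1 (.cO G e') := fun h => haU (hcU a h)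
        obtain ⟨hg, ⟨t, h⟩ | ⟨b, x, h, h1, h2⟩⟩ := ha
        · rw [h, hit_la_cO, not_not] at hh
          exact Or.inl hh
        · rw [h, hit_ix_cO, not_and_or, not_not] at hh
          by_cases hgG : g ∈ G
          · exact Or.inl hgG
          · right
            refine Set.mem_iUnion₂.2 ⟨b, ?_, hg, h1, h2⟩
            rcases hh with hh | hh
            · exact Finset.mem_union_left _ hh
            · push Not at hh
              obtain ⟨g', hg', hb⟩ := hh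
              refine Finset.mem_union_right _ (Finset.mem_biUnion.2 ⟨g', hg', ?_⟩)
              by_contra h3
              exact Set.disjoint_left.1 (he g hg g' (hc.1 g' hg') fun h => hgG (h ▸ hg'))
                ⟨h1, h2⟩ ⟨hb, h3⟩
      · right
        refine ⟨b, ?_, rfl⟩
        obtain ⟨a, ha, haU⟩ := Set.not_subset.1 hi
        have hh : ¬ hit W u a.1 (.cO G e') := fun h => haU (hcU a h)
        obtain ⟨-, h1, x, h⟩ := ha
        rw [h, hit_ix_cO, not_and_or, not_not] at hh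
        rcases hh with hh | hh
        · exact Finset.mem_coe.2 (Finset.mem_union_left _ hh)
        · push Not at hh
          obtain ⟨g', hg', hb⟩ := hh
          exact Finset.mem_coe.2 (Finset.mem_union_right _ (Finset.mem_biUnion.2
            ⟨g', hg', h1 g' (hc.1 g' hg') hb⟩))

end RNC
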