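import Mathlib

/-! # The quotient of a compact Hausdorff space by a closed equivalence relation (package R19)

(problem MP_9bfcae_gt, project RNC)

`sat_closed`: the saturation of a closed set `F` is closed. PROOF. It is the image under
`Prod.snd` of the compact set `(F ×ˢ univ) ∩ {p | s p.1 p.2}` (`IsCompact.image`,
`IsCompact.isClosed`).

`t2_quot`. PROOF. `t2Space_iff` or `T2Space.mk`: let `s.mk x ≠ s.mk y`. The classes
`Fx = {z | s x z}`, `Fy = {z | s y z}` are closed (`sat_closed` for `{x}`) and disjoint; the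
space is normal (`NormalSpace` for compact Hausdorff, `SeparatedNhds`), so there are disjoint open
`U ⊇ Fx`, `V ⊇ Fy`. `U' := (saturation of Uᶜ)ᶜ`, `V' := (saturation of Vᶜ)ᶜ` are open and saturated,
`Fx ⊆ U' ⊆ U`, `Fy ⊆ V' ⊆ V`. Their images in the quotient are open (`isOpen_coinduced`, the
preimage of the image of `U'` is `U'`), disjoint, and contain the two points. -/

set_option autoImplicit false

namespace RNC

theorem sat_closed {X : Type} [TopologicalSpace X] [CompactSpace X] [T2Space X] (s : Setoid X)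
    (hs : IsClosed {p : X × X | s p.1 p.2}) {F : Set X} (hF : IsClosed F) :
    IsClosed {y | ∃ x ∈ F, s x y} := by
  have h : {y | ∃ x ∈ F, s x y} = Prod.snd '' ((F ×ˢ Set.univ) ∩ {p : X × X | s p.1 p.2}) := by
    ext y
    constructor
    · rintro ⟨x, hx, hxy⟩
      exact ⟨(x, y), ⟨⟨hx, Set.mem_univ _⟩, hxy⟩, rfl⟩
    · rintro ⟨⟨x, y'⟩, ⟨⟨hx, -⟩, hxy⟩, rfl⟩
      exact ⟨x, hx, hxy⟩
  rw [h]
  exact (((hF.prod isClosed_univ).inter hs).isCompact.image continuous_snd).isClosed

theorem t2_quot {X : Type} [TopologicalSpace X] [CompactSpace X] [T2Space X] (s : Setoid X)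
    (hs : IsClosed {p : X × X | s p.1 p.2}) : T2Space (Quotient s) := by
  have hopen : ∀ U : Set X, IsOpen U →
      IsOpen {q : Quotient s | ∀ z, Quotient.mk s z = q → z ∈ U} := by
    intro U hU
    rw [← isQuotientMap_quotient_mk'.isOpen_preimage]
    have h1 := (sat_closed s hs hU.isClosed_compl).isOpen_compl
    convert h1 using 1
    ext z
    constructor
    · rintro h ⟨x, hx, hxz⟩
      exact hx (h x (Quotient.sound hxz))
    · intro h x hxz
      by_contra hx
      exact h ⟨x, hx, Quotient.exact hxz⟩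
  refine ⟨fun a b => ?_⟩
  induction a using Quotient.inductionOn with
  | h x => ?_
  induction b using Quotient.inductionOn with
  | h y => ?_
  intro hne
  have hdis : Disjoint {z | ∃ x' ∈ ({x} : Set X), s x' z} {z | ∃ x' ∈ ({y} : Set X), s x' z} := by
    rw [Set.disjoint_left]
    rintro z ⟨x', rfl, h1⟩ ⟨y', rfl, h2⟩
    exact hne (Quotient.sound (s.trans h1 (s.symm h2)))
  obtain ⟨U, V, hU, hV, hxU, hyV, hUV⟩ := normal_separation
    (sat_closed s hs isClosed_singleton) (sat_closed s hs isClosed_singleton) hdis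
  refine ⟨_, _, hopen U hU, hopen V hV, ?_, ?_, ?_⟩
  · intro z hz
    exact hxU ⟨x, rfl, s.symm (Quotient.exact hz)⟩
  · intro z hz
    exact hyV ⟨y, rfl, s.symm (Quotient.exact hz)⟩
  · rw [Set.disjoint_left]
    intro q h1 h2
    induction q using Quotient.inductionOn with
    | h z => exact Set.disjoint_left.1 hUV (h1 z rfl) (h2 z rfl)

end RNC
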