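import Pool.Agent.RNC.CpA

/-! # The small space in the ground model (package R25)

(problem MP_9bfcae_gt, project RNC)

`Γ` is a free set of countable ladders, `I ⊇ g.1` for all `g ∈ Γ`. `SC Γ I` is the set of the points over
`Γ`, `I`, with the topology generated by the codes over `Γ`, `I`.

`free_ad`: two ladders of a free set have a finite intersection (as `Cd.ad` in `Pos.lean`).

`sc_nb`: a code over `Γ`, `I` containing the point `la g t`, `g ∈ Γ`, contains `cL g n e` for some `n`, `e` with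
`t ∈ W n` (proof as for `la_nb` in `Nb.lean`, with `free_ad` in place of `Cd.ad`).

`sc_dir`: for two codes `c`, `d` over `Γ`, `I` and a point `a` over `Γ`, `I` in both there is a code `e` over `Γ`, `I` with `a`
in `e` and all points over `Γ`, `I` which are in `e` are in `c` and `d`. By cases: `oo`: `cO G e`, `cO G' e'`, take
`cO (G ∪ G') (e ∪ e')`; `la g t`: `sc_nb` twice, `wb_inter`, `cL g n'' (e ∪ e')`; `ix a x`: `ix_nb` twice,
`cI a (sg x l)`.

`sc_basis`: `TopologicalSpace.isTopologicalBasis_of_isOpen_of_nhds` or the definition: the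
sets are closed under `∩` locally by `sc_dir`, they cover (`cO ∅ ∅`, `cL g n ∅`, `cI a []`).

`sc_t2`: as `thd` in `HdT.lean` (with `free_ad`). `sc_cpt`: the space is compact: by `sc_basis` it
is enough to find a finite subcover for covers by basic sets, i.e. for a set `S` of codes over
`Γ`, `I` (`isCompact_of_finite_subcover`; or from an open cover pass to the set `S` of the codes over `Γ`, `I`
whose set of points is contained in some member). Some `cO G e ∈ S` contains `oo`. For `g ∈ G` apply `cpA` to the set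
`S'` of all codes of the form `cL g n e'` or `cI a s` with `a ∈ g.1` whose points over `Γ`, `I` are
contained in one member of the cover: it covers by `sc_nb`, `ix_nb`; for `a ∈ e` apply `cpI`. The
finitely many members obtained cover everything (a point not in `cO G e` is `la g t` with
`g ∈ G` or `ix a x` with `a ∈ e` or `a ∈ g.1`, `g ∈ G`). -/

set_option autoImplicit false

namespace RNC

open STP

/-- the set of the points over `Γ`, `I` -/
def SC (T : Type) (Γ : Set Lad) (I : Set Ix) : Type := {a : PT T // inA Γ I a}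

/-- the topology generated by the codes over `Γ`, `I` -/
@[reducible]
def topC {T : Type} (W : ℕ → Set T) (u : Lad → Ix → Ct → T) (Γ : Set Lad) (I : Set Ix) :
    TopologicalSpace (SC T Γ I) :=
  TopologicalSpace.generateFrom {s | ∃ c, inC Γ I c ∧ s = {a | hit W u a.1 c}}

section

variable {T : Type} [TopologicalSpace T] {W : ℕ → Set T} {u : Lad → Ix → Ct → T}
  {Γ : Set Lad} {I : Set Ix}

theorem free_ad (hΓ : Free Γ) {g g' : Lad} (hg : g ∈ Γ) (hg' : g' ∈ Γ) (h : g ≠ g') :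
    (g.1 ∩ g'.1).Finite := by
  classical
  obtain ⟨e, he⟩ := hΓ
  refine ((e g ∪ e g').finite_toSet).subset fun a ha => ?_
  by_contra hcon
  rw [Finset.coe_union, Set.mem_union, not_or] at hcon
  exact Set.disjoint_left.1 (he g hg g' hg' h) ⟨ha.1, hcon.1⟩ ⟨ha.2, hcon.2⟩

theorem sc_nb (hF : Fb W u) (hΓ : Free Γ) {g : Lad} (hg : g ∈ Γ) {t : T} {c : BC}
    (hc : inC Γ I c) (h : hit W u (.la g t) c) :
    ∃ n e, t ∈ W n ∧ ∀ d, hit W u d (.cL g n e) → hit W u d c := by
  classical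
  cases c with
  | cI b s => exact h.elim
  | cL g' n e =>
    rw [hit_la_cL] at h
    obtain ⟨rfl, h⟩ := h
    exact ⟨n, e, h, fun d hd => hd⟩
  | cO G e =>
    rw [hit_la_cO] at h
    obtain ⟨n, hn, -⟩ := wb_exists hF isOpen_univ (Set.mem_univ t)
    have hfin : (⋃ g' ∈ (G : Set Lad), g.1 ∩ g'.1).Finite :=
      G.finite_toSet.biUnion fun g' hg' => free_ad hΓ hg (hc.1 g' hg') fun he => h (he ▸ hg')
    refine ⟨n, e ∪ hfin.toFinset, hn, fun d hd => ?_⟩
    cases d with
    | oo => exact hd.elim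
    | la g' t' =>
      rw [hit_la_cL] at hd
      rw [hit_la_cO, hd.1]
      exact h
    | ix a x =>
      rw [hit_ix_cL] at hd
      rw [hit_ix_cO]
      rw [Finset.mem_union, not_or] at hd
      refine ⟨hd.2.1.1, fun g' hg' ha => hd.2.1.2 ?_⟩
      rw [Set.Finite.mem_toFinset, Set.mem_iUnion₂]
      exact ⟨g', hg', hd.1, ha⟩

theorem sc_dir (hF : Fb W u) (hΓ : Free Γ) {a : PT T} (ha : inA Γ I a) {c d : BC}
    (hc : inC Γ I c) (hd : inC Γ I d) (hac : hit W u a c) (had : hit W u a d) :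
    ∃ e, inC Γ I e ∧ hit W u a e ∧ ∀ b, hit W u b e → hit W u b c ∧ hit W u b d := by
  classical
  cases a with
  | oo =>
    cases c with
    | cI b s => exact hac.elim
    | cL g n e => exact hac.elim
    | cO G e =>
      cases d with
      | cI b s => exact had.elim
      | cL g n e => exact had.elim
      | cO G' e' =>
        refine ⟨.cO (G ∪ G') (e ∪ e'), ⟨fun g hg => ?_, fun a ha => ?_⟩, trivial, fun b hb => ?_⟩
        · rcases Finset.mem_union.1 hg with h | h
          · exact hc.1 g h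
          · exact hd.1 g h
        · rcases Finset.mem_union.1 ha with h | h
          · exact hc.2 a h
          · exact hd.2 a h
        · cases b with
          | oo => exact ⟨trivial, trivial⟩
          | la g t =>
            have h1 : g ∉ G ∪ G' := hb
            exact ⟨fun h => h1 (Finset.mem_union_left _ h),
              fun h => h1 (Finset.mem_union_right _ h)⟩
          | ix a x =>
            obtain ⟨h1, h2⟩ : a ∉ e ∪ e' ∧ ∀ g ∈ G ∪ G', a ∉ g.1 := hb
            exact ⟨⟨fun h => h1 (Finset.mem_union_left _ h),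
              fun g hg => h2 g (Finset.mem_union_left _ hg)⟩,
              fun h => h1 (Finset.mem_union_right _ h),
              fun g hg => h2 g (Finset.mem_union_right _ hg)⟩
  | la g t =>
    have hg : g ∈ Γ := ha
    obtain ⟨n, e, ht, H⟩ := sc_nb hF hΓ hg hc hac
    obtain ⟨n', e', ht', H'⟩ := sc_nb hF hΓ hg hd had
    obtain ⟨n'', ht'', hsub⟩ := wb_inter hF ht ht'
    refine ⟨.cL g n'' (e ∪ e'), hg, ⟨rfl, ht''⟩, fun b hb => ⟨H b ?_, H' b ?_⟩⟩
    · cases b with
      | oo => exact hb.elim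
      | la g' t' => exact ⟨hb.1, (hsub hb.2).1⟩
      | ix a x =>
        obtain ⟨h1, h2, h3⟩ : a ∈ g.1 ∧ a ∉ e ∪ e' ∧ u g a x ∈ W n'' := hb
        exact ⟨h1, fun h => h2 (Finset.mem_union_left _ h), (hsub h3).1⟩
    · cases b with
      | oo => exact hb.elim
      | la g' t' => exact ⟨hb.1, (hsub hb.2).2⟩
      | ix a x =>
        obtain ⟨h1, h2, h3⟩ : a ∈ g.1 ∧ a ∉ e ∪ e' ∧ u g a x ∈ W n'' := hb
        exact ⟨h1, fun h => h2 (Finset.mem_union_right _ h), (hsub h3).2⟩
  | ix a x =>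
    obtain ⟨l, H⟩ := ix_nb hF hac
    obtain ⟨l', H'⟩ := ix_nb hF had
    refine ⟨.cI a (sg x (max l l')), ha, ⟨rfl, in_seg.2 fun _ _ => rfl⟩, fun b hb => ?_⟩
    cases b with
    | oo => exact hb.elim
    | la g' t' => exact hb.elim
    | ix b y =>
      obtain ⟨h1, h2⟩ : b = a ∧ Ext y (sg x (max l l')) := hb
      subst h1
      rw [in_seg] at h2
      exact ⟨H y fun i hi => h2 i (hi.trans_le (le_max_left _ _)),
        H' y fun i hi => h2 i (hi.trans_le (le_max_right _ _))⟩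

private theorem v_nil (x : Ct) : Ext x [] := fun i h => absurd h (Nat.not_lt_zero i)

private theorem v_ex (hF : Fb W u) (t : T) : ∃ n, t ∈ W n := by
  obtain ⟨n, hn, -⟩ := wb_exists hF isOpen_univ (Set.mem_univ t)
  exact ⟨n, hn⟩

theorem sc_basis (hF : Fb W u) (hΓ : Free Γ) :
    @TopologicalSpace.IsTopologicalBasis (SC T Γ I) (topC W u Γ I)
      {s | ∃ c, inC Γ I c ∧ s = {a | hit W u a.1 c}} := by
  let _ : TopologicalSpace (SC T Γ I) := topC W u Γ I
  refine ⟨?_, ?_, rfl⟩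
  · rintro _ ⟨c, hc, rfl⟩ _ ⟨d, hd, rfl⟩ a ⟨hac, had⟩
    obtain ⟨e, he, hae, h⟩ := sc_dir hF hΓ a.2 hc hd hac had
    exact ⟨_, ⟨e, he, rfl⟩, hae, fun b hb => h b.1 hb⟩
  · refine Set.eq_univ_of_forall fun a => ?_
    obtain ⟨a, ha⟩ := a
    cases a with
    | oo =>
      refine ⟨_, ⟨.cO ∅ ∅, ⟨fun g hg => absurd hg (Finset.notMem_empty g),
        fun a ha => absurd ha (Finset.notMem_empty a)⟩, rfl⟩, trivial⟩
    | la g t =>
      obtain ⟨n, hn⟩ := v_ex hF t
      exact ⟨_, ⟨.cL g n ∅, ha, rfl⟩, rfl, hn⟩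
    | ix a x => exact ⟨_, ⟨.cI a [], ha, rfl⟩, rfl, v_nil x⟩

/-- separated by two codes -/
private def SpC (W : ℕ → Set T) (u : Lad → Ix → Ct → T) (Γ : Set Lad) (I : Set Ix)
    (a b : PT T) : Prop :=
  ∃ c d, inC Γ I c ∧ inC Γ I d ∧ hit W u a c ∧ hit W u b d ∧
    ∀ x, hit W u x c → hit W u x d → False

omit [TopologicalSpace T] in
private theorem SpC.symm {a b : PT T} (h : SpC W u Γ I a b) : SpC W u Γ I b a := by
  obtain ⟨c, d, h1, h2, h3, h4, h5⟩ := h
  exact ⟨d, c, h2, h1, h4, h3, fun x h6 h7 => h5 x h7 h6⟩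

private theorem v_oo_la (hF : Fb W u) {g : Lad} {t : T} (hg : g ∈ Γ) :
    SpC W u Γ I .oo (.la g t) := by
  obtain ⟨n, hn⟩ := v_ex hF t
  refine ⟨.cO {g} ∅, .cL g n ∅, ⟨fun g' hg' => ?_, fun a ha => absurd ha (Finset.notMem_empty a)⟩,
    hg, hit_oo_cO W u, (hit_la_cL W u).2 ⟨rfl, hn⟩, fun x => ?_⟩
  · rw [Finset.mem_singleton.1 hg']
    exact hg
  · cases x with
    | oo => exact fun _ h => hit_oo_cL W u h
    | la g' s =>
      intro h1 h2
      rw [hit_la_cO] at h1
      rw [hit_la_cL] at h2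
      exact h1 (Finset.mem_singleton.2 h2.1)
    | ix a y =>
      intro h1 h2
      rw [hit_ix_cO] at h1
      rw [hit_ix_cL] at h2
      exact h1.2 g (Finset.mem_singleton_self g) h2.1

omit [TopologicalSpace T] in
private theorem v_oo_ix {a : Ix} {x : Ct} (ha : a ∈ I) : SpC W u Γ I .oo (.ix a x) := by
  refine ⟨.cO ∅ {a}, .cI a [], ⟨fun g hg => absurd hg (Finset.notMem_empty g), fun b hb => ?_⟩,
    ha, hit_oo_cO W u, (hit_ix_cI W u).2 ⟨rfl, v_nil x⟩, fun y => ?_⟩
  · rw [Finset.mem_singleton.1 hb]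
    exact ha
  · cases y with
    | oo => exact fun _ h => hit_oo_cI W u h
    | la g' s => exact fun _ h => hit_la_cI W u h
    | ix b z =>
      intro h1 h2
      rw [hit_ix_cO] at h1
      rw [hit_ix_cI] at h2
      exact h1.1 (Finset.mem_singleton.2 h2.1)

private theorem v_la_la [T2Space T] (hF : Fb W u) (hΓ : Free Γ) {g g' : Lad} {t t' : T}
    (hg : g ∈ Γ) (hg' : g' ∈ Γ) (hne : (.la g t : PT T) ≠ .la g' t') :
    SpC W u Γ I (.la g t) (.la g' t') := by
  by_cases h : g = g'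
  · subst h
    have ht : t ≠ t' := fun h => hne (by rw [h])
    obtain ⟨U, U', hU, hU', htU, htU', hd⟩ := t2_separation ht
    obtain ⟨n, hn, hnU⟩ := wb_exists hF hU htU
    obtain ⟨n', hn', hnU'⟩ := wb_exists hF hU' htU'
    refine ⟨.cL g n ∅, .cL g n' ∅, hg, hg, (hit_la_cL W u).2 ⟨rfl, hn⟩,
      (hit_la_cL W u).2 ⟨rfl, hn'⟩, fun x => ?_⟩
    cases x with
    | oo => exact fun h _ => hit_oo_cL W u h
    | la g' s =>
      intro h1 h2
      rw [hit_la_cL] at h1 h2
      exact Set.disjoint_left.1 hd (hnU h1.2) (hnU' h2.2)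
    | ix a y =>
      intro h1 h2
      rw [hit_ix_cL] at h1 h2
      exact Set.disjoint_left.1 hd (hnU h1.2.2) (hnU' h2.2.2)
  · obtain ⟨n, hn⟩ := v_ex hF t
    obtain ⟨n', hn'⟩ := v_ex hF t'
    have hf := free_ad hΓ hg hg' h
    refine ⟨.cL g n hf.toFinset, .cL g' n' hf.toFinset, hg, hg',
      (hit_la_cL W u).2 ⟨rfl, hn⟩, (hit_la_cL W u).2 ⟨rfl, hn'⟩, fun x => ?_⟩
    cases x with
    | oo => exact fun h _ => hit_oo_cL W u h
    | la g'' s =>
      intro h1 h2
      rw [hit_la_cL] at h1 h2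
      exact h (h1.1.symm.trans h2.1)
    | ix a y =>
      intro h1 h2
      rw [hit_ix_cL] at h1 h2
      exact h1.2.1 (hf.mem_toFinset.2 ⟨h1.1, h2.1⟩)

private theorem v_la_ix (hF : Fb W u) {g : Lad} {t : T} {a : Ix} {x : Ct}
    (hg : g ∈ Γ) (ha : a ∈ I) : SpC W u Γ I (.la g t) (.ix a x) := by
  obtain ⟨n, hn⟩ := v_ex hF t
  refine ⟨.cL g n {a}, .cI a [], hg, ha, (hit_la_cL W u).2 ⟨rfl, hn⟩,
    (hit_ix_cI W u).2 ⟨rfl, v_nil x⟩, fun y => ?_⟩
  cases y with
  | oo => exact fun h _ => hit_oo_cL W u h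
  | la g' s => exact fun _ h => hit_la_cI W u h
  | ix b z =>
    intro h1 h2
    rw [hit_ix_cL] at h1
    rw [hit_ix_cI] at h2
    exact h1.2.1 (Finset.mem_singleton.2 h2.1)

omit [TopologicalSpace T] in
private theorem v_ix_ix {a b : Ix} {x y : Ct} (ha : a ∈ I) (hb : b ∈ I)
    (hne : (.ix a x : PT T) ≠ .ix b y) : SpC W u Γ I (.ix a x) (.ix b y) := by
  by_cases h : a = b
  · subst h
    have hxy : x ≠ y := fun h => hne (by rw [h])
    obtain ⟨i, hi⟩ := Function.ne_iff.1 hxy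
    refine ⟨.cI a (sg x (i + 1)), .cI a (sg y (i + 1)), ha, hb,
      (hit_ix_cI W u).2 ⟨rfl, in_seg.2 fun _ _ => rfl⟩,
      (hit_ix_cI W u).2 ⟨rfl, in_seg.2 fun _ _ => rfl⟩, fun z => ?_⟩
    cases z with
    | oo => exact fun _ h => hit_oo_cI W u h
    | la g' s => exact fun _ h => hit_la_cI W u h
    | ix c z =>
      intro h1 h2
      rw [hit_ix_cI, in_seg] at h1 h2
      exact hi ((h1.2 i (Nat.lt_succ_self i)).symm.trans (h2.2 i (Nat.lt_succ_self i)))
  · refine ⟨.cI a [], .cI b [], ha, hb,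
      (hit_ix_cI W u).2 ⟨rfl, v_nil x⟩, (hit_ix_cI W u).2 ⟨rfl, v_nil y⟩, fun z => ?_⟩
    cases z with
    | oo => exact fun _ h => hit_oo_cI W u h
    | la g' s => exact fun _ h => hit_la_cI W u h
    | ix c z =>
      intro h1 h2
      rw [hit_ix_cI] at h1 h2
      exact h (h1.1.symm.trans h2.1)

private theorem v_sep [T2Space T] (hF : Fb W u) (hΓ : Free Γ) {a b : PT T} (ha : inA Γ I a)
    (hb : inA Γ I b) (hne : a ≠ b) : SpC W u Γ I a b := by
  cases a with
  | oo =>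
    cases b with
    | oo => exact absurd rfl hne
    | la g t => exact v_oo_la hF hb
    | ix a x => exact v_oo_ix hb
  | la g t =>
    cases b with
    | oo => exact (v_oo_la hF ha).symm
    | la g' t' => exact v_la_la hF hΓ ha hb hne
    | ix a x => exact v_la_ix hF ha hb
  | ix a x =>
    cases b with
    | oo => exact (v_oo_ix ha).symm
    | la g t => exact (v_la_ix hF hb ha).symm
    | ix b y => exact v_ix_ix ha hb hne

theorem sc_t2 [T2Space T] (hF : Fb W u) (hΓ : Free Γ) : @T2Space (SC T Γ I) (topC W u Γ I) := by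
  let _ : TopologicalSpace (SC T Γ I) := topC W u Γ I
  refine ⟨fun a b hab => ?_⟩
  obtain ⟨c, d, h1, h2, h3, h4, h5⟩ := v_sep hF hΓ a.2 b.2 fun h => hab (Subtype.ext h)
  exact ⟨{a | hit W u a.1 c}, {a | hit W u a.1 d},
    TopologicalSpace.isOpen_generateFrom_of_mem ⟨c, h1, rfl⟩,
    TopologicalSpace.isOpen_generateFrom_of_mem ⟨d, h2, rfl⟩, h3, h4,
    Set.disjoint_left.2 fun x hx hx' => h5 x.1 hx hx'⟩

theorem sc_cpt [CompactSpace T] (hF : Fb W u) (hΓ : Free Γ) (hI : ∀ g ∈ Γ, g.1 ⊆ I) :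
    @CompactSpace (SC T Γ I) (topC W u Γ I) := by
  classical
  let _ : TopologicalSpace (SC T Γ I) := topC W u Γ I
  refine ⟨isCompact_of_finite_subcover fun {ι} U hU hcov => ?_⟩
  have hpt : ∀ a : SC T Γ I, ∃ c, inC Γ I c ∧ hit W u a.1 c ∧
      ∃ i, ∀ b : SC T Γ I, hit W u b.1 c → b ∈ U i := by
    intro a
    obtain ⟨i, hi⟩ := Set.mem_iUnion.1 (hcov (Set.mem_univ a))
    obtain ⟨_, ⟨c, hc, rfl⟩, hac, hsub⟩ :=
      (sc_basis (I := I) hF hΓ).exists_subset_of_mem_open hi (hU i)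
    exact ⟨c, hc, hac, i, fun b hb => hsub hb⟩
  have hI1 : ∀ a ∈ I, ∀ x, ∃ l, ∃ i, ∀ b : SC T Γ I, hit W u b.1 (.cI a (sg x l)) → b ∈ U i := by
    intro a ha x
    obtain ⟨c, hc, hac, i, hi⟩ := hpt ⟨.ix a x, ha⟩
    obtain ⟨l, hl⟩ := ix_nb hF hac
    refine ⟨l, i, fun b hb => hi b ?_⟩
    obtain ⟨b, hb'⟩ := b
    cases b with
    | oo => exact hb.elim
    | la g' t' => exact hb.elim
    | ix b y =>
      obtain ⟨h1, h2⟩ : b = a ∧ Ext y (sg x l) := hb
      subst h1
      exact hl y (in_seg.1 h2)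
  have hG1 : ∀ g ∈ Γ, ∀ t : T, ∃ n e, t ∈ W n ∧
      ∃ i, ∀ b : SC T Γ I, hit W u b.1 (.cL g n e) → b ∈ U i := by
    intro g hg t
    obtain ⟨c, hc, hac, i, hi⟩ := hpt ⟨.la g t, hg⟩
    obtain ⟨n, e, hn, h⟩ := sc_nb hF hΓ hg hc hac
    exact ⟨n, e, hn, i, fun b hb => hi b (h b.1 hb)⟩
  have hI2 : ∀ a : Ix, ∃ β : List BC,
      (∀ c ∈ β, ∃ i, ∀ b : SC T Γ I, hit W u b.1 c → b ∈ U i) ∧
      (a ∈ I → ∀ x, ∃ c ∈ β, hit W u (.ix a x) c) := by
    intro a
    by_cases ha : a ∈ I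
    · obtain ⟨β, h1, h2⟩ := cpI hF a {c | ∃ i, ∀ b : SC T Γ I, hit W u b.1 c → b ∈ U i}
        fun x => by
          obtain ⟨l, hl⟩ := hI1 a ha x
          exact ⟨.cI a (sg x l), hl, rfl, in_seg.2 fun _ _ => rfl⟩
      exact ⟨β, h1, fun _ => h2⟩
    · exact ⟨[], by simp, fun h => absurd h ha⟩
  have hG2 : ∀ g : Lad, ∃ β : List BC,
      (∀ c ∈ β, ∃ i, ∀ b : SC T Γ I, hit W u b.1 c → b ∈ U i) ∧
      (g ∈ Γ → (∀ t, ∃ c ∈ β, hit W u (.la g t) c) ∧
        ∀ a ∈ g.1, ∀ x, ∃ c ∈ β, hit W u (.ix a x) c) := by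
    intro g
    by_cases hg : g ∈ Γ
    · obtain ⟨β, h1, h2, h3⟩ := cpA hF g
        {c | (∃ i, ∀ b : SC T Γ I, hit W u b.1 c → b ∈ U i) ∧
          ((∃ n e, c = .cL g n e) ∨ ∃ a s, c = .cI a s)} (by
          rintro c ⟨-, h | ⟨a, s, rfl⟩⟩ t ht
          · exact h
          · exact ht.elim) (fun t => by
          obtain ⟨n, e, hn, hi⟩ := hG1 g hg t
          exact ⟨.cL g n e, ⟨hi, Or.inl ⟨n, e, rfl⟩⟩, rfl, hn⟩) (fun a ha x => by
          obtain ⟨l, hl⟩ := hI1 a (hI g hg ha) x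
          exact ⟨.cI a (sg x l), ⟨hl, Or.inr ⟨a, _, rfl⟩⟩, rfl, in_seg.2 fun _ _ => rfl⟩)
      exact ⟨β, fun c hc => (h1 c hc).1, fun _ => ⟨h2, h3⟩⟩
    · exact ⟨[], by simp, fun h => absurd h hg⟩
  choose BI hBI1 hBI2 using hI2
  choose BG hBG1 hBG2 using hG2
  have hL : ∃ L : List BC, (∀ c ∈ L, ∃ i, ∀ b : SC T Γ I, hit W u b.1 c → b ∈ U i) ∧
      ∀ b : SC T Γ I, ∃ c ∈ L, hit W u b.1 c := by
    obtain ⟨c, hc, hac, hi⟩ := hpt ⟨.oo, trivial⟩
    cases c with
    | cI b s => exact hac.elim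
    | cL g n e => exact hac.elim
    | cO G e =>
      refine ⟨.cO G e :: (G.toList.flatMap BG ++ e.toList.flatMap BI), fun c hcL => ?_,
        fun b => ?_⟩
      · rcases List.mem_cons.1 hcL with rfl | hcL
        · exact hi
        · rcases List.mem_append.1 hcL with h | h
          · obtain ⟨g, -, h⟩ := List.mem_flatMap.1 h
            exact hBG1 g c h
          · obtain ⟨a, -, h⟩ := List.mem_flatMap.1 h
            exact hBI1 a c h
      · obtain ⟨b, hb⟩ := b
        by_cases h0 : hit W u b (.cO G e)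
        · exact ⟨_, List.mem_cons_self, h0⟩
        · cases b with
          | oo => exact absurd trivial h0
          | la g t =>
            have hg : g ∈ G := by
              by_contra hg
              exact h0 hg
            obtain ⟨c, hc1, hc2⟩ := (hBG2 g (hc.1 g hg)).1 t
            exact ⟨c, List.mem_cons_of_mem _ (List.mem_append_left _ (List.mem_flatMap.2
              ⟨g, Finset.mem_toList.2 hg, hc1⟩)), hc2⟩
          | ix a x =>
            by_cases hae : a ∈ e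
            · obtain ⟨c, hc1, hc2⟩ := hBI2 a (hc.2 a hae) x
              exact ⟨c, List.mem_cons_of_mem _ (List.mem_append_right _ (List.mem_flatMap.2
                ⟨a, Finset.mem_toList.2 hae, hc1⟩)), hc2⟩
            · have hg : ∃ g ∈ G, a ∈ g.1 := by
                by_contra hg
                push Not at hg
                exact h0 ⟨hae, hg⟩
              obtain ⟨g, hg, hag⟩ := hg
              obtain ⟨c, hc1, hc2⟩ := (hBG2 g (hc.1 g hg)).2 a hag x
              exact ⟨c, List.mem_cons_of_mem _ (List.mem_append_left _ (List.mem_flatMap.2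
                ⟨g, Finset.mem_toList.2 hg, hc1⟩)), hc2⟩
  obtain ⟨L, hL1, hL2⟩ := hL
  choose i hi using hL1
  refine ⟨(L.attach.map fun c => i c.1 c.2).toFinset, fun b _ => ?_⟩
  obtain ⟨c, hc, hb⟩ := hL2 b
  refine Set.mem_iUnion₂.2 ⟨i c hc, ?_, hi c hc b hb⟩
  rw [List.mem_toFinset]
  exact List.mem_map.2 ⟨⟨c, hc⟩, List.mem_attach _ _, rfl⟩

end

end RNC
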